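import Pool.Agent.T2h58.Stm2
import Pool.Agent.N550.KH.Shift

/-!
# Project SC: collapse of a ball
-/

set_option autoImplicit false

open Set Filter Topology Metric Function
open scoped Manifold ContDiff NNReal

noncomputable section

namespace Pool.Agent.T2h58.Col

open Pool.Agent.Y522 Pool.Agent.N550 Pool.Agent.N550.KH

/-- the radial map `z ↦ φ(‖z‖²) z` is a diffeomorphism if `φ` is smooth, monotone and bounded below
by a positive number -/
theorem radial (n : ℕ) (φ : ℝ → ℝ) (d : ℝ) (hd : 0 < d) (hφ : ContDiff ℝ ∞ φ) (hm : Monotone φ)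
    (hφd : ∀ r, d ≤ φ r) : IsDf n (fun z : E n => φ (‖z‖ ^ 2) • z) := by
  have hn : (∞ : WithTop ℕ∞) ≠ 0 := by simp
  have hφ0 : ∀ r, 0 < φ r := fun r => hd.trans_le (hφd r)
  -- the radial function is strictly monotone on the nonnegative numbers
  have hsm : ∀ a b : ℝ, 0 ≤ a → a < b → φ (a ^ 2) * a < φ (b ^ 2) * b := by
    intro a b ha hab
    have h1 : φ (a ^ 2) ≤ φ (b ^ 2) := hm (by nlinarith)
    calc φ (a ^ 2) * a ≤ φ (b ^ 2) * a := mul_le_mul_of_nonneg_right h1 ha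
      _ < φ (b ^ 2) * b := mul_lt_mul_of_pos_left hab (hφ0 _)
  have hnorm : ∀ z : E n, ‖φ (‖z‖ ^ 2) • z‖ = φ (‖z‖ ^ 2) * ‖z‖ := by
    intro z
    rw [norm_smul, Real.norm_of_nonneg (hφ0 _).le]
  refine ⟨⟨?_, ?_⟩, ?_⟩
  · intro z w hzw
    have h1 : φ (‖z‖ ^ 2) • z = φ (‖w‖ ^ 2) • w := hzw
    have h2 : φ (‖z‖ ^ 2) * ‖z‖ = φ (‖w‖ ^ 2) * ‖w‖ := by
      rw [← hnorm, ← hnorm, h1]
    have h3 : ‖z‖ = ‖w‖ := by
      rcases lt_trichotomy ‖z‖ ‖w‖ with h | h | h
      · exact absurd h2 (hsm _ _ (norm_nonneg _) h).ne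
      · exact h
      · exact absurd h2 (hsm _ _ (norm_nonneg _) h).ne'
    rw [h3] at h1
    exact smul_right_injective _ (hφ0 (‖w‖ ^ 2)).ne' h1
  · intro y
    rcases eq_or_ne y 0 with rfl | hy
    · exact ⟨0, by simp⟩
    have hy0 : 0 < ‖y‖ := norm_pos_iff.2 hy
    have hcont : Continuous (fun t : ℝ => φ (t ^ 2) * t) :=
      (hφ.continuous.comp (continuous_pow 2)).mul continuous_id
    have hB : ‖y‖ ≤ φ ((‖y‖ / d) ^ 2) * (‖y‖ / d) := by
      calc ‖y‖ = d * (‖y‖ / d) := by field_simp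
        _ ≤ φ ((‖y‖ / d) ^ 2) * (‖y‖ / d) :=
          mul_le_mul_of_nonneg_right (hφd _) (by positivity)
    obtain ⟨t, ht, hty⟩ := intermediate_value_Icc (show (0 : ℝ) ≤ ‖y‖ / d by positivity)
      hcont.continuousOn (show ‖y‖ ∈ Icc _ _ from ⟨by simp, hB⟩)
    have hty' : φ (t ^ 2) * t = ‖y‖ := hty
    refine ⟨(t / ‖y‖) • y, ?_⟩
    have h1 : ‖(t / ‖y‖) • y‖ = t := by
      rw [norm_smul, Real.norm_of_nonneg (div_nonneg ht.1 hy0.le)]
      field_simp
    show φ (‖(t / ‖y‖) • y‖ ^ 2) • (t / ‖y‖) • y = y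
    rw [h1, smul_smul]
    have h2 : φ (t ^ 2) * (t / ‖y‖) = 1 := by
      rw [← mul_div_assoc, hty']
      field_simp
    rw [h2, one_smul]
  · intro z
    have hF : ContDiff ℝ ∞ (fun z : E n => φ (‖z‖ ^ 2) • z) :=
      (hφ.comp (contDiff_norm_sq ℝ)).smul contDiff_id
    have hD : HasFDerivAt (fun z : E n => φ (‖z‖ ^ 2) • z)
        (fderiv ℝ (fun z : E n => φ (‖z‖ ^ 2) • z) z) z :=
      (hF.differentiable hn z).hasFDerivAt
    have hφz : HasDerivAt φ (deriv φ (‖z‖ ^ 2)) (‖z‖ ^ 2) :=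
      (hφ.differentiable hn _).hasDerivAt
    have hsq : HasFDerivAt (fun z : E n => ‖z‖ ^ 2) (2 • (innerSL ℝ z)) z :=
      (hasStrictFDerivAt_norm_sq z).hasFDerivAt
    have hD2 : HasFDerivAt (fun z : E n => φ (‖z‖ ^ 2) • z)
        (φ (‖z‖ ^ 2) • ContinuousLinearMap.id ℝ (E n) +
          (deriv φ (‖z‖ ^ 2) • (2 • (innerSL ℝ z))).smulRight z) z :=
      (hφz.comp_hasFDerivAt z hsq).smul (hasFDerivAt_id z)
    have hφ' : 0 ≤ deriv φ (‖z‖ ^ 2) := hm.deriv_nonneg
    set L := fderiv ℝ (fun z : E n => φ (‖z‖ ^ 2) • z) z with hL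
    have hLv : ∀ v, L v = φ (‖z‖ ^ 2) • v + (deriv φ (‖z‖ ^ 2) * (2 * inner ℝ z v)) • z := by
      intro v
      rw [hL, hD2.fderiv]
      simp
    have hinj : Injective L := by
      rw [injective_iff_map_eq_zero]
      intro v hv
      rw [hLv] at hv
      have h1 : inner ℝ v (φ (‖z‖ ^ 2) • v + (deriv φ (‖z‖ ^ 2) * (2 * inner ℝ z v)) • z) = 0 := by
        rw [hv, inner_zero_right]
      rw [inner_add_right, inner_smul_right, inner_smul_right, real_inner_self_eq_norm_sq,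
        real_inner_comm z v] at h1
      have h2 : 0 ≤ deriv φ (‖z‖ ^ 2) * (2 * inner ℝ z v) * inner ℝ z v := by
        have : deriv φ (‖z‖ ^ 2) * (2 * inner ℝ z v) * inner ℝ z v
            = 2 * deriv φ (‖z‖ ^ 2) * (inner ℝ z v) ^ 2 := by ring
        rw [this]
        positivity
      have h3 : ‖v‖ ^ 2 = 0 := by
        have h4 : 0 ≤ ‖v‖ ^ 2 := sq_nonneg _
        have h5 : φ (‖z‖ ^ 2) * ‖v‖ ^ 2 ≤ 0 := by linarith
        have h6 := hφ0 (‖z‖ ^ 2)
        nlinarith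
      exact norm_eq_zero.1 (pow_eq_zero_iff (by norm_num) |>.1 h3)
    let A : E n ≃L[ℝ] E n :=
      (LinearEquiv.ofInjectiveEndo (L : E n →ₗ[ℝ] E n) hinj).toContinuousLinearEquiv
    refine LD_of_contDiffAt (Eventually.of_forall fun y => hF.contDiffAt) A ?_
    have hA : (A : E n →L[ℝ] E n) = L := by
      ext v
      rfl
    rw [hA]
    exact hD

theorem main : T_COL := by
  intro n R R' hR hRR
  set θ : ℝ → ℝ := fun r => Real.smoothTransition ((r - R ^ 2) / (R' ^ 2 - R ^ 2)) with hθ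
  have hq : 0 < R' ^ 2 - R ^ 2 := by nlinarith
  have hn : (∞ : WithTop ℕ∞) ≠ 0 := by simp
  have hθs : ContDiff ℝ ∞ θ := by
    have h1 : ContDiff ℝ ∞ (fun r : ℝ => (r - R ^ 2) / (R' ^ 2 - R ^ 2)) :=
      (contDiff_id.sub contDiff_const).div_const _
    exact (Real.smoothTransition.contDiff (n := ⊤)).comp h1
  have hθm : Monotone θ := by
    intro a b hab
    exact Real.smoothTransition.monotone (div_le_div_of_nonneg_right (by linarith) hq.le)
  have hθ0 : ∀ r, 0 ≤ θ r := fun r => Real.smoothTransition.nonneg _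
  have hθ1 : ∀ r, θ r ≤ 1 := fun r => Real.smoothTransition.le_one _
  have hin : ∀ z : E n, ‖z‖ ≤ R → θ (‖z‖ ^ 2) = 0 := by
    intro z hz
    apply Real.smoothTransition.zero_of_nonpos
    apply div_nonpos_of_nonpos_of_nonneg _ hq.le
    have := norm_nonneg z
    nlinarith
  have hout : ∀ z : E n, R' ≤ ‖z‖ → θ (‖z‖ ^ 2) = 1 := by
    intro z hz
    apply Real.smoothTransition.one_of_one_le
    rw [le_div_iff₀ hq]
    have := norm_nonneg z
    nlinarith
  have hμs : ContDiff ℝ ∞ (fun z : E n => θ (‖z‖ ^ 2) • z) :=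
    (hθs.comp (contDiff_norm_sq ℝ)).smul contDiff_id
  refine ⟨fun z => θ (‖z‖ ^ 2) • z, ?_, ?_, ?_, ?_, ?_⟩
  · -- Lipschitz
    have hcs : HasCompactSupport (fun z : E n => θ (‖z‖ ^ 2) • z - z) := by
      refine HasCompactSupport.of_support_subset_isCompact (isCompact_closedBall 0 R') ?_
      intro z hz
      rw [mem_closedBall_zero_iff]
      by_contra h
      push Not at h
      apply hz
      show θ (‖z‖ ^ 2) • z - z = 0
      rw [hout z h.le, one_smul, sub_self]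
    have hsm : ContDiff ℝ ∞ (fun z : E n => θ (‖z‖ ^ 2) • z - z) := hμs.sub contDiff_id
    obtain ⟨B, hB⟩ := (hsm.continuous_fderiv hn).bounded_above_of_compact_support
      (hcs.fderiv (𝕜 := ℝ))
    have hB0 : 0 ≤ B := (norm_nonneg _).trans (hB 0)
    have h1 : LipschitzWith ⟨B, hB0⟩ (fun z : E n => θ (‖z‖ ^ 2) • z - z) := by
      apply lipschitzWith_of_nnnorm_fderiv_le (hsm.differentiable hn)
      intro z
      exact hB z
    have h2 := h1.add LipschitzWith.id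
    have h3 : (fun x : E n => θ (‖x‖ ^ 2) • x - x + id x) = fun z : E n => θ (‖z‖ ^ 2) • z := by
      funext z
      simp
    rw [h3] at h2
    exact ⟨_, h2⟩
  · intro z hz
    show θ (‖z‖ ^ 2) • z = 0
    rw [hin z hz, zero_smul]
  · intro z hz
    show θ (‖z‖ ^ 2) • z = z
    rw [hout z hz, one_smul]
  · intro z hz
    show ‖θ (‖z‖ ^ 2) • z‖ ≤ R'
    rw [norm_smul, Real.norm_of_nonneg (hθ0 _)]
    have := hθ1 (‖z‖ ^ 2)
    have := norm_nonneg z
    nlinarith [hθ0 (‖z‖ ^ 2)]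
  · intro δ hδ
    set d : ℝ := min (δ / (R' + 1)) (1 / 2) with hd
    have hR' : 0 < R' := hR.trans hRR
    have hd0 : 0 < d := lt_min (by positivity) (by norm_num)
    have hd1 : d ≤ 1 / 2 := min_le_right _ _
    have hd2 : d * (R' + 1) ≤ δ := by
      have := min_le_left (δ / (R' + 1)) (1 / 2)
      rw [← hd, le_div_iff₀ (by positivity)] at this
      exact this
    refine ⟨fun z => (d + (1 - d) * θ (‖z‖ ^ 2)) • z,
      radial n (fun r => d + (1 - d) * θ r) d hd0 (contDiff_const.add (contDiff_const.mul hθs))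
        ?_ ?_, ?_, ?_⟩
    · intro a b hab
      have := hθm hab
      show d + (1 - d) * θ a ≤ d + (1 - d) * θ b
      nlinarith
    · intro r
      have := hθ0 r
      show d ≤ d + (1 - d) * θ r
      nlinarith
    · intro z hz
      show (d + (1 - d) * θ (‖z‖ ^ 2)) • z = z
      rw [hout z hz]
      have : d + (1 - d) * 1 = 1 := by ring
      rw [this, one_smul]
    · intro z
      show ‖(d + (1 - d) * θ (‖z‖ ^ 2)) • z - θ (‖z‖ ^ 2) • z‖ ≤ δ
      rw [← sub_smul, norm_smul]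
      have h1 : d + (1 - d) * θ (‖z‖ ^ 2) - θ (‖z‖ ^ 2) = d * (1 - θ (‖z‖ ^ 2)) := by ring
      rw [h1, Real.norm_of_nonneg (mul_nonneg hd0.le (by linarith [hθ1 (‖z‖ ^ 2)]))]
      rcases le_total R' ‖z‖ with h | h
      · rw [hout z h]
        simp
        exact hδ.le
      · have h2 := hθ0 (‖z‖ ^ 2)
        have h3 := hθ1 (‖z‖ ^ 2)
        calc d * (1 - θ (‖z‖ ^ 2)) * ‖z‖ ≤ d * 1 * R' := by
              gcongr
              linarith
          _ ≤ δ := by nlinarith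

end Pool.Agent.T2h58.Col
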