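import Pool.Agent.T2h58.Stm
import Pool.Agent.N550.KH.Shift
import Pool.Agent.N550.KH.Supp
import Pool.Agent.N550.KH.Null

/-!
# Project TC (thin complements): null sets in charts, thin compact sets lie in open cells (helper7)
-/

set_option autoImplicit false

open Set Filter Topology Metric Function MeasureTheory
open scoped Manifold ContDiff

noncomputable section

namespace Pool.Agent.T2h58.Cel

open Pool.Agent.Y522 Pool.Agent.N550 Pool.Agent.N550.KH Pool.Agent.T2h58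

/-- images of sets of vanishing two-dimensional Hausdorff measure under maps of class `C¹` -/
theorem null_image {n : ℕ} {S : Set (E n)}
    (hS : Measure.hausdorffMeasure 2 S = 0) (f : E n → E n) (hf : ∀ x ∈ S, ContDiffAt ℝ 1 f x) :
    Measure.hausdorffMeasure 2 (f '' S) = 0 := by
  have h : ∀ x ∈ S, ∃ V ∈ 𝓝 x, Measure.hausdorffMeasure 2 (f '' (S ∩ V)) = 0 := by
    intro x hx
    obtain ⟨K, t, ht, hK⟩ := (hf x hx).exists_lipschitzOnWith
    refine ⟨t, ht, ?_⟩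
    have h1 := (hK.mono (inter_subset_right (s := S))).hausdorffMeasure_image_le
      (d := 2) (by norm_num)
    have h2 : Measure.hausdorffMeasure 2 (S ∩ t) = 0 := measure_mono_null inter_subset_left hS
    rw [h2, mul_zero] at h1
    exact le_antisymm h1 bot_le
  choose! V hV hr using h
  obtain ⟨t, hts, htc, hcov⟩ := TopologicalSpace.countable_cover_nhdsWithin
    (s := S) (f := V) (fun x hx => mem_nhdsWithin_of_mem_nhds (hV x hx))
  have h1 : f '' S ⊆ ⋃ x ∈ t, f '' (S ∩ V x) := by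
    rintro _ ⟨y, hy, rfl⟩
    obtain ⟨x, hx, hyx⟩ := mem_iUnion₂.1 (hcov hy)
    exact mem_iUnion₂.2 ⟨x, hx, y, ⟨hy, hyx⟩, rfl⟩
  refine measure_mono_null h1 ?_
  rw [measure_biUnion_null_iff htc]
  exact fun x hx => hr x (hts hx)

/-- The two notions of null sets. -/
theorem null : T_NULL := by
  intro n N _ _ _ B hB h hinj hld
  set g : N → E n := invFun h with hg
  have hgl : ∀ y, g (h y) = y := leftInverse_invFun hinj
  have key : ∀ z ∈ h ⁻¹' B, ∃ V ∈ 𝓝 z, Measure.hausdorffMeasure 2 (h ⁻¹' B ∩ V) = 0 := by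
    intro z hz
    set e := chartAt (E n) (h z) with he
    refine ⟨h ⁻¹' e.source, (hld z).continuousAt.preimage_mem_nhds
      (e.open_source.mem_nhds (mem_chart_source _ _)), ?_⟩
    have hS : Measure.hausdorffMeasure 2 (e '' (e.source ∩ B ∩ range h) : Set (E n)) = 0 :=
      measure_mono_null (image_mono inter_subset_left) (hB (h z))
    refine measure_mono_null ?_ (null_image hS (fun w => g (e.symm w)) ?_)
    · intro y hy
      refine ⟨e (h y), ⟨h y, ⟨⟨hy.2, hy.1⟩, y, rfl⟩, rfl⟩, ?_⟩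
      change g (e.symm (e (h y))) = y
      rw [e.left_inv hy.2, hgl]
    · rintro _ ⟨_, ⟨⟨hs, -⟩, y, rfl⟩, rfl⟩
      have h1 : LD n e.symm (e (h y)) := Null.ld_chart_symm (h z) _ (e.map_source hs)
      have h2 : LD n g (e.symm (e (h y))) := by
        rw [e.left_inv hs]
        exact LD.inverse isOpen_univ (fun x _ => hld x) (fun x _ => hgl x) (mem_univ y)
      exact (h2.comp_fun h1).contDiffAt.of_le (by simp)
  choose! V hV hr using key
  obtain ⟨t, hts, htc, hcov⟩ := TopologicalSpace.countable_cover_nhdsWithin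
    (s := h ⁻¹' B) (f := V) (fun x hx => mem_nhdsWithin_of_mem_nhds (hV x hx))
  have h1 : h ⁻¹' B ⊆ ⋃ x ∈ t, (h ⁻¹' B ∩ V x) := by
    intro y hy
    obtain ⟨x, hx, hyx⟩ := mem_iUnion₂.1 (hcov hy)
    exact mem_iUnion₂.2 ⟨x, hx, hy, hyx⟩
  refine measure_mono_null h1 ?_
  rw [measure_biUnion_null_iff htc]
  exact fun x hx => hr x (hts hx)

section tools

variable {n : ℕ} {N : Type} [TopologicalSpace N] [ChartedSpace (E n) N]

/-- the inverse of a diffeomorphism -/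
theorem df_inv {K : N → N} (hK : IsDf n K) : ∃ K' : N → N, (∀ x, K' (K x) = x) ∧
    (∀ x, K (K' x) = x) ∧ ∀ x, LD n K' x := by
  let e := Equiv.ofBijective K hK.1
  refine ⟨e.symm, fun x => e.symm_apply_apply x, fun x => e.apply_symm_apply x, fun x => ?_⟩
  exact LD.inverse_bij hK.1 hK.2 (fun x => e.symm_apply_apply x) x

theorem df_comp {f g : N → N} (hf : IsDf n f) (hg : IsDf n g) : IsDf n (f ∘ g) :=
  ⟨hf.1.comp hg.1, fun x => LD.comp' (hf.2 _) (hg.2 x)⟩

theorem df_cont {f : N → N} (hf : IsDf n f) : Continuous f :=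
  continuous_iff_continuousAt.2 fun x => (hf.2 x).continuousAt

theorem null_df {B : Set N} (hB : NullH2 n B) {K : N → N} (hK : IsDf n K) :
    NullH2 n (K '' B) := by
  intro l hl hld
  obtain ⟨K', h1, h2, h3⟩ := df_inv hK
  have h4 := hB (fun z => K' (l z)) (fun a b hab => hl (by
    have := congrArg K hab
    simpa only [h2] using this)) (fun z => LD.comp_fun (h3 _) (hld z))
  have h5 : l ⁻¹' (K '' B) = (fun z => K' (l z)) ⁻¹' B := by
    ext z
    constructor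
    · rintro ⟨b, hb, hbz⟩
      show K' (l z) ∈ B
      rw [← hbz, h1]; exact hb
    · intro hz
      exact ⟨K' (l z), hz, h2 _⟩
  rw [h5]; exact h4

/-- sets of two-dimensional Hausdorff measure zero in `E k`, `2 ≤ k`, have dense complement -/
theorem exists_not_mem {k : ℕ} (hk : 2 ≤ k) {S U : Set (E k)}
    (hS : Measure.hausdorffMeasure 2 S = 0) (hU : IsOpen U) (hUn : U.Nonempty) :
    ∃ y ∈ U, y ∉ S := by
  have hfr : (Module.finrank ℝ (E k) : ℝ) = k := by simp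
  have h1 : Measure.hausdorffMeasure (Module.finrank ℝ (E k) : ℝ) S = 0 := by
    have h2 : (2 : ℝ) ≤ (Module.finrank ℝ (E k) : ℝ) := by
      rw [hfr]
      exact_mod_cast hk
    have h3 := Measure.hausdorffMeasure_mono h2 S
    rw [hS] at h3
    exact le_antisymm h3 bot_le
  by_contra hcon
  push Not at hcon
  have h4 : Measure.hausdorffMeasure (Module.finrank ℝ (E k) : ℝ) U = 0 :=
    measure_mono_null hcon h1
  exact (hU.measure_pos _ hUn).ne' h4

/-- the property of lying in an open cell -/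
def Cl (n : ℕ) {N : Type} [TopologicalSpace N] [ChartedSpace (E n) N] (B : Set N) : Prop :=
  ∃ c' : E n → N, Injective c' ∧ (∀ z, LD n c' z) ∧ B ⊆ range c'

theorem cl_of_image {B : Set N} {K : N → N} (hK : IsDf n K) (h : Cl n (K '' B)) : Cl n B := by
  obtain ⟨c, hc, hcl, hB⟩ := h
  obtain ⟨K', h1, h2, h3⟩ := df_inv hK
  refine ⟨fun z => K' (c z), fun a b hab => hc ?_, fun z => LD.comp_fun (h3 _) (hcl z), ?_⟩
  · have := congrArg K hab
    simpa only [h2] using this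
  · intro x hx
    obtain ⟨z, hz⟩ := hB ⟨x, hx, rfl⟩
    refine ⟨z, ?_⟩
    show K' (c z) = x
    rw [hz, h1]

end tools

theorem lip_vp (m k : ℕ) : LipschitzWith 1 (vp m k) := by
  refine LipschitzWith.of_dist_le_mul fun u v => ?_
  rw [NNReal.coe_one, one_mul, dist_eq_norm, dist_eq_norm, ← map_sub]
  have h := Shift.norm_sq_up_vp m k (u - v)
  have h1 : ‖vp m k (u - v)‖ ^ 2 ≤ ‖u - v‖ ^ 2 := by
    have := sq_nonneg ‖up m k (u - v)‖
    linarith
  exact le_of_sq_le_sq h1 (norm_nonneg _)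

/-- A thin set is pushed off the core of a handle. -/
theorem push {m k : ℕ} {N : Type} [TopologicalSpace N] [T2Space N] [ChartedSpace (E (m + k)) N]
    (hk : 2 ≤ k) {h : E (m + k) → N} (hi : Injective h) (hl : ∀ z, LD (m + k) h z) {B : Set N}
    (hB : NullH2 (m + k) B) :
    ∃ X : N → N, IsDf (m + k) X ∧ (∀ z, ∃ w, X (h z) = h w ∧ up m k w = up m k z) ∧
      (∀ x, x ∉ range h → X x = x) ∧
      ∀ z, vp m k z = 0 → ‖up m k z‖ ≤ 2 → h z ∉ X '' B := by
  obtain ⟨ρ, hρ, hVS⟩ := Shift.s_vs m k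
  have h1 : Measure.hausdorffMeasure 2 (vp m k '' (h ⁻¹' B)) = 0 := by
    have h2 := (lip_vp m k).hausdorffMeasure_image_le (d := 2) (by norm_num) (h ⁻¹' B)
    rw [hB h hi hl, mul_zero] at h2
    exact le_antisymm h2 bot_le
  obtain ⟨y0, hy0, hyS⟩ := exists_not_mem hk h1 (U := ball 0 (min ρ 1)) isOpen_ball
    ⟨0, mem_ball_self (lt_min hρ one_pos)⟩
  rw [mem_ball_zero_iff, lt_min_iff] at hy0
  obtain ⟨hyρ, hy1⟩ := hy0
  obtain ⟨κ, hκ, hκR, hκu, hκv⟩ := hVS (-y0) (by rwa [norm_neg])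
  obtain ⟨X, hX, hXh, hXo⟩ := Supp.main (m + k) N h hi hl κ hκ hκR
  refine ⟨X, hX, fun z => ⟨κ z, hXh z, hκu z⟩, hXo, ?_⟩
  rintro z hz0 hz2 ⟨b, hb, hbz⟩
  by_cases hbr : b ∈ range h
  · obtain ⟨w, rfl⟩ := hbr
    rw [hXh] at hbz
    have hzw : κ w = z := hi hbz
    have huw : up m k w = up m k z := by rw [← hzw, hκu]
    have e3 : vp m k (κ (jn m k (up m k w) y0)) = 0 := by
      rw [hκv _ (by rw [up_jn, huw]; exact hz2) (by rw [vp_jn]; exact hy1.le), vp_jn]
      exact add_neg_cancel y0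
    have e2 : w = jn m k (up m k w) y0 := by
      apply hκ.1.1
      rw [← jn_up_vp m k (κ w), ← jn_up_vp m k (κ (jn m k (up m k w) y0)), e3, hzw, hz0, hκu,
        up_jn, huw]
    have e4 : vp m k w = y0 := by rw [e2, vp_jn]
    exact hyS ⟨w, hb, e4⟩
  · rw [hXo b hbr] at hbz
    exact hbr ⟨z, hbz.symm⟩

/-- A thin set is pushed off the cores of several handles, attached to `Y`. -/
theorem pushes {m k a : ℕ} {N : Type} [TopologicalSpace N] [T2Space N]
    [ChartedSpace (E (m + k)) N] (hk : 2 ≤ k) {l : Fin a → E (m + k) → N}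
    (hi : ∀ i, Injective (l i)) (hl : ∀ i z, LD (m + k) (l i) z) {Y : Set N}
    (hY : ∀ i z, l i z ∈ Y ↔ 1 ≤ ‖up m k z‖) (hd : ∀ i j z w, i ≠ j → l i z ≠ l j w)
    {B : Set N} (hB : NullH2 (m + k) B) (hBY : ∀ x ∈ B, x ∉ Y) (s : Finset (Fin a)) :
    ∃ X : N → N, IsDf (m + k) X ∧ (∀ x ∈ B, X x ∉ Y) ∧
      ∀ i ∈ s, ∀ z, vp m k z = 0 → ‖up m k z‖ ≤ 2 → l i z ∉ X '' B := by
  classical
  induction s using Finset.induction_on with
  | empty => exact ⟨fun x => x, ⟨bijective_id, fun x => LD.id x⟩, hBY, by simp⟩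
  | insert i s his ih =>
    obtain ⟨X, hX, hXY, hXs⟩ := ih
    obtain ⟨X', h1, h2, h3, h4⟩ := push hk (hi i) (hl i) (null_df hB hX)
    refine ⟨X' ∘ X, df_comp h1 hX, ?_, ?_⟩
    · intro x hx hxY
      rw [comp_apply] at hxY
      by_cases hr : X x ∈ range (l i)
      · obtain ⟨z, hz⟩ := hr
        obtain ⟨w, hw, hwu⟩ := h2 z
        rw [← hz, hw, hY, hwu, ← hY i z, hz] at hxY
        exact hXY x hx hxY
      · rw [h3 _ hr] at hxY
        exact hXY x hx hxY
    · intro j hj z hz0 hz2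
      rw [image_comp]
      by_cases hji : j = i
      · rw [hji]
        exact h4 z hz0 hz2
      · have hjs : j ∈ s := Finset.mem_of_mem_insert_of_ne hj hji
        rintro ⟨b, hb, hbz⟩
        by_cases hr : b ∈ range (l i)
        · obtain ⟨w, rfl⟩ := hr
          obtain ⟨w', hw', -⟩ := h2 w
          rw [hw'] at hbz
          exact hd i j w' z (Ne.symm hji) hbz
        · rw [h3 _ hr] at hbz
          rw [hbz] at hb
          exact hXs j hjs z hz0 hz2 hb

/-- A thin closed set is pushed off a closed ball. -/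
theorem ball_off {n : ℕ} (hn : 2 ≤ n) {N : Type} [TopologicalSpace N] [T2Space N]
    [ChartedSpace (E n) N] {b : E n → N} (hi : Injective b) (hl : ∀ z, LD n b z) {B : Set N}
    (hB : NullH2 n B) (hBc : IsClosed B) (R : ℝ) :
    ∃ X : N → N, IsDf n X ∧ ∀ x ∈ B, X x ∉ b '' closedBall 0 R := by
  have hbc : Continuous b := continuous_iff_continuousAt.2 fun x => (hl x).continuousAt
  obtain ⟨z0, -, hz0⟩ := exists_not_mem hn (hB b hi hl) isOpen_univ univ_nonempty
  have ho : IsOpen (b ⁻¹' B)ᶜ := (hBc.preimage hbc).isOpen_compl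
  obtain ⟨ε, hε, hεB⟩ := Metric.isOpen_iff.1 ho z0 hz0
  obtain ⟨κ, hκ, hκR, hκb⟩ := Shift.s_bs n z0 ε R hε
  obtain ⟨X, hX, hXb, hXo⟩ := Supp.main n N b hi hl κ hκ hκR
  refine ⟨X, hX, ?_⟩
  rintro x hx ⟨z, hz, hzx⟩
  obtain ⟨w, hw, rfl⟩ := hκb hz
  rw [← hXb] at hzx
  have h1 : b w = x := hX.1.1 hzx
  have h2 := hεB hw
  apply h2
  show b w ∈ B
  rw [h1]
  exact hx

theorem main : T_CELL := by
  intro N _ _ _ _ a d b l K h c H B hBc hB
  -- the 0-handle
  obtain ⟨X0, hX0, h0⟩ := ball_off (by norm_num) H.b_inj H.b_ld hB hBc.isClosed 1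
  suffices h1 : Cl 4 (X0 '' B) from cl_of_image hX0 h1
  obtain ⟨B1, hB1⟩ : ∃ B1, B1 = X0 '' B := ⟨_, rfl⟩
  have hB1c : IsCompact B1 := by rw [hB1]; exact hBc.image (df_cont hX0)
  have hB1n : NullH2 4 B1 := by rw [hB1]; exact null_df hB hX0
  have hB1o : ∀ x ∈ B1, x ∉ b '' closedBall 0 1 := by
    rw [hB1]
    rintro _ ⟨x, hx, rfl⟩
    exact h0 x hx
  rw [← hB1]
  -- the 1-handles
  obtain ⟨X1, hX1, h1, h1'⟩ := pushes (m := 1) (k := 3) (by norm_num) H.l_inj H.l_ld H.l_att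
    H.l_dis hB1n hB1o Finset.univ
  suffices h2 : Cl 4 (X1 '' B1) from cl_of_image hX1 h2
  have hB2c : IsCompact (X1 '' B1) := hB1c.image (df_cont hX1)
  have hB2n : NullH2 4 (X1 '' B1) := null_df hB1n hX1
  obtain ⟨κ, hκ, hκK⟩ := H.K_cmp (X1 '' B1)ᶜ hB2c.isClosed.isOpen_compl (by
    rintro x (hx | hx)
    · rintro ⟨y, hy, rfl⟩
      exact h1 y hy hx
    · rw [mem_iUnion] at hx
      obtain ⟨i, z, ⟨hz0, hz1⟩, rfl⟩ := hx
      exact h1' i (Finset.mem_univ i) z hz0 (by linarith))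
  suffices h3 : Cl 4 (κ '' (X1 '' B1)) from cl_of_image hκ h3
  obtain ⟨B3, hB3⟩ : ∃ B3, B3 = κ '' (X1 '' B1) := ⟨_, rfl⟩
  have hB3c : IsCompact B3 := by rw [hB3]; exact hB2c.image (df_cont hκ)
  have hB3n : NullH2 4 B3 := by rw [hB3]; exact null_df hB2n hκ
  have hB3o : ∀ x ∈ B3, x ∉ K := by
    rw [hB3]
    rintro _ ⟨x, hx, rfl⟩ hxK
    obtain ⟨y, hy, hyx⟩ := hκK hxK
    rw [hκ.1.1 hyx] at hy
    exact hy hx
  rw [← hB3]
  -- the 2-handles
  obtain ⟨X2, hX2, h4, h4'⟩ := pushes (m := 2) (k := 2) (by norm_num) H.h_inj H.h_ld H.h_att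
    H.h_dis hB3n hB3o Finset.univ
  suffices h5 : Cl 4 (X2 '' B3) from cl_of_image hX2 h5
  have hB4c : IsCompact (X2 '' B3) := hB3c.image (df_cont hX2)
  obtain ⟨κ', hκ', hκc⟩ := H.c_cmp (X2 '' B3)ᶜ hB4c.isClosed.isOpen_compl (by
    rintro x (hx | hx)
    · rintro ⟨y, hy, rfl⟩
      exact h4 y hy hx
    · rw [mem_iUnion] at hx
      obtain ⟨i, z, ⟨hz0, hz1⟩, rfl⟩ := hx
      exact h4' i (Finset.mem_univ i) z hz0 (by linarith))
  suffices h6 : Cl 4 (κ' '' (X2 '' B3)) from cl_of_image hκ' h6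
  refine ⟨c, H.c_inj, H.c_ld, ?_⟩
  rintro _ ⟨x, hx, rfl⟩
  by_contra hxc
  obtain ⟨y, hy, hyx⟩ := hκc hxc
  rw [hκ'.1.1 hyx] at hy
  exact hy hx

end Pool.Agent.T2h58.Cel
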