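import Pool.Agent.T2h58.Stm2
import Pool.Agent.T2h58.Cel

/-!
# Project SC (simply connected): generic detours, straight segments, points (helper26)
-/

set_option autoImplicit false

open Set Filter Topology Metric Function MeasureTheory
open scoped Manifold ContDiff NNReal

noncomputable section

namespace Pool.Agent.T2h58.Det

open Pool.Agent.Y522 Pool.Agent.N550 Pool.Agent.N550.KH Pool.Agent.T2h58

/-! ### Cells -/

/-- the standard diffeomorphism onto a ball -/
theorem ld_univBall {n : ℕ} {c : E n} {r : ℝ} (hr : 0 < r) (x : E n) :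
    LD n (OpenPartialHomeomorph.univBall c r) x := by
  refine ⟨{ toPartialEquiv := (OpenPartialHomeomorph.univBall c r).toPartialEquiv
            open_source := (OpenPartialHomeomorph.univBall c r).open_source
            open_target := (OpenPartialHomeomorph.univBall c r).open_target
            contMDiffOn_toFun := ?_
            contMDiffOn_invFun := ?_ }, ?_, ?_⟩
  · exact (contMDiff_iff_contDiff.2 OpenPartialHomeomorph.contDiff_univBall).contMDiffOn
  · have h1 : ContDiffOn ℝ ∞ (OpenPartialHomeomorph.univBall c r).symm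
        (OpenPartialHomeomorph.univBall c r).target := by
      rw [OpenPartialHomeomorph.univBall_target c hr]
      exact OpenPartialHomeomorph.contDiffOn_univBall_symm
    exact contMDiffOn_iff_contDiffOn.2 h1
  · change x ∈ (OpenPartialHomeomorph.univBall c r).source
    rw [OpenPartialHomeomorph.univBall_source]
    exact mem_univ _
  · intro y _
    rfl

/-- an open cell centered at a given point -/
theorem exists_cell0 {X : Type} [TopologicalSpace X] [ChartedSpace (E 4) X]
    [IsManifold (𝓡 4) ∞ X] (x₀ : X) : ∃ c : E 4 → X, CellMap c ∧ c 0 = x₀ := by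
  set e := chartAt (E 4) x₀ with he
  have h1 : e x₀ ∈ e.target := e.map_source (mem_chart_source _ x₀)
  obtain ⟨r, hr, hball⟩ := Metric.isOpen_iff.1 e.open_target _ h1
  set B := OpenPartialHomeomorph.univBall (e x₀) r with hB
  have hsrc : B.source = univ := OpenPartialHomeomorph.univBall_source _ _
  have htgt : B.target = ball (e x₀) r := OpenPartialHomeomorph.univBall_target _ hr
  have hmem : ∀ z, B z ∈ e.target := by
    intro z
    apply hball
    rw [← htgt]
    exact B.map_source (by rw [hsrc]; exact mem_univ _)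
  refine ⟨fun z => e.symm (B z), ⟨?_, ?_⟩, ?_⟩
  · intro x y hxy
    have h2 : B x = B y := e.symm.injOn (hmem x) (hmem y) hxy
    exact B.injOn (by rw [hsrc]; exact mem_univ _) (by rw [hsrc]; exact mem_univ _) h2
  · intro z
    exact LD.comp_fun (g := e.symm) (f := B) (Null.ld_chart_symm x₀ _ (hmem z)) (ld_univBall hr z)
  · change e.symm (B 0) = x₀
    rw [hB, OpenPartialHomeomorph.univBall_apply_zero]
    exact e.left_inv (mem_chart_source _ x₀)

section cells

variable {M : Type} [TopologicalSpace M] [ChartedSpace (E 4) M]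

theorem cm_cont {c : E 4 → M} (hc : CellMap c) : Continuous c :=
  continuous_iff_continuousAt.2 fun z => (hc.2 z).continuousAt

theorem cm_open {c : E 4 → M} (hc : CellMap c) : IsOpen (range c) := by
  rw [← image_univ]
  exact isOpen_image_of_LD isOpen_univ fun x _ => hc.2 x

theorem Cel.mono {S S' : Set M} (h : Cel S') (hs : S ⊆ S') : Cel S := by
  obtain ⟨c, hc, hS⟩ := h
  exact ⟨c, hc, hs.trans hS⟩

/-- the push: the remark `(*)` -/
theorem push [T2Space M] {h c : E 4 → M} (hh : CellMap h) (hc : CellMap c) {T : Set M}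
    {S P : Set (E 4)} {κ : E 4 → E 4} (hκ : PushMap 4 S κ) (hTS : h ⁻¹' T ⊆ S)
    (hTc : T ⊆ range c) (hP : ∀ z ∈ P, h (κ z) ∈ range c) : Cel (T ∪ h '' P) := by
  obtain ⟨hdf, hR, hfix⟩ := hκ
  obtain ⟨K, hK, hKr, hKo⟩ := Supp.main 4 M h hh.1 hh.2 κ hdf hR
  have hT : K '' T ⊆ range c := by
    rintro _ ⟨x, hx, rfl⟩
    by_cases hxr : x ∈ range h
    · obtain ⟨z, rfl⟩ := hxr
      rw [hKr, hfix z (hTS hx)]
      exact hTc hx
    · rw [hKo x hxr]
      exact hTc hx
  have hP' : K '' (h '' P) ⊆ range c := by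
    rintro _ ⟨_, ⟨z, hz, rfl⟩, rfl⟩
    rw [hKr]
    exact hP z hz
  have h1 : Cel.Cl 4 (K '' (T ∪ h '' P)) := by
    refine ⟨c, hc.1, hc.2, ?_⟩
    rw [image_union]
    exact union_subset hT hP'
  obtain ⟨c', h2, h3, h4⟩ := Cel.cl_of_image hK h1
  exact ⟨c', ⟨h2, h3⟩, h4⟩

end cells

/-! ### Segments -/

theorem seg_null (x y : E 4) : Measure.hausdorffMeasure 2 (segment ℝ x y) = 0 := by
  rcases Measure.hausdorffMeasure_zero_or_top (show (1 : ℝ) < 2 by norm_num) (segment ℝ x y)
    with h | h
  · exact h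
  · rw [hausdorffMeasure_segment] at h
    exact absurd h (edist_ne_top _ _)

theorem seg_compact (x y : E 4) : IsCompact (segment ℝ x y) := by
  rw [segment_eq_image_lineMap]
  exact isCompact_Icc.image AffineMap.lineMap_continuous

section det

variable {M : Type} [TopologicalSpace M] [ChartedSpace (E 4) M]

/-- the detour, for the end points of a segment in the cell -/
theorem edge [T2Space M] (hTRI : T_TRI) (hNUL : T_NUL) {h c : E 4 → M} (hh : CellMap h)
    (hc : CellMap c) {T : Set M} (hT : IsCompact T)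
    (hTn : Measure.hausdorffMeasure 2 (h ⁻¹' T) = 0) (hTc : T ⊆ range c) {a b : E 4}
    (hab : a ≠ b) (hseg : segment ℝ a b ⊆ h ⁻¹' range c) :
    ∀ᵐ w : E 4, Cel (T ∪ h '' (segment ℝ a w ∪ segment ℝ w b)) := by
  filter_upwards [hNUL.1 (h ⁻¹' T) a b hTn, hNUL.2.2 a b hab] with w h1 h2
  obtain ⟨κ, hκ, hκO⟩ := (hTRI 4 a b w (h ⁻¹' T) (h ⁻¹' range c) h2
    (hT.isClosed.preimage (cm_cont hh)) ((cm_open hc).preimage (cm_cont hh))).1 h1 hseg
  refine Cel.mono (push hh hc hκ le_rfl hTc (P := convexHull ℝ {a, b, w}) hκO) ?_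
  refine union_subset_union_right T (image_mono (union_subset ?_ ?_))
  · exact segment_subset_convexHull (by simp) (by simp)
  · exact segment_subset_convexHull (by simp) (by simp)

/-- the detour from a point to itself -/
theorem edge0 [T2Space M] (hTRI : T_TRI) (hNUL : T_NUL) {h c : E 4 → M} (hh : CellMap h)
    (hc : CellMap c) {T : Set M} (hT : IsCompact T)
    (hTn : Measure.hausdorffMeasure 2 (h ⁻¹' T) = 0) (hTc : T ⊆ range c) {b : E 4}
    (hb : h b ∈ range c) :
    ∀ᵐ w : E 4, Cel (T ∪ h '' (segment ℝ b w ∪ segment ℝ w b)) := by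
  have hO : IsOpen (h ⁻¹' range c) := (cm_open hc).preimage (cm_cont hh)
  obtain ⟨r, hr, hball⟩ := Metric.isOpen_iff.1 hO b hb
  obtain ⟨b', hb', hne⟩ : (ball b r ∩ {b}ᶜ).Nonempty :=
    Filter.nonempty_of_mem (f := 𝓝[≠] b)
      (inter_mem (mem_nhdsWithin_of_mem_nhds (ball_mem_nhds b hr)) self_mem_nhdsWithin)
  have hseg : segment ℝ b b' ⊆ h ⁻¹' range c :=
    ((convex_ball b r).segment_subset (mem_ball_self hr) hb').trans hball
  filter_upwards [edge hTRI hNUL hh hc hT hTn hTc (a := b) (b := b') (fun h => hne h.symm) hseg]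
    with w hw
  refine Cel.mono hw (union_subset_union_right T (image_mono (union_subset subset_union_left ?_)))
  rw [segment_symm]
  exact subset_union_left

/-- the detour, for the end points of a polygon in the cell -/
theorem poly [T2Space M] (hTRI : T_TRI) (hNUL : T_NUL) {h c : E 4 → M} (hh : CellMap h)
    (hc : CellMap c) {a b : E 4} (hb : h b ∈ range c)
    (hab : Relation.ReflTransGen (fun x y => segment ℝ x y ⊆ h ⁻¹' range c) a b) :
    ∀ T : Set M, IsCompact T → Measure.hausdorffMeasure 2 (h ⁻¹' T) = 0 → T ⊆ range c →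
      ∀ᵐ w : E 4, Cel (T ∪ h '' (segment ℝ a w ∪ segment ℝ w b)) := by
  induction hab using Relation.ReflTransGen.head_induction_on with
  | refl =>
    intro T hT hTn hTc
    exact edge0 hTRI hNUL hh hc hT hTn hTc hb
  | @head a b1 h1 h2 ih =>
    intro T hT hTn hTc
    by_cases hbm : b ∈ segment ℝ a b1
    · rcases eq_or_ne a b with hab | hab
      · subst hab
        exact edge0 hTRI hNUL hh hc hT hTn hTc hb
      · exact edge hTRI hNUL hh hc hT hTn hTc hab
          (((convex_segment a b1).segment_subset (left_mem_segment ℝ a b1) hbm).trans h1)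
    · rcases eq_or_ne a b1 with hab | hab
      · subst hab
        exact ih T hT hTn hTc
      · have hT' : IsCompact (T ∪ h '' segment ℝ a b1) :=
          hT.union ((seg_compact a b1).image (cm_cont hh))
        have hpre : h ⁻¹' (T ∪ h '' segment ℝ a b1) = h ⁻¹' T ∪ segment ℝ a b1 := by
          rw [preimage_union, preimage_image_eq _ hh.1]
        have hT'n : Measure.hausdorffMeasure 2 (h ⁻¹' (T ∪ h '' segment ℝ a b1)) = 0 := by
          rw [hpre]
          exact measure_union_null hTn (seg_null a b1)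
        have hT'c : T ∪ h '' segment ℝ a b1 ⊆ range c :=
          union_subset hTc (image_subset_iff.2 h1)
        filter_upwards [ih _ hT' hT'n hT'c, hNUL.1 (h ⁻¹' T) a b1 hTn, hNUL.2.1 a b1 b hbm,
          hNUL.2.2 a b1 hab] with w hcel g1 g2 g3
        obtain ⟨c', hc', hsub⟩ := hcel
        have g3' : AffineIndependent ℝ ![a, w, b1] := by
          have := g3.comp_embedding (Equiv.swap (1 : Fin 3) 2).toEmbedding
          convert this using 1
          ext i
          fin_cases i <;> rfl
        have hset : ({a, w, b1} : Set (E 4)) = {a, b1, w} := by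
          rw [Set.pair_comm w b1]
        have hsegs : segment ℝ a b1 ∪ segment ℝ b1 w ⊆ h ⁻¹' range c' := by
          intro z hz
          rcases hz with hz | hz
          · exact hsub (Or.inl (Or.inr ⟨z, hz, rfl⟩))
          · exact hsub (Or.inr ⟨z, Or.inl hz, rfl⟩)
        have hwb : segment ℝ w b ⊆ h ⁻¹' range c' := fun z hz => hsub (Or.inr ⟨z, Or.inr hz, rfl⟩)
        have hTc' : T ⊆ range c' := fun z hz => hsub (Or.inl (Or.inl hz))
        obtain ⟨κ, hκ, hκO⟩ := (hTRI 4 a w b1 (h ⁻¹' T ∪ segment ℝ w b) (h ⁻¹' range c') g3'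
          ((hT.isClosed.preimage (cm_cont hh)).union (seg_compact w b).isClosed)
          ((cm_open hc').preimage (cm_cont hh))).2 (by
            intro z hz hz'
            rw [hset] at hz'
            rcases hz with hz | hz
            · exact Or.inl (g1 z hz hz')
            · rw [g2 z hz hz']
              exact Or.inr (right_mem_segment ℝ b1 w)) hsegs
        refine Cel.mono (push hh hc' hκ subset_union_left hTc'
          (P := convexHull ℝ {a, w, b1} ∪ segment ℝ w b) ?_) ?_
        · rintro z (hz | hz)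
          · exact hκO z hz
          · rw [hκ.2.2 z (Or.inr hz)]
            exact hwb hz
        · refine union_subset_union_right T (image_mono (union_subset_union_left _ ?_))
          exact segment_subset_convexHull (by simp) (by simp)

theorem joined {O β : Set (E 4)} (hO : IsOpen O) (hβ : IsPreconnected β) (hβO : β ⊆ O)
    {a b : E 4} (ha : a ∈ β) (hb : b ∈ β) :
    Relation.ReflTransGen (fun x y => segment ℝ x y ⊆ O) a b := by
  refine hβ.induction₂ (fun a b => Relation.ReflTransGen (fun x y => segment ℝ x y ⊆ O) a b)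
    ?_ (fun x y z _ _ _ h1 h2 => h1.trans h2) ?_ ha hb
  · intro x hx
    obtain ⟨r, hr, hball⟩ := Metric.isOpen_iff.1 hO x (hβO hx)
    filter_upwards [mem_nhdsWithin_of_mem_nhds (ball_mem_nhds x hr)] with y hy
    exact Relation.ReflTransGen.single
      (((convex_ball x r).segment_subset (mem_ball_self hr) hy).trans hball)
  · intro x y _ _ h
    have : Std.Symm (fun x y : E 4 => segment ℝ x y ⊆ O) := ⟨fun u v huv => by rwa [segment_symm]⟩
    exact (Relation.ReflTransGen.stdSymm (r := fun x y : E 4 => segment ℝ x y ⊆ O)).symm _ _ h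

end det

/-- The generic detour. -/
theorem det : T_TRI → T_NUL → T_DET := by
  intro hTRI hNUL M _ _ _ _ h T β a b hh hT hTn _ hβ ha hb hcel
  obtain ⟨c, hc, hsub⟩ := hcel
  have hO : IsOpen (h ⁻¹' range c) := (cm_open hc).preimage (cm_cont hh)
  have hβO : β ⊆ h ⁻¹' range c := fun z hz => hsub (Or.inr ⟨z, hz, rfl⟩)
  exact poly hTRI hNUL hh hc (hβO hb) (joined hO hβ.isPreconnected hβO ha hb) T hT hTn
    fun z hz => hsub (Or.inl hz)

/-- The straight segment. -/
theorem str : T_TRI → T_NUL → T_DET → T_STR := by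
  intro hTRI hNUL hDET M _ _ _ _ h T β a b hh hT hTn hβc hβ ha hb hcel hseg
  rcases eq_or_ne a b with hab | hab
  · subst hab
    refine Cel.mono hcel (union_subset_union_right T (image_mono ?_))
    rw [segment_same]
    exact singleton_subset_iff.2 ha
  · have h1 := hDET M h T β a b hh hT hTn hβc hβ ha hb hcel
    obtain ⟨w, ⟨c, hc, hsub⟩, g1, g3⟩ := (h1.and ((hNUL.1 (h ⁻¹' T) a b hTn).and
      (hNUL.2.2 a b hab))).exists
    obtain ⟨κ, hκ, hκO⟩ := (hTRI 4 a b w (h ⁻¹' T) (h ⁻¹' range c) g3
      (hT.isClosed.preimage (cm_cont hh)) ((cm_open hc).preimage (cm_cont hh))).2 (by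
        intro z hz hz'
        rcases hseg z (g1 z hz hz') hz with rfl | rfl
        · exact Or.inl (left_mem_segment ℝ _ _)
        · exact Or.inr (right_mem_segment ℝ _ _)) (by
        intro z hz
        exact hsub (Or.inr ⟨z, hz, rfl⟩))
    refine Cel.mono (push hh hc hκ le_rfl (fun z hz => hsub (Or.inl hz))
      (P := convexHull ℝ {a, b, w}) hκO) ?_
    refine union_subset_union_right T (image_mono ?_)
    exact segment_subset_convexHull (by simp) (by simp)

/-- One more point. -/
theorem pt : T_SEG → T_NUL → T_PT := by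
  intro hSEG hNUL M _ _ _ _ _ T p hT hTn hcel
  set G : Set M := {q | Cel (T ∪ {q})} with hG
  have hGo : IsOpen G := by
    rw [isOpen_iff_mem_nhds]
    intro q hq
    obtain ⟨c, hc, hsub⟩ := hq
    filter_upwards [(cm_open hc).mem_nhds (hsub (Or.inr rfl))] with q' hq'
    exact ⟨c, hc, union_subset (subset_union_left.trans hsub) (singleton_subset_iff.2 hq')⟩
  have hGne : G.Nonempty := by
    obtain ⟨c, hc, hsub⟩ := hcel
    exact ⟨c 0, c, hc, union_subset hsub (singleton_subset_iff.2 (mem_range_self 0))⟩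
  have hGc : IsClosed G := by
    rw [← closure_subset_iff_isClosed]
    intro p hp
    by_cases hpT : p ∈ T
    · exact Cel.mono hcel (union_subset le_rfl (singleton_subset_iff.2 hpT))
    obtain ⟨h, hh, h0⟩ := exists_cell0 p
    have hne : (h ⁻¹' G).Nonempty := by
      obtain ⟨q, hqr, hqG⟩ := (_root_.mem_closure_iff.1 hp) (range h) (cm_open hh) ⟨0, h0⟩
      obtain ⟨z, rfl⟩ := hqr
      exact ⟨z, hqG⟩
    have hop : IsOpen (h ⁻¹' G) := hGo.preimage (cm_cont hh)
    have hTn' := hTn h hh.1 hh.2
    obtain ⟨w, hwG, hw⟩ : ∃ w ∈ h ⁻¹' G, ∀ z ∈ h ⁻¹' T, z ∈ convexHull ℝ {0, 0, w} →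
        z ∈ segment ℝ (0 : E 4) 0 := by
      by_contra hcon
      push Not at hcon
      have h1 := hNUL.1 (h ⁻¹' T) 0 0 hTn'
      refine (hop.measure_pos volume hne).ne' (measure_mono_null ?_ h1)
      intro w hw
      obtain ⟨z, hz1, hz2, hz3⟩ := hcon w hw
      simp only [mem_compl_iff, mem_ofPred_eq, not_forall]
      exact ⟨z, hz1, hz2, hz3⟩
    obtain ⟨c, hc, hsub⟩ := hwG
    have hmiss : ∀ z ∈ h ⁻¹' T, z ∈ segment ℝ 0 w → z = w := by
      intro z hz hz'
      exfalso
      have h1 := hw z hz (segment_subset_convexHull (by simp) (by simp) hz')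
      rw [segment_same, mem_singleton_iff] at h1
      rw [h1, mem_preimage, h0] at hz
      exact hpT hz
    obtain ⟨κ, hκ, hκO⟩ := hSEG 4 0 w (h ⁻¹' T) (h ⁻¹' range c)
      (hT.isClosed.preimage (cm_cont hh)) ((cm_open hc).preimage (cm_cont hh)) hmiss
      (hsub (Or.inr rfl))
    refine Cel.mono (push hh hc hκ le_rfl (fun z hz => hsub (Or.inl hz))
      (P := segment ℝ 0 w) hκO) ?_
    refine union_subset_union_right T ?_
    rw [singleton_subset_iff]
    exact ⟨0, left_mem_segment ℝ _ _, h0⟩
  have huniv : G = univ := IsClopen.eq_univ ⟨hGc, hGo⟩ hGne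
  have : p ∈ G := huniv ▸ mem_univ p
  exact this

end Pool.Agent.T2h58.Det
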