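import Pool.Agent.T2h58.Stm2
import Pool.Agent.N550.KH.Supp

/-!
# Project SC: a ball of a cell and a finite graph in a chart lie in a cell
-/

set_option autoImplicit false

open Set Filter Topology Metric Function MeasureTheory
open scoped Manifold ContDiff NNReal

noncomputable section

namespace Pool.Agent.T2h58.Gc

open Pool.Agent.Y522 Pool.Agent.N550 Pool.Agent.N550.KH

/-- subsegments of `s ↦ x + s v` -/
theorem mem_piece {x v z : E 4} {α β : ℝ} (h : α ≤ β) :
    z ∈ segment ℝ (x + α • v) (x + β • v) ↔ ∃ s ∈ Icc α β, z = x + s • v := by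
  have h1 : ∀ s : ℝ, AffineMap.lineMap x (x + v) s = x + s • v := by
    intro s
    rw [AffineMap.lineMap_apply]
    simp [add_comm]
  rw [← h1, ← h1, ← image_segment, segment_eq_Icc h]
  constructor
  · rintro ⟨s, hs, rfl⟩
    exact ⟨s, hs, h1 s⟩
  · rintro ⟨s, hs, rfl⟩
    exact ⟨s, hs, h1 s⟩

/-- unions of null sets are null -/
theorem NullH2.union {M : Type} [TopologicalSpace M] [ChartedSpace (E 4) M] {A B : Set M}
    (hA : NullH2 4 A) (hB : NullH2 4 B) : NullH2 4 (A ∪ B) := by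
  intro h hi hh
  rw [preimage_union]
  exact measure_union_null (hA h hi hh) (hB h hi hh)

theorem NullH2.mono {M : Type} [TopologicalSpace M] [ChartedSpace (E 4) M] {A B : Set M}
    (hB : NullH2 4 B) (h : A ⊆ B) : NullH2 4 A := by
  intro f hi hf
  exact measure_mono_null (preimage_mono h) (hB f hi hf)

theorem NullH2.biUnion {M : Type} [TopologicalSpace M] [ChartedSpace (E 4) M] {ι : Type}
    (s : Finset ι) {A : ι → Set M} (hA : ∀ i ∈ s, NullH2 4 (A i)) : NullH2 4 (⋃ i ∈ s, A i) := by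
  intro h hi hh
  rw [preimage_iUnion₂]
  exact (measure_biUnion_null_iff s.countable_toSet).2 fun i hi' => hA i hi' h hi hh

theorem CellMap.continuous {M : Type} [TopologicalSpace M] [ChartedSpace (E 4) M] {c : E 4 → M}
    (hc : CellMap c) : Continuous c :=
  continuous_iff_continuousAt.2 fun z => (hc.2 z).continuousAt

theorem CellMap.isOpen_image {M : Type} [TopologicalSpace M] [ChartedSpace (E 4) M] {c : E 4 → M}
    (hc : CellMap c) {U : Set (E 4)} (hU : IsOpen U) : IsOpen (c '' U) :=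
  isOpen_image_of_LD hU fun x _ => hc.2 x

/-- preimages of cells under diffeomorphisms are cells -/
theorem Cel.of_map {M : Type} [TopologicalSpace M] [ChartedSpace (E 4) M] {K : M → M}
    (hK : IsDf 4 K) {S T : Set M} (hT : Cel T) (h : ∀ x ∈ S, K x ∈ T) : Cel S := by
  obtain ⟨c, hc, hcT⟩ := hT
  obtain ⟨⟨hKi, hKs⟩, hKl⟩ := hK
  have : Nonempty M := ⟨c 0⟩
  have hg : ∀ x, invFun K (K x) = x := leftInverse_invFun hKi
  have hg' : ∀ y, K (invFun K y) = y := rightInverse_invFun hKs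
  refine ⟨fun z => invFun K (c z), ⟨?_, ?_⟩, ?_⟩
  · intro z w hzw
    apply hc.1
    rw [← hg' (c z), ← hg' (c w)]
    exact congrArg K hzw
  · intro z
    exact LD.comp_fun (LD.inverse_bij ⟨hKi, hKs⟩ hKl hg (c z)) (hc.2 z)
  · intro x hx
    obtain ⟨z, hz⟩ := hcT (h x hx)
    exact ⟨z, by
      change invFun K (c z) = x
      rw [hz, hg]⟩

theorem Cel.mono {M : Type} [TopologicalSpace M] [ChartedSpace (E 4) M] {S T : Set M}
    (hT : Cel T) (h : S ⊆ T) : Cel S := by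
  obtain ⟨c, hc, hcT⟩ := hT
  exact ⟨c, hc, h.trans hcT⟩

/-- Different pieces of the subdivided graph meet at most in end points. -/
theorem piece_inter {a : ℕ} {x v : Fin a → E 4} (hG : Graph a x v) {m : ℕ} (hm : 0 < m)
    {p q : Fin a × Fin m} (hpq : p ≠ q) {z : E 4}
    (hp : z ∈ segment ℝ (x p.1 + ((p.2 : ℝ) / m) • v p.1) (x p.1 + (((p.2 : ℝ) + 1) / m) • v p.1))
    (hq : z ∈ segment ℝ (x q.1 + ((q.2 : ℝ) / m) • v q.1) (x q.1 + (((q.2 : ℝ) + 1) / m) • v q.1)) :
    z = x p.1 + ((p.2 : ℝ) / m) • v p.1 ∨ z = x p.1 + (((p.2 : ℝ) + 1) / m) • v p.1 := by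
  have hm' : (0 : ℝ) < m := by exact_mod_cast hm
  have hle : ∀ k : ℝ, k / m ≤ (k + 1) / m := fun k => by gcongr; linarith
  rw [mem_piece (hle _)] at hp hq
  obtain ⟨s, hs, hzs⟩ := hp
  obtain ⟨t, ht, hzt⟩ := hq
  have hs1 : (p.2 : ℝ) ≤ s * m := by rw [← div_le_iff₀ hm']; exact hs.1
  have hs2 : s * m ≤ (p.2 : ℝ) + 1 := by rw [← le_div_iff₀ hm']; exact hs.2
  have ht1 : (q.2 : ℝ) ≤ t * m := by rw [← div_le_iff₀ hm']; exact ht.1
  have ht2 : t * m ≤ (q.2 : ℝ) + 1 := by rw [← le_div_iff₀ hm']; exact ht.2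
  have hp0 : (0 : ℝ) ≤ (p.2 : ℝ) := Nat.cast_nonneg _
  have hp1 : (p.2 : ℝ) + 1 ≤ m := by exact_mod_cast p.2.2
  have hq0 : (0 : ℝ) ≤ (q.2 : ℝ) := Nat.cast_nonneg _
  have hq1 : (q.2 : ℝ) + 1 ≤ m := by exact_mod_cast q.2.2
  have hs0 : 0 ≤ s := by
    by_contra h
    push Not at h
    nlinarith
  have hs3 : s ≤ 1 := by
    by_contra h
    push Not at h
    nlinarith
  have ht0 : 0 ≤ t := by
    by_contra h
    push Not at h
    nlinarith
  have ht3 : t ≤ 1 := by
    by_contra h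
    push Not at h
    nlinarith
  by_cases h1 : p.1 = q.1
  · have h2 : p.2 ≠ q.2 := fun h => hpq (Prod.ext h1 h)
    have h3 : s = t := by
      have h4 : (s - t) • v p.1 = 0 := by
        rw [sub_smul, sub_eq_zero]
        have h5 : x p.1 + s • v p.1 = x q.1 + t • v q.1 := by rw [← hzs, ← hzt]
        rw [← h1] at h5
        exact add_left_cancel h5
      rcases smul_eq_zero.1 h4 with h5 | h5
      · linarith
      · exact absurd h5 (hG.1 _)
    subst h3
    have h4 : (p.2 : ℕ) ≠ (q.2 : ℕ) := fun h => h2 (Fin.ext h)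
    rcases lt_or_gt_of_ne h4 with h5 | h5
    · right
      have h6 : (p.2 : ℝ) + 1 ≤ (q.2 : ℝ) := by exact_mod_cast h5
      have h7 : s = ((p.2 : ℝ) + 1) / m := by
        rw [eq_div_iff hm'.ne']
        linarith
      rw [hzs, h7]
    · left
      have h6 : (q.2 : ℝ) + 1 ≤ (p.2 : ℝ) := by exact_mod_cast h5
      have h7 : s = (p.2 : ℝ) / m := by
        rw [eq_div_iff hm'.ne']
        linarith
      rw [hzs, h7]
  · obtain ⟨h2, -⟩ := hG.2 p.1 q.1 h1 s ⟨hs0, hs3⟩ t ⟨ht0, ht3⟩ (by rw [← hzs, ← hzt])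
    rcases h2 with h2 | h2
    · left
      have h7 : s = (p.2 : ℝ) / m := by
        rw [eq_div_iff hm'.ne', h2]
        rw [h2] at hs1
        linarith
      rw [hzs, h7]
    · right
      have h7 : s = ((p.2 : ℝ) + 1) / m := by
        rw [eq_div_iff hm'.ne', h2]
        rw [h2] at hs2
        linarith
      rw [hzs, h7]

/-- The pieces cover the segments. -/
theorem piece_cover {x v : E 4} {m : ℕ} (hm : 0 < m) {z : E 4} (hz : z ∈ seg x v) :
    ∃ k : Fin m, z ∈ segment ℝ (x + ((k : ℝ) / m) • v) (x + (((k : ℝ) + 1) / m) • v) := by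
  have hm' : (0 : ℝ) < m := by exact_mod_cast hm
  have hle : ∀ k : ℝ, k / m ≤ (k + 1) / m := fun k => by gcongr; linarith
  obtain ⟨s, hs, rfl⟩ := hz
  rcases eq_or_lt_of_le hs.2 with h1 | h1
  · refine ⟨⟨m - 1, by omega⟩, ?_⟩
    rw [mem_piece (hle _)]
    refine ⟨s, ⟨?_, ?_⟩, rfl⟩
    · rw [h1, div_le_iff₀ hm', one_mul]
      exact_mod_cast Nat.sub_le m 1
    · rw [h1, le_div_iff₀ hm', one_mul]
      have : ((m - 1 : ℕ) : ℝ) = m - 1 := by
        rw [Nat.cast_sub hm, Nat.cast_one]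
      simp only [this]
      linarith
  · have h0 : 0 ≤ s * m := mul_nonneg hs.1 hm'.le
    have h2 : ⌊s * m⌋₊ < m := by
      rw [Nat.floor_lt h0]
      nlinarith
    refine ⟨⟨⌊s * m⌋₊, h2⟩, ?_⟩
    rw [mem_piece (hle _)]
    refine ⟨s, ⟨?_, ?_⟩, rfl⟩
    · rw [div_le_iff₀ hm']
      exact Nat.floor_le h0
    · rw [le_div_iff₀ hm']
      exact (Nat.lt_floor_add_one _).le

/-- The pieces lie in the segments. -/
theorem piece_subset {x v : E 4} {m : ℕ} (k : Fin m) {z : E 4}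
    (hz : z ∈ segment ℝ (x + ((k : ℝ) / m) • v) (x + (((k : ℝ) + 1) / m) • v)) : z ∈ seg x v := by
  have hm : 0 < m := lt_of_le_of_lt (Nat.zero_le _) k.2
  have hm' : (0 : ℝ) < m := by exact_mod_cast hm
  have hle : ∀ k : ℝ, k / m ≤ (k + 1) / m := fun k => by gcongr; linarith
  rw [mem_piece (hle _)] at hz
  obtain ⟨s, hs, rfl⟩ := hz
  have h0 : (0 : ℝ) ≤ (k : ℝ) := Nat.cast_nonneg _
  have h1 : (k : ℝ) + 1 ≤ m := by exact_mod_cast k.2
  refine ⟨s, ⟨le_trans (by positivity) hs.1, hs.2.trans ?_⟩, rfl⟩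
  rw [div_le_one hm']
  exact h1

theorem main (hHOM : T_HOM) (hCOL : T_COL) (hTHIN : T_THIN) : T_GC := by
  intro M _ _ _ _ _ _ c h R a x v hc hh hG
  classical
  obtain ⟨hTH1, hTH2⟩ := hTHIN M
  -- radii
  set R0 : ℝ := max R 1 with hR0
  have hR0pos : 0 < R0 := lt_of_lt_of_le one_pos (le_max_right _ _)
  set R1 : ℝ := R0 + 1 with hR1
  set R2 : ℝ := R0 + 2 with hR2
  have hR01 : R0 < R1 := by linarith
  have hR12 : R1 < R2 := by linarith
  have hcc := CellMap.continuous hc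
  have hhc := CellMap.continuous hh
  have hce : IsOpenEmbedding c := IsOpenEmbedding.of_continuous_injective_isOpenMap hcc hc.1
    fun U hU => CellMap.isOpen_image hc hU
  suffices hmain : Cel (c '' closedBall 0 R0 ∪ ⋃ i, h '' seg (x i) (v i)) from
    Cel.mono hmain (union_subset_union_left _
      (image_mono (closedBall_subset_closedBall (le_max_left _ _))))
  -- the two open sets
  have hclosed : ∀ r : ℝ, IsClosed (c '' closedBall 0 r) := fun r =>
    ((isCompact_closedBall (0 : E 4) r).image hcc).isClosed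
  set U1 : Set (E 4) := h ⁻¹' (c '' ball 0 R2) with hU1
  set U2 : Set (E 4) := h ⁻¹' (c '' closedBall 0 R1)ᶜ with hU2
  have hU1o : IsOpen U1 := (CellMap.isOpen_image hc isOpen_ball).preimage hhc
  have hU2o : IsOpen U2 := (hclosed R1).isOpen_compl.preimage hhc
  have hU12 : U1 ∪ U2 = univ := by
    rw [eq_univ_iff_forall]
    intro z
    by_cases hz : h z ∈ c '' closedBall 0 R1
    · left
      obtain ⟨w, hw, hwz⟩ := hz
      exact ⟨w, closedBall_subset_ball hR12 hw, hwz⟩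
    · right
      exact hz
  set Γ : Set (E 4) := ⋃ i, seg (x i) (v i) with hΓ
  have hseg : ∀ x v : E 4, IsCompact (seg x v) := by
    intro x v
    have h1 : seg x v = (fun s : ℝ => x + s • v) '' Icc 0 1 := by
      ext z
      constructor
      · rintro ⟨s, hs, rfl⟩
        exact ⟨s, hs, rfl⟩
      · rintro ⟨s, hs, rfl⟩
        exact ⟨s, hs, rfl⟩
    rw [h1]
    exact isCompact_Icc.image (by fun_prop)
  have hΓc : IsCompact Γ := isCompact_iUnion fun i => hseg _ _
  obtain ⟨δ, hδ, hδU⟩ : ∃ δ > 0, ∀ z ∈ Γ, ball z δ ⊆ U1 ∨ ball z δ ⊆ U2 := by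
    obtain ⟨δ, hδ, h1⟩ := lebesgue_number_lemma_of_metric (s := Γ)
      (c := fun b : Bool => if b then U1 else U2) hΓc (by
        intro b
        cases b
        · exact hU2o
        · exact hU1o) (by
        intro z _
        have h2 : z ∈ U1 ∪ U2 := hU12 ▸ mem_univ z
        rcases h2 with h2 | h2
        · exact mem_iUnion.2 ⟨true, h2⟩
        · exact mem_iUnion.2 ⟨false, h2⟩)
    refine ⟨δ, hδ, fun z hz => ?_⟩
    obtain ⟨b, hb⟩ := h1 z hz
    cases b
    · right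
      exact hb
    · left
      exact hb
  -- the number of pieces
  obtain ⟨m, hm⟩ : ∃ m : ℕ, ∀ i, ‖v i‖ < δ * m := by
    obtain ⟨m, hm⟩ := exists_nat_gt ((∑ i, ‖v i‖) / δ)
    refine ⟨m, fun i => ?_⟩
    rw [div_lt_iff₀ hδ] at hm
    calc ‖v i‖ ≤ ∑ i, ‖v i‖ := Finset.single_le_sum (fun j _ => norm_nonneg (v j))
          (Finset.mem_univ i)
      _ < δ * m := by linarith
  -- the pieces
  set P : Fin a × Fin m → Set (E 4) := fun p =>
    segment ℝ (x p.1 + ((p.2 : ℝ) / m) • v p.1) (x p.1 + (((p.2 : ℝ) + 1) / m) • v p.1) with hP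
  have hmp : ∀ _ : Fin a × Fin m, 0 < m := fun p => lt_of_le_of_lt (Nat.zero_le _) p.2.2
  have hmi : ∀ _ : Fin a, 0 < m := by
    intro i
    rcases Nat.eq_zero_or_pos m with h0 | h0
    · have h1 := hm i
      rw [h0] at h1
      simp only [Nat.cast_zero, mul_zero] at h1
      exact absurd h1 (not_lt.2 (norm_nonneg _))
    · exact h0
  have hPc : ∀ p, IsCompact (P p) := fun p => by
    have h1 : P p = (fun s : ℝ => x p.1 + s • v p.1) ''
        Icc ((p.2 : ℝ) / m) (((p.2 : ℝ) + 1) / m) := by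
      have hm0 : (0 : ℝ) < m := by exact_mod_cast hmp p
      ext z
      rw [hP]
      simp only
      rw [mem_piece (by gcongr; linarith)]
      constructor
      · rintro ⟨s, hs, rfl⟩
        exact ⟨s, hs, rfl⟩
      · rintro ⟨s, hs, rfl⟩
        exact ⟨s, hs, rfl⟩
    rw [h1]
    exact isCompact_Icc.image (by fun_prop)
  have hPΓ : ∀ p, P p ⊆ Γ := fun p z hz => mem_iUnion.2 ⟨p.1, piece_subset p.2 hz⟩
  have hΓP : ∀ z ∈ Γ, ∃ p, z ∈ P p := by
    intro z hz
    obtain ⟨i, hi⟩ := mem_iUnion.1 hz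
    obtain ⟨k, hk⟩ := piece_cover (hmi i) hi
    exact ⟨(i, k), hk⟩
  have hPU : ∀ p, P p ⊆ U1 ∨ P p ⊆ U2 := by
    intro p
    have hm0 : (0 : ℝ) < m := by exact_mod_cast hmp p
    have h0 : x p.1 + ((p.2 : ℝ) / m) • v p.1 ∈ P p := left_mem_segment ℝ _ _
    have h1 : P p ⊆ ball (x p.1 + ((p.2 : ℝ) / m) • v p.1) δ := by
      apply (convex_ball _ _).segment_subset (mem_ball_self hδ)
      rw [mem_ball, dist_eq_norm]
      have h2 : x p.1 + (((p.2 : ℝ) + 1) / m) • v p.1 - (x p.1 + ((p.2 : ℝ) / m) • v p.1) =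
          (1 / (m : ℝ)) • v p.1 := by
        rw [add_div, add_smul]
        abel
      rw [h2, norm_smul, Real.norm_of_nonneg (by positivity), one_div, inv_mul_lt_iff₀ hm0,
        mul_comm]
      exact hm p.1
    rcases hδU _ (hPΓ p h0) with h2 | h2
    · left
      exact h1.trans h2
    · right
      exact h1.trans h2
  have hPn : ∀ p, NullH2 4 (h '' P p) := fun p => hTH2 h _ _ hh
  -- the collapse
  obtain ⟨μ₀, ⟨KL, hKL⟩, hμ0, hμ1, hμ2, hμ⟩ := hCOL 4 R0 R1 hR0pos hR01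
  set A : Finset (Fin a × Fin m) := Finset.univ.filter fun p => P p ⊆ U1 with hA
  have hA1 : ∀ p ∈ A, P p ⊆ U1 := fun p hp => (Finset.mem_filter.1 hp).2
  have hA2 : ∀ p, p ∉ A → P p ⊆ U2 := by
    intro p hp
    rcases hPU p with h1 | h1
    · exact absurd (by rw [hA]; exact Finset.mem_filter.2 ⟨Finset.mem_univ _, h1⟩) hp
    · exact h1
  set Q : Fin a × Fin m → Set M := fun p => c '' (μ₀ '' (c ⁻¹' (h '' P p))) with hQ
  have hQc : ∀ p ∈ A, IsCompact (Q p) := by
    intro p hp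
    have h1 : h '' P p ⊆ range c := by
      rintro _ ⟨z, hz, rfl⟩
      obtain ⟨w, -, hw⟩ := hA1 p hp hz
      exact ⟨w, hw⟩
    have h2 : IsCompact (c ⁻¹' (h '' P p)) :=
      (hce.isInducing.isCompact_preimage_iff h1).2 ((hPc p).image hhc)
    exact (h2.image hKL.continuous).image hcc
  have hQn : ∀ p, NullH2 4 (Q p) := by
    intro p
    apply hTH1 c _ hc
    have h1 : Measure.hausdorffMeasure 2 (c ⁻¹' (h '' P p) : Set (E 4)) = 0 := hPn p c hc.1 hc.2
    have h2 := hKL.hausdorffMeasure_image_le (show (0 : ℝ) ≤ 2 by norm_num) (c ⁻¹' (h '' P p))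
    rw [h1, mul_zero] at h2
    exact le_antisymm h2 zero_le
  set T₀ : Set M := {c 0} ∪ ⋃ p ∈ A, Q p with hT₀
  have hT₀c : IsCompact T₀ := isCompact_singleton.union (A.isCompact_biUnion hQc)
  have hT₀n : NullH2 4 T₀ := by
    apply NullH2.union
    · have h1 := hTH2 c 0 0 hc
      rwa [segment_same, image_singleton] at h1
    · exact NullH2.biUnion A fun p _ => hQn p
  have hT₀r : T₀ ⊆ range c := by
    rintro y (hy | hy)
    · rw [mem_singleton_iff] at hy
      exact ⟨0, hy.symm⟩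
    · obtain ⟨p, hp, w, hw, hwy⟩ := mem_iUnion₂.1 hy
      exact ⟨w, hwy⟩
  -- adding the pieces which miss the ball
  have hind : ∀ S : Finset (Fin a × Fin m), (∀ p ∈ S, p ∉ A) →
      IsCompact (T₀ ∪ ⋃ p ∈ S, h '' P p) ∧ NullH2 4 (T₀ ∪ ⋃ p ∈ S, h '' P p) ∧
        Cel (T₀ ∪ ⋃ p ∈ S, h '' P p) := by
    intro S
    induction S using Finset.induction_on with
    | empty =>
      intro _
      simp only [Finset.notMem_empty, iUnion_of_empty, iUnion_empty, union_empty]
      exact ⟨hT₀c, hT₀n, c, hc, hT₀r⟩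
    | insert p S hpS ih =>
      intro hS
      obtain ⟨h1, h2, h3⟩ := ih fun q hq => hS q (Finset.mem_insert_of_mem hq)
      have hpA : p ∉ A := hS p (Finset.mem_insert_self _ _)
      have h4 : T₀ ∪ ⋃ q ∈ insert p S, h '' P q = (T₀ ∪ ⋃ q ∈ S, h '' P q) ∪ h '' P p := by
        rw [Finset.set_biUnion_insert, union_comm (h '' P p), ← union_assoc]
      rw [h4]
      refine ⟨h1.union ((hPc p).image hhc), NullH2.union h2 (hPn p), ?_⟩
      apply hHOM M _ h _ _ h1 h2 h3 hh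
      intro z hz hzT
      have hzp : z ∈ P p := hz
      have hzU : h z ∉ c '' closedBall 0 R1 := hA2 p hpA hzp
      rcases hzT with (hzT | hzT) | hzT
      · exfalso
        rw [mem_singleton_iff] at hzT
        exact hzU ⟨0, by rw [mem_closedBall, dist_self]; linarith, hzT.symm⟩
      · obtain ⟨q, hq, _, ⟨w, ⟨z', hz', hwz'⟩, rfl⟩, hwz⟩ := mem_iUnion₂.1 hzT
        rcases le_or_gt ‖w‖ R1 with h5 | h5
        · exact absurd ⟨μ₀ w, mem_closedBall_zero_iff.2 (hμ2 w h5), hwz⟩ hzU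
        · rw [hμ1 w h5.le, ← hwz'] at hwz
          have h6 : z' = z := hh.1 hwz
          rw [h6] at hz'
          exact piece_inter hG (hmp p) (q := q) (fun h7 => hpA (by rw [h7]; exact hq)) hzp hz'
      · obtain ⟨q, hq, z', hz', hwz⟩ := mem_iUnion₂.1 hzT
        have h6 : z' = z := hh.1 hwz
        rw [h6] at hz'
        exact piece_inter hG (hmp p) (q := q) (fun h7 => hpS (by rw [h7]; exact hq)) hzp hz'
  obtain ⟨-, -, c', hc', hc'T⟩ := hind (Finset.univ.filter fun p => p ∉ A) fun p hp =>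
    (Finset.mem_filter.1 hp).2
  have hV : IsOpen (range c') := by
    rw [← image_univ]
    exact CellMap.isOpen_image hc' isOpen_univ
  -- the compact set in the chart `c`
  set W : Set (E 4) := closedBall 0 R1 ∩ c ⁻¹' (c '' closedBall 0 R0 ∪ h '' Γ) with hW
  have hWc : IsCompact W := by
    apply (isCompact_closedBall (0 : E 4) R1).inter_right
    exact ((hclosed R0).union (hΓc.image hhc).isClosed).preimage hcc
  have hWV : μ₀ '' W ⊆ c ⁻¹' range c' := by
    rintro _ ⟨w, ⟨hw1, hw2⟩, rfl⟩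
    apply hc'T
    left
    rcases hw2 with ⟨w', hw', hww⟩ | ⟨z, hz, hzw⟩
    · left
      have h1 : w' = w := hc.1 hww
      rw [h1, mem_closedBall_zero_iff] at hw'
      rw [hμ0 w hw', mem_singleton_iff]
    · right
      obtain ⟨p, hp⟩ := hΓP z hz
      have hpA : p ∈ A := by
        by_contra hpA
        exact hA2 p hpA hp ⟨w, hw1, hzw.symm⟩
      exact mem_iUnion₂.2 ⟨p, hpA, μ₀ w, ⟨w, ⟨z, hp, hzw⟩, rfl⟩, rfl⟩
  obtain ⟨ε, hε, hεV⟩ := (hWc.image hKL.continuous).exists_cthickening_subset_open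
    (hV.preimage hcc) hWV
  obtain ⟨μ, hμdf, hμ3, hμ4⟩ := hμ ε hε
  obtain ⟨K, hKdf, hK1, hK2⟩ := Supp.main 4 M c hc.1 hc.2 μ hμdf ⟨R1, hμ3⟩
  have hCV : Cel (range c') := ⟨c', hc', Subset.rfl⟩
  apply Cel.of_map hKdf hCV
  intro y hy
  have hy' : y ∈ c '' closedBall 0 R0 ∪ h '' Γ := by
    rcases hy with hy | hy
    · left
      exact hy
    · right
      obtain ⟨i, z, hz, hzy⟩ := mem_iUnion.1 hy
      exact ⟨z, mem_iUnion.2 ⟨i, hz⟩, hzy⟩
  by_cases hyb : y ∈ c '' closedBall 0 R1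
  · obtain ⟨w, hw, rfl⟩ := hyb
    rw [hK1]
    have hwW : w ∈ W := ⟨hw, hy'⟩
    apply hεV
    exact mem_cthickening_of_dist_le (μ w) (μ₀ w) ε _ ⟨w, hwW, rfl⟩
      (by rw [dist_eq_norm]; exact hμ4 w)
  · have hKy : K y = y := by
      by_cases hyr : y ∈ range c
      · obtain ⟨w, rfl⟩ := hyr
        rw [hK1, hμ3 w]
        by_contra h1
        push Not at h1
        exact hyb ⟨w, mem_closedBall_zero_iff.2 h1.le, rfl⟩
      · exact hK2 y hyr
    rw [hKy]
    apply hc'T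
    rcases hy' with ⟨w, hw, rfl⟩ | ⟨z, hz, rfl⟩
    · exact absurd ⟨w, closedBall_subset_closedBall hR01.le hw, rfl⟩ hyb
    · obtain ⟨p, hp⟩ := hΓP z hz
      by_cases hpA : p ∈ A
      · left
        right
        obtain ⟨w, -, hw⟩ := hA1 p hpA hp
        refine mem_iUnion₂.2 ⟨p, hpA, μ₀ w, ⟨w, ⟨z, hp, hw.symm⟩, rfl⟩, ?_⟩
        rw [hμ1 w, hw]
        by_contra h1
        push Not at h1
        exact hyb ⟨w, mem_closedBall_zero_iff.2 h1.le, hw⟩
      · right
        exact mem_iUnion₂.2 ⟨p, Finset.mem_filter.2 ⟨Finset.mem_univ _, hpA⟩, z, hp, rfl⟩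

end Pool.Agent.T2h58.Gc
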