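import Pool.Agent.T2h58.Stm
import Pool.Agent.N550.KH.Shift

/-!
# Project TC, task GRID: the grid lemma (helper1)
-/

set_option autoImplicit false

open Set Filter Topology Metric Function MeasureTheory
open scoped Manifold ContDiff NNReal

noncomputable section

namespace Pool.Agent.T2h58.Grid

open Pool.Agent.Y522 Pool.Agent.N550 Pool.Agent.N550.KH

/-! ### A generic translate of the grid -/

/-- two coordinates -/
def pr (i j : Fin 4) : E 4 →ₗ[ℝ] (Fin 2 → ℝ) where
  toFun z := ![z i, z j]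
  map_add' x y := by ext k; fin_cases k <;> simp
  map_smul' c x := by ext k; fin_cases k <;> simp

theorem pr_surj {i j : Fin 4} (h : i ≠ j) : Surjective (pr i j) := by
  intro w
  refine ⟨WithLp.toLp 2 (fun k => if k = i then w 0 else w 1), ?_⟩
  ext k
  fin_cases k
  · simp [pr]
  · simp [pr, h.symm]

theorem exists_translate (B : Set (E 4)) (hB : IsCompact B)
    (h0 : Measure.hausdorffMeasure 2 B = 0) (s : ℝ) :
    ∃ t : E 4, ∀ i j : Fin 4, i ≠ j → ∀ m n : ℤ, ∀ z ∈ B,
      ¬ (z i - t i = s * m ∧ z j - t j = s * n) := by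
  have key : ∀ i j : Fin 4, i ≠ j → ∀ m n : ℤ, ∀ᵐ t : E 4, ∀ z ∈ B,
      ¬ (z i - t i = s * m ∧ z j - t j = s * n) := by
    intro i j hij m n
    let S : Set (Fin 2 → ℝ) := (fun z : E 4 => pr i j z - ![s * m, s * n]) '' B
    have hlip : LipschitzWith 1 (fun z : E 4 => pr i j z - ![s * m, s * n]) := by
      refine LipschitzWith.of_dist_le_mul fun x y => ?_
      rw [dist_eq_norm, dist_eq_norm, NNReal.coe_one, one_mul]
      rw [show pr i j x - ![s * m, s * n] - (pr i j y - ![s * m, s * n]) = pr i j (x - y) by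
        rw [map_sub]; abel]
      rw [pi_norm_le_iff_of_nonneg (norm_nonneg _)]
      intro k
      fin_cases k
      · exact PiLp.norm_apply_le (x - y) i
      · exact PiLp.norm_apply_le (x - y) j
    have hS0 : volume S = 0 := by
      have h1 := hlip.hausdorffMeasure_image_le (d := 2) (by norm_num) B
      rw [h0, mul_zero] at h1
      have h2 : Measure.hausdorffMeasure 2 S = 0 := le_antisymm h1 bot_le
      have h3 := hausdorffMeasure_pi_real (ι := Fin 2)
      rw [← h3]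
      simpa using h2
    have hSm : MeasurableSet S := (hB.image hlip.continuous).isClosed.measurableSet
    have h4 : ∀ᵐ y : Fin 2 → ℝ, y ∈ Sᶜ := measure_eq_zero_iff_ae_notMem.1 hS0
    have h5 := (ae_comp_linearMap_mem_iff (pr i j) volume volume (pr_surj hij) hSm.compl).2 h4
    filter_upwards [h5] with t ht z hz hc
    refine ht ⟨z, hz, ?_⟩
    ext k
    fin_cases k
    · show z i - s * m = t i
      linarith [hc.1]
    · show z j - s * n = t j
      linarith [hc.2]
  have h6 : ∀ᵐ t : E 4, ∀ i j : Fin 4, i ≠ j → ∀ m n : ℤ, ∀ z ∈ B,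
      ¬ (z i - t i = s * m ∧ z j - t j = s * n) := by
    rw [ae_all_iff]; intro i
    rw [ae_all_iff]; intro j
    rw [ae_all_iff]; intro hij
    rw [ae_all_iff]; intro m
    rw [ae_all_iff]; intro n
    exact key i j hij m n
  exact h6.exists

/-! ### The one-dimensional map -/

/-- the one-dimensional map -/
def ph (a ε w : ℝ) : ℝ := w - ε * Real.sin (a * w)

theorem ph_neg (a ε w : ℝ) : ph a ε (-w) = -ph a ε w := by
  unfold ph
  rw [mul_neg, Real.sin_neg]
  ring

theorem ph_bound {a ε r w : ℝ} (ha : 0 < a) (hε : 0 < ε) (h1 : ε * a ≤ 1) (hr : 0 < r)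
    (hr' : a * r ≤ Real.pi) (hw : |w| ≤ r) :
    |ph a ε w| ≤ (1 - ε * Real.sin (a * r) / r) * |w| := by
  have main : ∀ w : ℝ, 0 ≤ w → w ≤ r → |ph a ε w| ≤ (1 - ε * Real.sin (a * r) / r) * w := by
    intro w hw0 hwr
    have e1 : (0 : ℝ) ∈ Icc (0 : ℝ) Real.pi := ⟨le_rfl, Real.pi_pos.le⟩
    have e2 : a * r ∈ Icc (0 : ℝ) Real.pi := ⟨by positivity, hr'⟩
    have e3 : 0 ≤ 1 - w / r := by rw [sub_nonneg, div_le_one hr]; exact hwr
    have e4 : 0 ≤ w / r := by positivity
    have hc := strictConcaveOn_sin_Icc.concaveOn.2 e1 e2 e3 e4 (by ring)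
    simp only [smul_eq_mul, Real.sin_zero, mul_zero, zero_add] at hc
    rw [show w / r * (a * r) = a * w by field_simp] at hc
    have h2 : Real.sin (a * w) ≤ a * w := Real.sin_le (by positivity)
    have h3 : 0 ≤ ph a ε w := by
      unfold ph
      have : ε * Real.sin (a * w) ≤ ε * (a * w) := mul_le_mul_of_nonneg_left h2 hε.le
      nlinarith
    rw [abs_of_nonneg h3]
    unfold ph
    have h4 : ε * (w / r * Real.sin (a * r)) ≤ ε * Real.sin (a * w) :=
      mul_le_mul_of_nonneg_left hc hε.le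
    have h5 : (1 - ε * Real.sin (a * r) / r) * w = w - ε * (w / r * Real.sin (a * r)) := by
      ring
    rw [h5]
    linarith
  rcases le_total 0 w with h | h
  · rw [abs_of_nonneg h] at hw ⊢
    exact main w h hw
  · rw [abs_of_nonpos h] at hw ⊢
    have := main (-w) (by linarith) hw
    rwa [ph_neg, abs_neg] at this

theorem q_mem {a ε r : ℝ} (ha : 0 < a) (hε : 0 < ε) (h1 : ε * a ≤ 1) (hr : 0 < r)
    (hr' : a * r ≤ Real.pi) : 0 ≤ 1 - ε * Real.sin (a * r) / r ∧
      1 - ε * Real.sin (a * r) / r ≤ 1 := by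
  have h2 : Real.sin (a * r) ≤ a * r := Real.sin_le (by positivity)
  have h3 : 0 ≤ Real.sin (a * r) := Real.sin_nonneg_of_nonneg_of_le_pi (by positivity) hr'
  constructor
  · rw [sub_nonneg, div_le_one hr]
    have : ε * Real.sin (a * r) ≤ ε * (a * r) := mul_le_mul_of_nonneg_left h2 hε.le
    nlinarith
  · have : 0 ≤ ε * Real.sin (a * r) / r := by positivity
    linarith

theorem ph_iter {a ε r w : ℝ} (ha : 0 < a) (hε : 0 < ε) (h1 : ε * a ≤ 1) (hr : 0 < r)
    (hr' : a * r ≤ Real.pi) (hw : |w| ≤ r) (J : ℕ) :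
    |(ph a ε)^[J] w| ≤ (1 - ε * Real.sin (a * r) / r) ^ J * |w| := by
  obtain ⟨q0, q1⟩ := q_mem ha hε h1 hr hr'
  induction J with
  | zero => simp
  | succ J ih =>
    rw [Function.iterate_succ_apply']
    have h2 : |(ph a ε)^[J] w| ≤ r := by
      refine ih.trans (le_trans ?_ hw)
      have := pow_le_one₀ (n := J) q0 q1
      have := abs_nonneg w
      nlinarith
    refine (ph_bound ha hε h1 hr hr' h2).trans ?_
    rw [pow_succ', mul_assoc]
    exact mul_le_mul_of_nonneg_left ih q0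

/-! ### Cubes -/

/-- the coordinates of the centre of a cube -/
def cen (s : ℝ) (t : E 4) (k : Fin 4 → ℤ) (i : Fin 4) : ℝ := t i + s * k i + s / 2

/-- the cubes of the grid -/
def cube (s : ℝ) (t : E 4) (k : Fin 4 → ℤ) : Set (E 4) := {z | ∀ i, |z i - cen s t k i| ≤ s / 2}

theorem norm_le_of (z : E 4) (r : ℝ) (hr : 0 ≤ r) (h : ∀ i, |z i| ≤ r) : ‖z‖ ≤ 2 * r := by
  have h1 : ‖z‖ ^ 2 ≤ (2 * r) ^ 2 := by
    rw [EuclideanSpace.norm_sq_eq]
    have h2 : ∀ i, ‖z i‖ ^ 2 ≤ r ^ 2 := fun i =>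
      pow_le_pow_left₀ (norm_nonneg _) (h i) 2
    calc ∑ i, ‖z i‖ ^ 2 ≤ ∑ _i : Fin 4, r ^ 2 := Finset.sum_le_sum fun i _ => h2 i
      _ = (2 * r) ^ 2 := by simp; ring
  exact le_of_sq_le_sq h1 (by positivity)

theorem abs_le_norm (z : E 4) (i : Fin 4) : |z i| ≤ ‖z‖ := PiLp.norm_apply_le z i

theorem isClosed_cube (s : ℝ) (t : E 4) (k : Fin 4 → ℤ) : IsClosed (cube s t k) := by
  have : cube s t k = ⋂ i, {z : E 4 | |z i - cen s t k i| ≤ s / 2} := by
    ext z; simp [cube]
  rw [this]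
  refine isClosed_iInter fun i => isClosed_le ?_ continuous_const
  exact ((continuous_apply i).comp (PiLp.continuous_ofLp 2 _)).sub continuous_const |>.abs

theorem exists_cube {s : ℝ} (hs : 0 < s) (t z : E 4) : ∃ k, z ∈ cube s t k := by
  refine ⟨fun i => ⌊(z i - t i) / s⌋, fun i => ?_⟩
  have h1 := Int.floor_le ((z i - t i) / s)
  have h2 := Int.lt_floor_add_one ((z i - t i) / s)
  rw [le_div_iff₀ hs] at h1
  rw [div_lt_iff₀ hs] at h2
  unfold cen
  rw [abs_le]
  constructor <;> nlinarith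

theorem finite_cubes {s : ℝ} (hs : 0 < s) (t : E 4) (B : Set (E 4)) (hB : IsCompact B) :
    {k : Fin 4 → ℤ | (cube s t k ∩ B).Nonempty}.Finite := by
  obtain ⟨R, hR⟩ := hB.isBounded.exists_norm_le
  obtain ⟨M, hM⟩ := exists_nat_gt ((R + ‖t‖ + s) / s)
  refine (Set.finite_Icc (fun _ => -(M : ℤ)) (fun _ => (M : ℤ))).subset ?_
  rintro k ⟨z, hz, hzB⟩
  have key : ∀ i, |(k i : ℝ)| ≤ M := by
    intro i
    have h1 := hz i
    have h2 := (abs_le_norm z i).trans (hR z hzB)
    have h3 := abs_le_norm t i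
    rw [div_lt_iff₀ hs] at hM
    unfold cen at h1
    rw [abs_le] at h1 h2 h3 ⊢
    constructor
    · by_contra hcon
      push Not at hcon
      nlinarith
    · by_contra hcon
      push Not at hcon
      nlinarith
  rw [mem_Icc, Pi.le_def, Pi.le_def]
  constructor
  · intro i
    have := (abs_le.1 (key i)).1
    exact_mod_cast this
  · intro i
    have := (abs_le.1 (key i)).2
    exact_mod_cast this

/-! ### The vector field -/

/-- the vector field -/
def X (a : ℝ) (t z : E 4) : E 4 := WithLp.toLp 2 (fun i => Real.sin (a * (z i - t i)))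

theorem contDiff_X (a : ℝ) (t : E 4) : ContDiff ℝ ∞ (X a t) := by
  rw [contDiff_euclidean]
  intro i
  have : ContDiff ℝ ∞ (fun z : E 4 => z i) := by
    exact (contDiff_euclidean.1 contDiff_id) i
  exact Real.contDiff_sin.comp (contDiff_const.mul (this.sub contDiff_const))

theorem X_apply {s : ℝ} (hs : 0 < s) (t z : E 4) (k : Fin 4 → ℤ) (i : Fin 4) :
    X (2 * Real.pi / s) t z i = -Real.sin (2 * Real.pi / s * (z i - cen s t k i)) := by
  show Real.sin (2 * Real.pi / s * (z i - t i)) = _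
  have h1 : 2 * Real.pi / s * (z i - t i) =
      2 * Real.pi / s * (z i - cen s t k i) + Real.pi + k i * (2 * Real.pi) := by
    unfold cen
    field_simp
    ring
  rw [h1, Real.sin_add_int_mul_two_pi, Real.sin_add_pi]

/-- the points of the cube with three central coordinates -/
def axis (s : ℝ) (t : E 4) (k : Fin 4 → ℤ) (i : Fin 4) : E 4 :=
  WithLp.toLp 2 (fun j => if j = i then cen s t k j - s / 2 else cen s t k j)

/-- the direction of the axis -/
def dir (s : ℝ) (i : Fin 4) : E 4 := WithLp.toLp 2 (fun j => if j = i then s else 0)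

theorem axis_apply (s : ℝ) (t : E 4) (k : Fin 4 → ℤ) (i j : Fin 4) (σ : ℝ) :
    (axis s t k i + σ • dir s i) j =
      if j = i then cen s t k j - s / 2 + σ * s else cen s t k j := by
  show (if j = i then cen s t k j - s / 2 else cen s t k j) + σ * (if j = i then s else 0) = _
  split_ifs <;> ring

theorem axis_mem_cube {s : ℝ} (hs : 0 < s) (t : E 4) (k : Fin 4 → ℤ) (i : Fin 4) {σ : ℝ}
    (hσ : σ ∈ Icc (0 : ℝ) 1) : axis s t k i + σ • dir s i ∈ cube s t k := by
  intro j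
  rw [axis_apply]
  split_ifs with h
  · rw [abs_le]
    constructor <;> nlinarith [hσ.1, hσ.2]
  · rw [sub_self, abs_zero]
    positivity

/-! ### Uniform distance from the walls -/

theorem abs_eq_half {s w : ℝ} (h1 : |w| ≤ s / 2) (h2 : s / 2 ≤ |w|) :
    w = s / 2 ∨ w = -(s / 2) := by
  have h3 : |w| = s / 2 := le_antisymm h1 h2
  exact eq_or_eq_neg_of_abs_eq h3

theorem wall {s : ℝ} {t z : E 4} {k : Fin 4 → ℤ} {i : Fin 4}
    (h1 : |z i - cen s t k i| ≤ s / 2) (h2 : s / 2 ≤ |z i - cen s t k i|) :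
    ∃ m : ℤ, z i - t i = s / 2 * m := by
  rcases abs_eq_half h1 h2 with h | h
  · refine ⟨2 * k i + 2, ?_⟩
    unfold cen at h
    push_cast
    linarith
  · refine ⟨2 * k i, ?_⟩
    unfold cen at h
    push_cast
    linarith

theorem continuous_coord (s : ℝ) (t : E 4) (k : Fin 4 → ℤ) (i : Fin 4) :
    Continuous (fun z : E 4 => |z i - cen s t k i|) :=
  (((continuous_apply i).comp (PiLp.continuous_ofLp 2 _)).sub continuous_const).abs

theorem exists_r {s : ℝ} (hs : 0 < s) (t : E 4) (B : Set (E 4)) (hB : IsCompact B)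
    (ht : ∀ i j : Fin 4, i ≠ j → ∀ m n : ℤ, ∀ z ∈ B,
      ¬ (z i - t i = s / 2 * m ∧ z j - t j = s / 2 * n)) :
    ∃ r, 0 < r ∧ r < s / 2 ∧ ∀ k, ∀ z ∈ B, z ∈ cube s t k →
      ∃ i₀, ∀ i, i ≠ i₀ → |z i - cen s t k i| ≤ r := by
  have hK := finite_cubes hs t B hB
  have key : ∀ k i j, i ≠ j → ∀ᶠ r in 𝓝[<] (s / 2), ∀ z ∈ B, z ∈ cube s t k →
      |z i - cen s t k i| ≤ r ∨ |z j - cen s t k j| ≤ r := by
    intro k i j hij
    rcases (B ∩ cube s t k).eq_empty_or_nonempty with he | hne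
    · refine Eventually.of_forall fun r z hz hzk => ?_
      have : z ∈ B ∩ cube s t k := ⟨hz, hzk⟩
      rw [he] at this
      exact this.elim
    · obtain ⟨z₀, hz₀, hmax⟩ := (hB.inter_right (isClosed_cube s t k)).exists_isMaxOn hne
        (f := fun z : E 4 => min |z i - cen s t k i| |z j - cen s t k j|)
        ((continuous_coord s t k i).min (continuous_coord s t k j)).continuousOn
      have hlt : min |z₀ i - cen s t k i| |z₀ j - cen s t k j| < s / 2 := by
        by_contra hcon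
        push Not at hcon
        obtain ⟨m, hm⟩ := wall (hz₀.2 i) (hcon.trans (min_le_left _ _))
        obtain ⟨n, hn⟩ := wall (hz₀.2 j) (hcon.trans (min_le_right _ _))
        exact ht i j hij m n z₀ hz₀.1 ⟨hm, hn⟩
      filter_upwards [Ioo_mem_nhdsLT hlt] with r hr z hz hzk
      have h1 : min |z i - cen s t k i| |z j - cen s t k j| ≤
        min |z₀ i - cen s t k i| |z₀ j - cen s t k j| := hmax ⟨hz, hzk⟩
      exact min_le_iff.1 (h1.trans hr.1.le)
  have key2 : ∀ᶠ r in 𝓝[<] (s / 2), ∀ k ∈ {k : Fin 4 → ℤ | (cube s t k ∩ B).Nonempty},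
      ∀ i j, i ≠ j → ∀ z ∈ B, z ∈ cube s t k →
      |z i - cen s t k i| ≤ r ∨ |z j - cen s t k j| ≤ r := by
    rw [eventually_all_finite hK]
    intro k _
    rw [eventually_all]; intro i
    rw [eventually_all]; intro j
    rw [eventually_all]; intro hij
    exact key k i j hij
  have h0 : ∀ᶠ r in 𝓝[<] (s / 2), r ∈ Ioo 0 (s / 2) := Ioo_mem_nhdsLT (by positivity)
  obtain ⟨r, hr, hr0⟩ := (key2.and h0).exists
  refine ⟨r, hr0.1, hr0.2, fun k z hz hzk => ?_⟩
  have hk := hr k ⟨z, hzk, hz⟩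
  by_cases h : ∃ i₀, r < |z i₀ - cen s t k i₀|
  · obtain ⟨i₀, hi₀⟩ := h
    refine ⟨i₀, fun i hi => ?_⟩
    rcases hk i i₀ hi z hz hzk with h1 | h1
    · exact h1
    · exact absurd h1 (not_le.2 hi₀)
  · push Not at h
    exact ⟨0, fun i _ => h i⟩

/-! ### The theorem -/

theorem main : T_GRID := by
  intro B O hB h0 hO hBO
  obtain ⟨δ, hδ, hδO⟩ := hB.exists_thickening_subset_open hO hBO
  obtain ⟨s, hs, hsδ⟩ : ∃ s : ℝ, 0 < s ∧ 2 * s < δ := ⟨δ / 3, by positivity, by linarith⟩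
  obtain ⟨t, ht⟩ := exists_translate B hB h0 (s / 2)
  set K : Set (Fin 4 → ℤ) := {k | (cube s t k ∩ B).Nonempty} with hKdef
  have hK : K.Finite := finite_cubes hs t B hB
  have hcB : ∀ k ∈ K, ∀ z ∈ cube s t k, ∃ b ∈ B, ‖z - b‖ ≤ 2 * s := by
    rintro k ⟨b, hbk, hbB⟩ z hz
    refine ⟨b, hbB, norm_le_of _ s hs.le fun i => ?_⟩
    have h1 := hz i
    have h2 := hbk i
    show |z i - b i| ≤ s
    rw [abs_le] at h1 h2 ⊢
    constructor <;> linarith [h1.1, h1.2, h2.1, h2.2]
  have hcO : ∀ k ∈ K, cube s t k ⊆ O := by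
    intro k hk z hz
    obtain ⟨b, hb, hzb⟩ := hcB k hk z hz
    refine hδO (mem_thickening_iff.2 ⟨b, hb, ?_⟩)
    rw [dist_eq_norm]
    linarith
  have hnB : ∀ (k : Fin 4 → ℤ) (i : Fin 4) (σ : ℝ), axis s t k i + σ • dir s i ∉ B := by
    intro k i σ hmem
    have hdec : ∀ i : Fin 4, ∃ j1 j2 : Fin 4, j1 ≠ i ∧ j2 ≠ i ∧ j1 ≠ j2 := by decide
    obtain ⟨j1, j2, h1, h2, h12⟩ := hdec i
    refine ht j1 j2 h12 (2 * k j1 + 1) (2 * k j2 + 1) _ hmem ⟨?_, ?_⟩
    · rw [axis_apply, if_neg h1]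
      unfold cen
      push_cast
      ring
    · rw [axis_apply, if_neg h2]
      unfold cen
      push_cast
      ring
  have : Fintype K := hK.fintype
  let e := Fintype.equivFin (K × Fin 4)
  refine ⟨Fintype.card (K × Fin 4), fun n => axis s t (e.symm n).1 (e.symm n).2,
    fun n => dir s (e.symm n).2, ?_, ?_⟩
  · intro n σ hσ
    exact ⟨hcO _ (e.symm n).1.2 (axis_mem_cube hs t _ _ hσ), hnB _ _ _⟩
  intro O' hO' hsub
  have hsub' : ∀ k ∈ K, ∀ i, ∀ σ ∈ Icc (0 : ℝ) 1, axis s t k i + σ • dir s i ∈ O' := by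
    intro k hk i σ hσ
    have := hsub (e (⟨k, hk⟩, i)) σ hσ
    simpa using this
  -- the union of the cubes and the cutoff function
  let P : Set (E 4) := ⋃ k ∈ K, cube s t k
  have hP : ∀ k ∈ K, cube s t k ⊆ P := fun k hk => subset_biUnion_of_mem hk
  have hPc : IsClosed P := hK.isClosed_biUnion fun k _ => isClosed_cube s t k
  obtain ⟨R, hR⟩ : ∃ R : ℝ, ∀ z ∈ P, ‖z‖ < R := by
    obtain ⟨R, hR⟩ := hB.isBounded.exists_norm_le
    refine ⟨R + 2 * s + 1, fun z hz => ?_⟩
    obtain ⟨k, hk, hzk⟩ := mem_iUnion₂.1 hz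
    obtain ⟨b, hb, hzb⟩ := hcB k hk z hzk
    have h1 : ‖z‖ ≤ ‖z - b‖ + ‖b‖ := by
      calc ‖z‖ = ‖(z - b) + b‖ := by rw [sub_add_cancel]
        _ ≤ _ := norm_add_le _ _
    have h2 := hR b hb
    linarith
  have hUo : IsOpen (O ∩ ball (0 : E 4) R) := hO.inter isOpen_ball
  have hPU : P ⊆ interior (O ∩ ball (0 : E 4) R) := by
    rw [hUo.interior_eq]
    intro z hz
    refine ⟨?_, by rw [mem_ball_zero_iff]; exact hR z hz⟩
    obtain ⟨k, hk, hzk⟩ := mem_iUnion₂.1 hz
    exact hcO k hk hzk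
  obtain ⟨χ, hχ1, hχ0, -⟩ := exists_contMDiffMap_one_nhds_of_subset_interior (𝓡 4) (n := ⊤)
    hPc hPU
  have hχs : ContDiff ℝ ∞ (χ : E 4 → ℝ) := contMDiff_iff_contDiff.1 χ.contMDiff
  have hχP : ∀ z ∈ P, χ z = 1 := fun z hz => hχ1.self_of_nhdsSet z hz
  -- the perturbation
  set a : ℝ := 2 * Real.pi / s with ha
  have ha0 : 0 < a := by positivity
  let h : E 4 → E 4 := fun z => χ z • X a t z
  have hh : ContDiff ℝ ∞ h := hχs.smul (contDiff_X a t)
  have hhs : HasCompactSupport h := by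
    refine HasCompactSupport.intro (isCompact_closedBall (0 : E 4) R) fun z hz => ?_
    have : z ∉ O ∩ ball (0 : E 4) R := fun hz' => hz (ball_subset_closedBall hz'.2)
    show χ z • X a t z = 0
    rw [hχ0 z this, zero_smul]
  obtain ⟨C, hC⟩ := (hh.continuous_fderiv (by simp)).bounded_above_of_compact_support
    (hhs.fderiv (𝕜 := ℝ))
  have hC0 : 0 ≤ C := (norm_nonneg _).trans (hC 0)
  obtain ⟨ε, hε0, hεa, hεC⟩ : ∃ ε : ℝ, 0 < ε ∧ ε * a ≤ 1 ∧ ε * C ≤ 1 / 2 := by
    refine ⟨1 / (2 * (a + C)), by positivity, ?_, ?_⟩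
    · rw [one_div_mul_eq_div, div_le_one (by positivity)]
      linarith
    · rw [one_div_mul_eq_div, div_le_div_iff₀ (by positivity) (by norm_num)]
      linarith
  let f : E 4 → E 4 := fun z => z + ε • h z
  have hf : IsDf 4 f := by
    refine Shift.pert (g := fun z => ε • h z) (q := 1 / 2) (hh.const_smul ε) (by norm_num) ?_
    intro z
    have h1 : HasFDerivAt (fun z => ε • h z) (ε • fderiv ℝ h z) z :=
      ((hh.differentiable (by simp)) z).hasFDerivAt.const_smul ε
    rw [h1.fderiv, norm_smul, Real.norm_of_nonneg hε0.le]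
    exact (mul_le_mul_of_nonneg_left (hC z) hε0.le).trans hεC
  have hf0 : ∀ z, z ∉ O ∩ ball (0 : E 4) R → f z = z := by
    intro z hz
    show z + ε • (χ z • X a t z) = z
    rw [hχ0 z hz, zero_smul, smul_zero, add_zero]
  -- the action on the cubes
  have hfk : ∀ k ∈ K, ∀ z ∈ cube s t k, ∀ i,
      (f z) i - cen s t k i = ph a ε (z i - cen s t k i) := by
    intro k hk z hz i
    have h1 : χ z = 1 := hχP z (hP k hk hz)
    show z i + ε * (χ z * X a t z i) - cen s t k i = _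
    rw [h1, one_mul, ha, X_apply hs t z k i]
    unfold ph
    ring
  have hap : a * (s / 2) = Real.pi := by rw [ha]; field_simp
  have hhalf : ∀ w : ℝ, |w| ≤ s / 2 → |ph a ε w| ≤ s / 2 := by
    intro w hw
    have h1 := ph_bound ha0 hε0 hεa (half_pos hs) hap.le hw
    rw [hap, Real.sin_pi, mul_zero, zero_div, sub_zero, one_mul] at h1
    exact h1.trans hw
  have hiter : ∀ k ∈ K, ∀ z ∈ cube s t k, ∀ J : ℕ, f^[J] z ∈ cube s t k ∧ ∀ i,
      (f^[J] z) i - cen s t k i = (ph a ε)^[J] (z i - cen s t k i) := by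
    intro k hk z hz J
    induction J with
    | zero => exact ⟨hz, fun i => rfl⟩
    | succ J ih =>
      obtain ⟨ih1, ih2⟩ := ih
      have h3 : ∀ i, (f^[J + 1] z) i - cen s t k i = ph a ε ((f^[J] z) i - cen s t k i) := by
        intro i
        rw [Function.iterate_succ_apply']
        exact hfk k hk _ ih1 i
      refine ⟨fun i => ?_, fun i => ?_⟩
      · rw [h3 i]
        exact hhalf _ (ih1 i)
      · rw [h3 i, ih2 i, Function.iterate_succ_apply']
  -- convergence to the axes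
  obtain ⟨r, hr0, hrs, hr⟩ := exists_r hs t B hB ht
  have har : a * r < Real.pi := by
    rw [← hap]
    exact mul_lt_mul_of_pos_left hrs ha0
  set q : ℝ := 1 - ε * Real.sin (a * r) / r with hq
  have hq0 : 0 ≤ q := (q_mem ha0 hε0 hεa hr0 har.le).1
  have hq1 : q < 1 := by
    have h1 : 0 < Real.sin (a * r) := Real.sin_pos_of_pos_of_lt_pi (by positivity) har
    have h2 : 0 < ε * Real.sin (a * r) / r := by positivity
    rw [hq]
    linarith
  -- a neighbourhood of the axes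
  let Γ : Set (E 4) := ⋃ k ∈ K, ⋃ i : Fin 4, (fun σ : ℝ => axis s t k i + σ • dir s i) '' Icc 0 1
  have hΓ : IsCompact Γ := by
    refine hK.isCompact_biUnion fun k _ => isCompact_iUnion fun i => ?_
    exact isCompact_Icc.image (by fun_prop)
  have hΓO : Γ ⊆ O' := by
    intro z hz
    obtain ⟨k, hk, hz⟩ := mem_iUnion₂.1 hz
    obtain ⟨i, hz⟩ := mem_iUnion.1 hz
    obtain ⟨σ, hσ, rfl⟩ := hz
    exact hsub' k hk i σ hσ
  obtain ⟨η, hη, hηO⟩ := hΓ.exists_thickening_subset_open hO' hΓO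
  obtain ⟨J, hJ⟩ : ∃ J : ℕ, 2 * (q ^ J * r) < η := by
    have h1 : Tendsto (fun J : ℕ => 2 * (q ^ J * r)) atTop (𝓝 (2 * (0 * r))) :=
      ((tendsto_pow_atTop_nhds_zero_of_lt_one hq0 hq1).mul_const r).const_mul 2
    rw [zero_mul, mul_zero] at h1
    exact (h1.eventually_lt_const hη).exists
  refine ⟨f^[J], Shift.isDf_iter hf J, ⟨R, fun z hz => ?_⟩, fun z hz => ?_, fun z hz => ?_⟩
  · refine Function.iterate_fixed (hf0 z fun hz' => ?_) J
    have := hz'.2
    rw [mem_ball_zero_iff] at this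
    linarith
  · exact Function.iterate_fixed (hf0 z fun hz' => hz hz'.1) J
  · obtain ⟨k, hzk⟩ := exists_cube hs t z
    have hk : k ∈ K := ⟨z, hzk, hz⟩
    obtain ⟨i₀, hi₀⟩ := hr k z hz hzk
    obtain ⟨h1, h2⟩ := hiter k hk z hzk J
    set y := f^[J] z with hy
    set σ : ℝ := (y i₀ - cen s t k i₀ + s / 2) / s with hσ
    have hσI : σ ∈ Icc (0 : ℝ) 1 := by
      have h3 := h1 i₀
      rw [abs_le] at h3
      rw [hσ]
      constructor
      · exact div_nonneg (by linarith [h3.1]) hs.le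
      · rw [div_le_one hs]
        linarith [h3.2]
    have hΓm : axis s t k i₀ + σ • dir s i₀ ∈ Γ :=
      mem_iUnion₂.2 ⟨k, hk, mem_iUnion.2 ⟨i₀, σ, hσI, rfl⟩⟩
    refine hηO (mem_thickening_iff.2 ⟨_, hΓm, ?_⟩)
    rw [dist_eq_norm]
    refine lt_of_le_of_lt (norm_le_of _ (q ^ J * r) (by positivity) fun i => ?_) hJ
    show |y i - (axis s t k i₀ + σ • dir s i₀) i| ≤ _
    rw [axis_apply]
    split_ifs with h
    · subst h
      have h4 : y i - (cen s t k i - s / 2 + σ * s) = 0 := by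
        rw [hσ]
        field_simp
        ring
      rw [h4, abs_zero]
      positivity
    · rw [h2 i]
      refine (ph_iter ha0 hε0 hεa hr0 har.le (hi₀ i h) J).trans ?_
      exact mul_le_mul_of_nonneg_left (hi₀ i h) (by positivity)

end Pool.Agent.T2h58.Grid
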