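import Pool.Agent.T2h58.Stm2
import Pool.Agent.T2h58.Grid

/-!
# Project SC: the grid lemma for a given grid (variant of `Grid`, by helpers 1 and 58)
-/

set_option autoImplicit false

open Set Filter Topology Metric Function MeasureTheory
open scoped Manifold ContDiff NNReal

noncomputable section

namespace Pool.Agent.T2h58.Grg

open Pool.Agent.Y522 Pool.Agent.N550 Pool.Agent.N550.KH Pool.Agent.T2h58.Grid

theorem wall' {s : ℝ} {t z : E 4} {k : Fin 4 → ℤ} {i : Fin 4}
    (h1 : |z i - cen s t k i| ≤ s / 2) (h2 : s / 2 ≤ |z i - cen s t k i|) :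
    ∃ m : ℤ, z i = t i + m * s := by
  rcases abs_eq_half h1 h2 with h | h
  · refine ⟨k i + 1, ?_⟩
    unfold cen at h
    push_cast
    linarith
  · refine ⟨k i, ?_⟩
    unfold cen at h
    linarith

theorem exists_r' {s : ℝ} (hs : 0 < s) (t : E 4) (B : Set (E 4)) (hB : IsCompact B)
    (ht : ∀ z ∈ B, OffGrid s t z) :
    ∃ r, 0 < r ∧ r < s / 2 ∧ ∀ k, ∀ z ∈ B, z ∈ cube s t k →
      ∃ i₀, ∀ i, i ≠ i₀ → |z i - cen s t k i| ≤ r := by
  have hK := finite_cubes hs t B hB
  have key : ∀ k i j, i ≠ j → ∀ᶠ r in 𝓝[<] (s / 2), ∀ z ∈ B, z ∈ cube s t k →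
      |z i - cen s t k i| ≤ r ∨ |z j - cen s t k j| ≤ r := by
    intro k i j hij
    rcases (B ∩ cube s t k).eq_empty_or_nonempty with he | hne
    · refine Eventually.of_forall fun r z hz hzk => ?_
      have : z ∈ B ∩ cube s t k := ⟨hz, hzk⟩
      rw [he] at this
      exact this.elim
    · obtain ⟨z₀, hz₀, hmax⟩ := (hB.inter_right (isClosed_cube s t k)).exists_isMaxOn hne
        (f := fun z : E 4 => min |z i - cen s t k i| |z j - cen s t k j|)
        ((continuous_coord s t k i).min (continuous_coord s t k j)).continuousOn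
      have hlt : min |z₀ i - cen s t k i| |z₀ j - cen s t k j| < s / 2 := by
        by_contra hcon
        push Not at hcon
        exact ht z₀ hz₀.1 i j hij ⟨wall' (hz₀.2 i) (hcon.trans (min_le_left _ _)),
          wall' (hz₀.2 j) (hcon.trans (min_le_right _ _))⟩
      filter_upwards [Ioo_mem_nhdsLT hlt] with r hr z hz hzk
      have h1 : min |z i - cen s t k i| |z j - cen s t k j| ≤
        min |z₀ i - cen s t k i| |z₀ j - cen s t k j| := hmax ⟨hz, hzk⟩
      exact min_le_iff.1 (h1.trans hr.1.le)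
  have key2 : ∀ᶠ r in 𝓝[<] (s / 2), ∀ k ∈ {k : Fin 4 → ℤ | (cube s t k ∩ B).Nonempty},
      ∀ i j, i ≠ j → ∀ z ∈ B, z ∈ cube s t k →
      |z i - cen s t k i| ≤ r ∨ |z j - cen s t k j| ≤ r := by
    rw [eventually_all_finite hK]
    intro k _
    rw [eventually_all]; intro i
    rw [eventually_all]; intro j
    rw [eventually_all]; intro hij
    exact key k i j hij
  have h0 : ∀ᶠ r in 𝓝[<] (s / 2), r ∈ Ioo 0 (s / 2) := Ioo_mem_nhdsLT (by positivity)
  obtain ⟨r, hr, hr0⟩ := (key2.and h0).exists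
  refine ⟨r, hr0.1, hr0.2, fun k z hz hzk => ?_⟩
  have hk := hr k ⟨z, hzk, hz⟩
  by_cases h : ∃ i₀, r < |z i₀ - cen s t k i₀|
  · obtain ⟨i₀, hi₀⟩ := h
    refine ⟨i₀, fun i hi => ?_⟩
    rcases hk i i₀ hi z hz hzk with h1 | h1
    · exact h1
    · exact absurd h1 (not_le.2 hi₀)
  · push Not at h
    exact ⟨0, fun i _ => h i⟩

/-- the centre of a cube -/
def ctr (s : ℝ) (t : E 4) (k : Fin 4 → ℤ) : E 4 := WithLp.toLp 2 (fun j => cen s t k j)

/-- half of the direction of an axis, with a sign -/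
def hdir (s : ℝ) (i : Fin 4) (b : Bool) : E 4 :=
  WithLp.toLp 2 (fun j => if j = i then (if b then s / 2 else -(s / 2)) else 0)

theorem half_apply (s : ℝ) (t : E 4) (k : Fin 4 → ℤ) (i j : Fin 4) (b : Bool) (σ : ℝ) :
    (ctr s t k + σ • hdir s i b) j =
      if j = i then cen s t k j + σ * (if b then s / 2 else -(s / 2)) else cen s t k j := by
  show cen s t k j + σ * (if j = i then (if b then s / 2 else -(s / 2)) else 0) = _
  split_ifs <;> ring

theorem half_mem_cube {s : ℝ} (hs : 0 < s) (t : E 4) (k : Fin 4 → ℤ) (i : Fin 4) (b : Bool)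
    {σ : ℝ} (hσ : σ ∈ Icc (0 : ℝ) 1) : ctr s t k + σ • hdir s i b ∈ cube s t k := by
  intro j
  rw [half_apply]
  have h1 := hσ.1
  have h2 := hσ.2
  split_ifs with h hb
  · rw [add_sub_cancel_left, abs_le]
    constructor <;> nlinarith
  · rw [add_sub_cancel_left, abs_le]
    constructor <;> nlinarith
  · rw [sub_self, abs_zero]
    positivity

/-- the half edges meet only in their end points -/
theorem half_inter {s : ℝ} (hs : 0 < s) (t : E 4) {k k' : Fin 4 → ℤ} {i i' : Fin 4} {b b' : Bool}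
    {σ σ' : ℝ} (hσ : σ ∈ Icc (0 : ℝ) 1) (hσ' : σ' ∈ Icc (0 : ℝ) 1)
    (h : ctr s t k + σ • hdir s i b = ctr s t k' + σ' • hdir s i' b') (h0 : σ ≠ 0) (h1 : σ ≠ 1) :
    k = k' ∧ i = i' ∧ b = b' := by
  have hσ0 : 0 < σ := lt_of_le_of_ne hσ.1 (Ne.symm h0)
  have hσ1 : σ < 1 := lt_of_le_of_ne hσ.2 h1
  have hc : ∀ j, (ctr s t k + σ • hdir s i b) j = (ctr s t k' + σ' • hdir s i' b') j := fun j => by
    rw [h]
  have hii : i = i' := by
    by_contra hne
    have h2 := hc i
    rw [half_apply, half_apply, if_pos rfl, if_neg hne] at h2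
    unfold cen at h2
    have h3 : (k' i - k i : ℝ) * 2 = σ * (if b then 1 else -1) := by
      have h4 : s * ((k' i - k i : ℝ) * 2) = s * (σ * (if b then 1 else -1)) := by
        cases b <;> simp only [if_true, if_false, Bool.false_eq_true] at h2 ⊢ <;> linarith
      exact mul_left_cancel₀ hs.ne' h4
    have h5 : ((k' i - k i) * 2 : ℤ) < 1 := by
      have : (((k' i - k i) * 2 : ℤ) : ℝ) < 1 := by
        push_cast
        rw [h3]
        cases b <;> simp <;> linarith
      exact_mod_cast this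
    have h6 : (-1 : ℤ) < (k' i - k i) * 2 := by
      have : ((-1 : ℤ) : ℝ) < (((k' i - k i) * 2 : ℤ) : ℝ) := by
        push_cast
        rw [h3]
        cases b <;> simp <;> linarith
      exact_mod_cast this
    have h7 : k' i - k i = 0 := by omega
    have h8 : (k' i - k i : ℝ) = 0 := by exact_mod_cast h7
    rw [h8, zero_mul] at h3
    cases b
    · simp only [if_false, Bool.false_eq_true] at h3
      exact h0 (by linarith)
    · simp only [if_true] at h3
      exact h0 (by linarith)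
  subst hii
  have hi := hc i
  rw [half_apply, half_apply, if_pos rfl, if_pos rfl] at hi
  unfold cen at hi
  have h3 : (k i - k' i : ℝ) * 2 = σ' * (if b' then 1 else -1) - σ * (if b then 1 else -1) := by
    have h4 : s * ((k i - k' i : ℝ) * 2) =
        s * (σ' * (if b' then 1 else -1) - σ * (if b then 1 else -1)) := by
      cases b <;> cases b' <;> simp only [if_true, if_false, Bool.false_eq_true] at hi ⊢ <;>
        linarith
    exact mul_left_cancel₀ hs.ne' h4
  have hs1 := hσ'.1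
  have hs2 := hσ'.2
  have h5 : ((k i - k' i) * 2 : ℤ) < 2 := by
    have : (((k i - k' i) * 2 : ℤ) : ℝ) < 2 := by
      push_cast
      rw [h3]
      cases b <;> cases b' <;> simp <;> linarith
    exact_mod_cast this
  have h6 : (-2 : ℤ) < (k i - k' i) * 2 := by
    have : ((-2 : ℤ) : ℝ) < (((k i - k' i) * 2 : ℤ) : ℝ) := by
      push_cast
      rw [h3]
      cases b <;> cases b' <;> simp <;> linarith
    exact_mod_cast this
  have h7 : k i - k' i = 0 := by omega
  have h8 : (k i - k' i : ℝ) = 0 := by exact_mod_cast h7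
  refine ⟨?_, rfl, ?_⟩
  · funext j
    by_cases hj : j = i
    · rw [hj]; omega
    · have h9 := hc j
      rw [half_apply, half_apply, if_neg hj, if_neg hj] at h9
      unfold cen at h9
      have h10 : s * (k j : ℝ) = s * k' j := by linarith
      exact_mod_cast mul_left_cancel₀ hs.ne' h10
  · rw [h8, zero_mul] at h3
    cases b <;> cases b' <;> simp at h3 ⊢ <;> linarith

theorem main : T_GRG := by
  intro B O s t hB hO hs hBO ht
  set K : Set (Fin 4 → ℤ) := {k | (cube s t k ∩ B).Nonempty} with hKdef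
  have hK : K.Finite := finite_cubes hs t B hB
  have hcB : ∀ k ∈ K, ∀ z ∈ cube s t k, ∃ b ∈ B, ‖z - b‖ ≤ 2 * s := by
    rintro k ⟨b, hbk, hbB⟩ z hz
    refine ⟨b, hbB, norm_le_of _ s hs.le fun i => ?_⟩
    have h1 := hz i
    have h2 := hbk i
    show |z i - b i| ≤ s
    rw [abs_le] at h1 h2 ⊢
    constructor <;> linarith [h1.1, h1.2, h2.1, h2.2]
  have hcO : ∀ k ∈ K, cube s t k ⊆ O := by
    intro k hk z hz
    obtain ⟨b, hb, hzb⟩ := hcB k hk z hz
    refine hBO b hb ?_
    rw [mem_closedBall, dist_eq_norm]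
    linarith
  have : Fintype K := hK.fintype
  let e := Fintype.equivFin (K × Fin 4 × Bool)
  refine ⟨Fintype.card (K × Fin 4 × Bool), fun n => ctr s t (e.symm n).1,
    fun n => hdir s (e.symm n).2.1 (e.symm n).2.2, ⟨?_, ?_⟩, ?_, ?_⟩
  · intro n hn
    have h1 := congrArg (fun v : E 4 => v (e.symm n).2.1) hn
    have h2 : (if (e.symm n).2.2 = true then s / 2 else -(s / 2)) = 0 := by
      have h3 : (hdir s (e.symm n).2.1 (e.symm n).2.2) (e.symm n).2.1 =
          if (e.symm n).2.2 = true then s / 2 else -(s / 2) := by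
        show (if (e.symm n).2.1 = (e.symm n).2.1 then _ else _) = _
        rw [if_pos rfl]
      rw [← h3]
      exact h1
    split_ifs at h2 <;> linarith
  · intro n n' hne σ hσ σ' hσ' h
    have key : ∀ n n' : Fin (Fintype.card (K × Fin 4 × Bool)), n ≠ n' →
        ∀ σ ∈ Icc (0 : ℝ) 1, ∀ σ' ∈ Icc (0 : ℝ) 1,
        ctr s t (e.symm n).1 + σ • hdir s (e.symm n).2.1 (e.symm n).2.2 =
          ctr s t (e.symm n').1 + σ' • hdir s (e.symm n').2.1 (e.symm n').2.2 →
        σ = 0 ∨ σ = 1 := by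
      intro n n' hne σ hσ σ' hσ' h
      by_contra hcon
      push Not at hcon
      obtain ⟨h1, h2, h3⟩ := half_inter hs t hσ hσ' h hcon.1 hcon.2
      apply hne
      apply e.symm.injective
      refine Prod.ext (Subtype.ext h1) (Prod.ext h2 h3)
    exact ⟨key n n' hne σ hσ σ' hσ' h, key n' n hne.symm σ' hσ' σ hσ h.symm⟩
  · rintro n z ⟨σ, hσ, rfl⟩
    exact hcO _ (e.symm n).1.2 (half_mem_cube hs t _ _ _ hσ)
  intro O' hO' hsub
  have hsub' : ∀ k ∈ K, ∀ i, ∀ b, ∀ σ ∈ Icc (0 : ℝ) 1, ctr s t k + σ • hdir s i b ∈ O' := by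
    intro k hk i b σ hσ
    have := hsub (e (⟨k, hk⟩, i, b)) ⟨σ, hσ, rfl⟩
    simpa using this
  -- the union of the cubes and the cutoff function
  let P : Set (E 4) := ⋃ k ∈ K, cube s t k
  have hP : ∀ k ∈ K, cube s t k ⊆ P := fun k hk => subset_biUnion_of_mem hk
  have hPc : IsClosed P := hK.isClosed_biUnion fun k _ => isClosed_cube s t k
  obtain ⟨R, hR⟩ : ∃ R : ℝ, ∀ z ∈ P, ‖z‖ < R := by
    obtain ⟨R, hR⟩ := hB.isBounded.exists_norm_le
    refine ⟨R + 2 * s + 1, fun z hz => ?_⟩
    obtain ⟨k, hk, hzk⟩ := mem_iUnion₂.1 hz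
    obtain ⟨b, hb, hzb⟩ := hcB k hk z hzk
    have h1 : ‖z‖ ≤ ‖z - b‖ + ‖b‖ := by
      calc ‖z‖ = ‖(z - b) + b‖ := by rw [sub_add_cancel]
        _ ≤ _ := norm_add_le _ _
    have h2 := hR b hb
    linarith
  have hUo : IsOpen (O ∩ ball (0 : E 4) R) := hO.inter isOpen_ball
  have hPU : P ⊆ interior (O ∩ ball (0 : E 4) R) := by
    rw [hUo.interior_eq]
    intro z hz
    refine ⟨?_, by rw [mem_ball_zero_iff]; exact hR z hz⟩
    obtain ⟨k, hk, hzk⟩ := mem_iUnion₂.1 hz
    exact hcO k hk hzk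
  obtain ⟨χ, hχ1, hχ0, hχ01⟩ := exists_contMDiffMap_one_nhds_of_subset_interior (𝓡 4) (n := ⊤)
    hPc hPU
  have hχs : ContDiff ℝ ∞ (χ : E 4 → ℝ) := contMDiff_iff_contDiff.1 χ.contMDiff
  have hχP : ∀ z ∈ P, χ z = 1 := fun z hz => hχ1.self_of_nhdsSet z hz
  -- the perturbation
  set a : ℝ := 2 * Real.pi / s with ha
  have ha0 : 0 < a := by positivity
  let h : E 4 → E 4 := fun z => χ z • X a t z
  have hh : ContDiff ℝ ∞ h := hχs.smul (contDiff_X a t)
  have hhs : HasCompactSupport h := by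
    refine HasCompactSupport.intro (isCompact_closedBall (0 : E 4) R) fun z hz => ?_
    have : z ∉ O ∩ ball (0 : E 4) R := fun hz' => hz (ball_subset_closedBall hz'.2)
    show χ z • X a t z = 0
    rw [hχ0 z this, zero_smul]
  obtain ⟨C, hC⟩ := (hh.continuous_fderiv (by simp)).bounded_above_of_compact_support
    (hhs.fderiv (𝕜 := ℝ))
  have hC0 : 0 ≤ C := (norm_nonneg _).trans (hC 0)
  obtain ⟨ε, hε0, hεa, hεC⟩ : ∃ ε : ℝ, 0 < ε ∧ ε * a ≤ 1 ∧ ε * C ≤ 1 / 2 := by
    refine ⟨1 / (2 * (a + C)), by positivity, ?_, ?_⟩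
    · rw [one_div_mul_eq_div, div_le_one (by positivity)]
      linarith
    · rw [one_div_mul_eq_div, div_le_div_iff₀ (by positivity) (by norm_num)]
      linarith
  let f : E 4 → E 4 := fun z => z + ε • h z
  have hf : IsDf 4 f := by
    refine Shift.pert (g := fun z => ε • h z) (q := 1 / 2) (hh.const_smul ε) (by norm_num) ?_
    intro z
    have h1 : HasFDerivAt (fun z => ε • h z) (ε • fderiv ℝ h z) z :=
      ((hh.differentiable (by simp)) z).hasFDerivAt.const_smul ε
    rw [h1.fderiv, norm_smul, Real.norm_of_nonneg hε0.le]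
    exact (mul_le_mul_of_nonneg_left (hC z) hε0.le).trans hεC
  have hf0 : ∀ z, z ∉ O ∩ ball (0 : E 4) R → f z = z := by
    intro z hz
    show z + ε • (χ z • X a t z) = z
    rw [hχ0 z hz, zero_smul, smul_zero, add_zero]
  have hap : a * (s / 2) = Real.pi := by rw [ha]; field_simp
  have hhalf : ∀ ε' : ℝ, 0 < ε' → ε' * a ≤ 1 → ∀ w : ℝ, |w| ≤ s / 2 → |ph a ε' w| ≤ s / 2 := by
    intro ε' hε' hε'a w hw
    have h1 := ph_bound ha0 hε' hε'a (half_pos hs) hap.le hw
    rw [hap, Real.sin_pi, mul_zero, zero_div, sub_zero, one_mul] at h1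
    exact h1.trans hw
  -- all the cubes are invariant
  have hcube : ∀ k, ∀ z ∈ cube s t k, f z ∈ cube s t k := by
    intro k z hz i
    have h1 : (f z) i - cen s t k i = ph a (ε * χ z) (z i - cen s t k i) := by
      show z i + ε * (χ z * X a t z i) - cen s t k i = _
      rw [ha, X_apply hs t z k i]
      unfold ph
      ring
    rw [h1]
    have h2 := hχ01 z
    rcases h2.1.eq_or_lt with h3 | h3
    · rw [← h3, mul_zero]
      unfold ph
      rw [zero_mul, sub_zero]
      exact hz i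
    · refine hhalf _ (mul_pos hε0 h3) ?_ _ (hz i)
      have h4 : ε * χ z * a ≤ ε * 1 * a := by
        have := h2.2
        gcongr
      linarith
  have hcubeJ : ∀ k, ∀ z ∈ cube s t k, ∀ J : ℕ, f^[J] z ∈ cube s t k := by
    intro k z hz J
    induction J with
    | zero => exact hz
    | succ J ih =>
      rw [Function.iterate_succ_apply']
      exact hcube k _ ih
  -- the action on the cubes
  have hfk : ∀ k ∈ K, ∀ z ∈ cube s t k, ∀ i,
      (f z) i - cen s t k i = ph a ε (z i - cen s t k i) := by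
    intro k hk z hz i
    have h1 : χ z = 1 := hχP z (hP k hk hz)
    show z i + ε * (χ z * X a t z i) - cen s t k i = _
    rw [h1, one_mul, ha, X_apply hs t z k i]
    unfold ph
    ring
  have hiter : ∀ k ∈ K, ∀ z ∈ cube s t k, ∀ J : ℕ, ∀ i,
      (f^[J] z) i - cen s t k i = (ph a ε)^[J] (z i - cen s t k i) := by
    intro k hk z hz J i
    induction J with
    | zero => rfl
    | succ J ih =>
      rw [Function.iterate_succ_apply', Function.iterate_succ_apply',
        hfk k hk _ (hcubeJ k z hz J) i, ih]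
  -- convergence to the axes
  obtain ⟨r, hr0, hrs, hr⟩ := exists_r' hs t B hB ht
  have har : a * r < Real.pi := by
    rw [← hap]
    exact mul_lt_mul_of_pos_left hrs ha0
  set q : ℝ := 1 - ε * Real.sin (a * r) / r with hq
  have hq0 : 0 ≤ q := (q_mem ha0 hε0 hεa hr0 har.le).1
  have hq1 : q < 1 := by
    have h1 : 0 < Real.sin (a * r) := Real.sin_pos_of_pos_of_lt_pi (by positivity) har
    have h2 : 0 < ε * Real.sin (a * r) / r := by positivity
    rw [hq]
    linarith
  -- a neighbourhood of the axes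
  let Γ : Set (E 4) := ⋃ k ∈ K, ⋃ i : Fin 4, ⋃ b : Bool,
    (fun σ : ℝ => ctr s t k + σ • hdir s i b) '' Icc 0 1
  have hΓ : IsCompact Γ := by
    refine hK.isCompact_biUnion fun k _ => isCompact_iUnion fun i => isCompact_iUnion fun b => ?_
    exact isCompact_Icc.image (by fun_prop)
  have hΓO : Γ ⊆ O' := by
    intro z hz
    obtain ⟨k, hk, hz⟩ := mem_iUnion₂.1 hz
    obtain ⟨i, hz⟩ := mem_iUnion.1 hz
    obtain ⟨b, hz⟩ := mem_iUnion.1 hz
    obtain ⟨σ, hσ, rfl⟩ := hz
    exact hsub' k hk i b σ hσ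
  obtain ⟨η, hη, hηO⟩ := hΓ.exists_thickening_subset_open hO' hΓO
  obtain ⟨J, hJ⟩ : ∃ J : ℕ, 2 * (q ^ J * r) < η := by
    have h1 : Tendsto (fun J : ℕ => 2 * (q ^ J * r)) atTop (𝓝 (2 * (0 * r))) :=
      ((tendsto_pow_atTop_nhds_zero_of_lt_one hq0 hq1).mul_const r).const_mul 2
    rw [zero_mul, mul_zero] at h1
    exact (h1.eventually_lt_const hη).exists
  refine ⟨f^[J], ⟨Shift.isDf_iter hf J, ⟨R, fun z hz => ?_⟩, fun z hz => ?_⟩, fun z => ?_,
    fun z hz => ?_⟩
  · refine Function.iterate_fixed (hf0 z fun hz' => ?_) J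
    have := hz'.2
    rw [mem_ball_zero_iff] at this
    linarith
  · exact Function.iterate_fixed (hf0 z fun hz' => hz hz'.1) J
  · obtain ⟨k, hk⟩ := exists_cube hs t z
    have h1 := hcubeJ k z hk J
    have h2 : ‖f^[J] z - z‖ ≤ 2 * s := by
      refine norm_le_of _ s hs.le fun i => ?_
      have h3 := h1 i
      have h4 := hk i
      show |(f^[J] z) i - z i| ≤ s
      rw [abs_le] at h3 h4 ⊢
      constructor <;> linarith [h3.1, h3.2, h4.1, h4.2]
    linarith
  · obtain ⟨k, hzk⟩ := exists_cube hs t z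
    have hk : k ∈ K := ⟨z, hzk, hz⟩
    obtain ⟨i₀, hi₀⟩ := hr k z hz hzk
    have h1 := hcubeJ k z hzk J
    have h2 := hiter k hk z hzk J
    set y := f^[J] z with hy
    set w : ℝ := y i₀ - cen s t k i₀ with hw
    have hwle : |w| ≤ s / 2 := h1 i₀
    obtain ⟨b, hb⟩ : ∃ b : Bool, w = |w| * (if b then 1 else -1) := by
      rcases le_total 0 w with h | h
      · exact ⟨true, by simp [abs_of_nonneg h]⟩
      · exact ⟨false, by simp [abs_of_nonpos h]⟩
    set σ : ℝ := |w| / (s / 2) with hσ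
    have hσI : σ ∈ Icc (0 : ℝ) 1 := by
      constructor
      · positivity
      · rw [hσ, div_le_one (by positivity)]
        exact hwle
    have hΓm : ctr s t k + σ • hdir s i₀ b ∈ Γ :=
      mem_iUnion₂.2 ⟨k, hk, mem_iUnion.2 ⟨i₀, mem_iUnion.2 ⟨b, σ, hσI, rfl⟩⟩⟩
    refine hηO (mem_thickening_iff.2 ⟨_, hΓm, ?_⟩)
    rw [dist_eq_norm]
    refine lt_of_le_of_lt (norm_le_of _ (q ^ J * r) (by positivity) fun i => ?_) hJ
    show |y i - (ctr s t k + σ • hdir s i₀ b) i| ≤ _
    rw [half_apply]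
    split_ifs with h hb'
    · subst h
      have h4 : y i - (cen s t k i + σ * (s / 2)) = 0 := by
        rw [if_pos hb', mul_one] at hb
        have h5 : σ * (s / 2) = w := by
          rw [hσ, ← hb]
          field_simp
        rw [h5, hw]
        ring
      rw [h4, abs_zero]
      positivity
    · subst h
      have h4 : y i - (cen s t k i + σ * -(s / 2)) = 0 := by
        rw [if_neg hb'] at hb
        have h5 : σ * -(s / 2) = w := by
          rw [hσ]
          have : |w| / (s / 2) * -(s / 2) = |w| * -1 := by field_simp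
          rw [this, ← hb]
        rw [h5, hw]
        ring
      rw [h4, abs_zero]
      positivity
    · rw [h2 i]
      refine (ph_iter ha0 hε0 hεa hr0 har.le (hi₀ i h) J).trans ?_
      exact mul_le_mul_of_nonneg_left (hi₀ i h) (by positivity)

end Pool.Agent.T2h58.Grg
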