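import Pool.Agent.T2h58.Stm2
import Pool.Agent.N550.KH.Asm
import Pool.Agent.N550.KH.Null
import Pool.Agent.N550.KH.End

/-!
# Project SC (simply connected): one more segment (helper59)

The homotopy between the segment and a path in the cell is cut into small squares; the path is moved
over the squares one after the other by generic detours.
-/

set_option autoImplicit false

open Set Filter Topology Metric Function MeasureTheory
open scoped Manifold ContDiff NNReal unitInterval

noncomputable section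

namespace Pool.Agent.T2h58.Hom

open Pool.Agent.Y522 Pool.Agent.N550 Pool.Agent.N550.KH Pool.Agent.N550.KH.End Pool.Agent.T2h58

section cells

variable {M : Type} [TopologicalSpace M] [ChartedSpace (E 4) M]

theorem emb {c : E 4 → M} (hc : CellMap c) : IsOpenEmbedding c :=
  KH.Asm.isOpenEmb hc.1 hc.2

theorem exists_cell [IsManifold (𝓡 4) ∞ M] (u : M) : ∃ g : E 4 → M, CellMap g ∧ g 0 = u := by
  set e := chartAt (E 4) u with he
  have h1 : e.target ∈ 𝓝 (e u) := e.open_target.mem_nhds (e.map_source (mem_chart_source _ _))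
  obtain ⟨ρ, hρ, hball⟩ := Metric.mem_nhds_iff.1 h1
  have hmem : ∀ z, jb ρ z + e u ∈ e.target := fun z => hball (by
    rw [mem_ball, dist_eq_norm, add_sub_cancel_right]
    exact jb_norm ρ hρ z)
  refine ⟨fun z => e.symm (jb ρ z + e u), ⟨?_, ?_⟩, ?_⟩
  · intro x y hxy
    have := e.symm.injOn (hmem x) (hmem y) hxy
    exact jb_inj ρ hρ (add_right_cancel this)
  · intro z
    exact LD.comp_fun (g := e.symm) (f := fun z => jb ρ z + e u)
      (Null.ld_chart_symm u _ (hmem z))
      (LD.comp_fun (g := fun y => y + e u) (f := jb ρ) (LD_add_const _ _) (jb_LD ρ hρ z))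
  · change e.symm (jb ρ 0 + e u) = u
    rw [jb_zero, zero_add, e.left_inv (mem_chart_source _ _)]

theorem cel_mono {S S' : Set M} (h : Cel S) (hS : S' ⊆ S) : Cel S' := by
  obtain ⟨c, hc, hs⟩ := h
  exact ⟨c, hc, hS.trans hs⟩

theorem null_union {A B : Set M} (hA : NullH2 4 A) (hB : NullH2 4 B) : NullH2 4 (A ∪ B) := by
  intro h hi hd
  rw [preimage_union]
  exact measure_union_null (hA h hi hd) (hB h hi hd)

theorem null_biUnion {J : Set ℕ} {S : ℕ → Set M} (h : ∀ m ∈ J, NullH2 4 (S m)) :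
    NullH2 4 (⋃ m ∈ J, S m) := by
  intro g hi hd
  rw [preimage_iUnion₂]
  exact (measure_biUnion_null_iff J.to_countable).2 fun m hm => h m hm g hi hd

end cells

section metric

variable {M : Type} [MetricSpace M] [ChartedSpace (E 4) M]

theorem chart_const {g : E 4 → M} (hg : CellMap g) {r : ℝ} (hr : 0 < r) :
    ∃ δ : ℝ, 0 < δ ∧ ∀ a ∈ ball (0 : E 4) 1, ∀ b ∈ ball (0 : E 4) 1, dist (g a) (g b) < δ →
      ∀ z ∈ segment ℝ a b, dist (g z) (g a) < r := by
  have hcont : Continuous g := (emb hg).continuous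
  have hK : IsCompact (closedBall (0 : E 4) 1) := isCompact_closedBall _ _
  have huc := hK.uniformContinuousOn_of_continuous hcont.continuousOn
  rw [Metric.uniformContinuousOn_iff] at huc
  obtain ⟨ε, hε, huc⟩ := huc r hr
  set C : Set (E 4 × E 4) := (closedBall 0 1 ×ˢ closedBall 0 1) ∩ {p | ε ≤ dist p.1 p.2} with hC
  have hCc : IsCompact C := (hK.prod hK).inter_right
    (isClosed_le continuous_const (continuous_fst.dist continuous_snd))
  obtain ⟨δ, hδ, hmin⟩ : ∃ δ : ℝ, 0 < δ ∧ ∀ p ∈ C, δ ≤ dist (g p.1) (g p.2) := by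
    rcases C.eq_empty_or_nonempty with h | h
    · exact ⟨1, one_pos, fun p hp => by rw [h] at hp; exact absurd hp (notMem_empty _)⟩
    · obtain ⟨p, hp, hmin⟩ := hCc.exists_isMinOn h
        (f := fun p : E 4 × E 4 => dist (g p.1) (g p.2))
        ((hcont.comp continuous_fst).dist (hcont.comp continuous_snd)).continuousOn
      refine ⟨dist (g p.1) (g p.2), ?_, fun q hq => hmin hq⟩
      rw [dist_pos]
      intro h
      have h1 : p.1 = p.2 := hg.1 h
      have h2 : ε ≤ dist p.1 p.2 := hp.2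
      rw [h1, dist_self] at h2
      linarith
  refine ⟨δ, hδ, ?_⟩
  intro a ha b hb hab z hz
  have hab' : dist a b < ε := by
    by_contra h
    exact absurd (hmin (a, b) ⟨⟨ball_subset_closedBall ha, ball_subset_closedBall hb⟩,
      not_lt.1 h⟩) (not_le.2 hab)
  apply huc z ((convex_closedBall _ _).segment_subset (ball_subset_closedBall ha)
    (ball_subset_closedBall hb) hz) a (ball_subset_closedBall ha)
  have h1 : z ∈ segment ℝ a b := hz
  rw [segment_eq_image_lineMap] at h1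
  obtain ⟨t, ht, rfl⟩ := h1
  rw [dist_lineMap_left, Real.norm_of_nonneg ht.1]
  calc t * dist a b ≤ 1 * dist a b := mul_le_mul_of_nonneg_right ht.2 dist_nonneg
    _ = dist a b := one_mul _
    _ < ε := hab'

theorem local_const [CompactSpace M] [IsManifold (𝓡 4) ∞ M] :
    ∃ l : ℝ, 0 < l ∧ ∀ r : ℝ, 0 < r → ∃ δ : ℝ, 0 < δ ∧ ∀ u : M, ∃ g : E 4 → M, CellMap g ∧
      ball u l ⊆ g '' ball 0 1 ∧ ∀ a ∈ ball (0 : E 4) 1, ∀ b ∈ ball (0 : E 4) 1,
        dist (g a) (g b) < δ → ∀ z ∈ segment ℝ a b, dist (g z) (g a) < r := by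
  choose g hg hg0 using fun u : M => exists_cell u
  have hopen : ∀ u, IsOpen (g u '' ball 0 1) := fun u => (emb (hg u)).isOpenMap _ isOpen_ball
  obtain ⟨t, ht⟩ := isCompact_univ.elim_finite_subcover (fun u : M => g u '' ball 0 1) hopen
    (fun u _ => mem_iUnion.2 ⟨u, 0, mem_ball_self one_pos, hg0 u⟩)
  have ht' : (univ : Set M) ⊆ ⋃ i : t, g i '' ball 0 1 := by
    intro x hx
    obtain ⟨i, hi, hxi⟩ := mem_iUnion₂.1 (ht hx)
    exact mem_iUnion.2 ⟨⟨i, hi⟩, hxi⟩
  obtain ⟨l, hl, hleb⟩ := lebesgue_number_lemma_of_metric isCompact_univ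
    (c := fun i : t => g i '' ball 0 1) (fun i => hopen i) ht'
  refine ⟨l, hl, fun r hr => ?_⟩
  have h1 : ∀ i : t, ∀ᶠ δ in 𝓝[>] (0 : ℝ), ∀ a ∈ ball (0 : E 4) 1, ∀ b ∈ ball (0 : E 4) 1,
      dist (g i a) (g i b) < δ → ∀ z ∈ segment ℝ a b, dist (g i z) (g i a) < r := by
    intro i
    obtain ⟨δ, hδ, h⟩ := chart_const (hg i) hr
    filter_upwards [Ioo_mem_nhdsGT hδ] with δ' hδ' a ha b hb hab
    exact h a ha b hb (hab.trans hδ'.2)
  obtain ⟨δ, hδ, hδ0⟩ := ((eventually_all.2 h1).and self_mem_nhdsWithin).exists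
  refine ⟨δ, hδ0, fun u => ?_⟩
  obtain ⟨i, hi⟩ := hleb u (mem_univ u)
  exact ⟨g i, hg i, hi, hδ i⟩

/-- a chain of thin connected sets near the points `u 0, …, u L` -/
def Chain (T : Set M) (L : ℕ) (η r : ℝ) (u : ℕ → M) : Prop :=
  ∃ (v : ℕ → M) (S : ℕ → Set M), v 0 = u 0 ∧ v L = u L ∧ (∀ m ≤ L, dist (v m) (u m) < η) ∧
    (∀ m < L, IsCompact (S m) ∧ IsConnected (S m) ∧ NullH2 4 (S m) ∧ v m ∈ S m ∧
      v (m + 1) ∈ S m ∧ S m ⊆ ball (u m) r) ∧ Cel (T ∪ ⋃ m ∈ Iio L, S m)

theorem chain_congr {T : Set M} {L : ℕ} {η r : ℝ} {u u' : ℕ → M} (h : Chain T L η r u)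
    (hu : ∀ k ≤ L, u k = u' k) : Chain T L η r u' := by
  obtain ⟨v, S, h0, hL, hv, hS, hC⟩ := h
  refine ⟨v, S, ?_, ?_, ?_, ?_, hC⟩
  · rw [h0, hu 0 (Nat.zero_le _)]
  · rw [hL, hu L le_rfl]
  · intro m hm
    rw [← hu m hm]
    exact hv m hm
  · intro m hm
    rw [← hu m hm.le]
    exact hS m hm

theorem move [IsManifold (𝓡 4) ∞ M] (hD : T_DET) (hTH : T_THIN) {T : Set M} (hT : IsCompact T)
    (hTn : NullH2 4 T) {l δ η : ℝ} (hη : 0 < η) (hηl : η ≤ l / 4) (hηδ : 3 * η ≤ δ)
    (hloc : ∀ u : M, ∃ g : E 4 → M, CellMap g ∧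
      ball u l ⊆ g '' ball 0 1 ∧ ∀ a ∈ ball (0 : E 4) 1, ∀ b ∈ ball (0 : E 4) 1,
        dist (g a) (g b) < δ → ∀ z ∈ segment ℝ a b, dist (g z) (g a) < l / 4)
    {u : ℕ → M} {L m : ℕ} (hm : m + 1 < L) {x : M} (h1 : dist (u m) x < η)
    (h2 : dist (u (m + 1)) x < η) (h3 : dist (u (m + 2)) x < η)
    (h4 : dist (u m) (u (m + 1)) < η) (h : Chain T L η (l / 2) u) :
    Chain T L η (l / 2) (update u (m + 1) x) := by
  obtain ⟨v, S, hv0, hvL, hv, hS, hC⟩ := h
  obtain ⟨g, hg, hgl, hgs⟩ := hloc (u (m + 1))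
  have hl : 0 < l := by linarith
  have hge := emb hg
  obtain ⟨c1, k1, n1, m1, m1', b1⟩ := hS m (by omega)
  obtain ⟨c2, k2, n2, m2, m2', b2⟩ := hS (m + 1) hm
  -- the two pieces in the chart
  have hr1 : S m ⊆ ball (u (m + 1)) l := by
    intro z hz
    have := mem_ball.1 (b1 hz)
    rw [mem_ball]
    have h5 := dist_triangle z (u m) (u (m + 1))
    linarith
  have hr2 : S (m + 1) ⊆ ball (u (m + 1)) l := b2.trans (ball_subset_ball (by linarith))
  have hrange : S m ∪ S (m + 1) ⊆ range g :=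
    (union_subset hr1 hr2).trans (hgl.trans (image_subset_range _ _))
  set β : Set (E 4) := g ⁻¹' (S m ∪ S (m + 1)) with hβ
  have hgβ : g '' β = S m ∪ S (m + 1) := image_preimage_eq_of_subset hrange
  have hβc : IsCompact β := (hge.isInducing.isCompact_preimage_iff hrange).2 (c1.union c2)
  have hcon : IsConnected (S m ∪ S (m + 1)) := IsConnected.union ⟨v (m + 1), m1', m2⟩ k1 k2
  have hβk : IsConnected β := by
    refine ⟨?_, ?_⟩
    · obtain ⟨y, hy⟩ := hcon.1
      obtain ⟨z, rfl⟩ := hrange hy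
      exact ⟨z, hy⟩
    · rw [← hge.isInducing.isPreconnected_image, hgβ]
      exact hcon.2
  obtain ⟨a, ha, hga⟩ := hgl (hr1 m1)
  obtain ⟨b, hb, hgb⟩ := hgl (hr2 m2')
  have haβ : a ∈ β := by
    change g a ∈ S m ∪ S (m + 1)
    rw [hga]
    exact Or.inl m1
  have hbβ : b ∈ β := by
    change g b ∈ S m ∪ S (m + 1)
    rw [hgb]
    exact Or.inr m2'
  -- the rest
  set J : Set ℕ := {k | k < L ∧ k ≠ m ∧ k ≠ m + 1} with hJ
  have hJf : J.Finite := (finite_lt_nat L).subset fun k hk => hk.1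
  set T₁ : Set M := T ∪ ⋃ k ∈ J, S k with hT₁
  have hT₁c : IsCompact T₁ := hT.union (hJf.isCompact_biUnion fun k hk => (hS k hk.1).1)
  have hT₁n : NullH2 4 T₁ := null_union hTn (null_biUnion fun k hk => (hS k hk.1).2.2.1)
  have hcel : Cel (T₁ ∪ g '' β) := by
    refine cel_mono hC ?_
    rw [hgβ]
    rintro z ((hz | hz) | (hz | hz))
    · exact Or.inl hz
    · obtain ⟨k, hk, hz⟩ := mem_iUnion₂.1 hz
      exact Or.inr (mem_iUnion₂.2 ⟨k, hk.1, hz⟩)
    · exact Or.inr (mem_iUnion₂.2 ⟨m, by simp only [mem_Iio]; omega, hz⟩)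
    · exact Or.inr (mem_iUnion₂.2 ⟨m + 1, hm, hz⟩)
  have hdet := hD M g T₁ β a b hg hT₁c (hT₁n g hg.1 hg.2) hβc hβk haβ hbβ hcel
  -- the choice of `w`
  have hxl : x ∈ ball (u (m + 1)) l := by
    rw [mem_ball, dist_comm]
    linarith
  obtain ⟨z₀, hz₀, hgz₀⟩ := hgl hxl
  obtain ⟨w, ⟨hwb, hwx⟩, hwc⟩ : ∃ w ∈ ball (0 : E 4) 1 ∩ g ⁻¹' ball x η,
      Cel (T₁ ∪ g '' (segment ℝ a w ∪ segment ℝ w b)) := by
    by_contra hcon
    push Not at hcon
    have h5 : ball (0 : E 4) 1 ∩ g ⁻¹' ball x η ⊆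
        {w | ¬ Cel (T₁ ∪ g '' (segment ℝ a w ∪ segment ℝ w b))} := fun w hw => hcon w hw
    have h6 := measure_mono_null h5 (ae_iff.1 hdet)
    have h7 : IsOpen (ball (0 : E 4) 1 ∩ g ⁻¹' ball x η) :=
      isOpen_ball.inter (isOpen_ball.preimage hge.continuous)
    have h8 : (ball (0 : E 4) 1 ∩ g ⁻¹' ball x η).Nonempty :=
      ⟨z₀, hz₀, by change g z₀ ∈ ball x η; rw [hgz₀]; exact mem_ball_self hη⟩
    exact (h7.measure_pos volume h8).ne' h6
  have hwx' : dist (g w) x < η := hwx
  -- the new pieces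
  have hvm := hv m (by omega)
  have hvm2 := hv (m + 1 + 1) (by omega)
  have hA : ∀ z ∈ segment ℝ a w, dist (g z) (g a) < l / 4 := by
    refine hgs a ha w hwb ?_
    rw [hga]
    have e1 := dist_triangle (v m) (u m) (g w)
    have e2 := dist_triangle (u m) x (g w)
    have e3 := dist_comm x (g w)
    linarith
  have hB : ∀ z ∈ segment ℝ w b, dist (g z) (g w) < l / 4 := by
    refine hgs w hwb b hb ?_
    rw [hgb]
    have e1 := dist_triangle (g w) x (v (m + 1 + 1))
    have e2 := dist_triangle x (u (m + 1 + 1)) (v (m + 1 + 1))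
    have e3 := dist_comm x (u (m + 1 + 1))
    have e4 := dist_comm (u (m + 1 + 1)) (v (m + 1 + 1))
    have h3' : dist (u (m + 1 + 1)) x < η := h3
    linarith
  have hcs : ∀ a b : E 4, IsCompact (g '' segment ℝ a b) ∧ IsConnected (g '' segment ℝ a b) := by
    intro a b
    have h5 : segment ℝ a b = AffineMap.lineMap (k := ℝ) a b '' Icc (0 : ℝ) 1 :=
      segment_eq_image_lineMap ℝ a b
    have h6 : Continuous (AffineMap.lineMap (k := ℝ) a b) := AffineMap.lineMap_continuous
    rw [h5]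
    exact ⟨(isCompact_Icc.image h6).image hge.continuous,
      ((isConnected_Icc zero_le_one).image _ h6.continuousOn).image _ hge.continuous.continuousOn⟩
  have hvn : ∀ k, k ≠ m + 1 → update v (m + 1) (g w) k = v k := fun k hk => update_of_ne hk _ _
  have hun : ∀ k, k ≠ m + 1 → update u (m + 1) x k = u k := fun k hk => update_of_ne hk _ _
  set S' : ℕ → Set M := fun k => if k = m then g '' segment ℝ a w else
    if k = m + 1 then g '' segment ℝ w b else S k with hS'
  have hS'm : S' m = g '' segment ℝ a w := by simp [hS']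
  have hS'm1 : S' (m + 1) = g '' segment ℝ w b := by simp [hS']
  have hS'k : ∀ k, k ≠ m → k ≠ m + 1 → S' k = S k := by
    intro k e1 e2
    simp [hS', e1, e2]
  refine ⟨update v (m + 1) (g w), S', ?_, ?_, ?_, ?_, ?_⟩
  · rw [hvn 0 (by omega), hun 0 (by omega), hv0]
  · rw [hvn L (by omega), hun L (by omega), hvL]
  · intro k hk
    by_cases e : k = m + 1
    · subst e
      rw [update_self, update_self]
      exact hwx'
    · rw [hvn k e, hun k e]
      exact hv k hk
  · intro k hk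
    by_cases e : k = m
    · subst e
      rw [hS'm, hvn k (by omega), update_self, hun k (by omega)]
      refine ⟨(hcs a w).1, (hcs a w).2, (hTH M).2 g a w hg, ⟨a, left_mem_segment _ _ _, hga⟩,
        ⟨w, right_mem_segment _ _ _, rfl⟩, ?_⟩
      rintro _ ⟨z, hz, rfl⟩
      have e1 := hA z hz
      rw [hga] at e1
      have e2 := dist_triangle (g z) (v k) (u k)
      rw [mem_ball]
      linarith
    · by_cases e' : k = m + 1
      · subst e'
        rw [hS'm1, update_self, update_self, hvn (m + 1 + 1) (by omega)]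
        refine ⟨(hcs w b).1, (hcs w b).2, (hTH M).2 g w b hg, ⟨w, left_mem_segment _ _ _, rfl⟩,
          ⟨b, right_mem_segment _ _ _, hgb⟩, ?_⟩
        rintro _ ⟨z, hz, rfl⟩
        have e1 := hB z hz
        have e2 := dist_triangle (g z) (g w) x
        rw [mem_ball]
        linarith
      · rw [hS'k k e e', hvn k e', hvn (k + 1) (by omega), hun k e']
        exact hS k hk
  · refine cel_mono hwc ?_
    rintro z (hz | hz)
    · exact Or.inl (Or.inl hz)
    · obtain ⟨k, hk, hz⟩ := mem_iUnion₂.1 hz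
      by_cases e : k = m
      · subst e
        rw [hS'm] at hz
        exact Or.inr (image_mono subset_union_left hz)
      · by_cases e' : k = m + 1
        · subst e'
          rw [hS'm1] at hz
          exact Or.inr (image_mono subset_union_right hz)
        · rw [hS'k k e e'] at hz
          exact Or.inl (Or.inr (mem_iUnion₂.2 ⟨k, ⟨hk, e, e'⟩, hz⟩))

theorem rows [IsManifold (𝓡 4) ∞ M] (hD : T_DET) (hTH : T_THIN) {T : Set M} (hT : IsCompact T)
    (hTn : NullH2 4 T) {l δ η : ℝ} (hη : 0 < η) (hηl : η ≤ l / 4) (hηδ : 3 * η ≤ δ)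
    (hloc : ∀ u : M, ∃ g : E 4 → M, CellMap g ∧
      ball u l ⊆ g '' ball 0 1 ∧ ∀ a ∈ ball (0 : E 4) 1, ∀ b ∈ ball (0 : E 4) 1,
        dist (g a) (g b) < δ → ∀ z ∈ segment ℝ a b, dist (g z) (g a) < l / 4)
    {u u' : ℕ → M} {L : ℕ} (hL : 0 < L) (h0 : u 0 = u' 0) (hLL : u L = u' L)
    (h1 : ∀ k, dist (u' k) (u' (k + 1)) < η) (h2 : ∀ k, dist (u k) (u' k) < η)
    (h3 : ∀ k, dist (u (k + 1)) (u' k) < η) (h4 : ∀ k, dist (u' k) (u (k + 1)) < η)
    (h : Chain T L η (l / 2) u) : Chain T L η (l / 2) u' := by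
  have key : ∀ j, j + 1 ≤ L → Chain T L η (l / 2) fun k => if k < j + 1 then u' k else u k := by
    intro j
    induction j with
    | zero =>
      intro _
      refine chain_congr h fun k _ => ?_
      rcases Nat.eq_zero_or_pos k with rfl | hk
      · simp [h0]
      · rw [if_neg (by omega)]
    | succ j ih =>
      intro hj
      refine chain_congr (move hD hTH hT hTn hη hηl hηδ hloc (m := j) (x := u' (j + 1)) (by omega)
        ?_ ?_ ?_ ?_ (ih (by omega))) fun k _ => ?_
      · rw [if_pos (by omega)]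
        exact h1 j
      · rw [if_neg (by omega)]
        exact h2 (j + 1)
      · rw [if_neg (by omega)]
        exact h3 (j + 1)
      · rw [if_pos (by omega), if_neg (by omega)]
        exact h4 j
      · by_cases e : k = j + 1
        · subst e
          rw [update_self, if_pos (by omega)]
        · rw [update_of_ne e]
          by_cases e' : k < j + 1
          · rw [if_pos e', if_pos (by omega)]
          · rw [if_neg e', if_neg (by omega)]
  obtain ⟨j, rfl⟩ : ∃ j, L = j + 1 := ⟨L - 1, by omega⟩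
  refine chain_congr (key j le_rfl) fun k hk => ?_
  by_cases e : k < j + 1
  · rw [if_pos e]
  · have : k = j + 1 := by omega
    subst this
    rw [if_neg e, hLL]

/-- `k / N` in the unit interval -/
def tt (N k : ℕ) : I := projIcc 0 1 zero_le_one ((k : ℝ) / N)

theorem tt_zero (N : ℕ) : tt N 0 = 0 := by
  unfold tt
  rw [Nat.cast_zero, zero_div, projIcc_of_le_left (zero_le_one (α := ℝ)) le_rfl]
  rfl

theorem tt_self (N : ℕ) (hN : 0 < N) : tt N N = 1 := by
  unfold tt
  rw [div_self (by positivity), projIcc_of_right_le (zero_le_one (α := ℝ)) le_rfl]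
  rfl

theorem tt_dist (N k : ℕ) : dist (tt N k) (tt N (k + 1)) ≤ 1 / N := by
  have h1 : |((tt N k : I) : ℝ) - (tt N (k + 1) : I)| ≤ |(k : ℝ) / N - ((k + 1 : ℕ) : ℝ) / N| :=
    abs_projIcc_sub_projIcc zero_le_one
  have h2 : dist (tt N k) (tt N (k + 1)) = |((tt N k : I) : ℝ) - (tt N (k + 1) : I)| := rfl
  rw [h2]
  refine h1.trans (le_of_eq ?_)
  rw [← sub_div]
  push_cast
  rw [show (k : ℝ) - (k + 1) = -1 by ring, neg_div, abs_neg, abs_of_nonneg (by positivity)]

theorem main_metric [CompactSpace M] [IsManifold (𝓡 4) ∞ M] [SimplyConnectedSpace M]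
    (hD : T_DET) (hST : T_STR) (hTH : T_THIN) {T : Set M} (hT : IsCompact T)
    (hTn : NullH2 4 T) (hTc : Cel T) {h : E 4 → M} {x y : E 4} (hh : CellMap h)
    (hx : h x ∈ T) (hy : h y ∈ T) (hseg : ∀ z ∈ segment ℝ x y, h z ∈ T → z = x ∨ z = y) :
    Cel (T ∪ h '' segment ℝ x y) := by
  obtain ⟨c₀, hc₀, hTr⟩ := hTc
  obtain ⟨a₀, ha₀⟩ := hTr hx
  obtain ⟨b₀, hb₀⟩ := hTr hy
  have hhe := emb hh
  have hce := emb hc₀
  -- the paths
  let α : Path (h x) (h y) :=
    { toFun := fun s => c₀ (AffineMap.lineMap a₀ b₀ (s : ℝ))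
      continuous_toFun := hce.continuous.comp
        (AffineMap.lineMap_continuous.comp continuous_subtype_val)
      source' := by simp [ha₀]
      target' := by simp [hb₀] }
  let e : Path (h x) (h y) :=
    { toFun := fun s => h (AffineMap.lineMap x y (s : ℝ))
      continuous_toFun := hhe.continuous.comp
        (AffineMap.lineMap_continuous.comp continuous_subtype_val)
      source' := by simp
      target' := by simp }
  have hα : ∀ s : I, α s = c₀ (AffineMap.lineMap a₀ b₀ (s : ℝ)) := fun s => rfl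
  have he : ∀ s : I, e s = h (AffineMap.lineMap x y (s : ℝ)) := fun s => rfl
  obtain ⟨F⟩ := SimplyConnectedSpace.paths_homotopic α e
  -- the constants
  have hKc : IsCompact (range e) := isCompact_range e.continuous
  have hKr : range e ⊆ range h := by
    rintro _ ⟨s, rfl⟩
    exact ⟨_, rfl⟩
  obtain ⟨r₀, hr₀, hthick⟩ := hKc.exists_thickening_subset_open hhe.isOpen_range hKr
  obtain ⟨l₁, hl₁, hloc₁⟩ := local_const (M := M)
  set l : ℝ := min l₁ r₀ with hl
  have hl0 : 0 < l := lt_min hl₁ hr₀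
  obtain ⟨δ, hδ, hloc₂⟩ := hloc₁ (l / 4) (by positivity)
  have hloc : ∀ u : M, ∃ g : E 4 → M, CellMap g ∧
      ball u l ⊆ g '' ball 0 1 ∧ ∀ a ∈ ball (0 : E 4) 1, ∀ b ∈ ball (0 : E 4) 1,
        dist (g a) (g b) < δ → ∀ z ∈ segment ℝ a b, dist (g z) (g a) < l / 4 := by
    intro u
    obtain ⟨g, h1, h2, h3⟩ := hloc₂ u
    exact ⟨g, h1, (ball_subset_ball (min_le_left _ _)).trans h2, h3⟩
  set η : ℝ := min (l / 4) (δ / 3) with hη
  have hη0 : 0 < η := lt_min (by positivity) (by positivity)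
  have hηl : η ≤ l / 4 := min_le_left _ _
  have hηδ : 3 * η ≤ δ := by
    have := min_le_right (l / 4) (δ / 3)
    linarith
  have huc := CompactSpace.uniformContinuous_of_continuous F.continuous
  rw [Metric.uniformContinuous_iff] at huc
  obtain ⟨ε, hε, huc⟩ := huc η hη0
  obtain ⟨N₀, hN₀⟩ := exists_nat_one_div_lt hε
  set N : ℕ := N₀ + 1 with hN
  have hNpos : 0 < N := Nat.succ_pos _
  have hN1 : 1 / (N : ℝ) < ε := by rw [hN]; push_cast; exact hN₀
  -- the grid
  set f : ℕ → ℕ → M := fun i k => F (tt N i, tt N k) with hf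
  have hclose : ∀ p q : I × I, dist p.1 q.1 ≤ 1 / N → dist p.2 q.2 ≤ 1 / N →
      dist (F p) (F q) < η := by
    intro p q h1 h2
    apply huc
    rw [Prod.dist_eq]
    exact max_lt (h1.trans_lt hN1) (h2.trans_lt hN1)
  have hN0 : (0 : ℝ) ≤ 1 / N := by positivity
  have hd0 : ∀ s : I, dist s s ≤ 1 / (N : ℝ) := fun s => by rw [dist_self]; exact hN0
  -- the first row
  have hrow0 : Chain T N η (l / 2) (f 0) := by
    have hf0 : ∀ k, f 0 k = c₀ (AffineMap.lineMap a₀ b₀ ((tt N k : I) : ℝ)) := by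
      intro k
      simp only [hf]
      rw [tt_zero, F.apply_zero]
      exact hα _
    refine ⟨f 0, fun k => c₀ '' segment ℝ (AffineMap.lineMap a₀ b₀ ((tt N k : I) : ℝ))
      (AffineMap.lineMap a₀ b₀ ((tt N (k + 1) : I) : ℝ)), rfl, rfl, ?_, ?_, c₀, hc₀, ?_⟩
    · intro m _
      rw [dist_self]
      exact hη0
    · intro k _
      have h5 : ∀ a b : E 4, segment ℝ a b = AffineMap.lineMap (k := ℝ) a b '' Icc (0 : ℝ) 1 :=
        fun a b => segment_eq_image_lineMap ℝ a b
      have h6 : ∀ a b : E 4, Continuous (AffineMap.lineMap (k := ℝ) a b) := fun a b =>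
        AffineMap.lineMap_continuous
      beta_reduce
      refine ⟨?_, ?_, (hTH M).2 c₀ _ _ hc₀, ?_, ?_, ?_⟩
      · rw [h5]
        exact (isCompact_Icc.image (h6 _ _)).image hce.continuous
      · rw [h5]
        exact ((isConnected_Icc zero_le_one).image _ (h6 _ _).continuousOn).image _
          hce.continuous.continuousOn
      · rw [hf0]
        exact ⟨_, left_mem_segment _ _ _, rfl⟩
      · rw [hf0]
        exact ⟨_, right_mem_segment _ _ _, rfl⟩
      · rintro _ ⟨z, hz, rfl⟩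
        rw [h5] at hz
        obtain ⟨θ, hθ, rfl⟩ := hz
        -- the parameter
        set s₀ : ℝ := ((tt N k : I) : ℝ) with hs₀
        set s₁ : ℝ := ((tt N (k + 1) : I) : ℝ) with hs₁
        set s : ℝ := AffineMap.lineMap s₀ s₁ θ with hs
        have hs0 : s₀ ∈ Icc (0 : ℝ) 1 := (tt N k).2
        have hs1 : s₁ ∈ Icc (0 : ℝ) 1 := (tt N (k + 1)).2
        have hsI : s ∈ Icc (0 : ℝ) 1 := by
          have h7 : s ∈ segment ℝ s₀ s₁ := by
            rw [segment_eq_image_lineMap]
            exact ⟨θ, hθ, rfl⟩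
          exact (convex_Icc (0 : ℝ) 1).segment_subset hs0 hs1 h7
        have h8 : AffineMap.lineMap (k := ℝ) (AffineMap.lineMap a₀ b₀ s₀ : E 4)
            (AffineMap.lineMap a₀ b₀ s₁ : E 4) θ = AffineMap.lineMap a₀ b₀ s := by
          rw [hs]
          simp only [AffineMap.lineMap_apply_module', smul_eq_mul]
          module
        have h9 : dist (⟨s, hsI⟩ : I) (tt N k) ≤ 1 / N := by
          have h10 : dist (⟨s, hsI⟩ : I) (tt N k) = dist s s₀ := rfl
          rw [h10, hs, dist_lineMap_left, Real.norm_of_nonneg hθ.1]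
          have h11 : dist s₀ s₁ ≤ 1 / N := tt_dist N k
          calc θ * dist s₀ s₁ ≤ 1 * dist s₀ s₁ := mul_le_mul_of_nonneg_right hθ.2 dist_nonneg
            _ ≤ 1 / N := by rw [one_mul]; exact h11
        have h12 := hclose (0, ⟨s, hsI⟩) (0, tt N k) (hd0 _) h9
        rw [F.apply_zero, F.apply_zero] at h12
        rw [h8, mem_ball, hf0]
        have h13 : dist (c₀ (AffineMap.lineMap a₀ b₀ s)) (c₀ (AffineMap.lineMap a₀ b₀ s₀)) < η :=
          h12
        linarith
    · refine union_subset hTr (iUnion₂_subset fun k _ => image_subset_range _ _)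
  -- all rows
  have hrows : ∀ i, Chain T N η (l / 2) (f i) := by
    intro i
    induction i with
    | zero => exact hrow0
    | succ i ih =>
      have hsym : ∀ j, dist (tt N (j + 1)) (tt N j) ≤ 1 / N := fun j => by
        rw [dist_comm]; exact tt_dist N j
      refine rows hD hTH hT hTn hη0 hηl hηδ hloc hNpos ?_ ?_ ?_ ?_ ?_ ?_ ih
      · simp only [hf]
        rw [tt_zero, F.source, F.source]
      · simp only [hf]
        rw [tt_self N hNpos, F.target, F.target]
      · intro k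
        exact hclose _ _ (hd0 _) (tt_dist N k)
      · intro k
        exact hclose _ _ (tt_dist N i) (hd0 _)
      · intro k
        exact hclose _ _ (tt_dist N i) (hsym k)
      · intro k
        exact hclose _ _ (hsym i) (tt_dist N k)
  obtain ⟨v, S, hv0, hvN, hv, hS, hC⟩ := hrows N
  have hfN : ∀ k, f N k = e (tt N k) := by
    intro k
    simp only [hf]
    rw [tt_self N hNpos, F.apply_one]
    rfl
  have hv0' : v 0 = h x := by
    rw [hv0, hfN, tt_zero]
    exact e.source
  have hvN' : v N = h y := by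
    rw [hvN, hfN, tt_self N hNpos]
    exact e.target
  have hSr : (⋃ k ∈ Iio N, S k) ⊆ range h := by
    refine iUnion₂_subset fun k hk => ((hS k hk).2.2.2.2.2).trans ?_
    rw [hfN]
    refine (ball_subset_ball ?_).trans ((ball_subset_thickening (mem_range_self _) r₀).trans hthick)
    have := min_le_right l₁ r₀
    linarith
  set β : Set (E 4) := h ⁻¹' ⋃ k ∈ Iio N, S k with hβ
  have hhβ : h '' β = ⋃ k ∈ Iio N, S k := image_preimage_eq_of_subset hSr
  have hUc : IsCompact (⋃ k ∈ Iio N, S k) :=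
    (finite_Iio N).isCompact_biUnion fun k hk => (hS k hk).1
  have hβc : IsCompact β := (hhe.isInducing.isCompact_preimage_iff hSr).2 hUc
  have hUk : IsPreconnected (⋃ k ∈ Iio N, S k) :=
    IsPreconnected.biUnion_of_chain ordConnected_Iio (fun k hk => (hS k hk).2.1.2)
      fun k hk hk' => ⟨v (k + 1), (hS k hk).2.2.2.2.1, (hS (k + 1) hk').2.2.2.1⟩
  have hxβ : x ∈ β := by
    change h x ∈ ⋃ k ∈ Iio N, S k
    rw [← hv0']
    exact mem_iUnion₂.2 ⟨0, hNpos, (hS 0 hNpos).2.2.2.1⟩
  have hyβ : y ∈ β := by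
    change h y ∈ ⋃ k ∈ Iio N, S k
    rw [← hvN']
    exact mem_iUnion₂.2 ⟨N₀, Nat.lt_succ_self _, (hS N₀ (Nat.lt_succ_self _)).2.2.2.2.1⟩
  have hβk : IsConnected β := by
    refine ⟨⟨x, hxβ⟩, ?_⟩
    rw [← hhe.isInducing.isPreconnected_image, hhβ]
    exact hUk
  exact hST M h T β x y hh hT (hTn h hh.1 hh.2) hβc hβk hxβ hyβ (by rw [hhβ]; exact hC) hseg

end metric

theorem point_null {M : Type} [TopologicalSpace M] [T2Space M] [ChartedSpace (E 4) M]
    [IsManifold (𝓡 4) ∞ M] (hTH : T_THIN) {h : E 4 → M} (hh : CellMap h) (x : E 4) :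
    NullH2 4 ({h x} : Set M) := by
  have h1 := (hTH M).2 h x x hh
  rwa [segment_same, image_singleton] at h1

theorem main (hD : T_DET) (hST : T_STR) (hP : T_PT) (hTH : T_THIN) : T_HOM := by
  intro M _ _ _ _ _ _ T h x y hT hTn hTc hh hseg
  have : SecondCountableTopology M := ChartedSpace.secondCountable_of_sigmaCompact (E 4) M
  let _ : MetricSpace M := TopologicalSpace.metrizableSpaceMetric M
  have h1 : Cel (T ∪ {h x}) := hP M T (h x) hT hTn hTc
  have n1 : NullH2 4 (T ∪ {h x}) := null_union hTn (point_null hTH hh x)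
  have c1 : IsCompact (T ∪ {h x}) := hT.union isCompact_singleton
  have h2 : Cel (T ∪ {h x} ∪ {h y}) := hP M _ (h y) c1 n1 h1
  have n2 : NullH2 4 (T ∪ {h x} ∪ {h y}) := null_union n1 (point_null hTH hh y)
  have c2 : IsCompact (T ∪ {h x} ∪ {h y}) := c1.union isCompact_singleton
  have h3 := main_metric hD hST hTH c2 n2 h2 hh (Or.inl (Or.inr rfl)) (Or.inr rfl) (by
    rintro z hz ((h4 | h4) | h4)
    · exact hseg z hz h4
    · exact Or.inl (hh.1 h4)
    · exact Or.inr (hh.1 h4))
  refine cel_mono h3 (union_subset_union_left _ ?_)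
  exact subset_union_left.trans subset_union_left

end Pool.Agent.T2h58.Hom
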