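import Pool.Agent.T2h58.Stm
import Pool.Agent.N550.KH.Shift

/-!
# Project TC (thin complements): the escape lemma (helper54)
-/

set_option autoImplicit false

open Set Filter Topology Metric Function MeasureTheory
open scoped Manifold ContDiff NNReal ENNReal

noncomputable section

namespace Pool.Agent.T2h58.Esc

open Pool.Agent.Y522 Pool.Agent.N550 Pool.Agent.N550.KH

/-- the volume of a subset of `E 3` of diameter at most `r` -/
theorem vol_le {S : Set (E 3)} {r : ℝ} (hr : 0 ≤ r) (h : Metric.ediam S ≤ ENNReal.ofReal r) :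
    volume S ≤ ENNReal.ofReal (r ^ 3) * volume (ball (0 : E 3) 1) := by
  rcases S.eq_empty_or_nonempty with rfl | ⟨x, hx⟩
  · simp
  · have h1 : S ⊆ closedBall x r := by
      intro y hy
      rw [mem_closedBall]
      have h2 : edist y x ≤ ENNReal.ofReal r := (Metric.edist_le_ediam_of_mem hy hx).trans h
      rw [edist_dist] at h2
      exact (ENNReal.ofReal_le_ofReal_iff hr).1 h2
    refine (measure_mono h1).trans ?_
    rw [Measure.addHaar_closedBall _ _ hr]
    simp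

/-- The image of `t × V` for a small set `t`. -/
theorem slice_bound {t : Set (E 4)} {V : Set ℝ} (hV : V ⊆ Icc 0 1) {F : E 4 × ℝ → E 3} {K : ℝ≥0}
    (hF : LipschitzOnWith K F (t ×ˢ V)) {D : ℝ} (hD : 0 < D) (hD1 : D ≤ 1)
    (ht : Metric.ediam t ≤ ENNReal.ofReal D) :
    volume (F '' (t ×ˢ V)) ≤
      ENNReal.ofReal (3 * (K : ℝ) ^ 3 * D ^ 2) * volume (ball (0 : E 3) 1) := by
  set m : ℕ := ⌈1 / D⌉₊ with hm
  have hm1 : 1 / D ≤ m := Nat.le_ceil _
  have hm0 : (0 : ℝ) < m := lt_of_lt_of_le (by positivity) hm1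
  have hm2 : (m : ℝ) < 1 / D + 1 := Nat.ceil_lt_add_one (by positivity)
  have hmD : 1 / (m : ℝ) ≤ D := by
    rw [div_le_iff₀ hm0]
    rw [div_le_iff₀ hD] at hm1
    linarith
  have hm3 : (m : ℝ) + 1 ≤ 3 / D := by
    have : (1 : ℝ) ≤ 1 / D := by rw [le_div_iff₀ hD]; linarith
    have h3 : (3 : ℝ) / D = 1 / D + 1 / D + 1 / D := by ring
    rw [h3]
    linarith
  let I : ℕ → Set ℝ := fun k => V ∩ Icc ((k : ℝ) / m) (((k : ℝ) + 1) / m)
  have hcov : F '' (t ×ˢ V) ⊆ ⋃ k ∈ Finset.range (m + 1), F '' (t ×ˢ I k) := by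
    rintro _ ⟨⟨a, s⟩, ⟨ha, hs⟩, rfl⟩
    obtain ⟨h0, h1⟩ := hV hs
    have hsm : 0 ≤ s * m := by positivity
    rw [mem_iUnion₂]
    refine ⟨⌊s * m⌋₊, ?_, ⟨(a, s), ⟨ha, hs, ?_, ?_⟩, rfl⟩⟩
    · rw [Finset.mem_range, Nat.lt_succ_iff]
      refine Nat.floor_le_of_le ?_
      nlinarith
    · rw [div_le_iff₀ hm0]
      exact Nat.floor_le hsm
    · rw [le_div_iff₀ hm0]
      exact (Nat.lt_floor_add_one _).le
  have hpiece : ∀ k, volume (F '' (t ×ˢ I k)) ≤
      ENNReal.ofReal (((K : ℝ) * D) ^ 3) * volume (ball (0 : E 3) 1) := by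
    intro k
    refine vol_le (by positivity) ?_
    have hsub : t ×ˢ I k ⊆ t ×ˢ V := prod_mono Subset.rfl inter_subset_left
    have h0 : Metric.ediam (F '' (t ×ˢ I k)) ≤ (K : ℝ≥0∞) * Metric.ediam (t ×ˢ I k) := by
      refine Metric.ediam_le ?_
      rintro _ ⟨x, hx, rfl⟩ _ ⟨y, hy, rfl⟩
      exact (hF.mono hsub hx hy).trans (by gcongr; exact Metric.edist_le_ediam_of_mem hx hy)
    refine h0.trans ?_
    have h1 : Metric.ediam (t ×ˢ I k) ≤ ENNReal.ofReal D := by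
      refine Metric.ediam_le ?_
      rintro ⟨a, s⟩ ⟨ha, -, hs1, hs2⟩ ⟨b, s'⟩ ⟨hb, -, hs1', hs2'⟩
      rw [Prod.edist_eq]
      refine max_le ((Metric.edist_le_ediam_of_mem ha hb).trans ht) ?_
      simp only at hs1 hs2 hs1' hs2'
      rw [edist_dist]
      refine ENNReal.ofReal_le_ofReal ?_
      rw [Real.dist_eq, abs_le]
      have h4 : ((k : ℝ) + 1) / m = (k : ℝ) / m + 1 / m := by ring
      constructor <;> linarith
    calc (K : ℝ≥0∞) * Metric.ediam (t ×ˢ I k) ≤ (K : ℝ≥0∞) * ENNReal.ofReal D := by gcongr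
      _ = ENNReal.ofReal ((K : ℝ) * D) := by
        rw [ENNReal.ofReal_mul (NNReal.coe_nonneg K), ENNReal.ofReal_coe_nnreal]
  calc volume (F '' (t ×ˢ V)) ≤ volume (⋃ k ∈ Finset.range (m + 1), F '' (t ×ˢ I k)) :=
        measure_mono hcov
    _ ≤ ∑ k ∈ Finset.range (m + 1), volume (F '' (t ×ˢ I k)) := measure_biUnion_finset_le _ _
    _ ≤ ∑ k ∈ Finset.range (m + 1),
        ENNReal.ofReal (((K : ℝ) * D) ^ 3) * volume (ball (0 : E 3) 1) :=
        Finset.sum_le_sum fun k _ => hpiece k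
    _ = ENNReal.ofReal (((m : ℝ) + 1) * ((K : ℝ) * D) ^ 3) * volume (ball (0 : E 3) 1) := by
        rw [Finset.sum_const, Finset.card_range, nsmul_eq_mul, ← mul_assoc,
          ENNReal.ofReal_mul (by positivity)]
        congr 2
        rw [ENNReal.ofReal_add (by positivity) (by norm_num)]
        simp
    _ ≤ ENNReal.ofReal (3 * (K : ℝ) ^ 3 * D ^ 2) * volume (ball (0 : E 3) 1) := by
        refine mul_le_mul_left (ENNReal.ofReal_le_ofReal ?_) _
        have h5 : ((m : ℝ) + 1) * ((K : ℝ) * D) ^ 3 ≤ 3 / D * ((K : ℝ) * D) ^ 3 :=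
          mul_le_mul_of_nonneg_right hm3 (by positivity)
        refine h5.trans (le_of_eq ?_)
        field_simp

/-- The product lemma: Lipschitz images of `A × V` in `E 3` are null if the two-dimensional
Hausdorff measure of `A` is zero. -/
theorem prod_null {A : Set (E 4)} (hA : Measure.hausdorffMeasure 2 A = 0) {V : Set ℝ}
    (hV : V ⊆ Icc 0 1) {F : E 4 × ℝ → E 3} {K : ℝ≥0} (hF : LipschitzOnWith K F (A ×ˢ V)) :
    volume (F '' (A ×ˢ V)) = 0 := by
  let ρ : OuterMeasure (E 4) := OuterMeasure.map Prod.fst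
    (OuterMeasure.restrict (A ×ˢ V) (OuterMeasure.comap F (volume : Measure (E 3)).toOuterMeasure))
  have hρ : ∀ t, ρ t = volume (F '' ((t ∩ A) ×ˢ V)) := by
    intro t
    simp only [ρ, OuterMeasure.map_apply, OuterMeasure.restrict_apply, OuterMeasure.comap_apply,
      Measure.coe_toOuterMeasure]
    congr 2
    ext ⟨a, s⟩
    simp only [mem_inter_iff, mem_preimage, mem_prod]
    tauto
  set c : ℝ≥0∞ := ENNReal.ofReal (3 * (K : ℝ) ^ 3) * volume (ball (0 : E 3) 1) + 1 with hc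
  have hc0 : c ≠ 0 := by simp [hc]
  have hvol : volume (ball (0 : E 3) 1) ≠ (⊤ : ℝ≥0∞) := measure_ball_lt_top.ne
  have hct : c ≠ (⊤ : ℝ≥0∞) := by
    rw [hc]
    exact ENNReal.add_ne_top.2 ⟨ENNReal.mul_ne_top ENNReal.ofReal_ne_top hvol, ENNReal.one_ne_top⟩
  have hb : ∀ t : Set (E 4), ∀ D : ℝ, 0 < D → D ≤ 1 → Metric.ediam t ≤ ENNReal.ofReal D →
      ρ t ≤ c * ENNReal.ofReal (D ^ 2) := by
    intro t D h0 h1 ht
    rw [hρ]
    refine (slice_bound hV (hF.mono (prod_mono inter_subset_right Subset.rfl)) h0 h1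
      ((Metric.ediam_mono inter_subset_left).trans ht)).trans ?_
    rw [ENNReal.ofReal_mul (by positivity), mul_right_comm]
    gcongr
    rw [hc]
    exact le_self_add
  have hle : ρ ≤ c • OuterMeasure.mkMetric (fun r : ℝ≥0∞ => r ^ (2 : ℝ)) := by
    rw [← OuterMeasure.mkMetric_smul _ hct hc0]
    refine OuterMeasure.le_mkMetric _ _ (ENNReal.ofReal (1 / 2)) (by simp) ?_
    intro t ht
    have hdt : Metric.ediam t ≠ (⊤ : ℝ≥0∞) := (ht.trans_lt ENNReal.ofReal_lt_top).ne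
    set d : ℝ := (Metric.ediam t).toReal with hd
    have hd0 : 0 ≤ d := ENNReal.toReal_nonneg
    have hdd : Metric.ediam t = ENNReal.ofReal d := (ENNReal.ofReal_toReal hdt).symm
    have hd1 : d ≤ 1 / 2 := by
      rw [hdd] at ht
      exact (ENNReal.ofReal_le_ofReal_iff (by norm_num)).1 ht
    have h1 : ∀ᶠ x : ℝ in 𝓝[>] 0, ρ t ≤ c * ENNReal.ofReal ((d + x) ^ 2) := by
      have h2 : ∀ᶠ x : ℝ in 𝓝[>] 0, x < 1 / 2 :=
        mem_nhdsWithin_of_mem_nhds (Iio_mem_nhds (by norm_num))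
      filter_upwards [h2, self_mem_nhdsWithin] with x hx hx0
      have hx0' : 0 < x := hx0
      refine hb t (d + x) (by linarith) (by linarith) ?_
      rw [hdd]
      exact ENNReal.ofReal_le_ofReal (by linarith)
    have h2 : Tendsto (fun x : ℝ => c * ENNReal.ofReal ((d + x) ^ 2)) (𝓝[>] 0)
        (𝓝 (c * ENNReal.ofReal ((d + 0) ^ 2))) := by
      refine ENNReal.Tendsto.const_mul ?_ (Or.inr hct)
      refine (ENNReal.continuous_ofReal.tendsto _).comp ?_
      have : Continuous fun x : ℝ => (d + x) ^ 2 := by fun_prop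
      exact (this.tendsto 0).mono_left nhdsWithin_le_nhds
    have h3 := ge_of_tendsto h2 h1
    refine h3.trans (le_of_eq ?_)
    simp only [Pi.smul_apply, smul_eq_mul]
    rw [hdd, add_zero, ENNReal.ofReal_pow hd0]
    norm_num
  have h4 : ρ A ≤ c * Measure.hausdorffMeasure 2 A := by
    refine (hle A).trans (le_of_eq ?_)
    rw [smul_apply, smul_eq_mul, OuterMeasure.coe_mkMetric]
    rfl
  rw [hA, mul_zero, hρ, inter_self] at h4
  exact le_antisymm h4 zero_le

/-- The directions of the rays from the points of an arc to the points of `A` form a null set. -/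
theorem dir_null {A : Set (E 4)} (hA : Measure.hausdorffMeasure 2 A = 0) {γ : ℝ → E 4}
    (hγ : ∀ s ∈ Icc (0 : ℝ) 1, ContDiffAt ℝ ∞ γ s) :
    volume {y : E 3 | ∃ a ∈ A, ∃ s ∈ Icc (0 : ℝ) 1, ∃ t : ℝ, t ≠ 0 ∧ a = γ s + t • cn 1 y} = 0 := by
  let F : E 4 × ℝ → E 3 := fun p => ((p.1 - γ p.2) 0)⁻¹ • tl (p.1 - γ p.2)
  let S : Set (E 4 × ℝ) := {p | p.1 ∈ A ∧ p.2 ∈ Icc (0 : ℝ) 1 ∧ (p.1 - γ p.2) 0 ≠ 0}
  have hsub : {y : E 3 | ∃ a ∈ A, ∃ s ∈ Icc (0 : ℝ) 1, ∃ t : ℝ, t ≠ 0 ∧ a = γ s + t • cn 1 y} ⊆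
      F '' S := by
    rintro y ⟨a, ha, s, hs, t, ht, rfl⟩
    have h1 : (γ s + t • cn 1 y - γ s : E 4) = t • cn 1 y := by abel
    have h2 : (t • (cn 1 y : E 4)) 0 = t := by simp
    refine ⟨(γ s + t • cn 1 y, s), ⟨ha, hs, ?_⟩, ?_⟩
    · simp only
      rw [h1, h2]
      exact ht
    · simp only [F]
      rw [h1, h2, map_smul, tl_cn, smul_smul, inv_mul_cancel₀ ht, one_smul]
  refine measure_mono_null hsub ?_
  have hcl : (OuterMeasure.comap F (volume : Measure (E 3)).toOuterMeasure) S = 0 := by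
    refine measure_null_of_locally_null S ?_
    rintro ⟨a, s⟩ ⟨ha, hs, hne⟩
    have hF : ContDiffAt ℝ 1 F (a, s) := by
      have h1 : ContDiffAt ℝ 1 (fun p : E 4 × ℝ => p.1 - γ p.2) (a, s) := by
        refine contDiffAt_fst.sub ?_
        exact ((hγ s hs).of_le (by simp)).comp (a, s) contDiffAt_snd
      have h2 : ContDiffAt ℝ 1 (fun p : E 4 × ℝ => (p.1 - γ p.2) 0) (a, s) :=
        (EuclideanSpace.proj (𝕜 := ℝ) (0 : Fin 4)).contDiff.contDiffAt.comp (a, s) h1
      have h3 : ContDiffAt ℝ 1 (fun p : E 4 × ℝ => tl (p.1 - γ p.2)) (a, s) :=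
        (tl (m := 3)).contDiff.contDiffAt.comp (a, s) h1
      exact (h2.inv hne).smul h3
    obtain ⟨K, u, hu, hL⟩ := hF.exists_lipschitzOnWith
    rw [nhds_prod_eq, Filter.mem_prod_iff] at hu
    obtain ⟨U, hU, W, hW, hUW⟩ := hu
    refine ⟨S ∩ (U ×ˢ W), ?_, ?_⟩
    · refine inter_mem self_mem_nhdsWithin (mem_nhdsWithin_of_mem_nhds ?_)
      rw [nhds_prod_eq]
      exact prod_mem_prod hU hW
    · rw [OuterMeasure.comap_apply, Measure.coe_toOuterMeasure]
      have h1 : volume (F '' ((A ∩ U) ×ˢ (Icc 0 1 ∩ W))) = 0 := by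
        refine prod_null (measure_mono_null inter_subset_left hA) inter_subset_left
          (hL.mono (Subset.trans ?_ hUW))
        exact prod_mono inter_subset_right inter_subset_right
      refine measure_mono_null (image_mono ?_) h1
      rintro ⟨b, r⟩ ⟨⟨hb, hr, -⟩, hbU, hrW⟩
      exact ⟨⟨hb, hbU⟩, hr, hrW⟩
  rw [OuterMeasure.comap_apply, Measure.coe_toOuterMeasure] at hcl
  exact hcl

/-- a smooth function with compact support which is `0` on `A` and `1` on `C` -/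
theorem exists_cutoff {A C : Set (E 4)} (hA : IsCompact A) (hC : IsCompact C)
    (hAC : Disjoint A C) : ∃ χ : E 4 → ℝ, ContDiff ℝ ∞ χ ∧ HasCompactSupport χ ∧
      (∀ z ∈ A, χ z = 0) ∧ ∀ z ∈ C, χ z = 1 := by
  obtain ⟨R, hR⟩ := hC.isBounded.subset_ball (0 : E 4)
  have h1 : IsClosed (A ∪ (ball (0 : E 4) R)ᶜ) := hA.isClosed.union isOpen_ball.isClosed_compl
  have h2 : Disjoint (A ∪ (ball (0 : E 4) R)ᶜ) C := by
    rw [disjoint_union_left]
    refine ⟨hAC, ?_⟩
    rw [disjoint_compl_left_iff_subset]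
    exact hR
  obtain ⟨f, hf0, hf1, -⟩ := exists_contMDiffMap_zero_one_of_isClosed (n := (⊤ : ℕ∞)) 𝓘(ℝ, E 4) h1
    hC.isClosed h2
  refine ⟨f, f.contMDiff.contDiff, ?_, fun z hz => hf0 (Or.inl hz), fun z hz => hf1 hz⟩
  refine HasCompactSupport.intro (isCompact_closedBall (0 : E 4) R) ?_
  intro z hz
  refine hf0 (Or.inr ?_)
  intro hz'
  exact hz (ball_subset_closedBall hz')

theorem main : T_ESC := by
  intro A hA hA2 a γ hγ
  -- the direction
  obtain ⟨y, hy⟩ : ∃ y : E 3, ∀ i, y ∉ {y : E 3 | ∃ a ∈ A, ∃ s ∈ Icc (0 : ℝ) 1, ∃ t : ℝ, t ≠ 0 ∧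
      a = γ i s + t • cn 1 y} := by
    by_contra hcon
    push Not at hcon
    have h1 : (univ : Set (E 3)) ⊆ ⋃ i, {y : E 3 | ∃ a ∈ A, ∃ s ∈ Icc (0 : ℝ) 1, ∃ t : ℝ, t ≠ 0 ∧
        a = γ i s + t • cn 1 y} := by
      intro y _
      obtain ⟨i, hi⟩ := hcon y
      exact mem_iUnion.2 ⟨i, hi⟩
    have h2 : volume (univ : Set (E 3)) = 0 := by
      refine measure_mono_null h1 (measure_iUnion_null fun i => ?_)
      exact dir_null hA2 fun s hs => (hγ i s hs).1
    exact (NeZero.ne (volume : Measure (E 3))) (Measure.measure_univ_eq_zero.1 h2)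
  set w : E 4 := cn 1 y with hw
  have hw1 : 1 ≤ ‖w‖ := by
    have := abs_head_le w
    rw [hw, cn_zero, abs_one] at this
    exact this
  have hray : ∀ i, ∀ s ∈ Icc (0 : ℝ) 1, ∀ t : ℝ, γ i s + t • w ∉ A := by
    intro i s hs t ht
    by_cases h0 : t = 0
    · rw [h0, zero_smul, add_zero] at ht
      exact (hγ i s hs).2 ht
    · exact hy i ⟨_, ht, s, hs, t, h0, rfl⟩
  -- bounds
  have hγc : ∀ i, ContinuousOn (γ i) (Icc 0 1) := fun i s hs =>
    (hγ i s hs).1.continuousAt.continuousWithinAt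
  have hcpt : IsCompact (⋃ i, γ i '' Icc 0 1) :=
    isCompact_iUnion fun i => isCompact_Icc.image_of_continuousOn (hγc i)
  obtain ⟨R, hR⟩ := hcpt.isBounded.subset_ball (0 : E 4)
  obtain ⟨M, hM⟩ := hA.isBounded.subset_ball (0 : E 4)
  set R₀ : ℝ := max R 1 with hR0
  have hR0p : 0 < R₀ := lt_of_lt_of_le one_pos (le_max_right _ _)
  set T : ℝ := |M| + R₀ + 2 with hT
  have hTp : 0 < T := by positivity
  -- the sweep
  let C : Set (E 4) := ⋃ i, (fun p : ℝ × ℝ => γ i p.1 + p.2 • w) '' (Icc 0 1 ×ˢ Icc 0 T)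
  have hC : IsCompact C := by
    refine isCompact_iUnion fun i => ?_
    refine (isCompact_Icc.prod isCompact_Icc).image_of_continuousOn ?_
    refine ContinuousOn.add ?_ (by fun_prop)
    exact (hγc i).comp continuousOn_fst fun p hp => hp.1
  have hAC : Disjoint A C := by
    rw [Set.disjoint_right]
    intro z hz hzA
    obtain ⟨i, ⟨s, t⟩, ⟨hs, -⟩, rfl⟩ := mem_iUnion.1 hz
    exact hray i s hs t hzA
  obtain ⟨χ, hχ, hχc, hχ0, hχ1⟩ := exists_cutoff hA hC hAC
  obtain ⟨B, hB⟩ := (hχ.continuous_fderiv (by simp)).bounded_above_of_compact_support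
    (hχc.fderiv (𝕜 := ℝ))
  have hB0 : 0 ≤ B := (norm_nonneg _).trans (hB 0)
  obtain ⟨J, hJ⟩ := exists_nat_gt (2 * (B * (T * ‖w‖)))
  have hJ0 : (0 : ℝ) < J := lt_of_le_of_lt (by positivity) hJ
  set ε : ℝ := T / J with hε
  have hε0 : 0 < ε := by positivity
  have hJε : (J : ℝ) * ε = T := by
    rw [hε]
    field_simp
  let f : E 4 → E 4 := fun z => z + χ z • (ε • w)
  have hf : IsDf 4 f := by
    refine Shift.s_pert 4 χ (ε • w) (1 / 2) hχ (by norm_num) ?_
    intro z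
    rw [norm_smul, Real.norm_of_nonneg hε0.le]
    have h1 : ‖fderiv ℝ χ z‖ * (ε * ‖w‖) ≤ B * (ε * ‖w‖) :=
      mul_le_mul_of_nonneg_right (hB z) (by positivity)
    refine h1.trans ?_
    have h2 : B * (ε * ‖w‖) = B * (T * ‖w‖) / J := by
      rw [hε]
      ring
    rw [h2, div_le_iff₀ hJ0]
    linarith
  have hstep : ∀ i, ∀ s ∈ Icc (0 : ℝ) 1, ∀ j : ℕ, j ≤ J →
      f^[j] (γ i s) = γ i s + ((j : ℝ) * ε) • w := by
    intro i s hs j
    induction j with
    | zero => intro _; simp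
    | succ j ih =>
      intro hj
      rw [Function.iterate_succ', Function.comp_apply, ih (by omega)]
      have hj' : (j : ℝ) + 1 ≤ J := by exact_mod_cast hj
      have h1 : χ (γ i s + ((j : ℝ) * ε) • w) = 1 := by
        refine hχ1 _ (mem_iUnion.2 ⟨i, (s, (j : ℝ) * ε), ⟨hs, by positivity, ?_⟩, rfl⟩)
        simp only
        rw [← hJε]
        nlinarith
      simp only [f]
      rw [h1, one_smul, add_assoc, ← add_smul]
      push_cast
      congr 2
      ring
  refine ⟨f^[J], T • w, R₀, R₀ + 1, hR0p, by linarith, Shift.isDf_iter hf J, ?_, ?_, ?_⟩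
  · intro z hz
    refine Function.iterate_fixed ?_ J
    simp only [f]
    rw [hχ0 z hz, zero_smul, add_zero]
  · intro i s hs
    rw [hstep i s hs J le_rfl, hJε, mem_ball, dist_eq_norm, add_sub_cancel_right]
    have h1 := hR (mem_iUnion.2 ⟨i, mem_image_of_mem _ hs⟩)
    rw [mem_ball_zero_iff] at h1
    exact lt_of_lt_of_le h1 (le_max_left _ _)
  · intro z hz hz'
    rw [mem_closedBall, dist_eq_norm] at hz'
    have h1 := hM hz
    rw [mem_ball_zero_iff] at h1
    have h2 : ‖T • w‖ ≤ ‖z‖ + ‖z - T • w‖ := by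
      have := norm_sub_le z (z - T • w)
      rw [sub_sub_cancel] at this
      exact this
    rw [norm_smul, Real.norm_of_nonneg hTp.le] at h2
    have h3 : T ≤ T * ‖w‖ := by nlinarith
    have h4 := le_abs_self M
    linarith

end Pool.Agent.T2h58.Esc
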