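import Pool.Agent.T2h58.Fp
import Pool.Agent.T2h58.Esc
import Pool.Agent.T2h58.Cel
import Pool.Agent.T2h58.Grid

/-!
# Project SC: null sets and general position of triangles
-/

set_option autoImplicit false

open Set Filter Topology Metric Function MeasureTheory
open scoped Manifold ContDiff NNReal ENNReal

noncomputable section

namespace Pool.Agent.T2h58.Nll

open Pool.Agent.Y522 Pool.Agent.N550 Pool.Agent.N550.KH

/-- the directions (from `a`) of the points of the rays from `b` through the points of `A` -/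
theorem dir_null {A : Set (E 4)} (hA : Measure.hausdorffMeasure 2 A = 0) (a b : E 4) (k : ℕ) :
    volume ((fun p : E 4 × ℝ => ((p.1 + (k + p.2) • (p.1 - b) - a) 0)⁻¹ •
      tl (p.1 + (k + p.2) • (p.1 - b) - a) : E 4 × ℝ → E 3) ''
      {p | p.1 ∈ A ∧ p.2 ∈ Icc (0 : ℝ) 1 ∧ (p.1 + (k + p.2) • (p.1 - b) - a) 0 ≠ 0}) = 0 := by
  set F : E 4 × ℝ → E 3 := fun p => ((p.1 + (k + p.2) • (p.1 - b) - a) 0)⁻¹ •
      tl (p.1 + (k + p.2) • (p.1 - b) - a) with hFdef
  set S : Set (E 4 × ℝ) :=
    {p | p.1 ∈ A ∧ p.2 ∈ Icc (0 : ℝ) 1 ∧ (p.1 + (k + p.2) • (p.1 - b) - a) 0 ≠ 0} with hS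
  have hcl : (OuterMeasure.comap F (volume : Measure (E 3)).toOuterMeasure) S = 0 := by
    refine measure_null_of_locally_null S ?_
    rintro ⟨z, s⟩ ⟨hz, hs, hne⟩
    have hF : ContDiffAt ℝ 1 F (z, s) := by
      have h1 : ContDiff ℝ 1 (fun p : E 4 × ℝ => p.1 + (k + p.2) • (p.1 - b) - a) := by
        fun_prop
      have h2 : ContDiffAt ℝ 1 (fun p : E 4 × ℝ => (p.1 + (k + p.2) • (p.1 - b) - a) 0) (z, s) :=
        (EuclideanSpace.proj (𝕜 := ℝ) (0 : Fin 4)).contDiff.contDiffAt.comp (z, s) h1.contDiffAt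
      have h3 : ContDiffAt ℝ 1 (fun p : E 4 × ℝ => tl (p.1 + (k + p.2) • (p.1 - b) - a)) (z, s) :=
        (tl (m := 3)).contDiff.contDiffAt.comp (z, s) h1.contDiffAt
      exact (h2.inv hne).smul h3
    obtain ⟨K, u, hu, hL⟩ := hF.exists_lipschitzOnWith
    rw [nhds_prod_eq, Filter.mem_prod_iff] at hu
    obtain ⟨U, hU, W, hW, hUW⟩ := hu
    refine ⟨S ∩ (U ×ˢ W), ?_, ?_⟩
    · refine inter_mem self_mem_nhdsWithin (mem_nhdsWithin_of_mem_nhds ?_)
      rw [nhds_prod_eq]
      exact prod_mem_prod hU hW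
    · rw [OuterMeasure.comap_apply, Measure.coe_toOuterMeasure]
      have h1 : volume (F '' ((A ∩ U) ×ˢ (Icc 0 1 ∩ W))) = 0 := by
        refine Esc.prod_null (measure_mono_null inter_subset_left hA) inter_subset_left
          (hL.mono (Subset.trans ?_ hUW))
        exact prod_mono inter_subset_right inter_subset_right
      refine measure_mono_null (image_mono ?_) h1
      rintro ⟨c, r⟩ ⟨⟨hc, hr, -⟩, hcU, hrW⟩
      exact ⟨⟨hc, hcU⟩, hr, hrW⟩
  rw [OuterMeasure.comap_apply, Measure.coe_toOuterMeasure] at hcl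
  exact hcl

/-- cones over null sets are null -/
theorem cone_null {Z : Set (E 3)} (hZ : volume Z = 0) (a : E 4) :
    ∀ᵐ w : E 4, (w - a) 0 ≠ 0 ∧ ((w - a) 0)⁻¹ • tl (w - a) ∉ Z := by
  have hsurj : Surjective ((tl : E 4 →L[ℝ] E 3) : E 4 →ₗ[ℝ] E 3) := fun y => ⟨cn 0 y, tl_cn 0 y⟩
  have h1 : volume {v : E 4 | tl v ∈ toMeasurable volume Z} = 0 := by
    have h2 : ∀ᵐ y : E 3, y ∈ (toMeasurable volume Z)ᶜ := by
      refine measure_eq_zero_iff_ae_notMem.1 ?_
      rw [measure_toMeasurable]
      exact hZ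
    have h3 := (ae_comp_linearMap_mem_iff ((tl : E 4 →L[ℝ] E 3) : E 4 →ₗ[ℝ] E 3) volume volume
      hsurj (measurableSet_toMeasurable volume Z).compl).2 h2
    have h4 := ae_iff.1 h3
    simpa using h4
  let Ψ : E 4 → E 4 := fun v => a + v 0 • cn 1 (tl v)
  have hcn : ∀ y : E 3, (cn 1 y : E 4) = e0 + inc y := fun y => by
    rw [cn_eq, one_smul, inc_apply]
  have hΨ : Differentiable ℝ Ψ := by
    have h5 : Ψ = fun v => a + v 0 • ((e0 : E 4) + inc (tl v)) := by
      funext v
      simp only [Ψ]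
      rw [hcn]
    rw [h5]
    have h6 : Differentiable ℝ fun v : E 4 => v 0 :=
      (EuclideanSpace.proj (𝕜 := ℝ) (0 : Fin 4)).differentiable
    have h7 : Differentiable ℝ fun v : E 4 => (e0 : E 4) + inc (tl v) :=
      (differentiable_const _).add ((inc (m := 3)).differentiable.comp (tl (m := 3)).differentiable)
    exact (differentiable_const _).add (h6.smul h7)
  have h8 : volume (Ψ '' {v : E 4 | tl v ∈ toMeasurable volume Z}) = 0 :=
    addHaar_image_eq_zero_of_differentiableOn_of_addHaar_eq_zero volume hΨ.differentiableOn h1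
  have h9 : ∀ᵐ w : E 4, w ∉ Ψ '' {v : E 4 | tl v ∈ toMeasurable volume Z} :=
    measure_eq_zero_iff_ae_notMem.1 h8
  have h10 : ∀ᵐ w : E 4, (w - a) 0 ≠ 0 := by
    let L : E 4 →ₗ[ℝ] ℝ := (EuclideanSpace.proj (𝕜 := ℝ) (0 : Fin 4) : E 4 →L[ℝ] ℝ)
    have hL : Surjective L := fun r => ⟨cn r 0, by simp [L]⟩
    have h11 : ∀ᵐ r : ℝ, r ∈ ({a 0}ᶜ : Set ℝ) := measure_eq_zero_iff_ae_notMem.1 (by simp)
    have h12 := (ae_comp_linearMap_mem_iff L volume volume hL
      (measurableSet_singleton (a 0)).compl).2 h11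
    filter_upwards [h12] with w hw
    intro h
    apply hw
    have h13 : w 0 - a 0 = 0 := h
    show w 0 = a 0
    linarith
  filter_upwards [h9, h10] with w hw hw0
  refine ⟨hw0, fun hZw => hw ⟨cn ((w - a) 0) (((w - a) 0)⁻¹ • tl (w - a)), ?_, ?_⟩⟩
  · show tl (cn ((w - a) 0) (((w - a) 0)⁻¹ • tl (w - a))) ∈ toMeasurable volume Z
    rw [tl_cn]
    exact subset_toMeasurable volume Z hZw
  · simp only [Ψ]
    rw [cn_zero, tl_cn, hcn, map_smul, smul_add, smul_smul, mul_inv_cancel₀ hw0, one_smul,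
      inc_apply, ← cn_eq, cn_tl]
    abel

/-- points outside an affine plane -/
theorem plane_null (a u v : E 4) : ∀ᵐ w : E 4, ∀ x y : ℝ, w ≠ a + x • u + y • v := by
  let P : Submodule ℝ (E 4) := Submodule.span ℝ (Set.range ![u, v])
  have hP : P ≠ ⊤ := by
    intro h
    have h1 : Module.finrank ℝ P ≤ 2 := by
      have h2 := finrank_range_le_card (R := ℝ) ![u, v]
      rw [Fintype.card_fin] at h2
      exact h2
    rw [h, finrank_top] at h1
    simp at h1
  let A : AffineSubspace ℝ (E 4) := AffineSubspace.mk' a P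
  have hA : A ≠ ⊤ := by
    intro h
    apply hP
    have h1 := AffineSubspace.direction_mk' a P
    have h2 : A.direction = P := h1
    rw [← h2, h, AffineSubspace.direction_top]
  have h3 : volume (A : Set (E 4)) = 0 := Measure.addHaar_affineSubspace volume A hA
  filter_upwards [measure_eq_zero_iff_ae_notMem.1 h3] with w hw x y hwxy
  apply hw
  show w ∈ AffineSubspace.mk' a P
  rw [AffineSubspace.mem_mk', vsub_eq_sub, hwxy]
  have h4 : a + x • u + y • v - a = x • u + y • v := by abel
  rw [h4]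
  exact P.add_mem (P.smul_mem _ (Submodule.subset_span ⟨0, rfl⟩))
    (P.smul_mem _ (Submodule.subset_span ⟨1, rfl⟩))

theorem nul : T_NUL := by
  refine ⟨fun S a b hS => ?_, fun a b p hp => ?_, fun a b hab => ?_⟩
  · have h1 : volume (⋃ k : ℕ, (fun p : E 4 × ℝ => ((p.1 + (k + p.2) • (p.1 - b) - a) 0)⁻¹ •
      tl (p.1 + (k + p.2) • (p.1 - b) - a) : E 4 × ℝ → E 3) ''
      {p | p.1 ∈ S ∧ p.2 ∈ Icc (0 : ℝ) 1 ∧ (p.1 + (k + p.2) • (p.1 - b) - a) 0 ≠ 0}) = 0 :=
      measure_iUnion_null fun k => dir_null hS a b k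
    filter_upwards [cone_null h1 a] with w hw z hz hzT
    obtain ⟨hw0, hwN⟩ := hw
    obtain ⟨x, y, hx, hy, hxy, rfl⟩ := Fp.mem_tri.1 hzT
    rcases hy.eq_or_lt with h | h
    · refine Fp.mem_seg'.2 ⟨x, hx, by linarith, ?_⟩
      rw [← h, zero_smul, add_zero]
    · exfalso
      have hx1 : 0 < 1 - x := by linarith
      apply hwN
      set r : ℝ := x / (1 - x) with hr
      have hr0 : 0 ≤ r := by positivity
      have hq : (a + x • (b - a) + y • (w - a)) + r • ((a + x • (b - a) + y • (w - a)) - b) - a =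
          (y / (1 - x)) • (w - a) := by
        have h2 : (a + x • (b - a) + y • (w - a)) + r • ((a + x • (b - a) + y • (w - a)) - b) - a =
            (x - r * (1 - x)) • (b - a) + (y * (1 + r)) • (w - a) := by module
        rw [h2]
        have h3 : x - r * (1 - x) = 0 := by
          rw [hr]
          field_simp
          ring
        have h4 : y * (1 + r) = y / (1 - x) := by
          rw [hr]
          field_simp
          ring
        rw [h3, h4, zero_smul, zero_add]
      have hc0 : y / (1 - x) ≠ 0 := by positivity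
      rw [mem_iUnion]
      refine ⟨⌊r⌋₊, ⟨(a + x • (b - a) + y • (w - a), r - ⌊r⌋₊), ⟨hz, ⟨?_, ?_⟩, ?_⟩, ?_⟩⟩
      · simp only
        linarith [Nat.floor_le hr0]
      · simp only
        linarith [Nat.lt_floor_add_one r]
      · simp only
        rw [add_sub_cancel, hq]
        simp only [PiLp.smul_apply, smul_eq_mul]
        exact mul_ne_zero hc0 hw0
      · simp only
        rw [add_sub_cancel, hq, map_smul, smul_smul]
        congr 1
        simp only [PiLp.smul_apply, smul_eq_mul]
        field_simp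
  · filter_upwards [plane_null a (b - a) (p - a)] with w hw z hz hzT
    obtain ⟨t, ht0, ht1, rfl⟩ := Fp.mem_seg'.1 hz
    obtain ⟨x, y, hx, hy, hxy, he⟩ := Fp.mem_tri.1 hzT
    rcases ht0.eq_or_lt with h | h
    · rw [← h, zero_smul, add_zero]
    · exfalso
      by_cases hc : 1 - t - y = 0
      · apply hp
        refine Fp.mem_seg'.2 ⟨x / t, by positivity, ?_, ?_⟩
        · rw [div_le_one h]
          linarith
        · have h1 : t • p = t • (a + (x / t) • (b - a)) := by
            rw [smul_add, smul_smul, mul_div_cancel₀ _ h.ne']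
            have hy' : y = 1 - t := by linarith
            rw [hy'] at he
            have h2 : t • p = (w + t • (p - w)) - (1 - t) • w := by module
            rw [h2, he]
            module
          exact smul_right_injective _ h.ne' h1
      · refine hw (x / (1 - t - y)) (-t / (1 - t - y)) ?_
        have h1 : (1 - t - y) • w = (1 - t - y) •
            (a + (x / (1 - t - y)) • (b - a) + (-t / (1 - t - y)) • (p - a)) := by
          rw [smul_add, smul_add, smul_smul, smul_smul, mul_div_cancel₀ _ hc,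
            mul_div_cancel₀ _ hc]
          have h2 : (1 - t - y) • w = (w + t • (p - w)) - t • p - y • w := by module
          rw [h2, he]
          module
        exact smul_right_injective _ hc h1
  · filter_upwards [plane_null a (b - a) 0] with w hw
    rw [affineIndependent_iff_not_collinear_set]
    intro hcol
    rw [collinear_iff_of_mem (p₀ := a) (by simp)] at hcol
    obtain ⟨v, hv⟩ := hcol
    obtain ⟨rb, hrb⟩ := hv b (by simp)
    obtain ⟨rw', hrw⟩ := hv w (by simp)
    rw [vadd_eq_add] at hrb hrw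
    have hrb0 : rb ≠ 0 := by
      rintro rfl
      rw [zero_smul, zero_add] at hrb
      exact hab hrb.symm
    refine hw (rw' / rb) 0 ?_
    have h1 : b - a = rb • v := by rw [hrb, add_sub_cancel_right]
    rw [h1, smul_smul, div_mul_cancel₀ _ hrb0, smul_zero, add_zero, hrw, add_comm]

theorem thin : T_THIN := by
  intro M _ _ _ _
  have key : ∀ (h : E 4 → M) (Z : Set (E 4)), CellMap h → Measure.hausdorffMeasure 2 Z = 0 →
      NullH2 4 (h '' Z) := by
    intro h Z hh hZ h' h'i h'd
    have hinv : ∀ z, invFun h' (h' z) = z := leftInverse_invFun h'i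
    have hinvL : ∀ z, LD 4 (invFun h') (h' z) := fun z =>
      LD.inverse isOpen_univ (fun z _ => h'd z) (fun z _ => hinv z) (mem_univ z)
    have h1 : Measure.hausdorffMeasure 2 (Z ∩ h ⁻¹' range h') = 0 :=
      measure_mono_null inter_subset_left hZ
    refine measure_mono_null ?_ (Cel.null_image h1 (fun z => invFun h' (h z)) ?_)
    · rintro z ⟨y, hy, hyz⟩
      exact ⟨y, ⟨hy, ⟨z, hyz.symm⟩⟩, by simp only; rw [hyz, hinv]⟩
    · rintro z ⟨-, ⟨y, hy⟩⟩
      have h2 : LD 4 (fun z => invFun h' (h z)) z := by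
        refine LD.comp_fun (g := invFun h') (f := h) ?_ (hh.2 z)
        rw [← hy]
        exact hinvL y
      exact h2.contDiffAt.of_le (by simp)
  refine ⟨key, fun h x y hh => key h _ hh ?_⟩
  rcases Measure.hausdorffMeasure_zero_or_top (show (1 : ℝ) < 2 by norm_num) (segment ℝ x y) with
    h1 | h1
  · exact h1
  · rw [hausdorffMeasure_segment] at h1
    exact absurd h1 (edist_ne_top _ _)

theorem gen : T_GEN := by
  intro B s hB h0 hs
  obtain ⟨t, ht⟩ := Grid.exists_translate B hB h0 s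
  refine ⟨t, fun z hz i j hij => ?_⟩
  rintro ⟨⟨k, hk⟩, ⟨l, hl⟩⟩
  exact ht i j hij k l z hz ⟨by rw [hk]; ring, by rw [hl]; ring⟩

end Pool.Agent.T2h58.Nll
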