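import Pool.Agent.T2h58.Det

/-!
# Project SC (simply connected): engulfing in one chart; thin compact sets lie in cells (helper26)
-/

set_option autoImplicit false

open Set Filter Topology Metric Function MeasureTheory
open scoped Manifold ContDiff NNReal

noncomputable section

namespace Pool.Agent.T2h58.P2

open Pool.Agent.Y522 Pool.Agent.N550 Pool.Agent.N550.KH Pool.Agent.T2h58 Pool.Agent.T2h58.Det

section cells

variable {M : Type} [TopologicalSpace M] [ChartedSpace (E 4) M]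

theorem cm_image_open {c : E 4 → M} (hc : CellMap c) {U : Set (E 4)} (hU : IsOpen U) :
    IsOpen (c '' U) :=
  isOpen_image_of_LD hU fun x _ => hc.2 x

theorem cm_openEmb {c : E 4 → M} (hc : CellMap c) : IsOpenEmbedding c :=
  IsOpenEmbedding.of_continuous_injective_isOpenMap (cm_cont hc) hc.1
    fun _ hU => cm_image_open hc hU

/-- compact subsets of a cell lie in a ball of the cell -/
theorem cm_bdd {c : E 4 → M} (hc : CellMap c) {C : Set M} (hC : IsCompact C)
    (hCc : C ⊆ range c) : ∃ R : ℝ, C ⊆ c '' closedBall 0 R := by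
  have h1 : IsCompact (c ⁻¹' C) := (cm_openEmb hc).isInducing.isCompact_preimage' hC hCc
  obtain ⟨R, hR⟩ := h1.isBounded.subset_closedBall 0
  refine ⟨R, fun x hx => ?_⟩
  obtain ⟨z, rfl⟩ := hCc hx
  exact ⟨z, hR hx, rfl⟩

end cells

/-- Engulfing of a compact set in a chart which is off the grid, relative to a ball of a cell. -/
theorem p2 : T_GRG → T_GC → T_P2 := by
  intro hGRG hGC M _ _ _ _ _ _ c h R₁ R₂ R₃ s t B hc hh hB hs h12 h23 H1 H2
  set B1 : Set (E 4) := B ∩ h ⁻¹' (c '' ball 0 R₂)ᶜ with hB1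
  set O : Set (E 4) := (h ⁻¹' (c '' closedBall 0 R₁))ᶜ with hO
  have hcl : IsClosed (c '' closedBall 0 R₁) :=
    ((isCompact_closedBall 0 R₁).image (cm_cont hc)).isClosed
  have hB1c : IsCompact B1 := hB.inter_right
    ((cm_image_open hc isOpen_ball).isClosed_compl.preimage (cm_cont hh))
  have hOo : IsOpen O := (hcl.preimage (cm_cont hh)).isOpen_compl
  obtain ⟨a, x, v, hG, hsegO, hpush⟩ := hGRG B1 O s t hB1c hOo hs
    (fun z hz z' hz' => (H1 z hz.1 hz.2).2 z' hz') (fun z hz => (H1 z hz.1 hz.2).1)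
  obtain ⟨c', hc', hsub⟩ := hGC M c h R₃ a x v hc hh hG
  obtain ⟨κ, hκ, hdisp, hκO⟩ := hpush (h ⁻¹' range c') ((cm_open hc').preimage (cm_cont hh))
    (fun i z hz => hsub (Or.inr (mem_iUnion.2 ⟨i, z, hz, rfl⟩)))
  have hS : h ⁻¹' (c '' closedBall 0 R₁) ⊆ Oᶜ := by rw [hO, compl_compl]
  refine push hh hc' hκ hS ?_ ?_
  · exact fun y hy => hsub (Or.inl (image_mono (closedBall_subset_closedBall
      (h12.trans h23).le) hy))
  · intro z hz
    by_cases hzc : h z ∈ c '' ball 0 R₂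
    · refine hsub (Or.inl (H2 z hz hzc (κ z) ?_))
      rw [mem_closedBall, dist_eq_norm]
      exact hdisp z
    · exact hκO z ⟨hz, hzc⟩

/-- one more piece -/
theorem one_more (hGEN : T_GEN) (hP2 : T_P2) (M : Type) [TopologicalSpace M] [CompactSpace M]
    [T2Space M] [ChartedSpace (E 4) M] [IsManifold (𝓡 4) ∞ M] [SimplyConnectedSpace M]
    {h : E 4 → M} (hh : CellMap h) {B : Set (E 4)} (hB : IsCompact B)
    (hBn : Measure.hausdorffMeasure 2 B = 0) {C : Set M} (hC : IsCompact C) (hcel : Cel C) :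
    Cel (C ∪ h '' B) := by
  obtain ⟨c, hc, hCc⟩ := hcel
  obtain ⟨R₁, hR₁⟩ := cm_bdd hc hC hCc
  have hcl : ∀ R : ℝ, IsClosed (c '' closedBall 0 R) := fun R =>
    ((isCompact_closedBall 0 R).image (cm_cont hc)).isClosed
  set A1 : Set (E 4) := B ∩ h ⁻¹' (c '' ball 0 (R₁ + 1))ᶜ with hA1
  have hA1c : IsCompact A1 := hB.inter_right
    ((cm_image_open hc isOpen_ball).isClosed_compl.preimage (cm_cont hh))
  have hA1s : A1 ⊆ h ⁻¹' (c '' closedBall 0 R₁)ᶜ := by
    rintro z ⟨_, hz⟩ hz'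
    exact hz (image_mono (closedBall_subset_ball (by linarith)) hz')
  obtain ⟨δ₁, hδ₁, hd1⟩ := hA1c.exists_cthickening_subset_open
    ((hcl R₁).isOpen_compl.preimage (cm_cont hh)) hA1s
  set A2 : Set (E 4) := B ∩ h ⁻¹' (c '' closedBall 0 (R₁ + 1)) with hA2
  have hA2c : IsCompact A2 := hB.inter_right ((hcl _).preimage (cm_cont hh))
  have hA2s : A2 ⊆ h ⁻¹' (c '' ball 0 (R₁ + 2)) := by
    rintro z ⟨_, hz⟩
    exact image_mono (closedBall_subset_ball (by linarith)) hz
  obtain ⟨δ₂, hδ₂, hd2⟩ := hA2c.exists_cthickening_subset_open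
    ((cm_image_open hc isOpen_ball).preimage (cm_cont hh)) hA2s
  set s : ℝ := min δ₁ δ₂ / 4 with hs
  have hs0 : 0 < s := by
    have := lt_min hδ₁ hδ₂
    rw [hs]; linarith
  have h4s1 : 4 * s ≤ δ₁ := by
    have := min_le_left δ₁ δ₂
    rw [hs]; linarith
  have h4s2 : 4 * s ≤ δ₂ := by
    have := min_le_right δ₁ δ₂
    rw [hs]; linarith
  obtain ⟨t, ht⟩ := hGEN B s hB hBn hs0
  refine Cel.mono (hP2 M c h R₁ (R₁ + 1) (R₁ + 2) s t B hc hh hB hs0 (by linarith) (by linarith)
    ?_ ?_) (union_subset_union_left _ hR₁)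
  · intro z hz hzc
    refine ⟨ht z hz, fun z' hz' => ?_⟩
    have hzA : z ∈ A1 := ⟨hz, hzc⟩
    exact hd1 (closedBall_subset_cthickening hzA δ₁ (closedBall_subset_closedBall h4s1 hz'))
  · intro z hz hzc z' hz'
    have hzA : z ∈ A2 := ⟨hz, image_mono ball_subset_closedBall hzc⟩
    have h1 : z' ∈ cthickening δ₂ A2 :=
      closedBall_subset_cthickening hzA δ₂ (closedBall_subset_closedBall h4s2 hz')
    exact image_mono ball_subset_closedBall (hd2 h1)

/-- **Thin compact subsets of closed simply connected 4-manifolds lie in cells.** -/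
theorem pp : T_GEN → T_P2 → T_PP := by
  intro hGEN hP2 M _ _ _ _ _ _ B hB hBn
  choose h hh h0 using fun x : M => exists_cell0 x
  obtain ⟨F, hF⟩ := CompactSpace.elim_nhds_subcover (fun x : M => h x '' ball 0 1)
    (fun x => (cm_image_open (hh x) isOpen_ball).mem_nhds ⟨0, mem_ball_self one_pos, h0 x⟩)
  have hcomp : ∀ x : M, IsCompact (h x ⁻¹' B ∩ closedBall 0 1) := fun x =>
    (isCompact_closedBall 0 1).inter_left (hB.isClosed.preimage (cm_cont (hh x)))
  have hnull : ∀ x : M, Measure.hausdorffMeasure 2 (h x ⁻¹' B ∩ closedBall 0 1) = 0 := fun x =>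
    measure_mono_null inter_subset_left (hBn (h x) (hh x).1 (hh x).2)
  have hind : ∀ G : Finset M, Cel (⋃ x ∈ G, h x '' (h x ⁻¹' B ∩ closedBall 0 1)) := by
    classical
    intro G
    induction G using Finset.induction_on with
    | empty =>
      have hne : Nonempty M := inferInstance
      obtain ⟨x₀⟩ := hne
      exact ⟨h x₀, hh x₀, by simp⟩
    | insert x G _ ih =>
      rw [Finset.set_biUnion_insert, union_comm]
      exact one_more hGEN hP2 M (hh x) (hcomp x) (hnull x)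
        (G.isCompact_biUnion fun y _ => (hcomp y).image (cm_cont (hh y))) ih
  refine Cel.mono (hind F) fun y hy => ?_
  have hy' : y ∈ ⋃ x ∈ F, h x '' ball 0 1 := by rw [hF]; trivial
  obtain ⟨x, hx, z, hz, rfl⟩ := mem_iUnion₂.1 hy'
  exact mem_iUnion₂.2 ⟨x, hx, z, ⟨hy, ball_subset_closedBall hz⟩, rfl⟩

end Pool.Agent.T2h58.P2
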