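import Pool.Agent.T2h58.Stm3
import Pool.Agent.T2h58.Det
import Pool.Agent.N550.KH.All

/-!
# Project SC (simply connected): induction over the charts, and the theorem (helper64)
-/

set_option autoImplicit false

open Set Filter Topology Metric Function MeasureTheory
open scoped Manifold ContDiff

noncomputable section

namespace Pool.Agent.T2h58.Rr

open Pool.Agent.Y522 Pool.Agent.N550 Pool.Agent.N550.KH Pool.Agent.T2h58

/-- a finite cover by cells -/
theorem cover (N : Type) [TopologicalSpace N] [CompactSpace N] [ChartedSpace (E 4) N]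
    [IsManifold (𝓡 4) ∞ N] [Nonempty N] : ∃ (m : ℕ) (H : ℕ → E 4 → N), (∀ i, CellMap (H i)) ∧
      ∀ x : N, ∃ i < m, ∃ z, ‖z‖ ≤ 1 ∧ H i z = x := by
  choose h hc h0 using fun x : N => Det.exists_cell0 x
  obtain ⟨t, ht⟩ := (isCompact_univ (X := N)).elim_finite_subcover
    (fun p : N => h p '' ball 0 1)
    (fun p => isOpen_image_of_LD isOpen_ball fun x _ => (hc p).2 x)
    (fun x _ => mem_iUnion.2 ⟨x, 0, mem_ball_self one_pos, h0 x⟩)
  obtain ⟨p0⟩ := ‹Nonempty N›
  let e := t.equivFin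
  refine ⟨t.card, fun i => if hi : i < t.card then h (e.symm ⟨i, hi⟩) else h p0, ?_, ?_⟩
  · intro i
    dsimp only
    split_ifs with hi
    · exact hc _
    · exact hc _
  · intro x
    obtain ⟨p, hp, z, hz, hzx⟩ := mem_iUnion₂.1 (ht (mem_univ x))
    refine ⟨e ⟨p, hp⟩, (e ⟨p, hp⟩).2, z, (mem_ball_zero_iff.1 hz).le, ?_⟩
    have h1 : ((e ⟨p, hp⟩ : Fin t.card) : ℕ) < t.card := (e ⟨p, hp⟩).2
    simp only [h1, dif_pos, Fin.eta, Equiv.symm_apply_apply]
    exact hzx

theorem rr (hRST : T_RST) : T_RR := by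
  intro M N _ _ _ _ _ _ _ _ _ _ _ f hf
  have : Nonempty N := inferInstance
  obtain ⟨m, H, hH, hcov⟩ := cover N
  set r : ℕ → ℝ := fun j => 2 - (j : ℝ) / (m + 1) with hr
  have hm : (0 : ℝ) < (m : ℝ) + 1 := by positivity
  have hr1 : ∀ j, j ≤ m → 1 < r j := by
    intro j hj
    have h1 : (j : ℝ) / (m + 1) < 1 := by
      rw [div_lt_one hm]
      have : (j : ℝ) ≤ m := by exact_mod_cast hj
      linarith
    simp only [hr]
    linarith
  have hr2 : ∀ j, r (j + 1) < r j := by
    intro j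
    simp only [hr]
    have h1 : (j : ℝ) / (m + 1) < ((j + 1 : ℕ) : ℝ) / (m + 1) := by
      apply div_lt_div_of_pos_right _ hm
      push_cast
      linarith
    linarith
  set U : ℕ → ℝ → Set N := fun j ρ => ⋃ i ∈ Finset.range j, H i '' closedBall 0 ρ with hU
  have hUc : ∀ j ρ, IsCompact (U j ρ) := by
    intro j ρ
    refine (Finset.range j).isCompact_biUnion fun i _ => ?_
    exact (isCompact_closedBall _ _).image (Det.cm_cont (hH i))
  have step : ∀ j : ℕ, j ≤ m → ∃ (f' : M ≃ₜ N) (c : E 4 → N), CellMap c ∧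
      NullH 4 (f' '' Bad 4 f') ∧ ∀ x, f' x ∈ U j (r j) → f' x ∉ range c → LD 4 f' x := by
    intro j
    induction j with
    | zero =>
      intro _
      refine ⟨f, H 0, hH 0, hf, fun x hx => ?_⟩
      simp [hU] at hx
    | succ j ih =>
      intro hj
      obtain ⟨f1, c1, hc1, hn1, hl1⟩ := ih (by omega)
      obtain ⟨f2, c2, hc2, hn2, hl2⟩ := hRST M N f1 (H j) c1 (U j (r j)) (U j (r (j + 1)))
        (r (j + 1)) (hH j) hc1 (hUc _ _) (hUc _ _) (by
          intro y hy
          obtain ⟨i, hi, z, hz, hzy⟩ := mem_iUnion₂.1 hy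
          have h1 : IsOpen (H i '' ball 0 (r j)) :=
            isOpen_image_of_LD isOpen_ball fun x _ => (hH i).2 x
          have h2 : H i '' ball 0 (r j) ⊆ U j (r j) :=
            fun w hw => mem_iUnion₂.2 ⟨i, hi, image_mono ball_subset_closedBall hw⟩
          refine interior_maximal h2 h1 ⟨z, ?_, hzy⟩
          rw [mem_closedBall_zero_iff] at hz
          rw [mem_ball_zero_iff]
          exact hz.trans_lt (hr2 j)) hn1 hl1
      refine ⟨f2, c2, hc2, hn2, fun x hx => hl2 x ?_⟩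
      obtain ⟨i, hi, hxi⟩ := mem_iUnion₂.1 hx
      rw [Finset.mem_range] at hi
      rcases Nat.lt_succ_iff_lt_or_eq.1 hi with h1 | h1
      · exact Or.inl (mem_iUnion₂.2 ⟨i, Finset.mem_range.2 h1, hxi⟩)
      · rw [h1] at hxi
        exact Or.inr hxi
  obtain ⟨f', c, hc, hn, hl⟩ := step m le_rfl
  refine ⟨f', c, hc, hn, fun x hx => hl x ?_ hx⟩
  obtain ⟨i, hi, z, hz, hzx⟩ := hcov (f' x)
  refine mem_iUnion₂.2 ⟨i, Finset.mem_range.2 hi, z, ?_, hzx⟩
  rw [mem_closedBall_zero_iff]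
  exact hz.trans (hr1 m le_rfl).le

theorem fin (hRR : T_RR) : T_FIN := by
  intro M N _ _ _ _ _ _ _ _ _ _ _ f hf
  have : Nonempty N := inferInstance
  have hf0 : NullH 4 (f '' Bad 4 f) := Null.main 4 N _ hf
  obtain ⟨f', c, hc, hn, hl⟩ := hRR M N f hf0
  obtain ⟨c', hci, hcl, hcr⟩ := Cell.main 4 M N f' c hn hc.1 hc.2
  have hXne : ((range c)ᶜ).Nonempty := by
    by_contra h
    rw [not_nonempty_iff_eq_empty, compl_empty_iff] at h
    have hemb : IsOpenEmbedding c := Asm.isOpenEmb hc.1 hc.2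
    have h1 : IsCompact (c ⁻¹' univ) :=
      (hemb.isInducing.isCompact_preimage_iff (by rw [h])).2 isCompact_univ
    rw [preimage_univ] at h1
    exact noncompact_univ (E 4) h1
  refine asm 4 M N (f' ⁻¹' (range c)ᶜ) (range c)ᶜ c' c f' (by norm_num) ?_ hci hcl ?_ hc.1 hc.2
    (compl_compl _).symm (fun x hx => hl x hx) f'.injective.injOn
    (image_preimage_eq _ f'.surjective)
  · exact hXne.preimage f'.surjective
  · rw [hcr, preimage_compl, compl_compl]

end Pool.Agent.T2h58.Rr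

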