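import Pool.Agent.T2h58.Stm3
import Pool.Agent.N550.KH.Asm

/-!
# Project SC (simply connected): one chart (helper59)
-/

set_option autoImplicit false

open Set Filter Topology Metric Function MeasureTheory
open scoped Manifold ContDiff NNReal

noncomputable section

namespace Pool.Agent.T2h58.Rst

open Pool.Agent.Y522 Pool.Agent.N550 Pool.Agent.N550.KH Pool.Agent.T2h58

/-- compactness: a closed set `K` in an open set `O` of the target -/
theorem eps {N : Type} [TopologicalSpace N] {h : E 4 → N} (hh : Continuous h) {K O : Set N}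
    (hK : IsClosed K) (hO : IsOpen O) (hKO : K ⊆ O) (ρ : ℝ) :
    ∃ ε : ℝ, 0 < ε ∧ ∀ z ∈ closedBall (0 : E 4) ρ, ∀ z', dist z' z < ε → h z ∈ K → h z' ∈ O := by
  have h1 : IsCompact (closedBall (0 : E 4) ρ ∩ h ⁻¹' K) :=
    (isCompact_closedBall _ _).inter_right (hK.preimage hh)
  obtain ⟨ε, hε, h2⟩ := h1.exists_thickening_subset_open (hO.preimage hh)
    fun z hz => hKO hz.2
  exact ⟨ε, hε, fun z hz z' hzz' hzK => h2 (mem_thickening_iff.2 ⟨z, ⟨hz, hzK⟩, hzz'⟩)⟩

theorem face_dist {s : ℝ} (hs : 0 < s) {t : E 4} {k : Fin 4 → ℤ} {F : Finset (Fin 4)} {z z' : E 4}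
    (hz : z ∈ face s t k F) (hz' : z' ∈ face s t k F) : dist z z' ≤ 2 * s := by
  have h1 : ∀ i, |z i - z' i| ≤ s := by
    intro i
    by_cases hi : i ∈ F
    · have h2 := (hz i).1 hi
      have h3 := (hz' i).1 hi
      rw [abs_le]
      constructor <;> nlinarith [h2.1, h2.2, h3.1, h3.2]
    · have h2 := (hz i).2 hi
      have h3 := (hz' i).2 hi
      rw [h2, h3, sub_self, abs_zero]
      exact hs.le
  rw [EuclideanSpace.dist_eq]
  refine Real.sqrt_le_iff.2 ⟨by positivity, ?_⟩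
  have h4 : ∀ i, dist (z i) (z' i) ^ 2 ≤ s ^ 2 := by
    intro i
    rw [Real.dist_eq]
    exact pow_le_pow_left₀ (abs_nonneg _) (h1 i) 2
  refine (Finset.sum_le_sum fun i _ => h4 i).trans ?_
  rw [Finset.sum_const, Finset.card_univ, Fintype.card_fin, nsmul_eq_mul]
  push_cast
  nlinarith

/-- the faces which meet a ball form a finite set -/
theorem finite_faces {s : ℝ} (hs : 0 < s) (t : E 4) (r : ℝ) :
    {p : (Fin 4 → ℤ) × Finset (Fin 4) | ∃ z ∈ closedBall (0 : E 4) r, z ∈ face s t p.1 p.2}.Finite := by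
  have hc : ∀ i : Fin 4, Set.Finite
      (Icc (⌊(-r - t i) / s⌋ - 1) ⌊(r - t i) / s⌋ : Set ℤ) := fun i => finite_Icc _ _
  have h1 : (Set.pi univ fun i : Fin 4 =>
      (Icc (⌊(-r - t i) / s⌋ - 1) ⌊(r - t i) / s⌋ : Set ℤ)).Finite := Set.Finite.pi' hc |>.subset (by
        intro k hk i
        exact hk i (mem_univ i))
  refine (h1.prod (finite_univ (α := Finset (Fin 4)))).subset ?_
  rintro ⟨k, F⟩ ⟨z, hz, hzf⟩
  refine ⟨fun i _ => ?_, mem_univ _⟩
  have h2 : |z i| ≤ r := by
    have h3 : ‖z i‖ ≤ ‖z‖ := PiLp.norm_apply_le z i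
    rw [mem_closedBall_zero_iff] at hz
    exact h3.trans hz
  rw [abs_le] at h2
  have h3 : t i + k i * s ≤ z i ∧ z i ≤ t i + (k i + 1) * s := by
    by_cases hi : i ∈ F
    · exact (hzf i).1 hi
    · have h4 := (hzf i).2 hi
      constructor
      · exact h4.symm.le
      · rw [h4]; nlinarith
  constructor
  · have h5 : (-r - t i) / s ≤ k i + 1 := by
      rw [div_le_iff₀ hs]
      linarith [h3.2, h2.1]
    have h6 := (Int.floor_le ((-r - t i) / s)).trans h5
    have h7 : ⌊(-r - t i) / s⌋ ≤ k i + 1 := by exact_mod_cast h6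
    change ⌊(-r - t i) / s⌋ - 1 ≤ k i
    omega
  · apply Int.le_floor.2
    rw [le_div_iff₀ hs]
    linarith [h3.1, h2.2]

/-- a point which is not off the grid lies in a two-dimensional face -/
theorem exists_face {s : ℝ} (hs : 0 < s) {t z : E 4} (h : ¬ OffGrid s t z) :
    ∃ (k : Fin 4 → ℤ) (F : Finset (Fin 4)), F.card = 2 ∧ z ∈ face s t k F := by
  classical
  unfold OffGrid at h
  push Not at h
  obtain ⟨i, j, hij, ⟨ki, hki⟩, ⟨kj, hkj⟩⟩ := h
  refine ⟨fun l => if l = i then ki else if l = j then kj else ⌊(z l - t l) / s⌋,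
    Finset.univ \ {i, j}, ?_, ?_⟩
  · rw [Finset.card_sdiff_of_subset (Finset.subset_univ _), Finset.card_univ, Fintype.card_fin,
      Finset.card_pair hij]
  · intro l
    beta_reduce
    constructor
    · intro hl
      rw [Finset.mem_sdiff, Finset.mem_insert, Finset.mem_singleton, not_or] at hl
      rw [if_neg hl.2.1, if_neg hl.2.2]
      have h1 := Int.floor_le ((z l - t l) / s)
      have h2 := Int.lt_floor_add_one ((z l - t l) / s)
      rw [le_div_iff₀ hs] at h1
      rw [div_lt_iff₀ hs] at h2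
      constructor <;> linarith
    · intro hl
      rw [Finset.mem_sdiff, Finset.mem_insert, Finset.mem_singleton] at hl
      push Not at hl
      have h1 := hl (Finset.mem_univ l)
      by_cases h2 : l = i
      · subst h2
        rw [if_pos rfl]
        exact hki
      · have h3 : l = j := h1.resolve_left h2
        subst h3
        rw [if_neg h2, if_pos rfl]
        exact hkj

theorem main (hSk : T_SKEL) (hP2 : T_P2) : T_RST := by
  intro M N _ _ _ _ _ _ _ _ _ _ _ f h c U U' r hh hc hU hU' hUU hfn hfU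
  classical
  have hhc : Continuous h := KH.Asm.cont hh.2
  have hcc : Continuous c := KH.Asm.cont hc.2
  have hco : ∀ R : ℝ, IsOpen (c '' ball 0 R) := fun R =>
    (KH.Asm.isOpenEmb hc.1 hc.2).isOpenMap _ isOpen_ball
  have hck : ∀ R : ℝ, IsCompact (c '' closedBall 0 R) := fun R =>
    (isCompact_closedBall _ _).image hcc
  -- the bad sets
  have hbad : ∀ g : M ≃ₜ N, IsClosed (g '' {x | ¬ LD 4 g x}) := by
    intro g
    apply g.isClosedMap
    rw [← isOpen_compl_iff, isOpen_iff_mem_nhds]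
    intro x hx
    have h1 : LD 4 g x := not_not.1 hx
    filter_upwards [LD.eventually h1] with y hy
    exact not_not.2 hy
  -- the radii
  obtain ⟨R₀, hR₀⟩ : ∃ R₀ : ℝ, ∀ x, f x ∈ U → ¬ LD 4 f x → f x ∈ c '' ball 0 R₀ := by
    have h1 : IsCompact (f '' {x | ¬ LD 4 f x} ∩ U) := hU.inter_left (hbad f)
    have h2 : f '' {x | ¬ LD 4 f x} ∩ U ⊆ range c := by
      rintro _ ⟨⟨x, hx, rfl⟩, hxU⟩
      by_contra h
      exact hx (hfU x hxU h)
    have h3 := ((KH.Asm.isOpenEmb hc.1 hc.2).isInducing.isCompact_preimage_iff h2).2 h1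
    obtain ⟨R, hR⟩ := h3.isBounded.subset_ball (0 : E 4)
    refine ⟨R, fun x hxU hx => ?_⟩
    obtain ⟨w, hw⟩ := h2 ⟨⟨x, hx, rfl⟩, hxU⟩
    refine ⟨w, hR ?_, hw⟩
    change c w ∈ f '' {x | ¬ LD 4 f x} ∩ U
    rw [hw]
    exact ⟨⟨x, hx, rfl⟩, hxU⟩
  set R₀' : ℝ := R₀ + 1 with hR₀'
  set R₁ : ℝ := R₀ + 2 with hR₁
  set R₂ : ℝ := R₀ + 3 with hR₂
  set R₃ : ℝ := R₀ + 4 with hR₃
  have hsub : ∀ {a b : ℝ}, a < b → c '' closedBall 0 a ⊆ c '' ball 0 b := fun hab =>
    image_mono (closedBall_subset_ball hab)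
  -- the constants
  obtain ⟨ε₁, hε₁, H₁⟩ := eps hhc (hck R₀').isClosed (hco R₁) (hsub (by linarith)) (r + 1)
  obtain ⟨ε₂, hε₂, H₂⟩ := eps hhc (hck R₁).isClosed (hco R₂) (hsub (by linarith)) (r + 1)
  obtain ⟨ε₃, hε₃, H₃⟩ := eps hhc (hck R₂).isClosed (hco R₃) (hsub (by linarith)) (r + 1)
  obtain ⟨ε₄, hε₄, H₄⟩ := eps hhc hU'.isClosed isOpen_interior hUU (r + 1)
  obtain ⟨s, hs, hs1, hs2, hs3, hs4, hs5⟩ : ∃ s : ℝ, 0 < s ∧ 4 * s < ε₁ ∧ 4 * s < ε₂ ∧
      4 * s < ε₃ ∧ 4 * s < ε₄ ∧ 4 * s < 1 := by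
    refine ⟨min (min ε₁ ε₂) (min (min ε₃ ε₄) 1) / 8, by positivity, ?_, ?_, ?_, ?_, ?_⟩
    all_goals
      set m := min (min ε₁ ε₂) (min (min ε₃ ε₄) 1) with hm
      have hm0 : 0 < m := by positivity
      have a1 : m ≤ ε₁ := (min_le_left _ _).trans (min_le_left _ _)
      have a2 : m ≤ ε₂ := (min_le_left _ _).trans (min_le_right _ _)
      have a3 : m ≤ ε₃ := (min_le_right _ _).trans ((min_le_left _ _).trans (min_le_left _ _))
      have a4 : m ≤ ε₄ := (min_le_right _ _).trans ((min_le_left _ _).trans (min_le_right _ _))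
      have a5 : m ≤ 1 := (min_le_right _ _).trans (min_le_right _ _)
      linarith
  have hnear : ∀ z ∈ closedBall (0 : E 4) r, ∀ z', dist z' z ≤ 4 * s →
      z' ∈ closedBall (0 : E 4) (r + 1) := by
    intro z hz z' hz'
    rw [mem_closedBall] at hz ⊢
    have := dist_triangle z' z 0
    linarith
  -- the faces
  set Ks : Set N := U' \ c '' ball 0 R₀' with hKs
  have hKc : IsClosed Ks := hU'.isClosed.sdiff (hco R₀')
  have hKf : ∀ x, f x ∈ Ks → LD 4 f x := by
    intro x hx
    by_contra hn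
    refine hx.2 ?_
    exact image_mono (ball_subset_ball (by linarith)) (hR₀ x (interior_subset (hUU hx.1)) hn)
  set P₀ : Set ((Fin 4 → ℤ) × Finset (Fin 4)) := {p | p.2.card = 2 ∧
    (∃ z ∈ closedBall (0 : E 4) r, z ∈ face s 0 p.1 p.2) ∧
    ∀ z ∈ face s 0 p.1 p.2, h z ∉ c '' closedBall 0 R₀'} with hP₀
  have hP₀f : P₀.Finite := (finite_faces hs 0 r).subset fun p hp => hp.2.1
  obtain ⟨f', hf'n, hf'K, hf'P⟩ := hSk M N f h Ks s 0 hP₀f.toFinset
    (fun p hp => (hP₀f.mem_toFinset.1 hp).1) hs hh hfn hKc hKf (by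
      intro p hp
      obtain ⟨-, ⟨z₁, hz₁, hz₁f⟩, hpm⟩ := hP₀f.mem_toFinset.1 hp
      by_cases hex : ∃ z₂ ∈ face s 0 p.1 p.2, h z₂ ∈ U'
      · left
        obtain ⟨z₂, hz₂, hz₂U⟩ := hex
        intro x z hz hxz
        by_contra hn
        have h1 : z₂ ∈ closedBall (0 : E 4) (r + 1) := by
          apply hnear z₁ hz₁
          have := face_dist hs hz₂ hz₁f
          linarith
        have h2 : h z ∈ interior U := by
          apply H₄ z₂ h1 z _ hz₂U
          have := face_dist hs hz hz₂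
          linarith
        have h3 : f x ∈ c '' ball 0 R₀ := hR₀ x (by rw [hxz]; exact interior_subset h2) hn
        rw [hxz] at h3
        exact hpm z hz (image_mono (ball_subset_closedBall.trans
          (closedBall_subset_closedBall (by linarith))) h3)
      · right
        intro z hz hzK
        exact hex ⟨z, hz, hzK.1⟩)
  set Z' : Set N := f' '' {x | ¬ LD 4 f' x} with hZ'
  have hZ'c : IsClosed Z' := hbad f'
  set B : Set (E 4) := closedBall 0 r ∩ h ⁻¹' Z' with hB
  have hBc : IsCompact B := (isCompact_closedBall _ _).inter_right (hZ'c.preimage hhc)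
  have hcel : Cel (c '' closedBall 0 R₁ ∪ h '' B) := by
    refine hP2 N c h R₁ R₂ R₃ s 0 B hc hh hBc hs (by linarith) (by linarith) ?_ ?_
    · intro z hz hz2
      refine ⟨?_, ?_⟩
      · by_contra hoff
        obtain ⟨k, F, hF, hzF⟩ := exists_face hs hoff
        have hp : (k, F) ∈ P₀ := by
          refine ⟨hF, ⟨z, hz.1, hzF⟩, ?_⟩
          intro w hw hwc
          apply hz2
          refine image_mono (ball_subset_ball (by linarith)) (H₁ w (hnear z hz.1 w ?_) z ?_ hwc)
          · have := face_dist hs hw hzF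
            linarith
          · have := face_dist hs hzF hw
            linarith
        obtain ⟨x, hx, hxz⟩ := hz.2
        exact hx (hf'P (k, F) (hP₀f.mem_toFinset.2 hp) x z hzF hxz)
      · intro z' hz' hz'c
        apply hz2
        apply H₂ z' (hnear z hz.1 z' hz') z _ hz'c
        rw [dist_comm]
        rw [mem_closedBall] at hz'
        linarith
    · intro z hz hz2 z' hz'
      refine image_mono ball_subset_closedBall (H₃ z ?_ z' ?_ (image_mono ball_subset_closedBall hz2))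
      · exact closedBall_subset_closedBall (by linarith) hz.1
      · rw [mem_closedBall] at hz'
        linarith
  obtain ⟨c', hc', hcr⟩ := hcel
  refine ⟨f', c', hc', hf'n, ?_⟩
  rintro x (hx | ⟨z, hz, hxz⟩) hxr
  · by_cases h1 : f' x ∈ c '' ball 0 R₀'
    · exfalso
      apply hxr
      exact hcr (Or.inl (image_mono (ball_subset_closedBall.trans
        (closedBall_subset_closedBall (by linarith))) h1))
    · exact hf'K x ⟨hx, h1⟩
  · by_contra hn
    apply hxr
    rw [← hxz]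
    refine hcr (Or.inr ⟨z, ⟨hz, ?_⟩, rfl⟩)
    exact ⟨x, hn, hxz.symm⟩

end Pool.Agent.T2h58.Rst
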