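import Pool.Agent.T2h58.Stm3

/-!
# Project SC: `T_SKEL` from `T_STEP`

The faces of the two-dimensional faces in `P` are processed one after the other, in the order of
their dimensions.
-/

set_option autoImplicit false

open Set Filter Topology Metric Function MeasureTheory
open scoped Manifold ContDiff NNReal

noncomputable section

namespace Pool.Agent.T2h58.Skel

open Pool.Agent.Y522 Pool.Agent.N550 Pool.Agent.N550.KH

/-! ### Faces -/

theorem rint_subset (s : ℝ) (t : E 4) (k : Fin 4 → ℤ) (F : Finset (Fin 4)) :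
    rint s t k F ⊆ face s t k F :=
  fun _ hz i => ⟨fun h => ⟨((hz i).1 h).1.le, ((hz i).1 h).2.le⟩, (hz i).2⟩

/-- the corner -/
def corner (s : ℝ) (t : E 4) (k : Fin 4 → ℤ) : E 4 := WithLp.toLp 2 fun i => t i + k i * s

theorem corner_mem {s : ℝ} (hs : 0 < s) (t : E 4) (k : Fin 4 → ℤ) (F : Finset (Fin 4)) :
    corner s t k ∈ face s t k F := by
  intro i
  refine ⟨fun _ => ⟨le_refl _, ?_⟩, fun _ => rfl⟩
  change t i + k i * s ≤ t i + (k i + 1) * s
  nlinarith

/-- the opposite corner -/
def corner' (s : ℝ) (t : E 4) (k : Fin 4 → ℤ) (F : Finset (Fin 4)) : E 4 :=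
  WithLp.toLp 2 fun i => t i + (k i + if i ∈ F then 1 else 0) * s

theorem corner'_mem {s : ℝ} (hs : 0 < s) (t : E 4) (k : Fin 4 → ℤ) (F : Finset (Fin 4)) :
    corner' s t k F ∈ face s t k F := by
  intro i
  refine ⟨fun h => ?_, fun h => ?_⟩
  · change t i + k i * s ≤ t i + (k i + if i ∈ F then 1 else 0) * s ∧
      t i + (k i + if i ∈ F then 1 else 0) * s ≤ t i + (k i + 1) * s
    rw [if_pos h]
    exact ⟨by nlinarith, le_refl _⟩
  · change t i + (k i + if i ∈ F then 1 else 0) * s = t i + k i * s
    rw [if_neg h, add_zero]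

/-- integer inequalities from inequalities between grid points -/
theorem int_le {s : ℝ} (hs : 0 < s) {a : ℝ} {m n : ℤ} (h : a + m * s ≤ a + n * s) : m ≤ n := by
  have h1 : (m : ℝ) * s ≤ n * s := by linarith
  exact_mod_cast le_of_mul_le_mul_right h1 hs

theorem int_lt {s : ℝ} (hs : 0 < s) {a : ℝ} {m n : ℤ} (h : a + m * s < a + n * s) : m < n := by
  have h1 : (m : ℝ) * s < n * s := by linarith
  exact_mod_cast lt_of_mul_lt_mul_right h1 hs.le

/-- if the interior of a face meets another face then it is contained in it -/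
theorem face_subset {s : ℝ} (hs : 0 < s) {t : E 4} {k l : Fin 4 → ℤ} {F G : Finset (Fin 4)}
    {z : E 4} (hz : z ∈ rint s t k F) (hz' : z ∈ face s t l G) : face s t k F ⊆ face s t l G := by
  intro y hy i
  have h1 := hz i
  have h2 := hz' i
  have h3 := hy i
  by_cases hF : i ∈ F
  · have a1 := h1.1 hF
    have a3 := h3.1 hF
    have hG : i ∈ G := by
      by_contra hG
      have a2 := h2.2 hG
      rw [a2] at a1
      have b1 := int_lt hs a1.1
      have b2 : l i < k i + 1 := int_lt hs (a := t i) (m := l i) (n := k i + 1) (by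
        push_cast
        exact a1.2)
      omega
    have a2 := h2.1 hG
    have b1 : k i < l i + 1 := int_lt hs (a := t i) (m := k i) (n := l i + 1) (by
      push_cast
      exact lt_of_lt_of_le a1.1 a2.2)
    have b2 : l i < k i + 1 := int_lt hs (a := t i) (m := l i) (n := k i + 1) (by
      push_cast
      exact lt_of_le_of_lt a2.1 a1.2)
    have b3 : k i = l i := by omega
    refine ⟨fun _ => ?_, fun h => absurd hG h⟩
    rw [← b3]
    exact a3
  · have a1 := h1.2 hF
    have a3 := h3.2 hF
    refine ⟨fun hG => ?_, fun hG => ?_⟩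
    · have a2 := h2.1 hG
      rw [a1] at a2
      rw [a3]
      exact a2
    · have a2 := h2.2 hG
      rw [a3, ← a1]
      exact a2

/-- the numbers of a face which is contained in a given one -/
theorem mem_of_subset {s : ℝ} (hs : 0 < s) {t : E 4} {k l : Fin 4 → ℤ} {F G : Finset (Fin 4)}
    (h : face s t k F ⊆ face s t l G) :
    F ⊆ G ∧ k ∈ Fintype.piFinset fun i => ({l i, l i + 1} : Finset ℤ) := by
  have c1 := h (corner_mem hs t k F)
  have c2 := h (corner'_mem hs t k F)
  have e1 : ∀ i, (corner s t k) i = t i + k i * s := fun i => rfl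
  have e2 : ∀ i, (corner' s t k F) i = t i + (k i + if i ∈ F then 1 else 0) * s := fun i => rfl
  constructor
  · intro i hi
    by_contra hG
    have a1 := (c1 i).2 hG
    have a2 := (c2 i).2 hG
    rw [e1] at a1
    rw [e2, if_pos hi] at a2
    have : s = 0 := by linarith
    exact hs.ne' this
  · rw [Fintype.mem_piFinset]
    intro i
    rw [Finset.mem_insert, Finset.mem_singleton]
    by_cases hG : i ∈ G
    · have a1 := (c1 i).1 hG
      rw [e1] at a1
      have b1 := int_le hs a1.1
      have b2 : k i ≤ l i + 1 := int_le hs (a := t i) (m := k i) (n := l i + 1) (by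
        push_cast
        exact a1.2)
      omega
    · have a1 := (c1 i).2 hG
      rw [e1] at a1
      have b1 := int_le hs a1.le
      have b2 := int_le hs a1.ge
      omega

/-- every point of a face lies in the interior of a face; on the boundary this has a smaller
dimension -/
theorem exists_rint {s : ℝ} {t : E 4} {k : Fin 4 → ℤ} {F : Finset (Fin 4)} {z : E 4}
    (hz : z ∈ face s t k F) (hz' : z ∉ rint s t k F) :
    ∃ (l : Fin 4 → ℤ) (G : Finset (Fin 4)), z ∈ rint s t l G ∧ G.card < F.card := by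
  classical
  refine ⟨fun i => if i ∈ F ∧ z i = t i + (k i + 1) * s then k i + 1 else k i,
    F.filter fun i => t i + k i * s < z i ∧ z i < t i + (k i + 1) * s, ?_, ?_⟩
  · intro i
    have h := hz i
    refine ⟨fun hi => ?_, fun hi => ?_⟩
    · rw [Finset.mem_filter] at hi
      have hne : ¬ (i ∈ F ∧ z i = t i + (k i + 1) * s) := fun h' => hi.2.2.ne h'.2
      simp only [if_neg hne]
      exact hi.2
    · by_cases hF : i ∈ F
      · have h1 := h.1 hF
        rcases eq_or_lt_of_le h1.2 with h2 | h2
        · simp only [hF, h2, true_and, if_true]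
          push_cast
          rfl
        · rcases eq_or_lt_of_le h1.1 with h3 | h3
          · have hne : ¬ (i ∈ F ∧ z i = t i + (k i + 1) * s) := fun h' => h2.ne h'.2
            simp only [if_neg hne]
            exact h3.symm
          · exact absurd (Finset.mem_filter.2 ⟨hF, h3, h2⟩) hi
      · have h1 := h.2 hF
        have hne : ¬ (i ∈ F ∧ z i = t i + (k i + 1) * s) := fun h' => hF h'.1
        simp only [if_neg hne]
        exact h1
  · refine Finset.card_lt_card ⟨Finset.filter_subset _ _, fun hsub => hz' fun i => ?_⟩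
    refine ⟨fun hi => (Finset.mem_filter.1 (hsub hi)).2, fun hi => (hz i).2 hi⟩

theorem isCompact_face (s : ℝ) (t : E 4) (k : Fin 4 → ℤ) (F : Finset (Fin 4)) :
    IsCompact (face s t k F) := by
  have hcl : IsClosed (face s t k F) := by
    have he : face s t k F = ⋂ i, {z : E 4 | (i ∈ F → t i + k i * s ≤ z i ∧
        z i ≤ t i + (k i + 1) * s) ∧ (i ∉ F → z i = t i + k i * s)} := by
      ext z
      simp only [face, mem_iInter]
      rfl
    rw [he]
    refine isClosed_iInter fun i => ?_
    have hc : Continuous fun z : E 4 => z i := by fun_prop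
    by_cases hF : i ∈ F
    · have : {z : E 4 | (i ∈ F → t i + k i * s ≤ z i ∧ z i ≤ t i + (k i + 1) * s) ∧
          (i ∉ F → z i = t i + k i * s)} =
          {z : E 4 | t i + k i * s ≤ z i} ∩ {z : E 4 | z i ≤ t i + (k i + 1) * s} := by
        ext z
        simp [hF]
      rw [this]
      exact (isClosed_le continuous_const hc).inter (isClosed_le hc continuous_const)
    · have : {z : E 4 | (i ∈ F → t i + k i * s ≤ z i ∧ z i ≤ t i + (k i + 1) * s) ∧
          (i ∉ F → z i = t i + k i * s)} = {z : E 4 | z i = t i + k i * s} := by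
        ext z
        simp [hF]
      rw [this]
      exact isClosed_eq hc continuous_const
  have hb : Bornology.IsBounded (face s t k F) := by
    have hbd : ∀ i, ∃ C : ℝ, ∀ z ∈ face s t k F, |z i| ≤ C := by
      intro i
      refine ⟨|t i + k i * s| + |t i + (k i + 1) * s|, fun z hz => ?_⟩
      have h := hz i
      have p1 := neg_abs_le (t i + k i * s)
      have p2 := le_abs_self (t i + k i * s)
      have p3 := neg_abs_le (t i + (k i + 1) * s)
      have p4 := le_abs_self (t i + (k i + 1) * s)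
      have p5 := abs_nonneg (t i + k i * s)
      have p6 := abs_nonneg (t i + (k i + 1) * s)
      rw [abs_le]
      by_cases hF : i ∈ F
      · have := h.1 hF
        constructor <;> linarith
      · have := h.2 hF
        constructor <;> linarith
    choose C hC using hbd
    refine (isBounded_iff_forall_norm_le.2 ⟨∑ i, |C i|, fun z hz => ?_⟩)
    have hn : ‖z‖ ≤ ∑ i, |z i| := by
      rw [EuclideanSpace.norm_eq]
      refine Real.sqrt_le_iff.2 ⟨Finset.sum_nonneg fun i _ => abs_nonneg _, ?_⟩
      have : ∀ i : Fin 4, ‖z i‖ ^ 2 = |z i| ^ 2 := fun i => by rw [Real.norm_eq_abs]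
      simp only [this]
      exact Finset.sum_sq_le_sq_sum_of_nonneg fun i _ => abs_nonneg _
    exact hn.trans (Finset.sum_le_sum fun i _ => (hC i z hz).trans (le_abs_self _))
  exact Metric.isCompact_of_isClosed_isBounded hcl hb

/-! ### The induction -/

theorem main (h0 : T_STEP 0) (h1 : T_STEP 1) (h2 : T_STEP 2) : T_SKEL := by
  classical
  intro M N _ _ _ _ _ _ _ _ _ _ f h K s t P hP hs hh hf hK hfK hPK
  have hcont : Continuous h := continuous_iff_continuousAt.2 fun z => (hh.2 z).continuousAt
  have hcl : ∀ (k : Fin 4 → ℤ) (F : Finset (Fin 4)), IsClosed (h '' face s t k F) := fun k F =>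
    ((isCompact_face s t k F).image hcont).isClosed
  -- the good members of `P`
  set A : Finset ((Fin 4 → ℤ) × Finset (Fin 4)) := P.filter fun p =>
    ∀ x z, z ∈ face s t p.1 p.2 → f x = h z → LD 4 f x with hA
  -- all the faces of the bad members of `P`
  set S : Finset ((Fin 4 → ℤ) × Finset (Fin 4)) := (P \ A).biUnion fun p =>
    ((Fintype.piFinset fun i => ({p.1 i, p.1 i + 1} : Finset ℤ)) ×ˢ Finset.univ).filter
      fun g => face s t g.1 g.2 ⊆ face s t p.1 p.2 with hS
  have hmemS : ∀ g : (Fin 4 → ℤ) × Finset (Fin 4), g ∈ S ↔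
      ∃ p ∈ P \ A, face s t g.1 g.2 ⊆ face s t p.1 p.2 := by
    intro g
    rw [hS, Finset.mem_biUnion]
    constructor
    · rintro ⟨p, hp, hg⟩
      exact ⟨p, hp, (Finset.mem_filter.1 hg).2⟩
    · rintro ⟨p, hp, hg⟩
      exact ⟨p, hp, Finset.mem_filter.2 ⟨Finset.mem_product.2
        ⟨(mem_of_subset hs hg).2, Finset.mem_univ _⟩, hg⟩⟩
  have hcard : ∀ g ∈ S, g.2.card ≤ 2 := by
    intro g hg
    obtain ⟨p, hp, hg⟩ := (hmemS g).1 hg
    rw [← hP p (Finset.mem_sdiff.1 hp).1]
    exact Finset.card_le_card (mem_of_subset hs hg).1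
  have hmiss : ∀ g ∈ S, ∀ z ∈ face s t g.1 g.2, h z ∉ K := by
    intro g hg z hz
    obtain ⟨p, hp, hg⟩ := (hmemS g).1 hg
    rw [Finset.mem_sdiff] at hp
    rcases hPK p hp.1 with h3 | h3
    · exact absurd (Finset.mem_filter.2 ⟨hp.1, h3⟩) hp.2
    · exact h3 z (hg hz)
  -- the sets over which the homeomorphism is a local diffeomorphism
  set W : Finset ((Fin 4 → ℤ) × Finset (Fin 4)) → Set N := fun B =>
    K ∪ ⋃ p ∈ A ∪ B, h '' face s t p.1 p.2 with hW
  have hWcl : ∀ B, IsClosed (W B) := fun B =>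
    hK.union (isClosed_biUnion_finset fun p _ => hcl p.1 p.2)
  have hWmem : ∀ B p, p ∈ A ∪ B → h '' face s t p.1 p.2 ⊆ W B := by
    intro B p hp y hy
    exact Or.inr (mem_iUnion₂.2 ⟨p, hp, hy⟩)
  -- one step
  have hstep : ∀ (B : Finset ((Fin 4 → ℤ) × Finset (Fin 4))) (g : (Fin 4 → ℤ) × Finset (Fin 4)),
      B ⊆ S → g ∈ S → (∀ g' ∈ S, g'.2.card < g.2.card → g' ∈ B) →
      (∃ f' : M ≃ₜ N, NullH 4 (f' '' Bad 4 f') ∧ ∀ x, f' x ∈ W B → LD 4 f' x) →
      ∃ f' : M ≃ₜ N, NullH 4 (f' '' Bad 4 f') ∧ ∀ x, f' x ∈ W (insert g B) → LD 4 f' x := by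
    rintro B g hB hg hlow ⟨f₁, hf₁, hf₁'⟩
    have hWins : W (insert g B) ⊆ W B ∪ h '' face s t g.1 g.2 := by
      rintro y (hy | hy)
      · exact Or.inl (Or.inl hy)
      · obtain ⟨p, hp, hy'⟩ := mem_iUnion₂.1 hy
        rcases Finset.mem_union.1 hp with hp | hp
        · exact Or.inl (hWmem B p (Finset.mem_union_left _ hp) hy')
        · rcases Finset.mem_insert.1 hp with hpg | hp
          · rw [hpg] at hy'
            exact Or.inr hy'
          · exact Or.inl (hWmem B p (Finset.mem_union_right _ hp) hy')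
    by_cases hdone : h '' face s t g.1 g.2 ⊆ W B
    · refine ⟨f₁, hf₁, fun x hx => ?_⟩
      rcases hWins hx with h3 | h3
      · exact hf₁' x h3
      · exact hf₁' x (hdone h3)
    -- the interior of the face misses the closed set
    have hint : ∀ z ∈ rint s t g.1 g.2, h z ∉ W B := by
      rintro z hz (h3 | h3)
      · exact hmiss g hg z (rint_subset _ _ _ _ hz) h3
      · obtain ⟨p, hp, z', hz', he⟩ := mem_iUnion₂.1 h3
        have he' : z' = z := hh.1 he
        rw [he'] at hz'
        exact hdone ((image_mono (face_subset hs hz hz')).trans (hWmem B p hp))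
    -- its boundary lies over the closed set
    have hbd : ∀ x z, z ∈ face s t g.1 g.2 → z ∉ rint s t g.1 g.2 → f₁ x = h z → LD 4 f₁ x := by
      intro x z hz hz' he
      obtain ⟨l, G, hzG, hG⟩ := exists_rint hz hz'
      have hsub := face_subset hs hzG hz
      have hmem : (l, G) ∈ S := by
        obtain ⟨p, hp, hgp⟩ := (hmemS g).1 hg
        exact (hmemS _).2 ⟨p, hp, hsub.trans hgp⟩
      have hB' := hlow _ hmem hG
      refine hf₁' x ?_
      rw [he]
      exact hWmem B _ (Finset.mem_union_right _ hB') ⟨z, rint_subset _ _ _ _ hzG, rfl⟩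
    have hT : T_STEP g.2.card := by
      have := hcard g hg
      interval_cases hc : g.2.card
      · exact h0
      · exact h1
      · exact h2
    obtain ⟨f₂, hf₂, hf₂'⟩ := hT M N f₁ h (W B) s t g.1 g.2 rfl hs hh hf₁ (hWcl B) hf₁' hbd hint
    exact ⟨f₂, hf₂, fun x hx => hf₂' x (hWins hx)⟩
  -- all faces of one dimension
  have hdim : ∀ (d : ℕ) (B : Finset ((Fin 4 → ℤ) × Finset (Fin 4))), B ⊆ S →
      (∀ g ∈ S, g.2.card < d → g ∈ B) →
      (∃ f' : M ≃ₜ N, NullH 4 (f' '' Bad 4 f') ∧ ∀ x, f' x ∈ W B → LD 4 f' x) →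
      ∀ C : Finset ((Fin 4 → ℤ) × Finset (Fin 4)), C ⊆ S → (∀ g ∈ C, g.2.card = d) →
      ∃ f' : M ≃ₜ N, NullH 4 (f' '' Bad 4 f') ∧ ∀ x, f' x ∈ W (C ∪ B) → LD 4 f' x := by
    intro d B hB hlow hf' C
    induction C using Finset.induction_on with
    | empty =>
      intro _ _
      rw [Finset.empty_union]
      exact hf'
    | insert g C hgC ih =>
      intro hC hCd
      have h3 := ih (fun x hx => hC (Finset.mem_insert_of_mem hx))
        fun x hx => hCd x (Finset.mem_insert_of_mem hx)
      rw [Finset.insert_union]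
      refine hstep (C ∪ B) g ?_ (hC (Finset.mem_insert_self _ _)) ?_ h3
      · exact Finset.union_subset (fun x hx => hC (Finset.mem_insert_of_mem hx)) hB
      · intro g' hg' hlt
        rw [hCd g (Finset.mem_insert_self _ _)] at hlt
        exact Finset.mem_union_right _ (hlow g' hg' hlt)
  -- all dimensions
  have hall : ∀ d : ℕ, ∃ f' : M ≃ₜ N, NullH 4 (f' '' Bad 4 f') ∧
      ∀ x, f' x ∈ W (S.filter fun g => g.2.card < d) → LD 4 f' x := by
    intro d
    induction d with
    | zero =>
      refine ⟨f, hf, fun x hx => ?_⟩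
      rcases hx with h3 | h3
      · exact hfK x h3
      · obtain ⟨p, hp, z, hz, he⟩ := mem_iUnion₂.1 h3
        rcases Finset.mem_union.1 hp with hp | hp
        · exact (Finset.mem_filter.1 hp).2 x z hz he.symm
        · exact absurd (Finset.mem_filter.1 hp).2 (Nat.not_lt_zero _)
    | succ d ih =>
      have h3 := hdim d (S.filter fun g => g.2.card < d) (Finset.filter_subset _ _)
        (fun g hg hlt => Finset.mem_filter.2 ⟨hg, hlt⟩) ih (S.filter fun g => g.2.card = d)
        (Finset.filter_subset _ _) fun g hg => (Finset.mem_filter.1 hg).2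
      obtain ⟨f', hf', hf''⟩ := h3
      refine ⟨f', hf', fun x hx => hf'' x ?_⟩
      have he : (S.filter fun g => g.2.card < d + 1) ⊆
          (S.filter fun g => g.2.card = d) ∪ S.filter fun g => g.2.card < d := by
        intro g hg
        rw [Finset.mem_filter] at hg
        rw [Finset.mem_union, Finset.mem_filter, Finset.mem_filter]
        rcases Nat.lt_succ_iff_lt_or_eq.1 hg.2 with h4 | h4
        · exact Or.inr ⟨hg.1, h4⟩
        · exact Or.inl ⟨hg.1, h4⟩
      rcases hx with h4 | h4
      · exact Or.inl h4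
      · obtain ⟨p, hp, hy⟩ := mem_iUnion₂.1 h4
        exact hWmem _ p (Finset.union_subset_union_right he hp) hy
  obtain ⟨f', hf', hf''⟩ := hall 3
  refine ⟨f', hf', fun x hx => hf'' x (Or.inl hx), fun p hp x z hz he => hf'' x ?_⟩
  rw [he]
  by_cases hpA : p ∈ A
  · exact hWmem _ p (Finset.mem_union_left _ hpA) ⟨z, hz, rfl⟩
  · refine hWmem _ p (Finset.mem_union_right _ (Finset.mem_filter.2 ⟨?_, ?_⟩)) ⟨z, hz, rfl⟩
    · exact (hmemS p).2 ⟨p, Finset.mem_sdiff.2 ⟨hp, hpA⟩, Subset.rfl⟩
    · rw [hP p hp]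
      norm_num

end Pool.Agent.T2h58.Skel
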