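import Pool.Agent.T2h58.Stm3
import Pool.Agent.T2h58.Det
import Pool.Agent.N550.KH.Zero
import Pool.Agent.N550.KH.Shift

/-!
# Project SC (simply connected): modification over a vertex
-/

set_option autoImplicit false

open Set Filter Topology Metric Function MeasureTheory
open scoped Manifold ContDiff NNReal

noncomputable section

namespace Pool.Agent.T2h58.Step0

open Pool.Agent.Y522 Pool.Agent.N550 Pool.Agent.N550.KH Pool.Agent.T2h58

/-- the homeomorphism can be made a local diffeomorphism over the centre of a ball, without change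
outside the ball -/
theorem point {M N : Type} [TopologicalSpace M] [CompactSpace M] [T2Space M]
    [ChartedSpace (E 4) M] [IsManifold (𝓡 4) ∞ M] [TopologicalSpace N] [CompactSpace N] [T2Space N]
    [ChartedSpace (E 4) N] [IsManifold (𝓡 4) ∞ N] (f : M ≃ₜ N) (b : E 4 → N)
    (hnull : NullH 4 (f '' Bad 4 f)) (hb : Injective b) (hbl : ∀ z, LD 4 b z) :
    ∃ f' : M ≃ₜ N, NullH 4 (f' '' Bad 4 f') ∧ (∀ x, f' x = b 0 → LD 4 f' x) ∧
      ∀ x, f' x ∉ range b → f' x = f x ∧ (LD 4 f x → LD 4 f' x) := by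
  obtain ⟨z₀, ε, hε, hgood⟩ := Zero.exists_pt f b (by norm_num) hnull hb hbl
  obtain ⟨κ, hκ, hκs, hκb⟩ := Shift.main.2.2 4 z₀ ε 1 hε
  obtain ⟨K, hK, hKb, hKo⟩ := Supp.main 4 N b hb hbl κ hκ hκs
  have hKc : Continuous K := continuous_iff_continuousAt.2 fun x => (hK.2 x).continuousAt
  have hKo' : IsOpenMap K := fun s hs => isOpen_image_of_LD hs fun x _ => hK.2 x
  let Kh : N ≃ₜ N := (Equiv.ofBijective K hK.1).toHomeomorphOfContinuousOpen hKc hKo'
  have hKh : ∀ x, Kh x = K x := fun x => rfl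
  refine ⟨f.trans Kh, ?_, ?_, ?_⟩
  · have h1 := Zero.nullH_image hnull hK
    intro h hh hhl
    refine measure_mono_null (preimage_mono ?_) (h1 h hh hhl)
    rintro _ ⟨x, hx, rfl⟩
    refine ⟨f x, ⟨x, ?_, rfl⟩, rfl⟩
    intro hcon
    apply hx
    filter_upwards [hcon] with y hy
    exact ContMDiffAt.comp (g := K) y (hK.2 _).contMDiffAt hy
  · intro x hx
    obtain ⟨w, hw, hw0⟩ := hκb (show (0 : E 4) ∈ closedBall 0 1 from
      mem_closedBall_self zero_le_one)
    have h1 : K (f x) = K (b w) := by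
      rw [hKb, hw0]
      exact hx
    have h2 : LD 4 f x := hgood x w hw (hK.1.1 h1)
    have h3 : LD 4 (fun y => K (f y)) x := LD.comp_fun (g := K) (f := f) (hK.2 _) h2
    exact h3
  · intro x hx
    have h1 : f x ∉ range b := by
      rintro ⟨w, hw⟩
      apply hx
      refine ⟨κ w, ?_⟩
      rw [← hKb, hw]
      rfl
    refine ⟨hKo _ h1, fun hfx => ?_⟩
    have h3 : LD 4 (fun y => K (f y)) x := LD.comp_fun (g := K) (f := f) (hK.2 _) hfx
    exact h3

theorem main : T_STEP 0 := by
  intro M N _ _ _ _ _ _ _ _ _ _ f h K s t k F hF hs hh hnull hK hKld _ hmiss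
  have hF0 : F = ∅ := Finset.card_eq_zero.1 hF
  subst hF0
  set v : E 4 := WithLp.toLp 2 (fun i => t i + k i * s) with hv
  have hface : ∀ z ∈ face s t k ∅, z = v := by
    intro z hz
    ext i
    exact (hz i).2 (by simp)
  have hvr : v ∈ rint s t k ∅ := fun i => ⟨fun hi => absurd hi (by simp), fun _ => rfl⟩
  have hhv : h v ∉ K := hmiss v hvr
  obtain ⟨r, hr, hball⟩ := Metric.isOpen_iff.1 (hK.isOpen_compl.preimage (Det.cm_cont hh)) v hhv
  set B := OpenPartialHomeomorph.univBall v r with hB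
  have hsrc : B.source = univ := OpenPartialHomeomorph.univBall_source _ _
  have htgt : B.target = ball v r := OpenPartialHomeomorph.univBall_target _ hr
  have hmem : ∀ z, B z ∈ ball v r := by
    intro z
    rw [← htgt]
    exact B.map_source (by rw [hsrc]; exact mem_univ _)
  have hbi : Injective fun z => h (B z) := by
    intro x y hxy
    exact B.injOn (by rw [hsrc]; exact mem_univ _) (by rw [hsrc]; exact mem_univ _) (hh.1 hxy)
  have hbl : ∀ z, LD 4 (fun z => h (B z)) z := fun z =>
    LD.comp_fun (g := h) (f := B) (hh.2 _) (Det.ld_univBall hr z)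
  obtain ⟨f', h1, h2, h3⟩ := point f (fun z => h (B z)) hnull hbi hbl
  refine ⟨f', h1, ?_⟩
  rintro x (hx | ⟨z, hz, hzx⟩)
  · have h4 : f' x ∉ range (fun z => h (B z)) := by
      rintro ⟨w, hw⟩
      have h4 : h (B w) ∉ K := hball (hmem w)
      exact h4 (by rw [show h (B w) = f' x from hw]; exact hx)
    obtain ⟨h5, h6⟩ := h3 x h4
    exact h6 (hKld x (by rw [← h5]; exact hx))
  · apply h2
    rw [← hzx, hface z hz, hB, OpenPartialHomeomorph.univBall_apply_zero]

end Pool.Agent.T2h58.Step0
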