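import Pool.Agent.T2h58.StepG
import Pool.Agent.N550.TS.All

/-!
# Project SC (simply connected): modification over faces of dimension one and two (helper26)
-/

set_option autoImplicit false

open Set Filter Topology Metric Function MeasureTheory
open scoped Manifold ContDiff NNReal

noncomputable section

namespace Pool.Agent.T2h58.Step2

open Pool.Agent.Y522 Pool.Agent.N550 Pool.Agent.N550.KH Pool.Agent.T2h58 Pool.Agent.T2h58.StepG

theorem nsq_two (z : E (2 + 2)) : nsq 2 z = ‖up 2 2 z‖ ^ 2 := by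
  rw [EuclideanSpace.norm_sq_eq, Fin.sum_univ_two]
  unfold nsq
  rw [Fin.sum_univ_four]
  simp only [up_apply, Real.norm_eq_abs, sq_abs]
  norm_num
  rfl

theorem vp_two (z : E (2 + 2)) (h : ∀ i : Fin 4, ¬ (i : ℕ) < 2 → z i = 0) : vp 2 2 z = 0 := by
  ext i
  rw [vp_apply]
  exact h (Fin.natAdd 2 i) (by simp)

theorem nsq_one (z : E (1 + 3)) : nsq 1 z = ‖up 1 3 z‖ ^ 2 := by
  rw [EuclideanSpace.norm_sq_eq, Fin.sum_univ_one]
  unfold nsq
  rw [Fin.sum_univ_four]
  simp only [up_apply, Real.norm_eq_abs, sq_abs]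
  norm_num
  rfl

theorem vp_one (z : E (1 + 3)) (h : ∀ i : Fin 4, ¬ (i : ℕ) < 1 → z i = 0) : vp 1 3 z = 0 := by
  ext i
  rw [vp_apply]
  exact h (Fin.natAdd 1 i) (by simp)

/-- the set over which a homeomorphism is a local diffeomorphism -/
theorem good_open {M N : Type} [TopologicalSpace M] [ChartedSpace (E 4) M] [TopologicalSpace N]
    [ChartedSpace (E 4) N] (f : M ≃ₜ N) : IsOpen {y : N | LD 4 f (f.symm y)} := by
  have h1 : IsOpen {x : M | LD 4 f x} := isOpen_iff_mem_nhds.2 fun x hx => hx.eventually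
  exact h1.preimage f.symm.continuous

/-- Modification over a square face. -/
theorem main : T_STEP 2 := by
  intro M N _ _ _ _ _ _ _ _ _ _ f h K s t k F hF hs hh hbad hK hLD hbd hint
  obtain ⟨l, K', hl, hK'c, hK'V, hlK', hsub⟩ := geom (V := {y : N | LD 4 f (f.symm y)}) hh hK
    (good_open f) (fun y hy => hLD _ (by rwa [f.apply_symm_apply])) hF hs
    (fun z hz hz' => hbd (f.symm (h z)) z hz hz' (f.apply_symm_apply _)) hint
  obtain ⟨f', hf', hLD'⟩ := TS.two2 2 1 M N f (fun _ => l) K' (by norm_num) hbad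
    (fun _ => hl.1) (fun _ => hl.2)
    (fun _ z => by
      rw [hlK' z, nsq_two z, one_le_sq_iff₀ (norm_nonneg _)])
    (fun i j _ _ hij => absurd (Subsingleton.elim i j) hij)
    (fun x hx => by
      have h1 := hK'V hx
      simpa using h1) hK'c
  refine ⟨f', hf', fun x hx => hLD' x ?_⟩
  rcases hsub hx with h1 | ⟨z, ⟨hz1, hz2⟩, hz⟩
  · exact Or.inl h1
  · refine Or.inr (mem_iUnion.2 ⟨0, z, ⟨vp_two z hz1, ?_⟩, hz⟩)
    rw [nsq_two z] at hz2
    exact (sq_le_one_iff₀ (norm_nonneg _)).1 hz2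

/-- Modification over an edge. -/
theorem main1 : T_STEP 1 := by
  intro M N _ _ _ _ _ _ _ _ _ _ f h K s t k F hF hs hh hbad hK hLD hbd hint
  obtain ⟨l, K', hl, hK'c, hK'V, hlK', hsub⟩ := geom (V := {y : N | LD 4 f (f.symm y)}) hh hK
    (good_open f) (fun y hy => hLD _ (by rwa [f.apply_symm_apply])) hF hs
    (fun z hz hz' => hbd (f.symm (h z)) z hz hz' (f.apply_symm_apply _)) hint
  obtain ⟨f', hf', hLD'⟩ := KH.one 3 M N f l K' (by norm_num) hbad hl.1 hl.2
    (fun z => by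
      rw [hlK' z, nsq_one z, one_le_sq_iff₀ (norm_nonneg _)])
    (fun x hx => by
      have h1 := hK'V hx
      simpa using h1)
  refine ⟨f', hf', fun x hx => hLD' x ?_⟩
  rcases hsub hx with h1 | ⟨z, ⟨hz1, hz2⟩, hz⟩
  · exact Or.inl h1
  · refine Or.inr ⟨z, ⟨vp_one z hz1, ?_⟩, hz⟩
    rw [nsq_one z] at hz2
    exact (sq_le_one_iff₀ (norm_nonneg _)).1 hz2

end Pool.Agent.T2h58.Step2
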