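import Pool.Agent.T2h58.Fp
import Pool.Agent.T2h58.Nll
import Pool.Agent.T2h58.Det
import Pool.Agent.T2h58.Hom
import Pool.Agent.T2h58.Col
import Pool.Agent.T2h58.Gc
import Pool.Agent.T2h58.Grg
import Pool.Agent.T2h58.P2
import Pool.Agent.T2h58.Step0
import Pool.Agent.T2h58.Step2
import Pool.Agent.T2h58.Skel
import Pool.Agent.T2h58.Rst
import Pool.Agent.T2h58.Rr

/-!
# Project SC (simply connected): the theorems
-/

set_option autoImplicit false

namespace Pool.Agent.T2h58

theorem det : T_DET := Det.det Fp.tri Nll.nul

theorem str : T_STR := Det.str Fp.tri Nll.nul det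

theorem pt : T_PT := Det.pt Fp.sg Nll.nul

theorem hom : T_HOM := Hom.main det str pt Nll.thin

theorem gc : T_GC := Gc.main hom Col.main Nll.thin

theorem p2 : T_P2 := P2.p2 Grg.main gc

/-- thin compact subsets of closed simply connected 4-manifolds lie in cells -/
theorem pp : T_PP := P2.pp Nll.gen p2

theorem skel : T_SKEL := Skel.main Step0.main Step2.main1 Step2.main

theorem rst : T_RST := Rst.main skel p2

theorem rr : T_RR := Rr.rr rst

/-- smooth homeomorphisms onto closed simply connected 4-manifolds -/
theorem fin : T_FIN := Rr.fin rr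

end Pool.Agent.T2h58
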