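import Pool.Agent.T2h58.Reg2
import Pool.Agent.N550.KH.Asm
import Pool.Agent.N550.KH.Supp

/-!
# Project TC (thin complements): assembly
-/

set_option autoImplicit false

open Set Filter Topology Metric Function MeasureTheory
open scoped Manifold ContDiff

noncomputable section

namespace Pool.Agent.T2h58.Asm

open Pool.Agent.Y522 Pool.Agent.N550 Pool.Agent.N550.KH

/-- the inverse of a diffeomorphism -/
theorem isDf_inv {n : ℕ} {M N : Type} [TopologicalSpace M] [ChartedSpace (E n) M]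
    [TopologicalSpace N] [ChartedSpace (E n) N] {κ : M → N} (h : IsDf n κ) :
    ∃ κi : N → M, IsDf n κi ∧ (∀ x, κi (κ x) = x) ∧ ∀ y, κ (κi y) = y := by
  let e := Equiv.ofBijective κ h.1
  have h1 : ∀ x, e.symm (κ x) = x := fun x => e.symm_apply_apply x
  have h2 : ∀ y, κ (e.symm y) = y := fun y => e.apply_symm_apply y
  exact ⟨e.symm, ⟨e.symm.bijective, fun y => LD.inverse_bij h.1 h.2 h1 y⟩, h1, h2⟩

theorem main (hG : T_GRID) (hE : T_ESC) : T_ASM := by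
  intro M N _ _ _ _ _ _ _ _ _ _ A B g c₁ c₂ hA hB hAn hBn h1i h1d hAr h2i h2d hBr hg hgi hgr
  classical
  have hneM : Nonempty M := ⟨c₁ 0⟩
  have hemb1 : IsOpenEmbedding c₁ := KH.Asm.isOpenEmb h1i h1d
  have hemb2 : IsOpenEmbedding c₂ := KH.Asm.isOpenEmb h2i h2d
  set A₀ : Set (E 4) := c₁ ⁻¹' A with hA₀
  set B₀ : Set (E 4) := c₂ ⁻¹' B with hB₀
  have hA₀cl : IsClosed A₀ := hA.preimage hemb1.continuous
  have hA₀c : IsCompact A₀ := (hemb1.isInducing.isCompact_preimage_iff hAr).2 hA.isCompact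
  have hB₀c : IsCompact B₀ := (hemb2.isInducing.isCompact_preimage_iff hBr).2 hB.isCompact
  have hA₀n : Measure.hausdorffMeasure 2 A₀ = 0 := hAn c₁ h1i h1d
  have hB₀n : Measure.hausdorffMeasure 2 B₀ = 0 := hBn c₂ h2i h2d
  -- `g` and its inverse
  have hgB : ∀ x, x ∉ A → g x ∉ B := fun x hx => by
    have h1 : g x ∈ g '' Aᶜ := ⟨x, hx, rfl⟩
    rw [hgr] at h1
    exact h1
  have hgs : ∀ y, y ∉ B → ∃ x, x ∉ A ∧ g x = y := fun y hy => by
    have h1 : y ∈ g '' Aᶜ := by rw [hgr]; exact hy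
    exact h1
  obtain ⟨gi, hgi'⟩ : ∃ gi : N → M, ∀ x ∈ Aᶜ, gi (g x) = x :=
    ⟨invFunOn g Aᶜ, fun x hx => hgi.leftInvOn_invFunOn hx⟩
  have hgiL : ∀ x ∈ Aᶜ, LD 4 gi (g x) := fun x hx =>
    LD.inverse hA.isOpen_compl (fun y hy => hg y hy) hgi' hx
  have hgiB : ∀ y, y ∉ B → LD 4 gi y ∧ gi y ∉ A ∧ g (gi y) = y := by
    intro y hy
    obtain ⟨x, hx, rfl⟩ := hgs y hy
    rw [hgi' x hx]
    exact ⟨hgiL x hx, hx, rfl⟩
  have hgc : ContinuousOn g Aᶜ := fun x hx => (hg x hx).continuousAt.continuousWithinAt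
  have hPo : ∀ V : Set N, IsOpen V → B ⊆ V → IsOpen {x | x ∈ A ∨ g x ∈ V} := by
    intro V hV hBV
    have h1 : IsCompact (gi '' Vᶜ) := hV.isClosed_compl.isCompact.image_of_continuousOn
      fun y hy => (hgiB y fun h => hy (hBV h)).1.continuousAt.continuousWithinAt
    have h2 : {x | x ∈ A ∨ g x ∈ V}ᶜ = gi '' Vᶜ := by
      ext x
      simp only [mem_compl_iff, mem_ofPred_eq, not_or]
      constructor
      · rintro ⟨h3, h4⟩
        exact ⟨g x, h4, hgi' x h3⟩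
      · rintro ⟨y, hy, rfl⟩
        obtain ⟨-, h3, h4⟩ := hgiB y fun h => hy (hBV h)
        exact ⟨h3, by rw [h4]; exact hy⟩
    rw [← isClosed_compl_iff, h2]
    exact h1.isClosed
  have hPc : ∀ V : Set N, IsClosed V → IsClosed {x | x ∈ A ∨ g x ∈ V} := by
    intro V hV
    have h1 : IsOpen (Aᶜ ∩ g ⁻¹' Vᶜ) := hgc.isOpen_inter_preimage hA.isOpen_compl hV.isOpen_compl
    have h2 : {x | x ∈ A ∨ g x ∈ V}ᶜ = Aᶜ ∩ g ⁻¹' Vᶜ := by
      ext x
      simp only [mem_compl_iff, mem_ofPred_eq, not_or, mem_inter_iff, mem_preimage]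
    rw [← isOpen_compl_iff, h2]
    exact h1
  -- the map `q`
  set q : E 4 → N := fun z => g (c₁ z) with hqd
  have hq : ∀ z, z ∉ A₀ → LD 4 q z := fun z hz => LD.comp_fun (g := g) (hg _ hz) (h1d z)
  have hqi : InjOn q A₀ᶜ := fun x hx y hy hxy => h1i (hgi hx hy hxy)
  have hqB : ∀ z, z ∉ A₀ → q z ∉ B := fun z hz => hgB _ hz
  set W : Set N := (g '' (range c₁)ᶜ)ᶜ with hW
  have hrA : ∀ x, x ∉ range c₁ → x ∉ A := fun x hx h => hx (hAr h)
  have hWo : IsOpen W := by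
    have h1 : IsCompact (g '' (range c₁)ᶜ) :=
      (hemb1.isOpen_range.isClosed_compl.isCompact).image_of_continuousOn
        (hgc.mono fun x hx => hrA x hx)
    exact h1.isClosed.isOpen_compl
  have hBW : B ⊆ W := by
    rintro y hy ⟨x, hx, rfl⟩
    exact hgB x (hrA x hx) hy
  have hqW : ∀ y ∈ W, y ∉ B → ∃ z, z ∉ A₀ ∧ q z = y := by
    intro y hy hyB
    obtain ⟨x, hx, rfl⟩ := hgs y hyB
    have h1 : x ∈ range c₁ := by
      by_contra h
      exact hy ⟨x, h, rfl⟩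
    obtain ⟨z, rfl⟩ := h1
    exact ⟨z, hx, rfl⟩
  have hqW' : ∀ z, z ∉ A₀ → q z ∈ W := by
    rintro z hz ⟨x, hx, hxz⟩
    have h1 : x = c₁ z := hgi (hrA x hx) hz hxz
    exact hx ⟨z, h1.symm⟩
  have hne : Nonempty (E 4) := ⟨0⟩
  obtain ⟨qi, hqi'⟩ : ∃ qi : N → E 4, ∀ z ∈ A₀ᶜ, qi (q z) = z :=
    ⟨invFunOn q A₀ᶜ, fun x hx => hqi.leftInvOn_invFunOn hx⟩
  have hqiL : ∀ z ∈ A₀ᶜ, LD 4 qi (q z) := fun z hz =>
    LD.inverse hA₀cl.isOpen_compl (fun x hx => hq x hx) hqi' hz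
  -- the grid lemma
  set O : Set (E 4) := c₂ ⁻¹' W with hO
  have hOo : IsOpen O := hWo.preimage hemb2.continuous
  obtain ⟨a, xs, vs, hseg, hκ⟩ := hG B₀ O hB₀c hB₀n hOo fun z hz => hBW hz
  -- the escape lemma
  set γ : Fin a → ℝ → E 4 := fun i s => qi (c₂ (xs i + s • vs i)) with hγ
  have hγq : ∀ i, ∀ s ∈ Icc (0 : ℝ) 1, ∃ z, z ∉ A₀ ∧ q z = c₂ (xs i + s • vs i) ∧ γ i s = z := by
    intro i s hs
    obtain ⟨h1, h2⟩ := hseg i s hs
    obtain ⟨z, hz, hzq⟩ := hqW _ h1 h2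
    exact ⟨z, hz, hzq, by simp only [hγ]; rw [← hzq, hqi' z hz]⟩
  obtain ⟨l, z₀, R₀, R₁, hR₀, hR₀₁, hl, hlA, hlγ, hlR⟩ := hE A₀ hA₀c hA₀n a γ (by
    intro i s hs
    obtain ⟨z, hz, hzq, hzγ⟩ := hγq i s hs
    refine ⟨?_, by rw [hzγ]; exact hz⟩
    have h1 : LD 4 (fun x => qi (c₂ x)) (xs i + s • vs i) := by
      refine LD.comp_fun (g := qi) (f := c₂) ?_ (h2d _)
      rw [← hzq]
      exact hqiL z hz
    have h2 : ContDiffAt ℝ ∞ (fun s : ℝ => xs i + s • vs i) s :=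
      contDiffAt_const.add (contDiffAt_id.smul contDiffAt_const)
    exact ContDiffAt.comp (g := fun x => qi (c₂ x)) s h1.contDiffAt h2)
  obtain ⟨li, hli, hlil, hlli⟩ := isDf_inv hl
  have hliA : ∀ w, w ∉ A₀ → li w ∉ A₀ := by
    intro w hw h
    have h1 := hlA _ h
    rw [hlli] at h1
    rw [← h1] at h
    exact hw h
  -- the map `e`
  set e : E 4 → N := fun w => q (li w) with hed
  have he : ∀ w, w ∉ A₀ → LD 4 e w := fun w hw =>
    LD.comp_fun (g := q) (f := li) (hq _ (hliA w hw)) (hli.2 w)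
  have hei : InjOn e A₀ᶜ := fun x hx y hy hxy => hli.1.1 (hqi (hliA x hx) (hliA y hy) hxy)
  have heW : ∀ w, w ∉ A₀ → e w ∈ W := fun w hw => hqW' _ (hliA w hw)
  have hballA : ∀ w ∈ closedBall z₀ R₁, w ∉ A₀ := fun w hw h => hlR w h hw
  have hb01 : ball z₀ R₀ ⊆ closedBall z₀ R₁ :=
    (ball_subset_ball hR₀₁.le).trans ball_subset_closedBall
  have heo : IsOpen (e '' ball z₀ R₀) :=
    isOpen_image_of_LD isOpen_ball fun w hw => he w (hballA w (hb01 hw))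
  -- the diffeomorphism `κ`
  obtain ⟨κ, hκd, hκR, hκO, hκB⟩ := hκ (c₂ ⁻¹' (e '' ball z₀ R₀)) (heo.preimage hemb2.continuous)
    (by
      intro i s hs
      obtain ⟨z, hz, hzq, hzγ⟩ := hγq i s hs
      refine ⟨l (γ i s), hlγ i s hs, ?_⟩
      simp only [hed]
      rw [hlil, hzγ, hzq])
  obtain ⟨K, hK, hKc, hKoff⟩ := KH.Supp.main 4 N c₂ h2i h2d κ hκd hκR
  obtain ⟨Ki, hKi, hKiK, hKKi⟩ := isDf_inv hK
  have hKW : ∀ x, x ∉ W → K x = x := by
    intro x hx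
    by_cases h : x ∈ range c₂
    · obtain ⟨z, rfl⟩ := h
      rw [hKc, hκO z hx]
    · exact hKoff x h
  have hKiW : ∀ y ∈ W, Ki y ∈ W := by
    intro y hy
    by_contra h
    have h1 := hKW _ h
    rw [hKKi] at h1
    rw [← h1] at h
    exact h hy
  set e₁ : E 4 → N := fun w => Ki (e w) with he₁d
  have he₁ : ∀ w, w ∉ A₀ → LD 4 e₁ w := fun w hw =>
    LD.comp_fun (g := Ki) (f := e) (hKi.2 _) (he w hw)
  have he₁i : InjOn e₁ A₀ᶜ := fun x hx y hy hxy => hei hx hy (hKi.1.1 hxy)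
  have he₁W : ∀ w, w ∉ A₀ → e₁ w ∈ W := fun w hw => hKiW _ (heW w hw)
  have hBe : B ⊆ e₁ '' ball z₀ R₀ := by
    intro x hx
    obtain ⟨z, rfl⟩ := hBr hx
    obtain ⟨w, hw, hwz⟩ := hκB z hx
    refine ⟨w, hw, ?_⟩
    simp only [he₁d]
    rw [hwz, ← hKc, hKiK]
  have hb1A : ∀ w ∈ ball z₀ R₁, w ∉ A₀ := fun w hw => hballA w (ball_subset_closedBall hw)
  have hb0A : ∀ w ∈ ball z₀ R₀, w ∉ A₀ := fun w hw => hballA w (hb01 hw)
  -- a smaller radius
  obtain ⟨R₂, hR₂, hR₂₀, hBe₂⟩ : ∃ R₂, 0 < R₂ ∧ R₂ < R₀ ∧ B ⊆ e₁ '' ball z₀ R₂ := by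
    have hnt : Nonempty {t : ℝ // 0 < t ∧ t < R₀} := ⟨⟨R₀ / 2, by linarith, by linarith⟩⟩
    obtain ⟨t, ht⟩ := hB.isCompact.elim_directed_cover
      (fun t : {t : ℝ // 0 < t ∧ t < R₀} => e₁ '' ball z₀ (t : ℝ))
      (fun t => isOpen_image_of_LD isOpen_ball fun w hw =>
        he₁ w (hb0A w (ball_subset_ball t.2.2.le hw)))
      (by
        intro x hx
        obtain ⟨w, hw, rfl⟩ := hBe hx
        rw [mem_ball] at hw
        rw [mem_iUnion]
        refine ⟨⟨max ((dist w z₀ + R₀) / 2) (R₀ / 2), ?_, ?_⟩, w, ?_, rfl⟩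
        · exact lt_of_lt_of_le (by linarith) (le_max_right _ _)
        · exact max_lt (by linarith) (by linarith)
        · rw [mem_ball]
          exact lt_of_lt_of_le (by linarith) (le_max_left _ _))
      (by
        intro s t
        rcases le_total (s : ℝ) t with h | h
        · exact ⟨t, image_mono (ball_subset_ball h), Subset.rfl⟩
        · exact ⟨s, Subset.rfl, image_mono (ball_subset_ball h)⟩)
    exact ⟨t, t.2.1, t.2.2, ht⟩
  have he₁c : ContinuousOn e₁ A₀ᶜ := fun w hw => (he₁ w hw).continuousAt.continuousWithinAt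
  -- the region in `E 4`
  obtain ⟨c₀, hc₀i, hc₀d, hc₀r⟩ := Reg.cell_region (m := 3) A₀ hA₀cl B W q e₁ z₀ R₂ R₀ R₁ hR₂ hR₂₀
    hR₀₁ hq hqi hqB hqW (fun w hw => he₁ w (hb1A w hw)) (he₁i.mono fun w hw => hb1A w hw)
    (fun w hw => he₁W w (hb1A w hw)) hBe₂
    (fun V hV hBV => (hPo V hV hBV).preimage hemb1.continuous) (by
      have h1 : IsClosed (e₁ '' closedBall z₀ R₀) :=
        ((isCompact_closedBall z₀ R₀).image_of_continuousOn
          (he₁c.mono fun w hw => hballA w (closedBall_subset_closedBall hR₀₁.le hw))).isClosed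
      have h2 : {z | z ∈ A₀ ∨ q z ∈ e₁ '' closedBall z₀ R₀} =
          c₁ ⁻¹' {x | x ∈ A ∨ g x ∈ e₁ '' closedBall z₀ R₀} := rfl
      rw [h2]
      refine (hemb1.isInducing.isCompact_preimage_iff ?_).2 (hPc _ h1).isCompact
      rintro x (hx | ⟨w, hw, hwx⟩)
      · exact hAr hx
      · by_contra h
        refine he₁W w (hballA w (closedBall_subset_closedBall hR₀₁.le hw)) ?_
        rw [hwx]
        exact ⟨x, h, rfl⟩)
  -- the final cells
  set V : Set N := e₁ '' ball z₀ R₀ with hV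
  set X : Set N := Vᶜ with hX
  set X' : Set M := {x | x ∉ A ∧ g x ∈ X} with hX'
  have hrange : range (fun z => c₁ (c₀ z)) = X'ᶜ := by
    ext x
    constructor
    · rintro ⟨z, rfl⟩ ⟨h1, h2⟩
      have h3 : c₀ z ∈ range c₀ := ⟨z, rfl⟩
      rw [hc₀r] at h3
      rcases h3 with h3 | h3
      · exact h1 h3
      · exact h2 h3
    · intro hx
      have h1 : x ∈ A ∨ g x ∈ V := by
        by_contra h
        push Not at h
        exact hx h
      have h2 : x ∈ range c₁ := by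
        rcases h1 with h1 | ⟨w, hw, hwx⟩
        · exact hAr h1
        · by_contra h
          refine he₁W w (hb0A w hw) ?_
          rw [hwx]
          exact ⟨x, h, rfl⟩
      obtain ⟨z, rfl⟩ := h2
      have h3 : z ∈ range c₀ := by rw [hc₀r]; exact h1
      obtain ⟨u, rfl⟩ := h3
      exact ⟨u, rfl⟩
  have hjb : ∀ w : E 4, z₀ + KH.End.jb R₀ w ∈ ball z₀ R₀ := fun w => by
    rw [mem_ball, dist_eq_norm, add_sub_cancel_left]
    exact KH.End.jb_norm R₀ hR₀ w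
  have hjbL : ∀ w : E 4, LD 4 (fun w => z₀ + KH.End.jb R₀ w) w := by
    intro w
    have h1 : LD 4 (fun y : E 4 => z₀ + y) (KH.End.jb R₀ w) := by
      have h2 := LD_add_const z₀ (KH.End.jb R₀ w)
      have h3 : (fun y : E 4 => y + z₀) = fun y => z₀ + y := funext fun y => add_comm y z₀
      rwa [h3] at h2
    exact LD.comp_fun (g := fun y : E 4 => z₀ + y) (f := KH.End.jb R₀) h1
      (KH.End.jb_LD R₀ hR₀ w)
  -- a point on the boundary sphere
  have hXne : X'.Nonempty := by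
    obtain ⟨v, hv⟩ : ∃ v : E 4, ‖v‖ = R₀ := by
      refine ⟨EuclideanSpace.single 0 R₀, ?_⟩
      rw [PiLp.norm_single, Real.norm_of_nonneg hR₀.le]
    have h1 : z₀ + v ∈ closedBall z₀ R₁ := by
      rw [mem_closedBall, dist_eq_norm, add_sub_cancel_left, hv]
      exact hR₀₁.le
    have h2 : e₁ (z₀ + v) ∉ V := by
      rintro ⟨w, hw, hwv⟩
      have h3 := he₁i (hb0A w hw) (hballA _ h1) hwv
      rw [h3, mem_ball, dist_eq_norm, add_sub_cancel_left, hv] at hw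
      exact lt_irrefl _ hw
    obtain ⟨x, hx, hxv⟩ := hgs (e₁ (z₀ + v)) fun h => h2 (hBe h)
    exact ⟨x, hx, by rw [hxv]; exact h2⟩
  refine KH.Asm.main KH.End.main 4 M N X' X (fun z => c₁ (c₀ z))
    (fun w => e₁ (z₀ + KH.End.jb R₀ w)) g (by norm_num) hXne
    (fun a b hab => hc₀i (h1i hab)) (fun z => LD.comp_fun (g := c₁) (f := c₀) (h1d _) (hc₀d z))
    hrange ?_ ?_ ?_ (fun x hx => hg x hx.1) (fun x hx y hy hxy => hgi hx.1 hy.1 hxy) ?_
  · intro a b hab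
    exact KH.End.jb_inj R₀ hR₀ (add_left_cancel (he₁i (hb0A _ (hjb a)) (hb0A _ (hjb b)) hab))
  · intro w
    exact LD.comp_fun (g := e₁) (f := fun w => z₀ + KH.End.jb R₀ w) (he₁ _ (hb0A _ (hjb w)))
      (hjbL w)
  · ext y
    constructor
    · rintro ⟨w, rfl⟩ h
      exact h ⟨_, hjb w, rfl⟩
    · intro hy
      rw [hX, compl_compl] at hy
      obtain ⟨w, hw, rfl⟩ := hy
      rw [mem_ball, dist_eq_norm] at hw
      obtain ⟨u, hu⟩ := KH.End.jb_surj R₀ hR₀ (w - z₀) hw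
      refine ⟨u, ?_⟩
      simp only [hu]
      congr 1
      abel
  · ext y
    constructor
    · rintro ⟨x, hx, rfl⟩
      exact hx.2
    · intro hy
      obtain ⟨x, hx, rfl⟩ := hgs y fun h => hy (hBe h)
      exact ⟨x, ⟨hx, hy⟩, rfl⟩

end Pool.Agent.T2h58.Asm
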