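import Pool.Agent.N550.TS.Stm

/-!
# Project TC (thin complements): statements

Closed smooth 4-manifolds whose complements of thin closed sets (two-dimensional Hausdorff measure
zero) are diffeomorphic. `E n` is the Euclidean space of dimension `n`, `LD n f x` says that `f` is
a local diffeomorphism at `x`, `IsDf n κ` says that `κ` is a bijective local diffeomorphism.
-/

set_option autoImplicit false

open Set Filter Topology Metric Function MeasureTheory
open scoped Manifold ContDiff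

noncomputable section

namespace Pool.Agent.T2h58

open Pool.Agent.Y522 Pool.Agent.N550 Pool.Agent.N550.KH

/-- a subset of a manifold with two-dimensional Hausdorff measure zero, in the preferred charts -/
def NullC2 (n : ℕ) {N : Type} [TopologicalSpace N] [ChartedSpace (E n) N] (B : Set N) : Prop :=
  ∀ x₀ : N, Measure.hausdorffMeasure 2
    (chartAt (E n) x₀ '' ((chartAt (E n) x₀).source ∩ B) : Set (E n)) = 0

/-- a subset of a manifold with two-dimensional Hausdorff measure zero, in all the open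
parametrizations by `E n` -/
def NullH2 (n : ℕ) {N : Type} [TopologicalSpace N] [ChartedSpace (E n) N] (B : Set N) : Prop :=
  ∀ h : E n → N, Injective h → (∀ z, LD n h z) →
    Measure.hausdorffMeasure 2 (h ⁻¹' B : Set (E n)) = 0

/-- The two notions of null sets. -/
def T_NULL : Prop :=
  ∀ (n : ℕ) (N : Type) [TopologicalSpace N] [ChartedSpace (E n) N] [IsManifold (𝓡 n) ∞ N]
    (B : Set N), NullC2 n B → NullH2 n B

/-- The grid lemma: a compact set `B` of two-dimensional Hausdorff measure zero in an open subset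
`O` of `E 4` can be moved, by a diffeomorphism with compact support in `O`, into every
neighbourhood of a certain finite union of segments in `O \ B`. -/
def T_GRID : Prop :=
  ∀ B O : Set (E 4), IsCompact B → Measure.hausdorffMeasure 2 B = 0 → IsOpen O → B ⊆ O →
    ∃ (a : ℕ) (x v : Fin a → E 4),
      (∀ i, ∀ s ∈ Icc (0 : ℝ) 1, x i + s • v i ∈ O ∧ x i + s • v i ∉ B) ∧
      ∀ O' : Set (E 4), IsOpen O' → (∀ i, ∀ s ∈ Icc (0 : ℝ) 1, x i + s • v i ∈ O') →
        ∃ κ : E 4 → E 4, IsDf 4 κ ∧ (∃ R : ℝ, ∀ z, R ≤ ‖z‖ → κ z = z) ∧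
          (∀ z, z ∉ O → κ z = z) ∧ ∀ z ∈ B, κ z ∈ O'

/-- The escape lemma: a finite union of smooth arcs in the complement of a compact set `A` of
two-dimensional Hausdorff measure zero in `E 4` can be moved, by a diffeomorphism which fixes `A`,
into a ball whose closure misses `A`. -/
def T_ESC : Prop :=
  ∀ A : Set (E 4), IsCompact A → Measure.hausdorffMeasure 2 A = 0 →
    ∀ (a : ℕ) (γ : Fin a → ℝ → E 4),
      (∀ i, ∀ s ∈ Icc (0 : ℝ) 1, ContDiffAt ℝ ∞ (γ i) s ∧ γ i s ∉ A) →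
      ∃ (l : E 4 → E 4) (z₀ : E 4) (R₀ R₁ : ℝ), 0 < R₀ ∧ R₀ < R₁ ∧ IsDf 4 l ∧
        (∀ z ∈ A, l z = z) ∧ (∀ i, ∀ s ∈ Icc (0 : ℝ) 1, l (γ i s) ∈ ball z₀ R₀) ∧
        ∀ z ∈ A, z ∉ closedBall z₀ R₁

/-- Thin compact sets lie in open cells, if the handles of index at least three do. -/
def T_CELL : Prop :=
  ∀ (N : Type) [TopologicalSpace N] [T2Space N] [ChartedSpace (E 4) N] [IsManifold (𝓡 4) ∞ N]
    (a d : ℕ) (b : E 4 → N) (l : Fin a → E (1 + 3) → N) (K : Set N)
    (h : Fin d → E (2 + 2) → N) (c : E 4 → N), TS.Handles2 N a d b l K h c →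
    ∀ B : Set N, IsCompact B → NullH2 4 B →
      ∃ c' : E 4 → N, Injective c' ∧ (∀ z, LD 4 c' z) ∧ B ⊆ range c'

/-- Assembly. -/
def T_ASM : Prop :=
  ∀ (M N : Type) [TopologicalSpace M] [CompactSpace M] [T2Space M] [ChartedSpace (E 4) M]
    [IsManifold (𝓡 4) ∞ M] [TopologicalSpace N] [CompactSpace N] [T2Space N]
    [ChartedSpace (E 4) N] [IsManifold (𝓡 4) ∞ N] (A : Set M) (B : Set N) (g : M → N)
    (c₁ : E 4 → M) (c₂ : E 4 → N), IsClosed A → IsClosed B → NullH2 4 A → NullH2 4 B →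
    Injective c₁ → (∀ z, LD 4 c₁ z) → A ⊆ range c₁ → Injective c₂ → (∀ z, LD 4 c₂ z) →
    B ⊆ range c₂ → (∀ x, x ∉ A → LD 4 g x) → InjOn g Aᶜ → g '' Aᶜ = Bᶜ →
    ∃ G : M ≃ₜ N, ∃ x₀ : M, ∀ x, x ≠ x₀ → LD 4 G x

end Pool.Agent.T2h58
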