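import Pool.Agent.N550.SH.Cross
import Pool.Agent.T2h58.Stm

/-!
# Diffeomorphisms of open submanifolds
-/

set_option autoImplicit false

open Set Filter Topology Metric Function
open scoped Manifold ContDiff

noncomputable section

namespace Pool.Agent.T2h58.Opn

open Pool.Agent.Y522 Pool.Agent.N550 Pool.Agent.N550.KH Pool.Agent.T2h58

variable {M N : Type} [TopologicalSpace M] [ChartedSpace (E 4) M] [TopologicalSpace N]
  [ChartedSpace (E 4) N]

/-- a diffeomorphism of open subsets as a map of the manifolds -/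
theorem exists_map [IsManifold (𝓡 4) ∞ M] [IsManifold (𝓡 4) ∞ N] [Nonempty N]
    (U : TopologicalSpace.Opens M) (V : TopologicalSpace.Opens N)
    (Φ : Diffeomorph (𝓡 4) (𝓡 4) U V ∞) :
    ∃ g : M → N, (∀ x ∈ U, LD 4 g x) ∧ InjOn g U ∧ g '' U = V := by
  classical
  obtain ⟨y₀⟩ := ‹Nonempty N›
  let g : M → N := fun x => if h : x ∈ U then (Φ ⟨x, h⟩ : N) else y₀
  have hg : ∀ (x : M) (h : x ∈ U), g x = (Φ ⟨x, h⟩ : N) := fun x h => dif_pos h
  refine ⟨g, fun x hx => ?_, fun x hx y hy hxy => ?_, ?_⟩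
  · let u : U := ⟨x, hx⟩
    obtain ⟨q, hq1, hq2, -, hq4⟩ := (SH.ld_opens (n := 4) U u).exists_inverse
    have h1 : LD 4 (fun z => ((Φ (q z) : V) : N)) x := by
      have h2 : LD 4 (fun u : U => ((Φ u : V) : N)) (q (u : M)) :=
        LD.comp_fun (g := (Subtype.val : V → N)) (SH.ld_opens (n := 4) V _)
          (Φ.isLocalDiffeomorph _)
      exact LD.comp_fun (g := fun u : U => ((Φ u : V) : N)) (f := q) h2 hq1
    refine h1.congr ?_
    filter_upwards [hq4] with z hz
    have hzU : z ∈ U := by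
      rw [← hz]
      exact (q z).2
    rw [hg z hzU]
    congr 2
    exact Subtype.ext hz.symm
  · rw [hg x hx, hg y hy] at hxy
    exact congrArg Subtype.val (Φ.injective (Subtype.ext hxy))
  · ext y
    constructor
    · rintro ⟨x, hx, rfl⟩
      rw [hg x hx]
      exact (Φ ⟨x, hx⟩).2
    · intro hy
      refine ⟨Φ.symm ⟨y, hy⟩, (Φ.symm ⟨y, hy⟩).2, ?_⟩
      rw [hg _ (Φ.symm ⟨y, hy⟩).2]
      have : (⟨(Φ.symm ⟨y, hy⟩ : M), (Φ.symm ⟨y, hy⟩).2⟩ : U) = Φ.symm ⟨y, hy⟩ := rfl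
      rw [this, Φ.apply_symm_apply]

/-- the converse -/
theorem exists_diffeo [IsManifold (𝓡 4) ∞ M] [IsManifold (𝓡 4) ∞ N]
    (U : TopologicalSpace.Opens M) (V : TopologicalSpace.Opens N) (g : M → N)
    (hg : ∀ x ∈ U, LD 4 g x) (hi : InjOn g U) (hr : g '' U = V) : Nonempty (Diffeomorph (𝓡 4) (𝓡 4) U V ∞) := by
  have hmem : ∀ u : U, g u ∈ V := fun u => by
    have h1 : g u ∈ g '' U := ⟨u, u.2, rfl⟩
    rw [hr] at h1
    exact h1
  let F : U → V := fun u => ⟨g u, hmem u⟩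
  have hF : ∀ u : U, LD 4 F u := by
    intro u
    obtain ⟨q, hq1, -, hq3, -⟩ := (SH.ld_opens (n := 4) V (F u)).exists_inverse
    have h0 : LD 4 (fun u : U => g u) u :=
      LD.comp_fun (g := g) (f := (Subtype.val : U → M)) (hg u u.2) (SH.ld_opens (n := 4) U u)
    have h1 : LD 4 (fun u : U => q (g u)) u := LD.comp_fun (g := q) (f := fun u : U => g u) hq1 h0
    refine h1.congr ?_
    have hFc : ContinuousAt F u := by
      have h2 : ContinuousAt (fun u : U => g u) u := h0.continuousAt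
      exact (Topology.IsInducing.subtypeVal.continuousAt_iff).2 h2
    have h2 : ∀ᶠ v in 𝓝 u, q ((F v : V) : N) = F v := hFc.eventually hq3
    filter_upwards [h2] with v hv
    exact hv.symm
  have hb : Bijective F := by
    refine ⟨fun u v huv => Subtype.ext (hi u.2 v.2 (congrArg Subtype.val huv)), fun v => ?_⟩
    have h1 : (v : N) ∈ g '' U := by
      rw [hr]
      exact v.2
    obtain ⟨x, hx, hxv⟩ := h1
    exact ⟨⟨x, hx⟩, Subtype.ext hxv⟩
  have hL : IsLocalDiffeomorph (𝓡 4) (𝓡 4) ∞ F := hF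
  exact ⟨hL.diffeomorphOfBijective hb⟩

end Pool.Agent.T2h58.Opn
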