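import Pool.Agent.T2h58.Stm4
import Pool.Agent.T2h58.Grid

/-!
# Project RS (residual sets): the neighbourhood of the faces of codimension two is small
-/

set_option autoImplicit false

open Set Filter Topology Metric Function MeasureTheory
open scoped Manifold ContDiff NNReal ENNReal

noncomputable section

namespace Pool.Agent.T2h58.Cov

open Pool.Agent.Y522 Pool.Agent.N550 Pool.Agent.N550.KH Pool.Agent.T2h58

/-- the index set of the cover -/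
abbrev Ix (a b : ℕ) : Type :=
  (Fin 4 × Fin 4 × Fin 4 × Fin 4) × (Icc (-(a : ℤ)) a × Icc (-(a : ℤ)) a) ×
    (Icc (-(b : ℤ)) b × Icc (-(b : ℤ)) b)

theorem card_Icc' (a : ℕ) : Fintype.card (Icc (-(a : ℤ)) a) = 2 * a + 1 := by
  rw [Fintype.card_ofFinset, Int.card_Icc]
  omega

theorem card_Ix (a b : ℕ) : Fintype.card (Ix a b) = 256 * (2 * a + 1) ^ 2 * (2 * b + 1) ^ 2 := by
  simp only [Ix, Fintype.card_prod, Fintype.card_fin, card_Icc']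
  ring

/-- the sets of the cover -/
def W (s : ℝ) (t : E 4) (ρ : ℝ) (a b : ℕ) (p : Ix a b) : Set (E 4) :=
  {z | (∀ m : Fin 4, m = p.1.1 ∨ m = p.1.2.1 ∨ m = p.1.2.2.1 ∨ m = p.1.2.2.2) ∧
    |z p.1.1 - (t p.1.1 + ((p.2.1.1 : ℤ) : ℝ) * s)| < ρ ∧
    |z p.1.2.1 - (t p.1.2.1 + ((p.2.1.2 : ℤ) : ℝ) * s)| < ρ ∧
    (((p.2.2.1 : ℤ) : ℝ) * ρ ≤ z p.1.2.2.1 ∧ z p.1.2.2.1 ≤ (((p.2.2.1 : ℤ) : ℝ) + 1) * ρ) ∧
    ((p.2.2.2 : ℤ) : ℝ) * ρ ≤ z p.1.2.2.2 ∧ z p.1.2.2.2 ≤ (((p.2.2.2 : ℤ) : ℝ) + 1) * ρ}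

theorem dist_W {s : ℝ} {t : E 4} {ρ : ℝ} {a b : ℕ} (p : Ix a b) (hρ : 0 < ρ) {x y : E 4}
    (hx : x ∈ W s t ρ a b p) (hy : y ∈ W s t ρ a b p) : dist x y ≤ 4 * ρ := by
  obtain ⟨h0, h1, h2, h3, h4⟩ := hx
  obtain ⟨-, k1, k2, k3, k4⟩ := hy
  rw [dist_eq_norm]
  refine (Grid.norm_le_of (x - y) (2 * ρ) (by positivity) fun m => ?_).trans (by linarith)
  rw [abs_lt] at h1 h2 k1 k2
  show |x m - y m| ≤ 2 * ρ
  rw [abs_le]
  rcases h0 m with h | h | h | h <;> rw [h] <;> constructor <;> nlinarith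

theorem exists_compl : ∀ i j : Fin 4, i ≠ j → ∃ i' j' : Fin 4, ∀ m : Fin 4,
    m = i ∨ m = j ∨ m = i' ∨ m = j' := by decide

theorem cover {s : ℝ} (hs : 0 < s) (t : E 4) : ∃ a : ℕ, ∀ ρ : ℝ, 0 < ρ → ρ ≤ 1 → ∀ b : ℕ,
    1 / ρ + 1 ≤ b → closedBall 0 1 ∩ NearG s t ρ ⊆ ⋃ p : Ix a b, W s t ρ a b p := by
  obtain ⟨a, ha⟩ := exists_nat_ge ((2 + ‖t‖) / s)
  refine ⟨a, fun ρ hρ hρ1 b hb => ?_⟩
  rintro z ⟨hz, i, j, hij, ⟨k, hk⟩, ⟨l, hl⟩⟩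
  have hz1 : ∀ m, |z m| ≤ 1 := fun m => by
    have h1 : ‖z m‖ ≤ ‖z‖ := PiLp.norm_apply_le z m
    rw [mem_closedBall_zero_iff] at hz
    exact h1.trans hz
  have ht1 : ∀ m, |t m| ≤ ‖t‖ := fun m => PiLp.norm_apply_le t m
  have hka : ∀ (m : Fin 4) (k : ℤ), |z m - (t m + k * s)| < ρ → k ∈ Icc (-(a : ℤ)) a := by
    intro m k hk
    have h1 := hz1 m
    have h2 := ht1 m
    rw [abs_le] at h1 h2
    rw [abs_lt] at hk
    rw [div_le_iff₀ hs] at ha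
    constructor
    · have h3 : (-(a : ℝ)) * s ≤ k * s := by nlinarith
      have h4 : (-(a : ℝ)) ≤ k := le_of_mul_le_mul_right h3 hs
      exact_mod_cast h4
    · have h3 : (k : ℝ) * s ≤ a * s := by nlinarith
      have h4 : (k : ℝ) ≤ a := le_of_mul_le_mul_right h3 hs
      exact_mod_cast h4
  have hfl : ∀ m : Fin 4, ⌊z m / ρ⌋ ∈ Icc (-(b : ℤ)) b := by
    intro m
    have h1 := hz1 m
    rw [abs_le] at h1
    have h2 : z m / ρ ≤ 1 / ρ := by gcongr; exact h1.2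
    have h3 : -(1 / ρ) ≤ z m / ρ := by
      rw [neg_div', div_le_div_iff_of_pos_right hρ]
      exact h1.1
    constructor
    · rw [Int.le_floor]
      push_cast
      linarith
    · have h4 := Int.floor_le (z m / ρ)
      have h5 : ((⌊z m / ρ⌋ : ℤ) : ℝ) ≤ b := by linarith
      exact_mod_cast h5
  have hfl2 : ∀ m : Fin 4, ((⌊z m / ρ⌋ : ℤ) : ℝ) * ρ ≤ z m ∧ z m ≤ (((⌊z m / ρ⌋ : ℤ) : ℝ) + 1) * ρ := by
    intro m
    have h1 := Int.floor_le (z m / ρ)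
    have h2 := (Int.lt_floor_add_one (z m / ρ)).le
    rw [le_div_iff₀ hρ] at h1
    rw [div_le_iff₀ hρ] at h2
    exact ⟨h1, h2⟩
  obtain ⟨i', j', h⟩ := exists_compl i j hij
  exact mem_iUnion.2 ⟨((i, j, i', j'), (⟨k, hka i k hk⟩, ⟨l, hka j l hl⟩),
    (⟨_, hfl i'⟩, ⟨_, hfl j'⟩)), h, hk, hl, hfl2 i', hfl2 j'⟩

theorem main : T_COV := by
  intro Φ δ s t hδ hs hΦ
  obtain ⟨a, ha⟩ := cover hs t
  -- the constant
  set C : ℝ≥0∞ := 256 * (2 * a + 1) ^ 2 * 7 ^ 2 * 16 with hC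
  have hCt : C ≠ ⊤ := by finiteness
  have h1 := ENNReal.tendsto_nhds_zero.1 hΦ (ENNReal.ofReal δ / (C + 1))
    (ENNReal.div_pos (ENNReal.ofReal_pos.2 hδ).ne' (by finiteness))
  rw [eventually_nhdsWithin_iff, Metric.eventually_nhds_iff] at h1
  obtain ⟨ε, hε, h2⟩ := h1
  set ρ : ℝ := min (min (ε / 8) (δ / 4)) 1 with hρ
  have hρ0 : 0 < ρ := by positivity
  have hρ1 : ρ ≤ 1 := min_le_right _ _
  have hρε : 4 * ρ < ε := by
    have : ρ ≤ ε / 8 := (min_le_left _ _).trans (min_le_left _ _)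
    linarith
  have hρδ : 4 * ρ ≤ δ := by
    have : ρ ≤ δ / 4 := (min_le_left _ _).trans (min_le_right _ _)
    linarith
  have h3 := h2 (y := 4 * ρ) (by rw [dist_zero_right, Real.norm_of_nonneg (by positivity)]; exact hρε)
    (show 0 < 4 * ρ by positivity)
  obtain ⟨b, hb1, hb2⟩ : ∃ b : ℕ, 1 / ρ + 1 ≤ b ∧ (b : ℝ) ≤ 3 / ρ := by
    refine ⟨⌈1 / ρ + 1⌉₊, Nat.le_ceil _, ?_⟩
    have h4 := (Nat.ceil_lt_add_one (show 0 ≤ 1 / ρ + 1 by positivity)).le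
    have h5 : 1 ≤ 1 / ρ := by rw [le_div_iff₀ hρ0]; linarith
    have h6 : 3 / ρ = 1 / ρ + 1 / ρ + 1 / ρ := by ring
    linarith
  refine ⟨ρ, hρ0, Ix a b, inferInstance, 4 * ρ, W s t ρ a b, by positivity, hρδ, ?_,
    fun p x hx y hy => dist_W p hρ0 hx hy, ha ρ hρ0 hρ1 b hb1⟩
  rw [card_Ix]
  have h4 : Φ (4 * ρ) ≤ ENNReal.ofReal δ / (C + 1) * ENNReal.ofReal ((4 * ρ) ^ 2) := by
    rwa [ENNReal.div_le_iff (ENNReal.ofReal_pos.2 (by positivity)).ne' ENNReal.ofReal_ne_top] at h3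
  have h5 : ((2 * b + 1 : ℕ) : ℝ≥0∞) ≤ ENNReal.ofReal (7 / ρ) := by
    rw [← ENNReal.ofReal_natCast]
    refine ENNReal.ofReal_le_ofReal ?_
    push_cast
    have h6 : 1 ≤ 1 / ρ := by rw [le_div_iff₀ hρ0]; linarith
    have h7 : 7 / ρ = 2 * (3 / ρ) + 1 / ρ := by ring
    linarith
  calc ((256 * (2 * a + 1) ^ 2 * (2 * b + 1) ^ 2 : ℕ) : ℝ≥0∞) * Φ (4 * ρ)
      ≤ (256 * (2 * a + 1) ^ 2 * ENNReal.ofReal (7 / ρ) ^ 2) *
        (ENNReal.ofReal δ / (C + 1) * ENNReal.ofReal ((4 * ρ) ^ 2)) := by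
        push_cast at h5 ⊢
        gcongr
    _ = (256 * (2 * a + 1) ^ 2 * (ENNReal.ofReal (7 / ρ) ^ 2 * ENNReal.ofReal ((4 * ρ) ^ 2))) *
        (ENNReal.ofReal δ / (C + 1)) := by ring
    _ = C * (ENNReal.ofReal δ / (C + 1)) := by
        congr 1
        rw [← ENNReal.ofReal_pow (by positivity), ← ENNReal.ofReal_mul (by positivity)]
        have h6 : (7 / ρ) ^ 2 * (4 * ρ) ^ 2 = 7 ^ 2 * 16 := by
          field_simp
          norm_num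
        rw [h6, hC]
        have h7 : ENNReal.ofReal (7 ^ 2 * 16) = 7 ^ 2 * 16 := by
          norm_num
        rw [h7]
        ring
    _ ≤ ENNReal.ofReal δ := by
        rw [← mul_div_assoc]
        refine ENNReal.div_le_of_le_mul ?_
        rw [mul_comm]
        gcongr
        exact le_self_add

end Pool.Agent.T2h58.Cov
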