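import Pool.Agent.T2h58.Stm4
import Pool.Agent.N550.KH.Asm

/-!
# Project RS (residual sets): sets with small covers are null
-/

set_option autoImplicit false

open Set Filter Topology Metric Function MeasureTheory
open scoped Manifold ContDiff NNReal ENNReal

noncomputable section

namespace Pool.Agent.T2h58.Mea

open Pool.Agent.Y522 Pool.Agent.N550 Pool.Agent.N550.KH Pool.Agent.T2h58

theorem piece {T V : Set (E 4)} {ψ : E 4 → E 4} {K : ℝ≥0} {m : ℝ≥0∞ → ℝ≥0∞}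
    (hK : LipschitzOnWith K ψ V)
    (hT : ∀ j : ℕ, Sml (fun ρ => ⨆ r ∈ Iic (ENNReal.ofReal (j * ρ)), m r) (1 / (j + 1) ^ 2) T) :
    Measure.mkMetric m (ψ '' (T ∩ V)) = 0 := by
  choose ι hι ρ W hρ0 hρ1 hcard hdist hcov using hT
  have h1 : Tendsto (fun n : ℕ => 1 / ((n : ℝ) + 1)) atTop (𝓝 0) :=
    tendsto_one_div_add_atTop_nhds_zero_nat
  have hjρ : ∀ j : ℕ, (j : ℝ) * ρ j ≤ 1 / ((j : ℝ) + 1) := by
    intro j
    have h2 : (j : ℝ) * ρ j ≤ ((j : ℝ) + 1) * (1 / ((j : ℝ) + 1) ^ 2) :=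
      mul_le_mul (by linarith) (hρ1 j) (hρ0 j).le (by positivity)
    refine h2.trans (le_of_eq ?_)
    have : (j : ℝ) + 1 ≠ 0 := by positivity
    field_simp
  have hr : Tendsto (fun j : ℕ => ENNReal.ofReal (j * ρ j)) atTop (𝓝 0) := by
    have h2 : Tendsto (fun n : ℕ => ENNReal.ofReal (1 / ((n : ℝ) + 1))) atTop (𝓝 0) := by
      have := (ENNReal.continuous_ofReal.tendsto 0).comp h1
      rwa [ENNReal.ofReal_zero] at this
    exact tendsto_of_tendsto_of_tendsto_of_le_of_le tendsto_const_nhds h2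
      (fun _ => zero_le) fun j => ENNReal.ofReal_le_ofReal (hjρ j)
  have hdiam : ∀ j : ℕ, (K : ℝ) ≤ j → ∀ p : ι j,
      ediam (ψ '' (W j p ∩ V)) ≤ ENNReal.ofReal (j * ρ j) := by
    intro j hj p
    refine ediam_le ?_
    rintro _ ⟨x, hx, rfl⟩ _ ⟨y, hy, rfl⟩
    refine (hK hx.2 hy.2).trans ?_
    rw [edist_dist, ENNReal.ofReal_mul (by positivity)]
    refine mul_le_mul' ?_ (ENNReal.ofReal_le_ofReal (hdist j p x hx.1 y hy.1))
    rw [← ENNReal.ofReal_coe_nnreal]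
    exact ENNReal.ofReal_le_ofReal hj
  have hev : ∀ᶠ j : ℕ in atTop, (K : ℝ) ≤ j := by
    obtain ⟨n, hn⟩ := exists_nat_ge (K : ℝ)
    filter_upwards [eventually_ge_atTop n] with j hj
    exact hn.trans (by exact_mod_cast hj)
  have h2 := Measure.mkMetric_le_liminf_sum (hι := hι) (ψ '' (T ∩ V)) (l := atTop)
    (fun j : ℕ => ENNReal.ofReal (j * ρ j)) hr (fun j p => ψ '' (W j p ∩ V))
    (hev.mono fun j hj => hdiam j hj) (Eventually.of_forall fun j => by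
      rintro _ ⟨x, hx, rfl⟩
      obtain ⟨p, hp⟩ := mem_iUnion.1 (hcov j hx.1)
      exact mem_iUnion.2 ⟨p, x, ⟨hp, hx.2⟩, rfl⟩) m
  have h3 : Tendsto (fun j : ℕ => ∑ p : ι j, m (ediam (ψ '' (W j p ∩ V)))) atTop (𝓝 0) := by
    have h4 : Tendsto (fun n : ℕ => ENNReal.ofReal (1 / ((n : ℝ) + 1) ^ 2)) atTop (𝓝 0) := by
      have h5 : Tendsto (fun n : ℕ => 1 / ((n : ℝ) + 1) ^ 2) atTop (𝓝 0) := by
        have h6 := h1.pow 2
        rw [zero_pow two_ne_zero] at h6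
        refine h6.congr fun n => ?_
        rw [div_pow, one_pow]
      have := (ENNReal.continuous_ofReal.tendsto 0).comp h5
      rwa [ENNReal.ofReal_zero] at this
    refine tendsto_of_tendsto_of_tendsto_of_le_of_le' tendsto_const_nhds h4
      (Eventually.of_forall fun _ => zero_le) ?_
    filter_upwards [hev] with j hj
    refine le_trans ?_ (hcard j)
    rw [← nsmul_eq_mul, ← Finset.card_univ]
    refine Finset.sum_le_card_nsmul _ _ _ fun p _ => ?_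
    exact le_iSup₂ (f := fun r (_ : r ∈ Iic (ENNReal.ofReal (j * ρ j))) => m r)
      (ediam (ψ '' (W j p ∩ V))) (hdiam j hj p)
  rw [h3.liminf_eq] at h2
  exact le_antisymm h2 zero_le

theorem main : T_MEA := by
  intro M _ _ _ h g B m hh hg hsml
  set T : Set (E 4) := closedBall 0 1 ∩ h ⁻¹' B with hT
  have hgi : ∀ z, invFun g (g z) = z := leftInverse_invFun hg.1
  set ψ : E 4 → E 4 := fun z => invFun g (h z) with hψ
  have hψl : ∀ z, h z ∈ range g → LD 4 ψ z := by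
    intro z hz
    obtain ⟨w, hw⟩ := hz
    refine LD.comp_fun (g := invFun g) (f := h) ?_ (hh.2 z)
    rw [← hw]
    exact LD.inverse isOpen_univ (fun x _ => hg.2 x) (fun x _ => hgi x) (mem_univ w)
  have h1 : ∀ z ∈ h ⁻¹' range g, ∃ V ∈ 𝓝 z, Measure.mkMetric m (ψ '' (T ∩ V)) = 0 := by
    intro z hz
    obtain ⟨K, V, hV, hK⟩ := ((hψl z hz).contDiffAt.of_le
      (show (1 : WithTop ℕ∞) ≤ ((⊤ : ℕ∞) : WithTop ℕ∞) by exact_mod_cast le_top)).exists_lipschitzOnWith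
    exact ⟨V, hV, piece hK hsml⟩
  choose! V hV hn using h1
  obtain ⟨t, hts, htc, hcov⟩ := TopologicalSpace.countable_cover_nhdsWithin
    (s := h ⁻¹' range g) (f := V) (fun x hx => mem_nhdsWithin_of_mem_nhds (hV x hx))
  have h2 : g ⁻¹' (h '' T) ⊆ ⋃ x ∈ t, ψ '' (T ∩ V x) := by
    rintro w ⟨z, hz, hzw⟩
    obtain ⟨x, hx, hzx⟩ := mem_iUnion₂.1 (hcov (show z ∈ h ⁻¹' range g from ⟨w, hzw.symm⟩))
    refine mem_iUnion₂.2 ⟨x, hx, z, ⟨hz, hzx⟩, ?_⟩
    show invFun g (h z) = w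
    rw [hzw, hgi]
  refine measure_mono_null h2 ?_
  rw [measure_biUnion_null_iff htc]
  exact fun x hx => hn x (hts hx)

end Pool.Agent.T2h58.Mea
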