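import Pool.Agent.T2h58.Stm
import Pool.Agent.N550.SH.Cross
import Pool.Agent.N550.KH.End

/-!
# Project TC (thin complements): regions bounded by embedded spheres are open cells
-/

set_option autoImplicit false

open Set Filter Topology Metric Function MeasureTheory
open scoped Manifold ContDiff

noncomputable section

namespace Pool.Agent.T2h58.Reg

open Pool.Agent.Y522 Pool.Agent.N550 Pool.Agent.N550.KH Pool.Agent.N550.SH

variable {m : ℕ}

theorem contDiff_stP {r : ℝ} (hr : 0 < r) : ContDiff ℝ ∞ (stP r : E m → E (m + 1)) := by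
  have h1 : (stP r : E m → E (m + 1)) = fun y =>
      (r * (‖y‖ ^ 2 - r ^ 2) / (‖y‖ ^ 2 + r ^ 2)) • (e0 : E (m + 1)) +
        inc ((2 * r ^ 2 / (‖y‖ ^ 2 + r ^ 2)) • y) := by
    funext y
    unfold stP
    rw [cn_eq, inc_apply]
  rw [h1]
  have hn : ContDiff ℝ ∞ (fun y : E m => ‖y‖ ^ 2) := contDiff_norm_sq ℝ
  have hd : ContDiff ℝ ∞ (fun y : E m => ‖y‖ ^ 2 + r ^ 2) := hn.add contDiff_const
  have h0 : ∀ y : E m, ‖y‖ ^ 2 + r ^ 2 ≠ 0 := fun y => (den_pos hr y).ne'
  refine ContDiff.add (ContDiff.smul (ContDiff.div ?_ hd h0) contDiff_const) ?_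
  · exact contDiff_const.mul (hn.sub contDiff_const)
  · exact (inc (m := m)).contDiff.comp ((contDiff_const.div hd h0).smul contDiff_id)

theorem contDiffAt_stT {r : ℝ} {p : E (m + 1)} (hp : p 0 ≠ r) :
    ContDiffAt ℝ ∞ (stT r : E (m + 1) → E m) p := by
  have h1 : r - p 0 ≠ 0 := fun h => hp (by linarith)
  unfold stT
  refine ContDiffAt.smul (f := fun p : E (m + 1) => r / (r - p 0))
    (g := fun p : E (m + 1) => (tl p : E m)) ?_ (tl (m := m)).contDiff.contDiffAt
  refine ContDiffAt.div contDiffAt_const ?_ h1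
  fun_prop

theorem fderiv_stP_inj {r : ℝ} (hr : 0 < r) (y : E m) :
    Injective (fderiv ℝ (stP r : E m → E (m + 1)) y) := by
  have hn : (∞ : WithTop ℕ∞) ≠ 0 := by simp
  have h1 : HasFDerivAt (stP r : E m → E (m + 1)) (fderiv ℝ (stP r) y) y :=
    ((contDiff_stP hr).differentiable hn y).hasFDerivAt
  have h2 : HasFDerivAt (stT r : E (m + 1) → E m) (fderiv ℝ (stT r) (stP r y)) (stP r y) :=
    ((contDiffAt_stT (stP_zero_lt hr y).ne).differentiableAt hn).hasFDerivAt
  have h3 := h2.comp y h1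
  have h4 : HasFDerivAt ((stT r : E (m + 1) → E m) ∘ stP r) (ContinuousLinearMap.id ℝ (E m)) y := by
    have h5 : ((stT r : E (m + 1) → E m) ∘ stP r) = id := funext fun z => stT_stP hr z
    rw [h5]
    exact hasFDerivAt_id y
  have h6 := h3.unique h4
  intro v w hvw
  have h7 : ∀ u, fderiv ℝ (stT r) (stP r y) (fderiv ℝ (stP r) y u) = u := fun u => by
    have := congrArg (fun L => L u) h6
    simpa using this
  rw [← h7 v, hvw, h7 w]

/-- engulfing of open subsets of `E n`: an open subset all of whose compact subsets are contained in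
cells is a cell -/
theorem cell_of_eng {n : ℕ} (D : Set (E n)) (hD : IsOpen D)
    (h : ∀ L : Set (E n), IsCompact L → L ⊆ D → ∃ g : E n → E n, Injective g ∧
      (∀ x, LD n g x) ∧ L ⊆ range g ∧ ∀ x, g x ∈ D) :
    ∃ c : E n → E n, Injective c ∧ (∀ z, LD n c z) ∧ range c = D := by
  let U : TopologicalSpace.Opens (E n) := ⟨D, hD⟩
  have hU : ∀ u : U, (u : E n) ∈ D := fun u => u.2
  have hEng : Eng n U := by
    intro K hK
    obtain ⟨g, hgi, hgd, hKg, hgD⟩ := h (Subtype.val '' K) (hK.image continuous_subtype_val) (by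
      rintro _ ⟨u, -, rfl⟩
      exact hU u)
    have hgc : Continuous g := continuous_iff_continuousAt.2 fun x => (hgd x).continuousAt
    let g' : E n → U := fun x => ⟨g x, hgD x⟩
    have hg'c : Continuous g' := hgc.subtype_mk _
    refine ⟨g', fun x y hxy => hgi (congrArg Subtype.val hxy), fun x => ?_, ?_⟩
    · -- local inverse of the inclusion
      obtain ⟨q, hq1, hq2, hq3, hq4⟩ := (ld_opens (n := n) U (g' x)).exists_inverse
      have h1 : LD n (fun y => q (g y)) x := LD.comp_fun (g := q) (f := g) hq1 (hgd x)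
      refine h1.congr ?_
      have h2 : ∀ᶠ y in 𝓝 x, q ((g' y : U) : E n) = g' y := hg'c.continuousAt.eventually hq3
      filter_upwards [h2] with y hy
      exact hy.symm
    · intro u hu
      obtain ⟨x, hx⟩ := hKg ⟨u, hu, rfl⟩
      exact ⟨x, Subtype.ext hx⟩
  have hlc : LocallyCompactSpace U := hD.locallyCompactSpace
  have hsc : SecondCountableTopology U :=
    TopologicalSpace.Subtype.secondCountableTopology _
  have hσ : SigmaCompactSpace U := inferInstance
  obtain ⟨Φ⟩ := Pool.Agent.Y496.SH.monotone (Pool.Agent.Y784.SH.ext Pool.Agent.Y248.SH.germ) n U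
    hEng
  refine ⟨fun z => (Φ.symm z : E n), Subtype.val_injective.comp Φ.symm.injective, fun z => ?_, ?_⟩
  · exact LD.comp_fun (g := (Subtype.val : U → E n)) (ld_opens (n := n) U (Φ.symm z))
      (Φ.symm.isLocalDiffeomorph z)
  · ext x
    constructor
    · rintro ⟨z, rfl⟩
      exact hU (Φ.symm z)
    · intro hx
      exact ⟨Φ ⟨x, hx⟩, by simp⟩

/-- **Regions bounded by embedded spheres.** -/
theorem region (N₀ : Set (E (m + 1))) (φ : E (m + 1) → ℝ) (j : E (m + 1) → E (m + 1))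
    (z₀ : E (m + 1)) (R : ℝ) (hR : 0 < R) (hN : IsOpen N₀) (hφ : ∀ z ∈ N₀, ContDiffAt ℝ ∞ φ z)
    (hc : IsCompact {z | z ∈ N₀ ∧ φ z ≤ 0}) (hreg : ∀ z ∈ N₀, φ z = 0 → fderiv ℝ φ z ≠ 0)
    (hj : ∀ w, ‖w - z₀‖ = R → LD (m + 1) j w)
    (hji : ∀ w w', ‖w - z₀‖ = R → ‖w' - z₀‖ = R → j w = j w' → w = w')
    (himg : ∀ z, (z ∈ N₀ ∧ φ z = 0) ↔ ∃ w, ‖w - z₀‖ = R ∧ j w = z) :
    ∃ c : E (m + 1) → E (m + 1), Injective c ∧ (∀ z, LD (m + 1) c z) ∧
      range c = {z | z ∈ N₀ ∧ φ z < 0} := by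
  have hn : (∞ : WithTop ℕ∞) ≠ 0 := by simp
  have hcont : ContinuousOn φ N₀ := fun z hz => (hφ z hz).continuousAt.continuousWithinAt
  have hopen : IsOpen {z | z ∈ N₀ ∧ φ z < 0} := hcont.isOpen_inter_preimage hN isOpen_Iio
  refine cell_of_eng _ hopen fun L hL hLD => ?_
  -- the parametrization of the punctured sphere
  have hst : ∀ y : E m, ‖(z₀ + stP R y) - z₀‖ = R := by
    intro y
    rw [add_sub_cancel_left]
    have h1 := norm_stP hR y
    exact (pow_left_inj₀ (norm_nonneg _) hR.le two_ne_zero).1 h1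
  have he : ‖(z₀ + cn R (0 : E m)) - z₀‖ = R := by
    rw [add_sub_cancel_left]
    have h1 : ‖cn R (0 : E m)‖ ^ 2 = R ^ 2 := by rw [norm_cn_sq]; simp
    exact (pow_left_inj₀ (norm_nonneg _) hR.le two_ne_zero).1 h1
  set f : E m → E (m + 1) := fun y => j (z₀ + stP R y) with hf
  have hfD : ∀ y, HasFDerivAt f ((fderiv ℝ j (z₀ + stP R y)).comp (fderiv ℝ (stP R) y)) y := by
    intro y
    have h1 : HasFDerivAt (fun y : E m => z₀ + stP R y) (fderiv ℝ (stP R) y) y := by
      have h2 : HasFDerivAt (stP R : E m → E (m + 1)) (fderiv ℝ (stP R) y) y :=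
        ((contDiff_stP hR).differentiable hn y).hasFDerivAt
      exact h2.const_add z₀
    have h3 : HasFDerivAt j (fderiv ℝ j (z₀ + stP R y)) (z₀ + stP R y) :=
      (((hj _ (hst y)).contDiffAt).differentiableAt hn).hasFDerivAt
    exact h3.comp y h1
  obtain ⟨g, hg1, hg2, hg3, hg4⟩ := hMazur m N₀ φ (j (z₀ + cn R 0)) hN hφ hc hreg
    ((himg _).2 ⟨_, he, rfl⟩).1 ((himg _).2 ⟨_, he, rfl⟩).2 (by
      intro K _ hK
      refine ⟨f, ?_, ?_, fun y => ?_, fun y => ?_, ?_⟩
      · intro x y hxy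
        have h1 := hji _ _ (hst x) (hst y) hxy
        have h2 : stP R x = stP R y := add_left_cancel h1
        rw [← stT_stP hR x, h2, stT_stP hR y]
      · rw [contDiff_iff_contDiffAt]
        intro y
        have h1 : ContDiffAt ℝ ∞ (fun y : E m => z₀ + stP R y) y :=
          contDiffAt_const.add (contDiff_stP hR).contDiffAt
        exact ContDiffAt.comp (g := j) y ((hj _ (hst y)).contDiffAt) h1
      · rw [(hfD y).fderiv]
        obtain ⟨A, hA⟩ := (hj _ (hst y)).exists_equiv
        rw [hA.fderiv]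
        exact A.injective.comp (fderiv_stP_inj hR y)
      · have h1 := (himg (f y)).2 ⟨_, hst y, rfl⟩
        refine ⟨h1.1, h1.2, fun h2 => ?_⟩
        have h3 := hji _ _ (hst y) he h2
        have h4 : stP R y = cn R 0 := add_left_cancel h3
        have h5 := stP_zero_lt hR y
        rw [h4, cn_zero] at h5
        exact lt_irrefl _ h5
      · intro z hz
        obtain ⟨h1, h2, h3⟩ := hK z hz
        obtain ⟨w, hw, rfl⟩ := (himg z).1 ⟨h1, h2⟩
        have hw2 : ‖w - z₀‖ ^ 2 = R ^ 2 := by rw [hw]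
        have h4 : (w - z₀) 0 ≠ R := by
          intro h5
          apply h3
          congr 1
          have h6 := norm_sq_split (w - z₀)
          have h7 : ‖tl (w - z₀)‖ ^ 2 = 0 := by rw [h5] at h6; linarith
          have h8 : tl (w - z₀) = 0 := by
            rw [← norm_eq_zero]
            exact pow_eq_zero_iff (two_ne_zero) |>.1 h7
          have h9 : w - z₀ = cn R 0 := by rw [← cn_tl (w - z₀), h8, h5]
          rw [← h9]
          abel
        refine ⟨stT R (w - z₀), ?_⟩
        show j (z₀ + stP R (stT R (w - z₀))) = j w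
        rw [stP_stT hR hw2 h4]
        congr 1
        abel) L hL (fun z hz => hLD hz)
  exact ⟨g, hg1, hg2, hg3, hg4⟩

end Pool.Agent.T2h58.Reg
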