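import Pool.Agent.T2h58.Stm4
import Pool.Agent.T2h58.Det
import Pool.Agent.T2h58.Reg
import Pool.Agent.T2h58.P2

/-!
# Project RS (residual sets): monotone unions of cells
-/

set_option autoImplicit false

open Set Filter Topology Metric Function MeasureTheory
open scoped Manifold ContDiff

noncomputable section

namespace Pool.Agent.T2h58.Mon

open Pool.Agent.Y522 Pool.Agent.N550 Pool.Agent.N550.KH Pool.Agent.T2h58

/-- an open subset of a manifold all of whose compact subsets lie in cells is a cell -/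
theorem cell_of_eng {M : Type} [TopologicalSpace M] [T2Space M] [SecondCountableTopology M]
    [ChartedSpace (E 4) M] [IsManifold (𝓡 4) ∞ M] (D : Set M) (hD : IsOpen D)
    (h : ∀ L : Set M, IsCompact L → L ⊆ D → ∃ g : E 4 → M, CellMap g ∧ L ⊆ range g ∧
      ∀ x, g x ∈ D) :
    ∃ c : E 4 → M, CellMap c ∧ range c = D := by
  let U : TopologicalSpace.Opens M := ⟨D, hD⟩
  have hU : ∀ u : U, (u : M) ∈ D := fun u => u.2
  have hEng : Eng 4 U := by
    intro K hK
    obtain ⟨g, ⟨hgi, hgd⟩, hKg, hgD⟩ := h (Subtype.val '' K) (hK.image continuous_subtype_val) (by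
      rintro _ ⟨u, -, rfl⟩
      exact hU u)
    have hgc : Continuous g := continuous_iff_continuousAt.2 fun x => (hgd x).continuousAt
    let g' : E 4 → U := fun x => ⟨g x, hgD x⟩
    have hg'c : Continuous g' := hgc.subtype_mk _
    refine ⟨g', fun x y hxy => hgi (congrArg Subtype.val hxy), fun x => ?_, ?_⟩
    · -- local inverse of the inclusion
      obtain ⟨q, hq1, hq2, hq3, hq4⟩ := (SH.ld_opens (n := 4) U (g' x)).exists_inverse
      have h1 : LD 4 (fun y => q (g y)) x := LD.comp_fun (g := q) (f := g) hq1 (hgd x)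
      refine h1.congr ?_
      have h2 : ∀ᶠ y in 𝓝 x, q ((g' y : U) : M) = g' y := hg'c.continuousAt.eventually hq3
      filter_upwards [h2] with y hy
      exact hy.symm
    · intro u hu
      obtain ⟨x, hx⟩ := hKg ⟨u, hu, rfl⟩
      exact ⟨x, Subtype.ext hx⟩
  have hlM : LocallyCompactSpace M := ChartedSpace.locallyCompactSpace (E 4) M
  have hlc : LocallyCompactSpace U := hD.locallyCompactSpace
  have hsc : SecondCountableTopology U :=
    TopologicalSpace.Subtype.secondCountableTopology _
  have hσ : SigmaCompactSpace U := inferInstance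
  obtain ⟨Φ⟩ := Pool.Agent.Y496.SH.monotone (Pool.Agent.Y784.SH.ext Pool.Agent.Y248.SH.germ) 4 U
    hEng
  refine ⟨fun z => (Φ.symm z : M), ⟨Subtype.val_injective.comp Φ.symm.injective, fun z => ?_⟩, ?_⟩
  · exact LD.comp_fun (g := (Subtype.val : U → M)) (SH.ld_opens (n := 4) U (Φ.symm z))
      (Φ.symm.isLocalDiffeomorph z)
  · ext x
    constructor
    · rintro ⟨z, rfl⟩
      exact hU (Φ.symm z)
    · intro hx
      exact ⟨Φ ⟨x, hx⟩, by simp⟩

theorem main : T_MON := by
  intro M _ _ _ _ _ c R hc hR hsub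
  have hmono : Monotone fun j => c j '' ball 0 (R j) := monotone_nat_of_le_succ fun j =>
    (image_mono ball_subset_closedBall).trans (hsub j)
  refine cell_of_eng _ (isOpen_iUnion fun j => P2.cm_image_open (hc j) isOpen_ball) ?_
  intro L hL hLD
  obtain ⟨j, hj⟩ := hL.elim_directed_cover (fun j => c j '' ball 0 (R j))
    (fun j => P2.cm_image_open (hc j) isOpen_ball) hLD hmono.directed_le
  set B := OpenPartialHomeomorph.univBall (0 : E 4) (R j) with hB
  have hsrc : B.source = univ := OpenPartialHomeomorph.univBall_source _ _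
  have htgt : B.target = ball 0 (R j) := OpenPartialHomeomorph.univBall_target _ (hR j)
  have hmem : ∀ z, B z ∈ ball (0 : E 4) (R j) := by
    intro z
    rw [← htgt]
    exact B.map_source (by rw [hsrc]; exact mem_univ _)
  refine ⟨fun z => c j (B z), ⟨?_, fun z => ?_⟩, ?_, fun z => ?_⟩
  · intro x y hxy
    exact B.injOn (by rw [hsrc]; exact mem_univ _) (by rw [hsrc]; exact mem_univ _)
      ((hc j).1 hxy)
  · exact LD.comp_fun (g := c j) (f := B) ((hc j).2 _) (Det.ld_univBall (hR j) z)
  · intro x hx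
    obtain ⟨z, hz, rfl⟩ := hj hx
    rw [← htgt] at hz
    exact ⟨B.symm z, by simp only [B.right_inv hz]⟩
  · exact mem_iUnion.2 ⟨j, B z, hmem z, rfl⟩

end Pool.Agent.T2h58.Mon
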