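import Pool.Agent.T2h58.Stg
import Pool.Agent.T2h58.Rr

/-!
# Project RS (residual sets): the theorem
-/

set_option autoImplicit false

open Set Filter Topology Metric Function MeasureTheory
open scoped Manifold ContDiff NNReal ENNReal

noncomputable section

namespace Pool.Agent.T2h58.Res

open Pool.Agent.Y522 Pool.Agent.N550 Pool.Agent.N550.KH Pool.Agent.T2h58

theorem gauge {m : ℝ≥0∞ → ℝ≥0∞} (hm0 : m 0 = 0)
    (hm : Tendsto (fun r => m r / r ^ 2) (𝓝[≠] 0) (𝓝 0)) (j : ℕ) :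
    Tendsto (fun ρ : ℝ => (⨆ r ∈ Iic (ENNReal.ofReal (j * ρ)), m r) / ENNReal.ofReal (ρ ^ 2))
      (𝓝[>] 0) (𝓝 0) := by
  rw [ENNReal.tendsto_nhds_zero]
  intro ε hε
  by_cases hεt : ε = ⊤
  · exact Eventually.of_forall fun _ => by rw [hεt]; exact le_top
  set ε' : ℝ≥0∞ := ε / (j ^ 2 + 1) with hε'
  have hε'0 : 0 < ε' := ENNReal.div_pos hε.ne' (by finiteness)
  have h1 := (ENNReal.tendsto_nhds_zero.1 hm) ε' hε'0
  rw [eventually_nhdsWithin_iff] at h1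
  obtain ⟨η, hη, h2⟩ : ∃ η : ℝ≥0∞, 0 < η ∧ ∀ r, r < η → r ≠ 0 → m r / r ^ 2 ≤ ε' := by
    obtain ⟨η, hη, h2⟩ := ENNReal.nhds_zero_basis.mem_iff.1 h1
    exact ⟨η, hη, fun r hr hr0 => h2 hr hr0⟩
  have h3 : ∀ r, r < η → m r ≤ ε' * r ^ 2 := by
    intro r hr
    rcases eq_or_ne r 0 with h | h
    · rw [h, hm0]; exact zero_le
    · by_cases hrt : r = ⊤
      · rw [hrt] at hr; exact absurd hr not_top_lt
      · have h4 := h2 r hr h
        rwa [ENNReal.div_le_iff (pow_ne_zero 2 h) (ENNReal.pow_ne_top hrt)] at h4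
  have h4 : Tendsto (fun ρ : ℝ => ENNReal.ofReal (j * ρ)) (𝓝[>] 0) (𝓝 0) := by
    have h5 : Tendsto (fun ρ : ℝ => ENNReal.ofReal (j * ρ)) (𝓝 0) (𝓝 (ENNReal.ofReal (j * 0))) :=
      ((ENNReal.continuous_ofReal.comp (continuous_const.mul continuous_id)).tendsto 0)
    rw [mul_zero, ENNReal.ofReal_zero] at h5
    exact h5.mono_left nhdsWithin_le_nhds
  filter_upwards [h4.eventually (gt_mem_nhds hη), self_mem_nhdsWithin] with ρ hρ hρ0
  have hρ0' : (0 : ℝ) < ρ := hρ0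
  have h5 : (⨆ r ∈ Iic (ENNReal.ofReal (j * ρ)), m r) ≤ ε' * (ENNReal.ofReal (j * ρ)) ^ 2 := by
    refine iSup₂_le fun r hr => ?_
    refine (h3 r (lt_of_le_of_lt hr hρ)).trans ?_
    gcongr
    exact hr
  refine ENNReal.div_le_of_le_mul (h5.trans ?_)
  have h6 : (ENNReal.ofReal (j * ρ)) ^ 2 = (j : ℝ≥0∞) ^ 2 * ENNReal.ofReal (ρ ^ 2) := by
    rw [ENNReal.ofReal_mul (by positivity), mul_pow, ENNReal.ofReal_natCast,
      ENNReal.ofReal_pow hρ0'.le]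
  rw [h6, ← mul_assoc]
  gcongr
  rw [hε', div_eq_mul_inv, mul_assoc]
  refine mul_le_of_le_one_right zero_le ?_
  rw [mul_comm, ← div_eq_mul_inv]
  refine ENNReal.div_le_of_le_mul ?_
  rw [one_mul]
  exact le_self_add

theorem main (hSTG : T_STG) (hMON : T_MON) (hMEA : T_MEA) : T_RES := by
  intro M _ _ _ _ _ _ m hm0 hm
  have : SecondCountableTopology M := ChartedSpace.secondCountable_of_sigmaCompact (E 4) M
  have : Nonempty M := inferInstance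
  obtain ⟨a, H, hH, hcov⟩ := Rr.cover M
  set Φ : ℕ → ℝ → ℝ≥0∞ := fun j ρ => ⨆ r ∈ Iic (ENNReal.ofReal (j * ρ)), m r with hΦ
  have hΦt : ∀ j, Tendsto (fun ρ : ℝ => Φ j ρ / ENNReal.ofReal (ρ ^ 2)) (𝓝[>] 0) (𝓝 0) :=
    fun j => gauge hm0 hm j
  have hstep : ∀ (j : ℕ) (p : {p : (E 4 → M) × ℝ // CellMap p.1 ∧ 0 < p.2}),
      ∃ p' : {p : (E 4 → M) × ℝ // CellMap p.1 ∧ 0 < p.2},
        p.1.1 '' closedBall 0 p.1.2 ⊆ p'.1.1 '' ball 0 p'.1.2 ∧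
        ∀ i : Fin a, Sml (Φ j) (1 / (j + 1) ^ 2)
          (closedBall 0 1 ∩ H i ⁻¹' (p'.1.1 '' ball 0 p'.1.2)ᶜ) := by
    rintro j ⟨⟨c, R⟩, hc, hR⟩
    obtain ⟨c', R', hc', hR', h1, h2⟩ := hSTG M a (fun i => H i) c R (Φ j) (1 / (j + 1) ^ 2)
      (fun i => hH i) hc (by positivity) (hΦt j)
    exact ⟨⟨⟨c', R'⟩, hc', hR'⟩, h1, h2⟩
  choose nx hnx using hstep
  let F : ℕ → {p : (E 4 → M) × ℝ // CellMap p.1 ∧ 0 < p.2} := fun j =>
    Nat.rec (nx 0 ⟨(H 0, 1), hH 0, one_pos⟩) (fun j p => nx (j + 1) p) j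
  have hF : ∀ j, F (j + 1) = nx (j + 1) (F j) := fun j => rfl
  have hFs : ∀ j, ∀ i : Fin a, Sml (Φ j) (1 / (j + 1) ^ 2)
      (closedBall 0 1 ∩ H i ⁻¹' ((F j).1.1 '' ball 0 (F j).1.2)ᶜ) := by
    intro j
    cases j with
    | zero => exact (hnx 0 _).2
    | succ j => rw [hF]; exact (hnx (j + 1) _).2
  obtain ⟨g, hg, hgr⟩ := hMON M (fun j => (F j).1.1) (fun j => (F j).1.2) (fun j => (F j).2.1)
    (fun j => (F j).2.2) (fun j => by
      show (F j).1.1 '' closedBall 0 (F j).1.2 ⊆ (F (j + 1)).1.1 '' ball 0 (F (j + 1)).1.2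
      rw [hF]
      exact (hnx (j + 1) (F j)).1)
  refine ⟨g, hg, fun g' hg' => ?_⟩
  have h1 : g' ⁻¹' (range g)ᶜ ⊆
      ⋃ i : Fin a, g' ⁻¹' (H i '' (closedBall 0 1 ∩ H i ⁻¹' (range g)ᶜ)) := by
    intro w hw
    obtain ⟨i, hi, z, hz, hzw⟩ := hcov (g' w)
    refine mem_iUnion.2 ⟨⟨i, hi⟩, z, ⟨mem_closedBall_zero_iff.2 hz, ?_⟩, hzw⟩
    show H i z ∉ range g
    rw [hzw]
    exact hw
  refine measure_mono_null h1 (measure_iUnion_null fun i => ?_)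
  refine hMEA M (H i) g' (range g)ᶜ m (hH i) hg' fun j => ?_
  refine Stg.sml_mono (hFs j i) (inter_subset_inter_right _ (preimage_mono ?_))
  rw [hgr]
  exact compl_subset_compl.2 (subset_iUnion_of_subset j Subset.rfl)

end Pool.Agent.T2h58.Res
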