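import Pool.Agent.T2h58.Stm4
import Pool.Agent.T2h58.Rst

/-!
# Project RS (residual sets): engulfing off the grid
-/

set_option autoImplicit false

open Set Filter Topology Metric Function MeasureTheory
open scoped Manifold ContDiff NNReal ENNReal

noncomputable section

namespace Pool.Agent.T2h58.Stb

open Pool.Agent.Y522 Pool.Agent.N550 Pool.Agent.N550.KH Pool.Agent.T2h58

theorem main (hP2 : T_P2) : T_STB := by
  intro M _ _ _ _ _ _ c h R hc hh
  have hhc : Continuous h := KH.Asm.cont hh.2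
  have hcc : Continuous c := KH.Asm.cont hc.2
  have hco : ∀ R : ℝ, IsOpen (c '' ball 0 R) := fun R =>
    (KH.Asm.isOpenEmb hc.1 hc.2).isOpenMap _ isOpen_ball
  have hck : ∀ R : ℝ, IsCompact (c '' closedBall 0 R) := fun R =>
    (isCompact_closedBall _ _).image hcc
  have hsub : ∀ {a b : ℝ}, a < b → c '' closedBall 0 a ⊆ c '' ball 0 b := fun hab =>
    image_mono (closedBall_subset_ball hab)
  obtain ⟨ε₂, hε₂, H₂⟩ := Rst.eps hhc (hck R).isClosed (hco (R + 1)) (hsub (by linarith)) 2
  obtain ⟨ε₃, hε₃, H₃⟩ := Rst.eps hhc (hck (R + 1)).isClosed (hco (R + 2))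
    (hsub (by linarith)) 2
  obtain ⟨s, hs, hs2, hs3, hs5⟩ : ∃ s : ℝ, 0 < s ∧ 4 * s < ε₂ ∧ 4 * s < ε₃ ∧ 4 * s < 1 := by
    refine ⟨min (min ε₂ ε₃) 1 / 8, by positivity, ?_, ?_, ?_⟩
    all_goals
      set m := min (min ε₂ ε₃) 1 with hm
      have hm0 : 0 < m := by positivity
      have a2 : m ≤ ε₂ := (min_le_left _ _).trans (min_le_left _ _)
      have a3 : m ≤ ε₃ := (min_le_left _ _).trans (min_le_right _ _)
      have a5 : m ≤ 1 := min_le_right _ _
      linarith
  have hnear : ∀ z ∈ closedBall (0 : E 4) 1, ∀ z', dist z' z ≤ 4 * s →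
      z' ∈ closedBall (0 : E 4) 2 := by
    intro z hz z' hz'
    rw [mem_closedBall] at hz ⊢
    have := dist_triangle z' z 0
    linarith
  refine ⟨s, hs, fun B hB hB1 hoff => ?_⟩
  refine hP2 M c h R (R + 1) (R + 2) s 0 B hc hh hB hs (by linarith) (by linarith) ?_ ?_
  · intro z hz hz2
    refine ⟨hoff z hz, fun z' hz' hz'c => ?_⟩
    apply hz2
    apply H₂ z' (hnear z (hB1 hz) z' hz') z _ hz'c
    rw [dist_comm]
    rw [mem_closedBall] at hz'
    linarith
  · intro z hz hz2 z' hz'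
    refine image_mono ball_subset_closedBall (H₃ z ?_ z' ?_ (image_mono ball_subset_closedBall hz2))
    · exact closedBall_subset_closedBall (by norm_num) (hB1 hz)
    · rw [mem_closedBall] at hz'
      linarith

end Pool.Agent.T2h58.Stb
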