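import Pool.Agent.T2h58.Stm4
import Pool.Agent.T2h58.P2

/-!
# Project RS (residual sets): one stage
-/

set_option autoImplicit false

open Set Filter Topology Metric Function MeasureTheory
open scoped Manifold ContDiff NNReal ENNReal

noncomputable section

namespace Pool.Agent.T2h58.Stg

open Pool.Agent.Y522 Pool.Agent.N550 Pool.Agent.N550.KH Pool.Agent.T2h58

theorem sml_mono {Φ : ℝ → ℝ≥0∞} {δ : ℝ} {T T' : Set (E 4)} (h : Sml Φ δ T') (hT : T ⊆ T') :
    Sml Φ δ T := by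
  obtain ⟨ι, hι, ρ, W, h1, h2, h3, h4, h5⟩ := h
  exact ⟨ι, hι, ρ, W, h1, h2, h3, h4, hT.trans h5⟩

theorem isOpen_nearG (s : ℝ) (t : E 4) (ρ : ℝ) : IsOpen (NearG s t ρ) := by
  have h1 : NearG s t ρ = ⋃ i : Fin 4, ⋃ j : Fin 4, ⋃ _ : i ≠ j,
      (⋃ k : ℤ, {z : E 4 | |z i - (t i + k * s)| < ρ}) ∩
        ⋃ k : ℤ, {z : E 4 | |z j - (t j + k * s)| < ρ} := by
    ext z
    simp only [NearG, mem_ofPred_eq, mem_iUnion, mem_inter_iff, exists_prop]
  rw [h1]
  have h2 : ∀ (i : Fin 4) (a : ℝ), IsOpen {z : E 4 | |z i - a| < ρ} := fun i a =>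
    isOpen_lt (((EuclideanSpace.proj (𝕜 := ℝ) i).continuous.sub continuous_const).abs)
      continuous_const
  exact isOpen_iUnion fun i => isOpen_iUnion fun j => isOpen_iUnion fun _ =>
    (isOpen_iUnion fun k => h2 _ _).inter (isOpen_iUnion fun k => h2 _ _)

theorem main (hCOV : T_COV) (hSTB : T_STB) : T_STG := by
  intro M _ _ _ _ _ _ a h c R Φ δ hh hc hδ hΦ
  have step : ∀ k : ℕ, k ≤ a → ∃ (c' : E 4 → M) (R' : ℝ), CellMap c' ∧ 0 < R' ∧
      c '' closedBall 0 R ⊆ c' '' ball 0 R' ∧ ∀ i : Fin a, (i : ℕ) < k →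
        Sml Φ δ (closedBall 0 1 ∩ h i ⁻¹' (c' '' ball 0 R')ᶜ) := by
    intro k
    induction k with
    | zero =>
      intro _
      refine ⟨c, max R 0 + 1, hc, by positivity, image_mono fun z hz => ?_, fun i hi => ?_⟩
      · rw [mem_closedBall] at hz
        rw [mem_ball]
        have := le_max_left R 0
        linarith
      · exact absurd hi (Nat.not_lt_zero _)
    | succ k ih =>
      intro hk
      obtain ⟨c₁, R₁, hc₁, hR₁, hsub, hsml⟩ := ih (by omega)
      set i₀ : Fin a := ⟨k, hk⟩ with hi₀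
      obtain ⟨s, hs, hS⟩ := hSTB M c₁ (h i₀) R₁ hc₁ (hh i₀)
      obtain ⟨ρ, hρ, hρS⟩ := hCOV Φ δ s 0 hδ hs hΦ
      set B : Set (E 4) := closedBall 0 1 \ NearG s 0 ρ with hB
      have hBc : IsCompact B := (isCompact_closedBall _ _).diff (isOpen_nearG _ _ _)
      obtain ⟨c₂, hc₂, hsub₂⟩ := hS B hBc sdiff_subset (by
        rintro z ⟨-, hz⟩ i j hij ⟨⟨k1, hk1⟩, ⟨k2, hk2⟩⟩
        refine hz ⟨i, j, hij, ⟨k1, ?_⟩, ⟨k2, ?_⟩⟩
        · rw [hk1, sub_self, abs_zero]; exact hρ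
        · rw [hk2, sub_self, abs_zero]; exact hρ)
      have hcpt : IsCompact (c₁ '' closedBall 0 R₁ ∪ h i₀ '' B) :=
        ((isCompact_closedBall _ _).image (Det.cm_cont hc₁)).union
          (hBc.image (Det.cm_cont (hh i₀)))
      obtain ⟨R₂, hR₂⟩ := P2.cm_bdd hc₂ hcpt hsub₂
      have hR₂' : c₁ '' closedBall 0 R₁ ∪ h i₀ '' B ⊆ c₂ '' ball 0 (max R₂ 0 + 1) := by
        refine hR₂.trans (image_mono fun z hz => ?_)
        rw [mem_closedBall] at hz
        rw [mem_ball]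
        have := le_max_left R₂ 0
        linarith
      refine ⟨c₂, max R₂ 0 + 1, hc₂, by positivity, ?_, fun i hi => ?_⟩
      · exact (hsub.trans (image_mono ball_subset_closedBall)).trans (subset_union_left.trans hR₂')
      · rcases Nat.lt_succ_iff_lt_or_eq.1 hi with h1 | h1
        · refine sml_mono (hsml i h1) (inter_subset_inter_right _ (preimage_mono ?_))
          exact compl_subset_compl.2
            ((image_mono ball_subset_closedBall).trans (subset_union_left.trans hR₂'))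
        · have h2 : i = i₀ := Fin.ext h1
          rw [h2]
          refine sml_mono hρS ?_
          rintro z ⟨hz1, hz2⟩
          refine ⟨hz1, ?_⟩
          by_contra h3
          exact hz2 (hR₂' (Or.inr ⟨z, ⟨hz1, h3⟩, rfl⟩))
  obtain ⟨c', R', h1, h2, h3, h4⟩ := step a le_rfl
  exact ⟨c', R', h1, h2, h3, fun i => h4 i i.2⟩

end Pool.Agent.T2h58.Stg
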