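import Pool.Agent.T2h58.All
import Pool.Agent.T2h58.Cov
import Pool.Agent.T2h58.Stb
import Pool.Agent.T2h58.Stg
import Pool.Agent.T2h58.Mon
import Pool.Agent.T2h58.Mea
import Pool.Agent.T2h58.Res

/-!
# Project RS (residual sets): the theorem
-/

set_option autoImplicit false

namespace Pool.Agent.T2h58

/-- residual sets -/
theorem res : T_RES := Res.main (Stg.main Cov.main (Stb.main p2)) Mon.main Mea.main

end Pool.Agent.T2h58
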