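import Pool.Agent.T2h58.Avs

/-!
# Project CV: squares are pushed off thin sets
-/

set_option autoImplicit false

open Set Filter Topology Metric Function MeasureTheory
open scoped Manifold ContDiff NNReal ENNReal unitInterval

noncomputable section

namespace Pool.Agent.T2h58.Av

open Pool.Agent.Y522 Pool.Agent.N550 Pool.Agent.N550.KH Pool.Agent.N550.TS.Flm

theorem main : T_AVS → T_AV := by
  intro hS M _ _ _ _ A H L hA hAn hL hHL
  classical
  have hcell : ∀ x : M, ∃ c : E 4 → M, CellMap c ∧ c 0 = x := fun x => by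
    obtain ⟨c, h1, h2, h3⟩ := exists_cell0 (n := 4) x
    exact ⟨c, ⟨h1, h2⟩, h3⟩
  choose c hc hc0 using hcell
  have hcont : ∀ x, Continuous (c x) := fun x =>
    continuous_iff_continuousAt.2 fun z => ((hc x).2 z).continuousAt
  have hop : ∀ x, IsOpen (c x '' ball 0 (1 / 2)) := fun x =>
    isOpen_image_of_LD (n := 4) isOpen_ball fun z _ => (hc x).2 z
  let B : M → Set M := fun x => A ∩ c x '' closedBall 0 (1 / 2)
  have hBcl : ∀ x, IsClosed (B x) := fun x =>
    hA.isClosed.inter ((isCompact_closedBall (0 : E 4) (1 / 2)).image (hcont x)).isClosed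
  have key : ∀ t : Finset M, ∃ H' : C(Sq, M), ContinuousMap.HomotopicRel H H' L ∧
      ∀ s, H' s ∉ ⋃ x ∈ t, B x := by
    intro t
    induction t using Finset.induction_on with
    | empty => exact ⟨H, ContinuousMap.HomotopicRel.refl H, by simp⟩
    | insert a t hat ih =>
      obtain ⟨H₁, hH₁, hH₁'⟩ := ih
      have hcl : IsClosed (⋃ x ∈ t, B x) := isClosed_biUnion_finset fun x _ => hBcl x
      obtain ⟨H₂, hH₂, hH₂'⟩ := hS M (c a) H₁ L (⋃ x ∈ t, B x) (B a) (hc a) hL hcl (hBcl a)
        (inter_subset_right.trans (image_mono (closedBall_subset_ball (by norm_num))))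
        (measure_mono_null (preimage_mono inter_subset_left) (hAn (c a) (hc a).1 (hc a).2))
        hH₁' fun s hs hcon => by
          have h1 : H₁ s = H s := (ContinuousMap.HomotopicRel.fst_eq_snd hH₁ hs).symm
          rw [h1] at hcon
          exact hHL s hs hcon.1
      refine ⟨H₂, hH₁.trans hH₂, fun s => ?_⟩
      rw [Finset.set_biUnion_insert]
      rintro (h | h)
      · exact (hH₂' s).2 h
      · exact (hH₂' s).1 h
  obtain ⟨t, -, ht⟩ := hA.elim_nhds_subcover (fun x => c x '' ball 0 (1 / 2)) fun x _ =>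
    (hop x).mem_nhds ⟨0, mem_ball_self (by norm_num), hc0 x⟩
  obtain ⟨H', hH', hH''⟩ := key t
  refine ⟨H', hH', fun s hs => hH'' s ?_⟩
  obtain ⟨x, hx, hxs⟩ := mem_iUnion₂.1 (ht hs)
  exact mem_iUnion₂.2 ⟨x, hx, hs, image_mono ball_subset_closedBall hxs⟩

end Pool.Agent.T2h58.Av
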