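import Pool.Agent.T2h58.Stm5
import Pool.Agent.N550.TS.Flm

/-!
# Project CV: squares are pushed off thin sets of a chart
-/

set_option autoImplicit false

open Set Filter Topology Metric Function MeasureTheory
open scoped Manifold ContDiff NNReal ENNReal unitInterval

noncomputable section

namespace Pool.Agent.T2h58.Avs

open Pool.Agent.Y522 Pool.Agent.N550 Pool.Agent.N550.KH Pool.Agent.N550.TS.Flm

theorem edist_bound {Z T : Set (E 4)} (hZ : IsCompact Z) (hT : IsClosed T) (h : Disjoint Z T) :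
    ∃ d : ℝ, 0 < d ∧ ∀ x ∈ Z, ∀ y ∈ T, d ≤ ‖y - x‖ := by
  obtain ⟨r, hr, h1⟩ := exists_pos_forall_lt_edist hZ hT h
  refine ⟨r, hr, fun x hx y hy => ?_⟩
  have h2 := h1 x hx y hy
  rw [edist_comm, edist_dist, dist_eq_norm, ← ENNReal.ofReal_coe_nnreal] at h2
  exact ((ENNReal.ofReal_lt_ofReal_iff_of_nonneg r.2).1 h2).le

theorem main : T_SQN → T_SQA → T_AVS := by
  intro hN hA M _ _ _ c H L S₁ S₂ hc hL hS₁ hS₂ hSc hnull h1 h2
  have hcont : Continuous c := continuous_iff_continuousAt.2 fun z => (hc.2 z).continuousAt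
  have hop : ∀ O : Set (E 4), IsOpen O → IsOpen (c '' O) := fun O hO =>
    isOpen_image_of_LD (n := 4) hO fun z _ => hc.2 z
  have hinv : ∀ z, invFun c (c z) = z := leftInverse_invFun hc.1
  -- the chart
  let h : Sq → E 4 := fun s => invFun c (H s)
  let V : Set Sq := H ⁻¹' range c
  have hVo : IsOpen V := by
    refine IsOpen.preimage H.continuous ?_
    rw [← image_univ]
    exact hop _ isOpen_univ
  have hch : ∀ s ∈ V, c (h s) = H s := by
    rintro s ⟨z, hz⟩
    show c (invFun c (H s)) = H s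
    rw [← hz, hinv]
  have hhc : ContinuousOn h V := by
    intro s hs
    refine ContinuousAt.continuousWithinAt ?_
    obtain ⟨z, hz⟩ := hs
    have h3 : ContinuousAt (invFun c) (H s) := by
      rw [← hz]
      exact (inv_LD hc.1 hc.2 z).continuousAt
    exact ContinuousAt.comp (g := invFun c) h3 H.continuous.continuousAt
  -- the open set of modification
  let W : Set Sq := H ⁻¹' (c '' ball 0 1) ∩ Lᶜ
  have hWo : IsOpen W := ((hop _ isOpen_ball).preimage H.continuous).inter hL.isOpen_compl
  have hWcl : closure W ⊆ V := by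
    have h3 : IsClosed (H ⁻¹' (c '' closedBall 0 1)) :=
      (((isCompact_closedBall (0 : E 4) 1).image hcont).isClosed).preimage H.continuous
    refine (closure_minimal ?_ h3).trans (preimage_mono (image_subset_range _ _))
    exact inter_subset_left.trans (preimage_mono (image_mono ball_subset_closedBall))
  have hK : IsClosed (H ⁻¹' S₂) := hS₂.preimage H.continuous
  have hKW : H ⁻¹' S₂ ⊆ W := fun s hs => ⟨hSc hs, fun hsL => h2 s hsL hs⟩
  obtain ⟨u, huo, hKu, huW⟩ := normal_exists_closure_subset hK hWo hKW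
  obtain ⟨χ, hχ0, hχ1, hχ⟩ := exists_continuous_zero_one_of_isClosed hWo.isClosed_compl
    (isClosed_closure (s := u)) (disjoint_left.2 fun s hs hs' => hs (huW hs'))
  -- the distances
  have hcW : IsCompact (closure W) := isClosed_closure.isCompact
  have hZ₁ : IsCompact (h '' closure W) := hcW.image_of_continuousOn (hhc.mono hWcl)
  have hZ₂ : IsCompact (h '' (closure W \ u)) :=
    (hcW.diff huo).image_of_continuousOn (hhc.mono (diff_subset.trans hWcl))
  obtain ⟨d₁, hd₁, hd₁'⟩ := edist_bound hZ₁ (hS₁.preimage hcont) (by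
    rw [disjoint_left]
    rintro _ ⟨s, hs, rfl⟩ hcon
    have h3 : c (h s) ∈ S₁ := hcon
    rw [hch s (hWcl hs)] at h3
    exact h1 s h3)
  obtain ⟨d₂, hd₂, hd₂'⟩ := edist_bound hZ₂ (hS₂.preimage hcont) (by
    rw [disjoint_left]
    rintro _ ⟨s, hs, rfl⟩ hcon
    have h3 : c (h s) ∈ S₂ := hcon
    rw [hch s (hWcl hs.1)] at h3
    exact hs.2 (hKu h3))
  set d := min d₁ d₂ with hd
  have hd0 : 0 < d := lt_min hd₁ hd₂
  obtain ⟨P, hP, hPh⟩ := hA (closure W) h (d / 3) isClosed_closure (hhc.mono hWcl) (by positivity)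
  obtain ⟨w, hw1, hw2⟩ : ∃ w : E 4, ‖w‖ < d / 3 ∧
      ∀ s ∈ Icc (0 : ℝ) 1, ∀ t ∈ Icc (0 : ℝ) 1, P (s, t) - w ∉ c ⁻¹' S₂ := by
    have h3 := Measure.dense_of_ae (hN (c ⁻¹' S₂) P hnull hP)
    obtain ⟨w, hw, hw'⟩ := h3.inter_open_nonempty (ball 0 (d / 3)) isOpen_ball
      ⟨0, mem_ball_self (by positivity)⟩
    exact ⟨w, by rwa [mem_ball_zero_iff] at hw, hw'⟩
  -- the homotopy
  let v : Sq → E 4 := fun s => P (s.1, s.2) - w - h s
  have hvd : ∀ s ∈ closure W, ‖v s‖ < d := by
    intro s hs
    have h3 : v s = (P (s.1, s.2) - h s) - w := by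
      simp only [v]
      abel
    rw [h3]
    have h4 := norm_sub_le (P (s.1, s.2) - h s) w
    have h5 := hPh s hs
    linarith
  have hvc : ContinuousOn v V := by
    have h3 : Continuous fun s : Sq => P (s.1, s.2) := by
      refine hP.continuous.comp ?_
      fun_prop
    exact (h3.sub continuous_const).continuousOn.sub hhc
  classical
  let J : I × Sq → M := fun p => if p.2 ∈ V then c (h p.2 + ((p.1 : ℝ) * χ p.2) • v p.2) else H p.2
  have hJV : ∀ p : I × Sq, p.2 ∈ V → J p = c (h p.2 + ((p.1 : ℝ) * χ p.2) • v p.2) :=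
    fun p hp => if_pos hp
  have hJn : ∀ p : I × Sq, p.2 ∉ W → J p = H p.2 := by
    intro p hp
    by_cases hpV : p.2 ∈ V
    · rw [hJV p hpV, hχ0 hp]
      simp only [Pi.zero_apply, mul_zero, zero_smul, add_zero]
      exact hch _ hpV
    · exact if_neg hpV
  have hJc : Continuous J := by
    rw [continuous_iff_continuousAt]
    intro p
    by_cases hpV : p.2 ∈ V
    · have h3 : ∀ᶠ q : I × Sq in 𝓝 p, q.2 ∈ V :=
        continuous_snd.continuousAt.eventually (hVo.mem_nhds hpV)
      have h4 : J =ᶠ[𝓝 p] fun q => c (h q.2 + ((q.1 : ℝ) * χ q.2) • v q.2) :=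
        h3.mono fun q hq => hJV q hq
      refine ContinuousAt.congr ?_ h4.symm
      refine ContinuousAt.comp (g := c) hcont.continuousAt ?_
      have h5 : ContinuousAt (fun q : I × Sq => h q.2) p :=
        ContinuousAt.comp (g := h) (hhc.continuousAt (hVo.mem_nhds hpV)) continuous_snd.continuousAt
      have h6 : ContinuousAt (fun q : I × Sq => v q.2) p :=
        ContinuousAt.comp (g := v) (hvc.continuousAt (hVo.mem_nhds hpV)) continuous_snd.continuousAt
      have h7 : Continuous fun q : I × Sq => ((q.1 : ℝ) * χ q.2) := by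
        have := χ.continuous
        fun_prop
      exact h5.add (h7.continuousAt.smul h6)
    · have h3 : p.2 ∈ (closure W)ᶜ := fun h => hpV (hWcl h)
      have h4 : ∀ᶠ q : I × Sq in 𝓝 p, q.2 ∈ (closure W)ᶜ :=
        continuous_snd.continuousAt.eventually (isClosed_closure.isOpen_compl.mem_nhds h3)
      have h5 : J =ᶠ[𝓝 p] fun q => H q.2 :=
        h4.mono fun q hq => hJn q fun h => hq (subset_closure h)
      exact ContinuousAt.congr (H.continuous.comp continuous_snd).continuousAt h5.symm
  let H' : C(Sq, M) := ⟨fun s => J (1, s), hJc.comp (by fun_prop)⟩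
  have hJ0 : ∀ s, J (0, s) = H s := by
    intro s
    by_cases hs : s ∈ V
    · rw [hJV _ hs]
      simp only [Icc.coe_zero, zero_mul, zero_smul, add_zero]
      exact hch s hs
    · exact hJn _ fun h => hs (hWcl (subset_closure h))
  have hJL : ∀ (t : I) (s : Sq), s ∈ L → J (t, s) = H s := fun t s hs => hJn _ fun h => h.2 hs
  refine ⟨H', ⟨{ toFun := J
                 continuous_toFun := hJc
                 map_zero_left := hJ0
                 map_one_left := fun s => rfl
                 prop' := fun t s hs => hJL t s hs }⟩, fun s => ⟨fun hcon => ?_, fun hcon => ?_⟩⟩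
  · -- `S₁`
    have hcon' : J (1, s) ∈ S₁ := hcon
    by_cases hs : s ∈ closure W
    · rw [hJV _ (hWcl hs)] at hcon'
      have h3 := hd₁' _ ⟨s, hs, rfl⟩ _ hcon'
      rw [add_sub_cancel_left, norm_smul] at h3
      simp only [Icc.coe_one, one_mul] at h3
      have h4 : ‖χ s‖ ≤ 1 := by
        rw [Real.norm_eq_abs, abs_of_nonneg (hχ s).1]
        exact (hχ s).2
      have h5 : ‖χ s‖ * ‖v s‖ ≤ 1 * ‖v s‖ := mul_le_mul_of_nonneg_right h4 (norm_nonneg _)
      have h6 := hvd s hs
      have h7 := min_le_left d₁ d₂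
      linarith
    · rw [hJn _ fun h => hs (subset_closure h)] at hcon'
      exact h1 s hcon'
  · -- `S₂`
    have hcon' : J (1, s) ∈ S₂ := hcon
    by_cases hs : s ∈ closure W
    · rw [hJV _ (hWcl hs)] at hcon'
      by_cases hsu : s ∈ u
      · rw [hχ1 (subset_closure hsu)] at hcon'
        simp only [Icc.coe_one, one_mul, Pi.one_apply, one_smul] at hcon'
        have h3 : h s + v s = P (s.1, s.2) - w := by
          simp only [v]
          abel
        rw [h3] at hcon'
        exact hw2 s.1 s.1.2 s.2 s.2.2 hcon'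
      · have h3 := hd₂' _ ⟨s, ⟨hs, hsu⟩, rfl⟩ _ hcon'
        rw [add_sub_cancel_left, norm_smul] at h3
        simp only [Icc.coe_one, one_mul] at h3
        have h4 : ‖χ s‖ ≤ 1 := by
          rw [Real.norm_eq_abs, abs_of_nonneg (hχ s).1]
          exact (hχ s).2
        have h5 : ‖χ s‖ * ‖v s‖ ≤ 1 * ‖v s‖ := mul_le_mul_of_nonneg_right h4 (norm_nonneg _)
        have h6 := hvd s hs
        have h7 := min_le_right d₁ d₂
        linarith
    · rw [hJn _ fun h => hs (subset_closure h)] at hcon'
      exact hs (subset_closure (hKW hcon'))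

end Pool.Agent.T2h58.Avs
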