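import Pool.Agent.T2h58.Stm3
import Pool.Agent.T2h58.Det

/-!
# Project SC (simply connected): the parametrization of an open box
-/

set_option autoImplicit false

open Set Filter Topology Metric Function MeasureTheory
open scoped Manifold ContDiff NNReal

noncomputable section

namespace Pool.Agent.T2h58.Box

open Pool.Agent.Y522 Pool.Agent.N550 Pool.Agent.N550.KH Pool.Agent.T2h58

/-- a diffeomorphism from the line onto the interval `(-1, 1)` -/
def sg (C x : ℝ) : ℝ := (√(1 + (C * x) ^ 2))⁻¹ * (C * x)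

/-- its inverse -/
def sgi (C y : ℝ) : ℝ := C⁻¹ * ((√(1 - y ^ 2))⁻¹ * y)

theorem sg_sq (C x : ℝ) : 1 - sg C x ^ 2 = (1 + (C * x) ^ 2)⁻¹ := by
  have h1 : 0 < 1 + (C * x) ^ 2 := by positivity
  rw [sg, mul_pow, inv_pow, Real.sq_sqrt h1.le]
  field_simp
  ring

theorem abs_sg_lt (C x : ℝ) : |sg C x| < 1 := by
  rw [← sq_lt_one_iff_abs_lt_one, ← sub_pos, sg_sq]
  positivity

theorem sgi_sg {C : ℝ} (hC : 0 < C) (x : ℝ) : sgi C (sg C x) = x := by
  have h1 : 0 < 1 + (C * x) ^ 2 := by positivity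
  rw [sgi, sg_sq, Real.sqrt_inv, inv_inv, sg]
  have h3 : 0 < √(1 + (C * x) ^ 2) := Real.sqrt_pos.2 h1
  field_simp

theorem sg_sgi {C : ℝ} (hC : 0 < C) {y : ℝ} (hy : |y| < 1) : sg C (sgi C y) = y := by
  have h1 : 0 < 1 - y ^ 2 := by
    rw [sub_pos, sq_lt_one_iff_abs_lt_one]
    exact hy
  have h3 : 0 < √(1 - y ^ 2) := Real.sqrt_pos.2 h1
  have h4 : C * sgi C y = (√(1 - y ^ 2))⁻¹ * y := by
    rw [sgi]
    field_simp
  have h5 : 1 + ((√(1 - y ^ 2))⁻¹ * y) ^ 2 = (1 - y ^ 2)⁻¹ := by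
    rw [mul_pow, inv_pow, Real.sq_sqrt h1.le]
    field_simp
    ring
  rw [sg, h4, h5, Real.sqrt_inv, inv_inv]
  field_simp

theorem sg_smooth (C : ℝ) : ContDiff ℝ ∞ (sg C) := by
  have h1 : ContDiff ℝ ∞ fun x : ℝ => 1 + (C * x) ^ 2 :=
    contDiff_const.add ((contDiff_const.mul contDiff_id).pow 2)
  have h2 : ∀ x : ℝ, 1 + (C * x) ^ 2 ≠ 0 := fun x => by positivity
  have h3 : ∀ x : ℝ, √(1 + (C * x) ^ 2) ≠ 0 := fun x => by positivity
  exact ((h1.sqrt h2).inv h3).mul (contDiff_const.mul contDiff_id)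

theorem sgi_smooth (C : ℝ) : ContDiffOn ℝ ∞ (sgi C) {y | |y| < 1} := by
  intro y hy
  have h0 : 0 < 1 - y ^ 2 := by
    rw [sub_pos, sq_lt_one_iff_abs_lt_one]
    exact hy
  have h1 : ContDiffAt ℝ ∞ (fun y : ℝ => 1 - y ^ 2) y :=
    (contDiff_const.sub (contDiff_id.pow 2)).contDiffAt
  have h3 : √(1 - y ^ 2) ≠ 0 := (Real.sqrt_pos.2 h0).ne'
  exact (contDiffAt_const.mul (((h1.sqrt h0.ne').inv h3).mul contDiffAt_id)).contDiffWithinAt

theorem sg_mono {C : ℝ} (hC : 0 < C) : StrictMono (sg C) := by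
  intro x y hxy
  by_contra h
  push Not at h
  rcases h.eq_or_lt with h | h
  · have := congrArg (sgi C) h
    rw [sgi_sg hC, sgi_sg hC] at this
    exact hxy.ne' this
  · have h1 : ∀ x y : ℝ, |x| < 1 → |y| < 1 → 0 ≤ x → x ≤ y → sgi C x ≤ sgi C y := by
      intro x y hx hy h0 hxy
      have h2 : 0 < 1 - y ^ 2 := by
        rw [sub_pos, sq_lt_one_iff_abs_lt_one]
        exact hy
      have h3 : 1 - y ^ 2 ≤ 1 - x ^ 2 := by nlinarith
      have h4 : √(1 - y ^ 2) ≤ √(1 - x ^ 2) := Real.sqrt_le_sqrt h3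
      have h5 : (√(1 - x ^ 2))⁻¹ ≤ (√(1 - y ^ 2))⁻¹ := inv_anti₀ (Real.sqrt_pos.2 h2) h4
      rw [sgi, sgi]
      have h6 : (0 : ℝ) ≤ (√(1 - y ^ 2))⁻¹ := by positivity
      have h7 : (0 : ℝ) ≤ C⁻¹ := by positivity
      exact mul_le_mul_of_nonneg_left (mul_le_mul h5 hxy h0 h6) h7
    have h2 : ∀ y : ℝ, sgi C (-y) = -sgi C y := by
      intro y
      rw [sgi, sgi, neg_sq]
      ring
    have h3 : sgi C (sg C y) ≤ sgi C (sg C x) := by
      rcases le_total 0 (sg C y) with h4 | h4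
      · exact h1 _ _ (abs_sg_lt _ _) (abs_sg_lt _ _) h4 h.le
      · rcases le_total 0 (sg C x) with h5 | h5
        · have h6 : 0 ≤ sgi C (sg C x) := by
            rw [sgi]
            positivity
          have h7 : 0 ≤ sgi C (-(sg C y)) := by
            rw [sgi]
            have : 0 ≤ -sg C y := by linarith
            positivity
          rw [h2] at h7
          linarith
        · have h8 := h1 (-sg C x) (-sg C y) (by rw [abs_neg]; exact abs_sg_lt _ _)
            (by rw [abs_neg]; exact abs_sg_lt _ _) (by linarith) (by linarith)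
          rw [h2, h2] at h8
          linarith
    rw [sgi_sg hC, sgi_sg hC] at h3
    linarith

theorem sg_neg (C x : ℝ) : sg C (-x) = -sg C x := by
  rw [sg, sg]
  have : (C * -x) ^ 2 = (C * x) ^ 2 := by ring
  rw [this]
  ring

theorem exists_C {a δ : ℝ} (ha : 0 < a) (hδ : 0 < δ) : ∃ C : ℝ, 0 < C ∧ 1 - δ < sg C a := by
  have h1 : Tendsto (fun C : ℝ => sg C a) atTop (𝓝 1) := by
    have h2 : Tendsto (fun C : ℝ => √(1 - (1 + (C * a) ^ 2)⁻¹)) atTop (𝓝 (√(1 - 0))) := by
      refine (Real.continuous_sqrt.tendsto _).comp (tendsto_const_nhds.sub ?_)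
      refine tendsto_inv_atTop_zero.comp ?_
      refine tendsto_atTop_add_const_left _ _ ?_
      exact (tendsto_pow_atTop two_ne_zero).comp (tendsto_id.atTop_mul_const ha)
    rw [sub_zero, Real.sqrt_one] at h2
    refine h2.congr' ?_
    filter_upwards [eventually_gt_atTop 0] with C hC
    rw [← sg_sq, sub_sub_cancel, Real.sqrt_sq]
    rw [sg]
    positivity
  obtain ⟨C, h2, h3⟩ := ((h1.eventually (lt_mem_nhds (show 1 - δ < 1 by linarith))).and
    (eventually_gt_atTop 0)).exists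
  exact ⟨C, h3, h2⟩

/-- the parametrization of the open box with centre `a` and sides `2 c i`; the coordinates are
permuted by `e` -/
def B (a c : Fin 4 → ℝ) (e : Equiv.Perm (Fin 4)) (C : ℝ) (z : E 4) : E 4 :=
  WithLp.toLp 2 fun i => a i + c i * sg C (z (e i))

/-- its inverse -/
def Bi (a c : Fin 4 → ℝ) (e : Equiv.Perm (Fin 4)) (C : ℝ) (w : E 4) : E 4 :=
  WithLp.toLp 2 fun j => sgi C ((w (e.symm j) - a (e.symm j)) / c (e.symm j))

variable {a c : Fin 4 → ℝ} {e : Equiv.Perm (Fin 4)} {C : ℝ}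

theorem Bi_B (hc : ∀ i, 0 < c i) (hC : 0 < C) (z : E 4) : Bi a c e C (B a c e C z) = z := by
  ext j
  have h1 := (hc (e.symm j)).ne'
  simp only [Bi, B, add_sub_cancel_left, Equiv.apply_symm_apply, mul_div_cancel_left₀ _ h1,
    sgi_sg hC]

theorem B_Bi (hc : ∀ i, 0 < c i) (hC : 0 < C) {w : E 4} (hw : ∀ i, |w i - a i| < c i) :
    B a c e C (Bi a c e C w) = w := by
  ext i
  have h1 := (hc i).ne'
  have h2 : |(w i - a i) / c i| < 1 := by
    rw [abs_div, abs_of_pos (hc i), div_lt_one (hc i)]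
    exact hw i
  simp only [Bi, B, Equiv.symm_apply_apply, sg_sgi hC h2]
  field_simp
  ring

theorem B_mem (hc : ∀ i, 0 < c i) (z : E 4) (i : Fin 4) : |B a c e C z i - a i| < c i := by
  simp only [B, add_sub_cancel_left, abs_mul, abs_of_pos (hc i)]
  exact mul_lt_of_lt_one_right (hc i) (abs_sg_lt _ _)

theorem B_inj (hc : ∀ i, 0 < c i) (hC : 0 < C) : Injective (B a c e C) :=
  LeftInverse.injective (Bi_B hc hC)

theorem B_ld (hc : ∀ i, 0 < c i) (hC : 0 < C) (z : E 4) : LD 4 (B a c e C) z := by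
  have hco : ∀ j : Fin 4, ContDiff ℝ ∞ fun z : E 4 => z j := fun j =>
    (EuclideanSpace.proj (𝕜 := ℝ) j).contDiff
  refine ⟨{ toFun := B a c e C
            invFun := Bi a c e C
            source := univ
            target := {w | ∀ i, |w i - a i| < c i}
            map_source' := fun z _ i => B_mem hc z i
            map_target' := fun _ _ => mem_univ _
            left_inv' := fun z _ => Bi_B hc hC z
            right_inv' := fun w hw => B_Bi hc hC hw
            open_source := isOpen_univ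
            open_target := ?_
            contMDiffOn_toFun := ?_
            contMDiffOn_invFun := ?_ }, mem_univ _, fun y _ => rfl⟩
  · have : {w : E 4 | ∀ i, |w i - a i| < c i} = ⋂ i, {w : E 4 | |w i - a i| < c i} := by
      ext w; simp
    rw [this]
    exact isOpen_iInter_of_finite fun i =>
      isOpen_lt (((hco i).continuous.sub continuous_const).abs) continuous_const
  · refine (contMDiff_iff_contDiff.2 ?_).contMDiffOn
    exact contDiff_euclidean.2 fun i =>
      contDiff_const.add (contDiff_const.mul ((sg_smooth C).comp (hco (e i))))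
  · refine contMDiffOn_iff_contDiffOn.2 ?_
    refine contDiffOn_euclidean.2 fun j => ?_
    refine (sgi_smooth C).comp (t := {y | |y| < 1}) ?_ ?_
    · exact (((hco (e.symm j)).sub contDiff_const).div_const _).contDiffOn
    · intro w hw
      change |(w (e.symm j) - a (e.symm j)) / c (e.symm j)| < 1
      rw [abs_div, abs_of_pos (hc _), div_lt_one (hc _)]
      exact hw _

end Pool.Agent.T2h58.Box
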