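import Pool.Agent.T2h58.Rad

/-!
# Project CV: collapse of the complement of copies of a punctured manifold
-/

set_option autoImplicit false

open Set Filter Topology Metric Function MeasureTheory
open scoped Manifold ContDiff

noncomputable section

namespace Pool.Agent.T2h58.Clp

open Pool.Agent.Y522 Pool.Agent.N550 Pool.Agent.N550.KH Pool.Agent.N550.KH.Supp
  Pool.Agent.N550.TS.Flm Pool.Agent.T2h58 Pool.Agent.T2h58.Flm2

theorem main : T_CLP := by
  intro k M N _ _ _ _ _ _ _ _ _ p j hjl hji hjd
  classical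
  obtain ⟨c, hci, hcl, hc0⟩ := exists_cell0 (n := 4) p
  have hc : CellMap c := ⟨hci, hcl⟩
  obtain ⟨r, hrs, hrl, hri, hrr, hrp⟩ := Rad.coll hc one_pos
  rw [hc0] at hrr hrp
  have hcont : Continuous c := continuous_iff_continuousAt.2 fun z => (hc.2 z).continuousAt
  have hbo : IsOpen (c '' ball 0 1) := isOpen_image_of_LD (n := 4) isOpen_ball fun z _ => hcl z
  have hpb : p ∈ c '' ball 0 1 := ⟨0, mem_ball_self one_pos, hc0⟩
  have hNne : Nonempty N := ⟨p⟩
  -- the images
  let P : M → Prop := fun m => ∃ i, ∃ x, x ≠ p ∧ j i x = m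
  let f : M → N := fun m => if h : P m then r h.choose_spec.choose else p
  have hf : ∀ i x, x ≠ p → f (j i x) = r x := by
    intro i x hx
    have h : P (j i x) := ⟨i, x, hx, rfl⟩
    have h1 : f (j i x) = r h.choose_spec.choose := dif_pos h
    have h2 := h.choose_spec.choose_spec
    have h3 : h.choose = i := by
      by_contra hne
      exact hjd _ _ _ _ hne h2.1 hx h2.2
    have h4 : ∀ i' x', i' = i → x' ≠ p → j i' x' = j i x → x' = x := by
      rintro i' x' rfl hx' h5
      exact hji i' hx' hx h5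
    rw [h1, h4 _ _ h3 h2.1 h2.2]
  have hf' : ∀ m, ¬ P m → f m = p := fun m h => dif_neg h
  -- the local inverse of `j i`
  have hopen : ∀ i (O : Set N), IsOpen O → p ∉ O → IsOpen (j i '' O) := fun i O hO hpO =>
    isOpen_image_of_LD (n := 4) hO fun x hx => hjl i x fun h => hpO (h ▸ hx)
  have hpc : IsOpen ({p}ᶜ : Set N) := isOpen_compl_singleton
  have hnear : ∀ i x, x ≠ p → ∃ g : M → N, LD 4 g (j i x) ∧ g (j i x) = x ∧
      f =ᶠ[𝓝 (j i x)] fun m => r (g m) := by
    intro i x hx
    refine ⟨invFunOn (j i) {p}ᶜ, ?_, ?_, ?_⟩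
    · exact LD.inverse (n := 4) hpc (fun y hy => hjl i y hy)
        (fun y hy => (hji i).leftInvOn_invFunOn hy) hx
    · exact (hji i).leftInvOn_invFunOn hx
    · have h1 : j i '' {p}ᶜ ∈ 𝓝 (j i x) :=
        (hopen i _ hpc (by simp)).mem_nhds ⟨x, hx, rfl⟩
      filter_upwards [h1] with m hm
      obtain ⟨y, hy, rfl⟩ := hm
      rw [hf i y hy, (hji i).leftInvOn_invFunOn hy]
  have hne : ∀ m, f m ≠ p → ∃ i x, x ≠ p ∧ j i x = m ∧ x ∉ c '' closedBall 0 1 ∧ r x = f m := by
    intro m hm
    by_cases hP : P m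
    · obtain ⟨i, x, hx, rfl⟩ := hP
      rw [hf i x hx] at hm
      exact ⟨i, x, hx, rfl, fun h => hm (hrp x h), (hf i x hx).symm⟩
    · exact absurd (hf' m hP) hm
  refine ⟨f, fun m => ?_, fun m hm => ?_, fun y hy => ?_⟩
  · by_cases hP : P m
    · obtain ⟨i, x, hx, rfl⟩ := hP
      obtain ⟨g, hg1, hg2, hg3⟩ := hnear i x hx
      refine ContMDiffAt.congr_of_eventuallyEq ?_ hg3
      exact ContMDiffAt.comp (g := r) (j i x) (hrs _) hg1.contMDiffAt
    · have hK : IsCompact (⋃ i, j i '' (c '' ball 0 1)ᶜ) := by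
        refine isCompact_iUnion fun i => ?_
        refine hbo.isClosed_compl.isCompact.image_of_continuousOn fun x hx => ?_
        refine ((hjl i x fun h => hx ?_).continuousAt).continuousWithinAt
        rw [h]
        exact hpb
      have hmK : m ∉ ⋃ i, j i '' (c '' ball 0 1)ᶜ := by
        intro h
        obtain ⟨i, x, hx, hxm⟩ := mem_iUnion.1 h
        exact hP ⟨i, x, fun h => hx (by rw [h]; exact hpb), hxm⟩
      have h1 : f =ᶠ[𝓝 m] fun _ => p := by
        filter_upwards [hK.isClosed.isOpen_compl.mem_nhds hmK] with m' hm'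
        by_cases hP' : P m'
        · obtain ⟨i, x, hx, rfl⟩ := hP'
          rw [hf i x hx]
          refine hrp x ?_
          by_contra hcon
          refine hm' (mem_iUnion.2 ⟨i, x, fun h => hcon ?_, rfl⟩)
          exact image_mono ball_subset_closedBall h
        · exact hf' m' hP'
      exact ContMDiffAt.congr_of_eventuallyEq contMDiffAt_const h1
  · obtain ⟨i, x, hx, rfl, hxb, -⟩ := hne m hm
    obtain ⟨g, hg1, hg2, hg3⟩ := hnear i x hx
    refine LD.congr ?_ hg3
    refine LD.comp_fun (g := r) ?_ hg1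
    rw [hg2]
    exact hrl x hxb
  · have hy' : y ∈ r '' (c '' closedBall 0 1)ᶜ := by
      rw [hrr]
      exact hy
    obtain ⟨x, hx, hxy⟩ := hy'
    have hxp : x ≠ p := fun h => hx (by
      rw [h]
      exact image_mono ball_subset_closedBall hpb)
    have h1 : f ⁻¹' {y} = range fun i => j i x := by
      ext m
      constructor
      · intro hm
        have hm' : f m = y := hm
        obtain ⟨i, x', hx', hxm, hxb, hrx⟩ := hne m (by rw [hm']; exact hy)
        refine ⟨i, ?_⟩
        have : x' = x := hri hxb hx (by rw [hrx, hm', hxy])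
        rw [← this]
        exact hxm
      · rintro ⟨i, rfl⟩
        show f (j i x) = y
        rw [hf i x hxp, hxy]
    rw [h1, ← image_univ, ncard_image_of_injective]
    · simp [ncard_univ]
    · intro i i' hii
      by_contra hcon
      exact hjd i i' x x hcon hxp hxp hii

end Pool.Agent.T2h58.Clp
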