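import Pool.Agent.T2h58.Stm5
import Pool.Agent.N550.TS.Flm
import Pool.Agent.Y522.Tools

/-!
# Project CV: images and preimages of thin sets
-/

set_option autoImplicit false

open Set Filter Topology Metric Function MeasureTheory
open scoped Manifold ContDiff NNReal ENNReal

noncomputable section

namespace Pool.Agent.T2h58.Img

open Pool.Agent.Y522 Pool.Agent.N550 Pool.Agent.N550.KH Pool.Agent.N550.TS.Flm

theorem one_le_inf : (1 : WithTop ℕ∞) ≤ ((⊤ : ℕ∞) : WithTop ℕ∞) := by exact_mod_cast le_top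

theorem lip_null {K : ℝ≥0} {ψ : E 4 → E 4} {T V : Set (E 4)} (hψ : LipschitzOnWith K ψ V)
    (hT : Measure.hausdorffMeasure 2 T = 0) : Measure.hausdorffMeasure 2 (ψ '' (T ∩ V)) = 0 := by
  have h1 := (hψ.mono (inter_subset_right (s := T))).hausdorffMeasure_image_le
    (show (0 : ℝ) ≤ 2 by norm_num)
  have h2 : Measure.hausdorffMeasure 2 (T ∩ V) = 0 := measure_mono_null inter_subset_left hT
  rw [h2, mul_zero] at h1
  exact le_antisymm h1 zero_le

theorem img : T_IMG := by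
  intro M N _ _ _ _ _ _ _ f S hf hS h hhi hhl
  have hinv : ∀ w, invFun h (h w) = w := leftInverse_invFun hhi
  have key : ∀ x ∈ f ⁻¹' range h, ∃ V ∈ 𝓝 x, ∃ D : Set (E 4),
      Measure.hausdorffMeasure 2 D = 0 ∧ ∀ w, ∀ s ∈ S, s ∈ V → h w = f s → w ∈ D := by
    intro x hx
    obtain ⟨a, hai, hal, ha0⟩ := exists_cell0 (n := 4) x
    obtain ⟨w₀, hw₀⟩ := hx
    have h1 : ContMDiffAt (𝓡 4) (𝓡 4) ∞ (fun v => invFun h (f (a v))) 0 := by
      have h2 : ContMDiffAt (𝓡 4) (𝓡 4) ∞ (fun v => f (a v)) 0 :=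
        ContMDiffAt.comp (g := f) 0 hf.contMDiffAt (hal 0).contMDiffAt
      refine ContMDiffAt.comp (g := invFun h) (f := fun v => f (a v)) 0 ?_ h2
      rw [ha0, ← hw₀]
      exact (inv_LD hhi hhl w₀).contMDiffAt
    obtain ⟨K, V, hV, hK⟩ :=
      ((contMDiffAt_iff_contDiffAt.1 h1).of_le one_le_inf).exists_lipschitzOnWith
    refine ⟨a '' V, ?_, (fun v => invFun h (f (a v))) '' (a ⁻¹' S ∩ V),
      lip_null hK (hS a hai hal), ?_⟩
    · have := (hal 0).image_mem_nhds hV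
      rw [ha0] at this
      exact this
    · rintro w _ hs ⟨v, hv, rfl⟩ hw
      refine ⟨v, ⟨hs, hv⟩, ?_⟩
      show invFun h (f (a v)) = w
      rw [← hw, hinv]
  choose! V hV D hD hVD using key
  obtain ⟨t, hts, htc, hcov⟩ := TopologicalSpace.countable_cover_nhdsWithin
    (s := f ⁻¹' range h) (f := V) (fun x hx => mem_nhdsWithin_of_mem_nhds (hV x hx))
  refine measure_mono_null (t := ⋃ x ∈ t, D x) ?_ ?_
  · rintro w ⟨s, hs, hsw⟩
    obtain ⟨x, hx, hsx⟩ := mem_iUnion₂.1 (hcov (show s ∈ f ⁻¹' range h from ⟨w, hsw.symm⟩))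
    exact mem_iUnion₂.2 ⟨x, hx, hVD x (hts hx) w s hs hsx hsw.symm⟩
  · rw [measure_biUnion_null_iff htc]
    exact fun x hx => hD x (hts hx)

theorem pre : T_PRE := by
  intro M N _ _ _ _ _ _ _ f S B hf hS hB h hhi hhl
  have key : ∀ z ∈ (h ⁻¹' S)ᶜ, ∃ V ∈ 𝓝 z, Measure.hausdorffMeasure 2 (h ⁻¹' (f ⁻¹' B) ∩ V) = 0 := by
    intro z hz
    have hl : LD 4 (fun z => f (h z)) z := LD.comp_fun (g := f) (hf _ hz) (hhl z)
    obtain ⟨b, hbi, hbl, hb0⟩ := exists_cell0 (n := 4) (f (h z))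
    have hbv : ∀ w, invFun b (b w) = w := leftInverse_invFun hbi
    have hbo : IsOpen (range b) := by
      rw [← image_univ]
      exact isOpen_image_of_LD isOpen_univ fun x _ => hbl x
    have hζ : LD 4 (fun z => invFun b (f (h z))) z := by
      refine LD.comp_fun (g := invFun b) (f := fun z => f (h z)) ?_ hl
      rw [← hb0]
      exact inv_LD hbi hbl 0
    obtain ⟨q, hq1, hq2, hq3, hq4⟩ := hζ.exists_inverse
    obtain ⟨K, V, hV, hK⟩ :=
      ((contMDiffAt_iff_contDiffAt.1 hq1.contMDiffAt).of_le one_le_inf).exists_lipschitzOnWith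
    have h1 : ∀ᶠ z' in 𝓝 z, invFun b (f (h z')) ∈ V := hζ.continuousAt.eventually hV
    have h2 : ∀ᶠ z' in 𝓝 z, f (h z') ∈ range b :=
      hl.continuousAt.eventually (hbo.mem_nhds ⟨0, hb0⟩)
    refine ⟨_, h1.and (h2.and hq3), ?_⟩
    refine measure_mono_null ?_ (lip_null hK (hB b hbi hbl))
    rintro z' ⟨hz'1, hz'2, hz'3, hz'4⟩
    refine ⟨invFun b (f (h z')), ⟨?_, hz'2⟩, hz'4⟩
    show b (invFun b (f (h z'))) ∈ B
    obtain ⟨w, hw⟩ := hz'3
    rw [← hw, hbv, hw]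
    exact hz'1
  choose! V hV hVn using key
  obtain ⟨t, hts, htc, hcov⟩ := TopologicalSpace.countable_cover_nhdsWithin
    (s := (h ⁻¹' S)ᶜ) (f := V) (fun x hx => mem_nhdsWithin_of_mem_nhds (hV x hx))
  refine measure_mono_null (t := h ⁻¹' S ∪ ⋃ x ∈ t, h ⁻¹' (f ⁻¹' B) ∩ V x) ?_ ?_
  · intro z hz
    by_cases hzS : z ∈ h ⁻¹' S
    · exact Or.inl hzS
    · obtain ⟨x, hx, hzx⟩ := mem_iUnion₂.1 (hcov hzS)
      exact Or.inr (mem_iUnion₂.2 ⟨x, hx, hz, hzx⟩)
  · rw [measure_union_null_iff]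
    refine ⟨hS h hhi hhl, ?_⟩
    rw [measure_biUnion_null_iff htc]
    exact fun x hx => hVn x (hts hx)

end Pool.Agent.T2h58.Img
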