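import Pool.Agent.T2h58.Reg2
import Pool.Agent.T2h58.Mon
import Pool.Agent.T2h58.Col
import Pool.Agent.N550.KH.Supp

/-!
# Project RS (residual sets): manifolds whose thin complements embed in the Euclidean space
-/

set_option autoImplicit false

open Set Filter Topology Metric Function MeasureTheory
open scoped Manifold ContDiff

noncomputable section

namespace Pool.Agent.T2h58.Emb

open Pool.Agent.Y522 Pool.Agent.N550 Pool.Agent.N550.KH Pool.Agent.T2h58

/-- a diffeomorphism with compact support which is a homothety on a ball -/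
theorem shrink (n : ℕ) {R d : ℝ} (hR : 0 < R) (hd : 0 < d) (hd1 : d ≤ 1) :
    ∃ κ : E n → E n, IsDf n κ ∧ (∃ R' : ℝ, ∀ z, R' ≤ ‖z‖ → κ z = z) ∧
      ∀ z, ‖z‖ ≤ R → κ z = d • z := by
  set θ : ℝ → ℝ := fun r => Real.smoothTransition ((r - R ^ 2) / (3 * R ^ 2)) with hθ
  have hq : 0 < 3 * R ^ 2 := by positivity
  have hθs : ContDiff ℝ ∞ θ := by
    have h1 : ContDiff ℝ ∞ (fun r : ℝ => (r - R ^ 2) / (3 * R ^ 2)) :=
      (contDiff_id.sub contDiff_const).div_const _
    exact (Real.smoothTransition.contDiff (n := ⊤)).comp h1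
  have hθm : Monotone θ := by
    intro a b hab
    exact Real.smoothTransition.monotone (div_le_div_of_nonneg_right (by linarith) hq.le)
  have hθ0 : ∀ r, 0 ≤ θ r := fun r => Real.smoothTransition.nonneg _
  refine ⟨fun z => (d + (1 - d) * θ (‖z‖ ^ 2)) • z,
    Col.radial n (fun r => d + (1 - d) * θ r) d hd (contDiff_const.add (contDiff_const.mul hθs))
      ?_ ?_, ⟨2 * R, fun z hz => ?_⟩, fun z hz => ?_⟩
  · intro a b hab
    have := hθm hab
    show d + (1 - d) * θ a ≤ d + (1 - d) * θ b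
    nlinarith
  · intro r
    have := hθ0 r
    show d ≤ d + (1 - d) * θ r
    nlinarith
  · have h1 : θ (‖z‖ ^ 2) = 1 := by
      apply Real.smoothTransition.one_of_one_le
      rw [le_div_iff₀ hq]
      nlinarith
    simp only [h1]
    have : d + (1 - d) * 1 = 1 := by ring
    rw [this, one_smul]
  · have h1 : θ (‖z‖ ^ 2) = 0 := by
      apply Real.smoothTransition.zero_of_nonpos
      apply div_nonpos_of_nonpos_of_nonneg _ hq.le
      have := norm_nonneg z
      nlinarith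
    simp only [h1]
    rw [mul_zero, add_zero]

section

variable {M : Type} [TopologicalSpace M] [T2Space M] [ChartedSpace (E 4) M]

/-- the complements of the concentric balls of a cell are diffeomorphic -/
theorem outer_cell {c e : E 4 → M} {R ε : ℝ} (hc : CellMap c) (he : CellMap e) (hR : 0 < R)
    (hε : 0 < ε) (hεR : ε ≤ R) (hr : range e = (c '' closedBall 0 R)ᶜ) :
    ∃ e' : E 4 → M, CellMap e' ∧ range e' = (c '' closedBall 0 ε)ᶜ := by
  obtain ⟨κ, hκ, hκR, hκd⟩ := shrink 4 hR (d := ε / R) (by positivity) ((div_le_one hR).2 hεR)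
  obtain ⟨K, hK, hKc, -⟩ := KH.Supp.main 4 M c hc.1 hc.2 κ hκ hκR
  refine ⟨fun z => K (e z), ⟨hK.1.1.comp he.1, fun z => LD.comp_fun (g := K) (f := e) (hK.2 _)
    (he.2 z)⟩, ?_⟩
  have h1 : range (fun z => K (e z)) = K '' range e := by rw [← range_comp]; rfl
  have h2 : K '' (c '' closedBall 0 R) = c '' closedBall 0 ε := by
    ext x
    constructor
    · rintro ⟨_, ⟨z, hz, rfl⟩, rfl⟩
      rw [mem_closedBall_zero_iff] at hz
      rw [hKc, hκd z hz]
      refine ⟨_, ?_, rfl⟩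
      rw [mem_closedBall_zero_iff, norm_smul, Real.norm_of_nonneg (by positivity)]
      calc ε / R * ‖z‖ ≤ ε / R * R := by gcongr
        _ = ε := by field_simp
    · rintro ⟨z, hz, rfl⟩
      rw [mem_closedBall_zero_iff] at hz
      have h3 : ‖(R / ε) • z‖ ≤ R := by
        rw [norm_smul, Real.norm_of_nonneg (by positivity)]
        calc R / ε * ‖z‖ ≤ R / ε * ε := by gcongr
          _ = R := by field_simp
      refine ⟨c ((R / ε) • z), ⟨_, mem_closedBall_zero_iff.2 h3, rfl⟩, ?_⟩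
      rw [hKc, hκd _ h3, smul_smul]
      have : ε / R * (R / ε) = 1 := by field_simp
      rw [this, one_smul]
  rw [h1, hr, image_compl_eq hK.1, h2]

/-- if the complement of a ball of a cell is a cell then so is the complement of the centre -/
theorem punctured [IsManifold (𝓡 4) ∞ M] [SecondCountableTopology M] {c e : E 4 → M} {R : ℝ}
    (hc : CellMap c) (he : CellMap e) (hR : 0 < R) (hr : range e = (c '' closedBall 0 R)ᶜ) :
    ∃ g : E 4 → M, CellMap g ∧ range g = {c 0}ᶜ := by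
  refine Mon.cell_of_eng _ isOpen_compl_singleton fun L hL hLD => ?_
  have h1 : IsOpen (c ⁻¹' Lᶜ) := hL.isClosed.isOpen_compl.preimage (Det.cm_cont hc)
  obtain ⟨r, hr0, hball⟩ := Metric.isOpen_iff.1 h1 0 (fun h => hLD h rfl)
  set ε : ℝ := min (r / 2) R with hε
  have hε0 : 0 < ε := by positivity
  obtain ⟨e', he', her⟩ := outer_cell hc he hR hε0 (min_le_right _ _) hr
  refine ⟨e', he', fun x hx => ?_, fun x hx => ?_⟩
  · rw [her]
    rintro ⟨z, hz, hzx⟩
    have h2 : z ∈ ball (0 : E 4) r := by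
      rw [mem_closedBall] at hz
      rw [mem_ball]
      have := min_le_left (r / 2) R
      linarith
    have h3 : c z ∉ L := hball h2
    exact h3 (by rw [hzx]; exact hx)
  · have h2 : e' x ∈ range e' := ⟨x, rfl⟩
    rw [her] at h2
    exact h2 ⟨0, mem_closedBall_self hε0.le, (show e' x = c 0 from hx).symm⟩

end

/-- the outside of a ball of a cell which contains the exceptional set is a cell, if it embeds in
the Euclidean space -/
theorem outside {M : Type} [TopologicalSpace M] [CompactSpace M] [T2Space M]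
    [ChartedSpace (E 4) M] (A : Set M) (c : E 4 → M) (φ : M → E 4)
    (R₀ R : ℝ) (hc : CellMap c) (h0 : 0 < R₀) (hR : R₀ < R) (hA : A ⊆ c '' ball 0 R₀)
    (hφ : ∀ x, x ∉ A → LD 4 φ x) (hφi : InjOn φ Aᶜ) :
    ∃ e : E 4 → M, CellMap e ∧ range e = (c '' closedBall 0 R)ᶜ := by
  classical
  have hn : (∞ : WithTop ℕ∞) ≠ 0 := by simp
  have hR0 : 0 < R := h0.trans hR
  have hMne : Nonempty M := ⟨c 0⟩
  have hcc : Continuous c := Det.cm_cont hc
  have hci : ∀ z, invFun c (c z) = z := leftInverse_invFun hc.1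
  have hciL : ∀ z, LD 4 (invFun c) (c z) := fun z =>
    LD.inverse isOpen_univ (fun x _ => hc.2 x) (fun x _ => hci x) (mem_univ z)
  obtain ⟨φi, hφi'⟩ : ∃ φi : E 4 → M, ∀ x ∈ (c '' closedBall 0 R₀)ᶜ, φi (φ x) = x := by
    refine ⟨invFunOn φ (c '' closedBall 0 R₀)ᶜ, fun x hx => ?_⟩
    refine InjOn.leftInvOn_invFunOn (hφi.mono ?_) hx
    exact compl_subset_compl.2 (hA.trans (image_mono ball_subset_closedBall))
  have hO₀ : IsOpen (c '' closedBall 0 R₀)ᶜ :=
    ((isCompact_closedBall _ _).image hcc).isClosed.isOpen_compl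
  have hφ₀ : ∀ x ∈ (c '' closedBall 0 R₀)ᶜ, LD 4 φ x := fun x hx =>
    hφ x fun h => hx (image_mono ball_subset_closedBall (hA h))
  have hφiL : ∀ x ∈ (c '' closedBall 0 R₀)ᶜ, LD 4 φi (φ x) := fun x hx =>
    LD.inverse hO₀ hφ₀ hφi' hx
  -- the function on `M`
  set G : M → ℝ := fun x => if x ∈ range c then Reg.Th 1 (R ^ 2 - ‖invFun c x‖ ^ 2) else -1
    with hG
  have hGc : ∀ z, G (c z) = Reg.Th 1 (R ^ 2 - ‖z‖ ^ 2) := by
    intro z
    simp only [hG]
    rw [if_pos ⟨z, rfl⟩, hci]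
  have hGo : ∀ x, x ∉ range c → G x = -1 := by
    intro x hx
    simp only [hG]
    rw [if_neg hx]
  have hGs : ∀ x, ContMDiffAt (𝓡 4) 𝓘(ℝ, ℝ) ∞ G x := by
    intro x
    by_cases hx : x ∈ range c
    · obtain ⟨z, rfl⟩ := hx
      have h1 : G =ᶠ[𝓝 (c z)] fun x => Reg.Th 1 (R ^ 2 - ‖invFun c x‖ ^ 2) := by
        filter_upwards [(Det.cm_open hc).mem_nhds ⟨z, rfl⟩] with y hy
        simp only [hG]
        rw [if_pos hy]
      refine ContMDiffAt.congr_of_eventuallyEq ?_ h1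
      have h2 : ContDiff ℝ ∞ fun w : E 4 => Reg.Th 1 (R ^ 2 - ‖w‖ ^ 2) :=
        (Reg.Th_smooth 1).comp (contDiff_const.sub (contDiff_norm_sq ℝ))
      exact h2.contMDiff.contMDiffAt.comp _ (hciL z).contMDiffAt
    · have h1 : G =ᶠ[𝓝 x] fun _ => -1 := by
        have h2 : IsOpen (c '' closedBall 0 (R + 1))ᶜ :=
          ((isCompact_closedBall _ _).image hcc).isClosed.isOpen_compl
        have h3 : x ∈ (c '' closedBall 0 (R + 1))ᶜ := fun h => hx (image_subset_range _ _ h)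
        filter_upwards [h2.mem_nhds h3] with y hy
        by_cases hyr : y ∈ range c
        · obtain ⟨w, rfl⟩ := hyr
          rw [hGc]
          refine Reg.Th_low one_pos ?_
          have h4 : R + 1 < ‖w‖ := by
            by_contra h
            exact hy ⟨w, mem_closedBall_zero_iff.2 (not_lt.1 h), rfl⟩
          nlinarith
        · exact hGo y hyr
      exact contMDiffAt_const.congr_of_eventuallyEq h1
  have hsqR : ∀ z : E 4, R ^ 2 - ‖z‖ ^ 2 < 0 ↔ R < ‖z‖ := by
    intro z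
    rw [sub_neg, sq_lt_sq₀ hR0.le (norm_nonneg _)]
  have hsqR' : ∀ z : E 4, R ^ 2 - ‖z‖ ^ 2 ≤ 0 ↔ R ≤ ‖z‖ := by
    intro z
    rw [sub_nonpos, sq_le_sq₀ hR0.le (norm_nonneg _)]
  have hsqR0 : ∀ z : E 4, R ^ 2 - ‖z‖ ^ 2 = 0 ↔ ‖z‖ = R := by
    intro z
    rw [sub_eq_zero, pow_left_inj₀ hR0.le (norm_nonneg _) two_ne_zero, eq_comm]
  have hGlt : ∀ x, G x < 0 ↔ x ∉ c '' closedBall 0 R := by
    intro x
    by_cases hx : x ∈ range c
    · obtain ⟨z, rfl⟩ := hx
      rw [hGc, Reg.Th_neg_iff one_pos, hsqR, hc.1.mem_set_image, mem_closedBall_zero_iff, not_le]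
    · rw [hGo x hx]
      simp only [neg_lt_zero, zero_lt_one, true_iff]
      exact fun h => hx (image_subset_range _ _ h)
  have hGle : ∀ x, G x ≤ 0 ↔ x ∉ c '' ball 0 R := by
    intro x
    by_cases hx : x ∈ range c
    · obtain ⟨z, rfl⟩ := hx
      rw [hGc, Reg.Th_nonpos_iff one_pos, hsqR', hc.1.mem_set_image, mem_ball_zero_iff, not_lt]
    · rw [hGo x hx]
      simp only [Left.neg_nonpos_iff, zero_le_one, true_iff]
      exact fun h => hx (image_subset_range _ _ h)
  have hGeq : ∀ x, G x = 0 ↔ ∃ z, ‖z‖ = R ∧ c z = x := by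
    intro x
    by_cases hx : x ∈ range c
    · obtain ⟨z, rfl⟩ := hx
      rw [hGc, Reg.Th_eq_zero_iff one_pos, hsqR0]
      exact ⟨fun h => ⟨z, h, rfl⟩, fun ⟨w, hw, hwz⟩ => by rw [← hc.1 hwz]; exact hw⟩
    · rw [hGo x hx]
      constructor
      · intro h; norm_num at h
      · rintro ⟨z, -, rfl⟩; exact absurd ⟨z, rfl⟩ hx
  -- the region
  set N₀ : Set (E 4) := φ '' (c '' closedBall 0 R₀)ᶜ with hN₀
  have hN₀o : IsOpen N₀ := isOpen_image_of_LD hO₀ hφ₀
  have hFx : ∀ x ∈ (c '' closedBall 0 R₀)ᶜ, G (φi (φ x)) = G x := fun x hx => by rw [hφi' x hx]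
  have hR01 : c '' closedBall 0 R₀ ⊆ c '' ball 0 R := image_mono (closedBall_subset_ball hR)
  have hle : {z | z ∈ N₀ ∧ G (φi z) ≤ 0} = φ '' (c '' ball 0 R)ᶜ := by
    ext z
    constructor
    · rintro ⟨⟨x, hx, rfl⟩, h⟩
      rw [hFx x hx, hGle] at h
      exact ⟨x, h, rfl⟩
    · rintro ⟨x, hx, rfl⟩
      have h1 : x ∈ (c '' closedBall 0 R₀)ᶜ := fun h => hx (hR01 h)
      refine ⟨⟨x, h1, rfl⟩, ?_⟩
      rw [hFx x h1, hGle]
      exact hx
  have hlt : {z | z ∈ N₀ ∧ G (φi z) < 0} = φ '' (c '' closedBall 0 R)ᶜ := by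
    ext z
    constructor
    · rintro ⟨⟨x, hx, rfl⟩, h⟩
      rw [hFx x hx, hGlt] at h
      exact ⟨x, h, rfl⟩
    · rintro ⟨x, hx, rfl⟩
      have h1 : x ∈ (c '' closedBall 0 R₀)ᶜ := fun h =>
        hx (image_mono (closedBall_subset_closedBall hR.le) h)
      refine ⟨⟨x, h1, rfl⟩, ?_⟩
      rw [hFx x h1, hGlt]
      exact hx
  have hwR : ∀ w : E 4, ‖w‖ = R → c w ∈ (c '' closedBall 0 R₀)ᶜ := by
    intro w hw h
    rw [hc.1.mem_set_image, mem_closedBall_zero_iff, hw] at h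
    linarith
  obtain ⟨c₁, hc₁i, hc₁d, hc₁r⟩ := Reg.region (m := 3) N₀ (fun z => G (φi z))
    (fun w => φ (c w)) 0 R hR0 hN₀o (by
      rintro _ ⟨x, hx, rfl⟩
      have h1 : ContMDiffAt (𝓡 4) 𝓘(ℝ, ℝ) ∞ (fun z => G (φi z)) (φ x) :=
        ContMDiffAt.comp (g := G) (φ x) (hGs _) (hφiL x hx).contMDiffAt
      exact contMDiffAt_iff_contDiffAt.1 h1) (by
      rw [hle]
      refine ((P2.cm_image_open hc isOpen_ball).isClosed_compl.isCompact).image_of_continuousOn ?_
      intro x hx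
      exact (hφ₀ x fun h => hx (hR01 h)).continuousAt.continuousWithinAt) (by
      rintro _ ⟨x, hx, rfl⟩ h0' hcon
      rw [hFx x hx, hGeq] at h0'
      obtain ⟨w, hw, rfl⟩ := h0'
      -- near `φ (c w)`
      have hT : LD 4 (fun z => invFun c (φi z)) (φ (c w)) := by
        refine LD.comp_fun (g := invFun c) (f := φi) ?_ (hφiL _ hx)
        rw [hφi' _ hx]
        exact hciL w
      obtain ⟨L, hL⟩ := hT.exists_equiv
      have hval : invFun c (φi (φ (c w))) = w := by rw [hφi' _ hx, hci]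
      have h4 := (hL.norm_sq).const_sub (R ^ 2)
      have h5 : (fun z => G (φi z)) =ᶠ[𝓝 (φ (c w))]
          fun z => R ^ 2 - ‖invFun c (φi z)‖ ^ 2 := by
        have h6 : ∀ᶠ z in 𝓝 (φ (c w)), φi z ∈ range c := by
          have h7 : ContinuousAt φi (φ (c w)) := (hφiL _ hx).continuousAt
          refine h7.eventually ((Det.cm_open hc).mem_nhds ?_)
          rw [hφi' _ hx]
          exact ⟨w, rfl⟩
        have h7 : ∀ᶠ z in 𝓝 (φ (c w)), -(1 / 2) < R ^ 2 - ‖invFun c (φi z)‖ ^ 2 := by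
          have h8 : ContinuousAt (fun z => R ^ 2 - ‖invFun c (φi z)‖ ^ 2) (φ (c w)) :=
            continuousAt_const.sub (hT.continuousAt.norm.pow 2)
          refine h8.eventually (lt_mem_nhds ?_)
          show -(1 / 2) < R ^ 2 - ‖invFun c (φi (φ (c w)))‖ ^ 2
          rw [hval, hw, sub_self]
          norm_num
        filter_upwards [h6, h7] with z hz hz2
        obtain ⟨u, hu⟩ := hz
        rw [← hu, hGc, hci]
        rw [← hu, hci] at hz2
        exact Reg.Th_high one_pos hz2.le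
      rw [h5.fderiv_eq] at hcon
      have h7 : HasFDerivAt (fun z => R ^ 2 - ‖invFun c (φi z)‖ ^ 2) _ (φ (c w)) := h4
      rw [h7.fderiv] at hcon
      have h8 := congrArg (fun F => F (L.symm w)) hcon
      simp only [neg_apply, smul_apply, ContinuousLinearMap.comp_apply,
        ContinuousLinearEquiv.coe_coe, ContinuousLinearEquiv.apply_symm_apply,
        zero_apply] at h8
      rw [hval] at h8
      simp only [innerSL_apply_apply, real_inner_self_eq_norm_sq, hw] at h8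
      simp [hR0.ne'] at h8)
    (fun w hw => by
      rw [sub_zero] at hw
      exact LD.comp_fun (g := φ) (f := c) (hφ₀ _ (hwR w hw)) (hc.2 w))
    (fun w w' hw hw' h => by
      rw [sub_zero] at hw hw'
      have h1 := congrArg φi h
      rw [hφi' _ (hwR w hw), hφi' _ (hwR w' hw')] at h1
      exact hc.1 h1)
    (fun z => by
      constructor
      · rintro ⟨⟨x, hx, rfl⟩, h⟩
        rw [hFx x hx, hGeq] at h
        obtain ⟨w, hw, rfl⟩ := h
        exact ⟨w, by rw [sub_zero]; exact hw, rfl⟩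
      · rintro ⟨w, hw, rfl⟩
        rw [sub_zero] at hw
        refine ⟨⟨c w, hwR w hw, rfl⟩, ?_⟩
        rw [hFx _ (hwR w hw), hGeq]
        exact ⟨w, hw, rfl⟩)
  rw [hlt] at hc₁r
  have hmem : ∀ z, ∃ x, x ∉ c '' closedBall 0 R ∧ φ x = c₁ z := fun z => by
    have h1 : c₁ z ∈ range c₁ := ⟨z, rfl⟩
    rw [hc₁r] at h1
    exact h1
  have hsub : (c '' closedBall 0 R)ᶜ ⊆ (c '' closedBall 0 R₀)ᶜ :=
    compl_subset_compl.2 (image_mono (closedBall_subset_closedBall hR.le))
  refine ⟨fun z => φi (c₁ z), ⟨fun z w hzw => ?_, fun z => ?_⟩, ?_⟩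
  · obtain ⟨x, hx, hxz⟩ := hmem z
    obtain ⟨y, hy, hyw⟩ := hmem w
    have h1 : φi (c₁ z) = φi (c₁ w) := hzw
    rw [← hxz, ← hyw, hφi' _ (hsub hx), hφi' _ (hsub hy)] at h1
    exact hc₁i (by rw [← hxz, ← hyw, h1])
  · obtain ⟨x, hx, hxz⟩ := hmem z
    refine LD.comp_fun (g := φi) (f := c₁) ?_ (hc₁d z)
    rw [← hxz]
    exact hφiL _ (hsub hx)
  · ext x
    constructor
    · rintro ⟨z, rfl⟩
      obtain ⟨y, hy, hyz⟩ := hmem z
      show φi (c₁ z) ∈ _
      rw [← hyz, hφi' _ (hsub hy)]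
      exact hy
    · intro hx
      have h1 : φ x ∈ range c₁ := by
        rw [hc₁r]
        exact ⟨x, hx, rfl⟩
      obtain ⟨z, hz⟩ := h1
      exact ⟨z, by show φi (c₁ z) = x; rw [hz, hφi' _ (hsub hx)]⟩

end Pool.Agent.T2h58.Emb
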