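import Pool.Agent.T2h58.Res
import Pool.Agent.T2h58.Mea

/-!
# Project RS (residual sets): the theorem, second form
-/

set_option autoImplicit false

open Set Filter Topology Metric Function MeasureTheory
open scoped Manifold ContDiff NNReal ENNReal

noncomputable section

namespace Pool.Agent.T2h58.Res

open Pool.Agent.Y522 Pool.Agent.N550 Pool.Agent.N550.KH Pool.Agent.T2h58

/-- images of small sets under maps of class `C¹` -/
theorem images {T S : Set (E 4)} {ψ : E 4 → E 4} {m : ℝ≥0∞ → ℝ≥0∞}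
    (hψ : ∀ z ∈ S, ContDiffAt ℝ 1 ψ z)
    (hsml : ∀ j : ℕ, Sml (fun ρ => ⨆ r ∈ Iic (ENNReal.ofReal (j * ρ)), m r)
      (1 / (j + 1) ^ 2) T) : Measure.mkMetric m (ψ '' (T ∩ S)) = 0 := by
  have h1 : ∀ z ∈ S, ∃ V ∈ 𝓝 z, Measure.mkMetric m (ψ '' (T ∩ V)) = 0 := by
    intro z hz
    obtain ⟨K, V, hV, hK⟩ := (hψ z hz).exists_lipschitzOnWith
    exact ⟨V, hV, Mea.piece hK hsml⟩
  choose! V hV hn using h1
  obtain ⟨t, hts, htc, hcov⟩ := TopologicalSpace.countable_cover_nhdsWithin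
    (s := S) (f := V) (fun x hx => mem_nhdsWithin_of_mem_nhds (hV x hx))
  have h2 : ψ '' (T ∩ S) ⊆ ⋃ x ∈ t, ψ '' (T ∩ V x) := by
    rintro w ⟨z, hz, rfl⟩
    obtain ⟨x, hx, hzx⟩ := mem_iUnion₂.1 (hcov hz.2)
    exact mem_iUnion₂.2 ⟨x, hx, z, ⟨hz.1, hzx⟩, rfl⟩
  refine measure_mono_null h2 ?_
  rw [measure_biUnion_null_iff htc]
  exact fun x hx => hn x (hts hx)

/-- **Residual sets**, with images under arbitrary maps of class `C¹`. -/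
theorem main2 (hSTG : T_STG) (hMON : T_MON) (M : Type) [TopologicalSpace M] [CompactSpace M]
    [T2Space M] [ChartedSpace (E 4) M] [IsManifold (𝓡 4) ∞ M] [SimplyConnectedSpace M]
    (m : ℝ≥0∞ → ℝ≥0∞) (hm0 : m 0 = 0) (hm : Tendsto (fun r => m r / r ^ 2) (𝓝[≠] 0) (𝓝 0)) :
    ∃ g : E 4 → M, CellMap g ∧ ∀ (ψ : M → E 4) (S : Set M),
      (∀ x ∈ S, ContMDiffAt (𝓡 4) (𝓡 4) 1 ψ x) →
      Measure.mkMetric m (ψ '' (S ∩ (range g)ᶜ)) = 0 := by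
  have : SecondCountableTopology M := ChartedSpace.secondCountable_of_sigmaCompact (E 4) M
  have : Nonempty M := inferInstance
  obtain ⟨a, H, hH, hcov⟩ := Rr.cover M
  set Φ : ℕ → ℝ → ℝ≥0∞ := fun j ρ => ⨆ r ∈ Iic (ENNReal.ofReal (j * ρ)), m r with hΦ
  have hΦt : ∀ j, Tendsto (fun ρ : ℝ => Φ j ρ / ENNReal.ofReal (ρ ^ 2)) (𝓝[>] 0) (𝓝 0) :=
    fun j => gauge hm0 hm j
  have hstep : ∀ (j : ℕ) (p : {p : (E 4 → M) × ℝ // CellMap p.1 ∧ 0 < p.2}),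
      ∃ p' : {p : (E 4 → M) × ℝ // CellMap p.1 ∧ 0 < p.2},
        p.1.1 '' closedBall 0 p.1.2 ⊆ p'.1.1 '' ball 0 p'.1.2 ∧
        ∀ i : Fin a, Sml (Φ j) (1 / (j + 1) ^ 2)
          (closedBall 0 1 ∩ H i ⁻¹' (p'.1.1 '' ball 0 p'.1.2)ᶜ) := by
    rintro j ⟨⟨c, R⟩, hc, hR⟩
    obtain ⟨c', R', hc', hR', h1, h2⟩ := hSTG M a (fun i => H i) c R (Φ j) (1 / (j + 1) ^ 2)
      (fun i => hH i) hc (by positivity) (hΦt j)
    exact ⟨⟨⟨c', R'⟩, hc', hR'⟩, h1, h2⟩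
  choose nx hnx using hstep
  let F : ℕ → {p : (E 4 → M) × ℝ // CellMap p.1 ∧ 0 < p.2} := fun j =>
    Nat.rec (nx 0 ⟨(H 0, 1), hH 0, one_pos⟩) (fun j p => nx (j + 1) p) j
  have hF : ∀ j, F (j + 1) = nx (j + 1) (F j) := fun j => rfl
  have hFs : ∀ j, ∀ i : Fin a, Sml (Φ j) (1 / (j + 1) ^ 2)
      (closedBall 0 1 ∩ H i ⁻¹' ((F j).1.1 '' ball 0 (F j).1.2)ᶜ) := by
    intro j
    cases j with
    | zero => exact (hnx 0 _).2
    | succ j => rw [hF]; exact (hnx (j + 1) _).2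
  obtain ⟨g, hg, hgr⟩ := hMON M (fun j => (F j).1.1) (fun j => (F j).1.2) (fun j => (F j).2.1)
    (fun j => (F j).2.2) (fun j => by
      show (F j).1.1 '' closedBall 0 (F j).1.2 ⊆ (F (j + 1)).1.1 '' ball 0 (F (j + 1)).1.2
      rw [hF]
      exact (hnx (j + 1) (F j)).1)
  refine ⟨g, hg, fun ψ S hψ => ?_⟩
  have h1 : ψ '' (S ∩ (range g)ᶜ) ⊆ ⋃ i : Fin a, (fun z => ψ (H i z)) ''
      ((closedBall 0 1 ∩ H i ⁻¹' (range g)ᶜ) ∩ H i ⁻¹' S) := by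
    rintro _ ⟨x, ⟨hxS, hx⟩, rfl⟩
    obtain ⟨i, hi, z, hz, hzw⟩ := hcov x
    refine mem_iUnion.2 ⟨⟨i, hi⟩, z, ⟨⟨mem_closedBall_zero_iff.2 hz, ?_⟩, ?_⟩, ?_⟩
    · show H i z ∉ range g
      rw [hzw]
      exact hx
    · show H i z ∈ S
      rw [hzw]
      exact hxS
    · show ψ (H i z) = ψ x
      rw [hzw]
  refine measure_mono_null h1 (measure_iUnion_null fun i => ?_)
  refine images (fun z hz => ?_) fun j => ?_
  · have h2 : ContMDiffAt (𝓡 4) (𝓡 4) 1 (fun z => ψ (H i z)) z :=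
      ContMDiffAt.comp (g := ψ) z (hψ _ hz) (((hH i).2 z).contMDiffAt.of_le
        (show (1 : WithTop ℕ∞) ≤ ((⊤ : ℕ∞) : WithTop ℕ∞) by exact_mod_cast le_top))
    exact contMDiffAt_iff_contDiffAt.1 h2
  · refine Stg.sml_mono (hFs j i) (inter_subset_inter_right _ (preimage_mono ?_))
    rw [hgr]
    exact compl_subset_compl.2 (subset_iUnion_of_subset j Subset.rfl)

end Pool.Agent.T2h58.Res
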