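import Pool.Agent.T2h58.Opn
import Pool.Agent.T2h58.Emb
import Pool.Agent.T2h58.All2
import Pool.Agent.T2h58.Res2

/-!
# Open submanifolds diffeomorphic to the Euclidean space; almost standard spheres
-/

set_option autoImplicit false

open Set Filter Topology Metric Function
open scoped Manifold ContDiff

noncomputable section

namespace Pool.Agent.T2h58.Opn

open Pool.Agent.Y522 Pool.Agent.N550 Pool.Agent.N550.KH Pool.Agent.T2h58

variable {M : Type} [TopologicalSpace M] [ChartedSpace (E 4) M]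

/-- open cells as open submanifolds -/
theorem diffeo_of_cell [IsManifold (𝓡 4) ∞ M] (U : TopologicalSpace.Opens M) {g : E 4 → M}
    (hg : CellMap g) (hU : range g = U) : Nonempty (Diffeomorph (𝓡 4) (𝓡 4) U (E 4) ∞) := by
  have hmem : ∀ z, g z ∈ U := fun z => by
    have h1 : g z ∈ range g := ⟨z, rfl⟩
    rw [hU] at h1
    exact h1
  let F : E 4 → U := fun z => ⟨g z, hmem z⟩
  have hgc : Continuous g := Det.cm_cont hg
  have hFc : Continuous F := hgc.subtype_mk _
  have hF : ∀ z, LD 4 F z := by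
    intro z
    obtain ⟨q, hq1, -, hq3, -⟩ := (SH.ld_opens (n := 4) U (F z)).exists_inverse
    have h1 : LD 4 (fun z => q (g z)) z := LD.comp_fun (g := q) (f := g) hq1 (hg.2 z)
    refine h1.congr ?_
    have h2 : ∀ᶠ v in 𝓝 z, q ((F v : U) : M) = F v := hFc.continuousAt.eventually hq3
    filter_upwards [h2] with v hv
    exact hv.symm
  have hb : Bijective F := by
    refine ⟨fun u v huv => hg.1 (congrArg Subtype.val huv), fun v => ?_⟩
    have h1 : (v : M) ∈ range g := by
      rw [hU]
      exact v.2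
    obtain ⟨z, hz⟩ := h1
    exact ⟨z, Subtype.ext hz⟩
  have hL : IsLocalDiffeomorph (𝓡 4) (𝓡 4) ∞ F := hF
  exact ⟨(hL.diffeomorphOfBijective hb).symm⟩

/-- an embedding of an open submanifold in the Euclidean space as a map of the manifold -/
theorem exists_map' [IsManifold (𝓡 4) ∞ M] (U : TopologicalSpace.Opens M) (j : U → E 4)
    (hj : Injective j) (hjd : ∀ u, LD 4 j u) :
    ∃ φ : M → E 4, (∀ x ∈ U, LD 4 φ x) ∧ InjOn φ U := by
  classical
  let φ : M → E 4 := fun x => if h : x ∈ U then j ⟨x, h⟩ else 0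
  have hφ : ∀ (x : M) (h : x ∈ U), φ x = j ⟨x, h⟩ := fun x h => dif_pos h
  refine ⟨φ, fun x hx => ?_, fun x hx y hy hxy => ?_⟩
  · let u : U := ⟨x, hx⟩
    obtain ⟨q, hq1, hq2, -, hq4⟩ := (SH.ld_opens (n := 4) U u).exists_inverse
    have h1 : LD 4 (fun z => j (q z)) x := by
      have h2 : LD 4 j (q (u : M)) := hjd _
      exact LD.comp_fun (g := j) (f := q) h2 hq1
    refine h1.congr ?_
    filter_upwards [hq4] with z hz
    have hzU : z ∈ U := by
      rw [← hz]
      exact (q z).2
    rw [hφ z hzU]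
    congr 1
    exact Subtype.ext hz.symm
  · rw [hφ x hx, hφ y hy] at hxy
    exact congrArg Subtype.val (hj hxy)

/-- if the complement of a thin closed set embeds in the Euclidean space then the complement of a
point is diffeomorphic to it -/
theorem almost [CompactSpace M] [T2Space M] [IsManifold (𝓡 4) ∞ M] [SimplyConnectedSpace M]
    (A : Set M) (hA : IsClosed A) (hAn : NullH2 4 A) (φ : M → E 4) (hφ : ∀ x, x ∉ A → LD 4 φ x)
    (hφi : InjOn φ Aᶜ) : ∃ (g : E 4 → M) (x₀ : M), CellMap g ∧ range g = {x₀}ᶜ := by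
  have : SecondCountableTopology M := ChartedSpace.secondCountable_of_sigmaCompact (E 4) M
  obtain ⟨c, hc, hAc⟩ := pp M A hA.isCompact hAn
  obtain ⟨R, hR⟩ := P2.cm_bdd hc hA.isCompact hAc
  have hA' : A ⊆ c '' ball 0 (max R 0 + 1) := by
    refine hR.trans (image_mono fun z hz => ?_)
    rw [mem_closedBall] at hz
    rw [mem_ball]
    have := le_max_left R 0
    linarith
  have h0 : (0 : ℝ) < max R 0 + 1 := by positivity
  obtain ⟨e, he, her⟩ := Emb.outside A c φ (max R 0 + 1) (max R 0 + 2) hc h0 (by linarith) hA'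
    hφ hφi
  obtain ⟨g, hg, hgr⟩ := Emb.punctured hc he (by positivity) her
  exact ⟨g, c 0, hg, hgr⟩

end Pool.Agent.T2h58.Opn
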