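import Pool.Agent.T2h58.Stm5
import Pool.Agent.N550.SH.Cross

/-!
# Project CV: sections over a simply connected set of regular values
-/

set_option autoImplicit false

open Set Filter Topology Metric Function MeasureTheory
open scoped Manifold ContDiff

noncomputable section

namespace Pool.Agent.T2h58.Sec

open Pool.Agent.Y522 Pool.Agent.N550 Pool.Agent.N550.KH Pool.Agent.T2h58

theorem main : T_SEC := by
  intro M N _ _ _ _ _ _ _ f S hf hS hld hsc
  classical
  have hBc : IsClosed (f '' S) := (hS.isCompact.image hf).isClosed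
  have hO : IsOpen (f '' S)ᶜ := hBc.isOpen_compl
  have hlN : LocallyPathConnectedSpace N := ChartedSpace.locallyPathConnectedSpace (E 4) N
  have hlB : LocallyPathConnectedSpace ↥(f '' S)ᶜ := hO.locallyPathConnectedSpace
  have hloc : IsLocalHomeomorphOn f (f ⁻¹' (f '' S)ᶜ) := by
    refine IsLocalHomeomorphOn.mk f _ fun x hx => ?_
    obtain ⟨Φ, hxs, heq⟩ := hld x (fun h => hx ⟨x, h, rfl⟩)
    exact ⟨Φ.toOpenPartialHomeomorph, hxs, heq⟩
  have cov : IsCoveringMapOn f (f '' S)ᶜ := .of_isLocalHomeomorphOn hf hloc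
  let ι : C(↥(f '' S)ᶜ, N) := ⟨Subtype.val, continuous_subtype_val⟩
  have hlift : ∀ (a : ↥(f '' S)ᶜ) (x : M), f x = a →
      ∃! F : C(↥(f '' S)ᶜ, M), F a = x ∧ f ∘ F = ι := fun a x hx =>
    cov.existsUnique_continuousMap_lifts ι (a₀ := a) (e₀ := x) hx fun b => b.2
  have hex : ∀ x : M, ∃ F : C(↥(f '' S)ᶜ, M), f x ∉ f '' S → (∀ h : f x ∈ (f '' S)ᶜ,
      F ⟨f x, h⟩ = x) ∧ ∀ b, f (F b) = b := by
    intro x
    by_cases hx : f x ∈ f '' S
    · exact ⟨ContinuousMap.const _ x, fun h => absurd hx h⟩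
    · obtain ⟨F, ⟨hF1, hF2⟩, -⟩ := hlift ⟨f x, hx⟩ x rfl
      exact ⟨F, fun _ => ⟨fun _ => hF1, fun b => congrFun hF2 b⟩⟩
  choose F hF using hex
  have hF1 : ∀ x, f x ∉ f '' S → ∀ h : f x ∈ (f '' S)ᶜ, F x ⟨f x, h⟩ = x := fun x hx => (hF x hx).1
  have hF2 : ∀ x, f x ∉ f '' S → ∀ b, f (F x b) = b := fun x hx => (hF x hx).2
  let s : M → N → M := fun x y => if h : y ∈ (f '' S)ᶜ then F x ⟨y, h⟩ else x
  have hs : ∀ x y (h : y ∉ f '' S), s x y = F x ⟨y, h⟩ := fun x y h => dif_pos h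
  refine ⟨s, fun x hx => ⟨?_, fun y hy => ⟨?_, ?_⟩, fun x' hx' y hy hxy y' hy' => ?_⟩⟩
  · rw [hs x _ hx]
    exact hF1 x hx hx
  · rw [hs x _ hy]
    exact hF2 x hx _
  · have hfy : f (s x y) = y := by
      rw [hs x _ hy]
      exact hF2 x hx _
    have hl : LD 4 f (s x y) := hld _ fun h => hy ⟨_, h, hfy⟩
    obtain ⟨q, hq1, hq2, hq3, hq4⟩ := hl.exists_inverse
    rw [hfy] at hq1
    refine hq1.congr ?_
    have hcont : ContinuousOn (s x) (f '' S)ᶜ := by
      rw [continuousOn_iff_continuous_domRestrict]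
      have h1 : (f '' S)ᶜ.domRestrict (s x) = F x := by
        funext b
        exact hs x _ b.2
      rw [h1]
      exact (F x).continuous
    have hcy : ContinuousAt (s x) y := hcont.continuousAt (hO.mem_nhds hy)
    have h2 : ∀ᶠ y' in 𝓝 y, q (f (s x y')) = s x y' := hcy.eventually hq3
    filter_upwards [h2, hO.mem_nhds hy] with y' h3 h4
    have h5 : f (s x y') = y' := by
      rw [hs x _ h4]
      exact hF2 x hx _
    rw [h5] at h3
    exact h3.symm
  · have h1 : f (s x y) = y := by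
      rw [hs x _ hy]
      exact hF2 x hx _
    obtain ⟨G, -, hG⟩ := hlift ⟨y, hy⟩ (s x y) h1
    have h2 : F x = G := hG _ ⟨(hs x y hy).symm, funext fun b => hF2 x hx b⟩
    have h3 : F x' = G := hG _ ⟨by rw [← hs x' y hy, hxy], funext fun b => hF2 x' hx' b⟩
    rw [hs x y' hy', hs x' y' hy', h2, h3]

end Pool.Agent.T2h58.Sec
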