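import Pool.Agent.T2h58.Stm5

/-!
# Project CV: smooth approximation on closed subsets of the square
-/

set_option autoImplicit false

open Set Filter Topology Metric Function MeasureTheory
open scoped Manifold ContDiff

noncomputable section

namespace Pool.Agent.T2h58.Sqa

open Pool.Agent.Y522 Pool.Agent.N550 Pool.Agent.N550.KH

theorem main : T_SQA := by
  intro Q h δ hQ hh hδ
  have : TietzeExtension (E 4) := TietzeExtension.of_tvs ℝ
  let f : C(Q, E 4) := ⟨Q.domRestrict h, continuousOn_iff_continuous_domRestrict.1 hh⟩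
  obtain ⟨g, hg⟩ := ContinuousMap.exists_restrict_eq hQ f
  have hgQ : ∀ s ∈ Q, g s = h s := fun s hs => by
    have h1 := DFunLike.congr_fun hg ⟨s, hs⟩
    exact h1
  have h01 : (0 : ℝ) ≤ 1 := zero_le_one
  let G : ℝ × ℝ → E 4 := fun x => g (projIcc 0 1 h01 x.1, projIcc 0 1 h01 x.2)
  have hG : Continuous G := by
    refine g.continuous.comp ?_
    exact (continuous_projIcc.comp continuous_fst).prodMk (continuous_projIcc.comp continuous_snd)
  obtain ⟨P, hP⟩ := exists_contMDiffMap_forall_mem_convex_of_local_const (n := (⊤ : ℕ∞))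
    (I := 𝓘(ℝ, ℝ × ℝ)) (t := fun x => ball (G x) δ) (fun x => convex_ball _ _) fun x => by
      refine ⟨G x, ?_⟩
      have h1 : ∀ᶠ y in 𝓝 x, dist (G y) (G x) < δ :=
        (hG.continuousAt (x := x)).eventually (ball_mem_nhds _ hδ)
      filter_upwards [h1] with y hy
      rw [mem_ball, dist_comm]
      exact hy
  refine ⟨P, P.contMDiff.contDiff, fun s hs => ?_⟩
  have h2 := hP (s.1, s.2)
  rw [mem_ball, dist_eq_norm] at h2
  have h3 : G (s.1, s.2) = h s := by
    show g (projIcc 0 1 h01 s.1, projIcc 0 1 h01 s.2) = h s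
    rw [projIcc_val, projIcc_val, Prod.mk.eta]
    exact hgQ s hs
  rw [h3] at h2
  exact h2

end Pool.Agent.T2h58.Sqa
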