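import Pool.Agent.T2h58.Psc
import Pool.Agent.T2h58.Sqa
import Pool.Agent.T2h58.Sec
import Pool.Agent.T2h58.Clp
import Pool.Agent.T2h58.Img
import Pool.Agent.T2h58.Opn2
import Pool.Agent.T2h58.Asm
import Pool.Agent.T2h58.Grid
import Pool.Agent.T2h58.Esc

/-!
# Project CV: the main lemmas
-/

set_option autoImplicit false

open Set Filter Topology Metric Function MeasureTheory
open scoped Manifold ContDiff NNReal ENNReal

noncomputable section

namespace Pool.Agent.T2h58.Cv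

open Pool.Agent.Y522 Pool.Agent.N550 Pool.Agent.N550.KH Pool.Agent.N550.TS.Flm

theorem av : T_AV := Av.main (Avs.main Sqn.main Sqa.main)

theorem sc : T_SC := Psc.sc av

theorem pc : T_PC := Psc.pc av

/-- thin in all cells implies thin in the preferred charts -/
theorem toC {M : Type} [TopologicalSpace M] [ChartedSpace (E 4) M] [IsManifold (𝓡 4) ∞ M]
    {A : Set M} (hA : NullH2 4 A) : NullC2 4 A := by
  intro x₀
  set e := chartAt (E 4) x₀ with he
  refine measure_null_of_locally_null _ ?_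
  rintro _ ⟨x, ⟨hxs, hxA⟩, rfl⟩
  obtain ⟨a, hai, hal, ha0⟩ := exists_cell0 (n := 4) x
  have h1 : LD 4 e x := by
    refine ⟨chPD x₀, hxs, fun _ _ => rfl⟩
  have h2 : LD 4 (fun v => e (a v)) 0 := by
    refine LD.comp_fun (g := e) ?_ (hal 0)
    rw [ha0]
    exact h1
  obtain ⟨K, V, hV, hK⟩ :=
    ((contMDiffAt_iff_contDiffAt.1 h2.contMDiffAt).of_le Img.one_le_inf).exists_lipschitzOnWith
  have h3 : (fun v => e (a v)) '' (V ∩ a ⁻¹' e.source) ∈ 𝓝 (e x) := by
    have h4 : V ∩ a ⁻¹' e.source ∈ 𝓝 (0 : E 4) := by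
      refine inter_mem hV ((hal 0).continuousAt.eventually ?_)
      rw [ha0]
      exact e.open_source.mem_nhds hxs
    have h5 := h2.image_mem_nhds h4
    rw [ha0] at h5
    exact h5
  refine ⟨(e '' (e.source ∩ A)) ∩ ((fun v => e (a v)) '' (V ∩ a ⁻¹' e.source)),
    inter_mem self_mem_nhdsWithin (mem_nhdsWithin_of_mem_nhds h3), ?_⟩
  refine measure_mono_null ?_ (Img.lip_null hK (hA a hai hal))
  rintro _ ⟨⟨y, ⟨hys, hyA⟩, hy⟩, v, ⟨hvV, hvs⟩, hv⟩
  have h6 : a v = y := by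
    have h7 : e (a v) = e y := by
      rw [hy]
      exact hv
    exact e.injOn hvs hys h7
  refine ⟨v, ⟨?_, hvV⟩, hv⟩
  show a v ∈ A
  rw [h6]
  exact hyA

/-- points are thin -/
theorem pt_null {M : Type} [TopologicalSpace M] [ChartedSpace (E 4) M] (x : M) :
    NullH2 4 ({x} : Set M) := by
  intro h hi hl
  have h1 : (h ⁻¹' {x}).Subsingleton := fun z hz w hw => hi (hz.trans hw.symm)
  have h2 : MeasureTheory.NullSingletonClass (MeasureTheory.Measure.hausdorffMeasure 2 :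
      MeasureTheory.Measure (E 4)) :=
    MeasureTheory.Measure.nullSingletonClass_hausdorff (E 4) (by norm_num)
  exact h1.measure_zero _

/-- a ball of a cell around a thin compact set -/
theorem exists_cell {N : Type} [TopologicalSpace N] [CompactSpace N] [T2Space N]
    [ChartedSpace (E 4) N] [IsManifold (𝓡 4) ∞ N] [SimplyConnectedSpace N] {B : Set N}
    (hB : IsCompact B) (hBn : NullH2 4 B) :
    ∃ (c : E 4 → N) (R : ℝ), CellMap c ∧ 0 < R ∧ B ⊆ c '' closedBall 0 R := by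
  obtain ⟨c, hc, hBc⟩ := pp N B hB hBn
  obtain ⟨R, hR⟩ := P2.cm_bdd hc hB hBc
  refine ⟨c, max R 1, hc, lt_of_lt_of_le one_pos (le_max_right _ _), ?_⟩
  exact hR.trans (image_mono (closedBall_subset_closedBall (le_max_left _ _)))

/-- the points at which `f` is not a local diffeomorphism form a closed set -/
theorem crit_closed {M N : Type} [TopologicalSpace M] [ChartedSpace (E 4) M]
    [TopologicalSpace N] [ChartedSpace (E 4) N] (f : M → N) : IsClosed {x | ¬ LD 4 f x} := by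
  rw [← isOpen_compl_iff, isOpen_iff_mem_nhds]
  intro x hx
  have h1 : LD 4 f x := not_not.1 hx
  filter_upwards [h1.eventually] with y hy
  exact not_not.2 hy

/-- disjoint copies of the complement of a point in the source of a map whose critical values form
a thin set -/
theorem copies (k : ℕ) (hk : k ≠ 0) (M N : Type) [TopologicalSpace M] [CompactSpace M] [T2Space M]
    [ChartedSpace (E 4) M] [IsManifold (𝓡 4) ∞ M] [TopologicalSpace N] [CompactSpace N]
    [T2Space N] [ChartedSpace (E 4) N] [IsManifold (𝓡 4) ∞ N] [SimplyConnectedSpace N]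
    (f : M → N) (hf : Continuous f) (hn : NullH2 4 (f '' {x | ¬ LD 4 f x})) (y₀ : N)
    (hy₀ : y₀ ∉ f '' {x | ¬ LD 4 f x}) (hk' : (f ⁻¹' {y₀}).ncard = k) :
    ∃ (p : N) (j : Fin k → N → M), (∀ i x, x ≠ p → LD 4 (j i) x) ∧ (∀ i, InjOn (j i) {p}ᶜ) ∧
      ∀ i i' x x', i ≠ i' → x ≠ p → x' ≠ p → j i x ≠ j i' x' := by
  set S : Set M := {x | ¬ LD 4 f x} with hS
  have hScl : IsClosed S := crit_closed f
  have hBc : IsCompact (f '' S) := hScl.isCompact.image hf
  have hsc : SimplyConnectedSpace ↥(f '' S)ᶜ := (sc N (f '' S) hBc hn).1 inferInstance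
  obtain ⟨s, hs⟩ := Sec.main M N f S hf hScl (fun x hx => not_not.1 hx) hsc
  obtain ⟨c, R, hc, hR, hBR⟩ := exists_cell hBc hn
  obtain ⟨θ, hθl, hθi, hθr⟩ := Rad.main N c R hc hR
  have hθ : ∀ x, x ≠ c 0 → θ x ∉ f '' S := by
    intro x hx hcon
    have h1 : θ x ∈ θ '' {c 0}ᶜ := ⟨x, hx, rfl⟩
    rw [hθr] at h1
    exact h1 (hBR hcon)
  have hfin : (f ⁻¹' {y₀}).Finite := Set.finite_of_ncard_ne_zero (by rw [hk']; exact hk)
  have hfin' : Finite ↥(f ⁻¹' {y₀}) := hfin
  have hcard : Nat.card ↥(f ⁻¹' {y₀}) = k := by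
    rw [Nat.card_coe_set_eq]
    exact hk'
  let e : ↥(f ⁻¹' {y₀}) ≃ Fin k := Finite.equivFinOfCardEq hcard
  let x : Fin k → M := fun i => (e.symm i : M)
  have hx : ∀ i, f (x i) = y₀ := fun i => (e.symm i).2
  have hx' : ∀ i, f (x i) ∉ f '' S := fun i => by
    rw [hx]
    exact hy₀
  have hsf : ∀ i y, y ∉ f '' S → f (s (x i) y) = y := fun i y hy => ((hs _ (hx' i)).2.1 y hy).1
  refine ⟨c 0, fun i y => s (x i) (θ y), fun i y hy => ?_, fun i y hy y' hy' h => ?_,
    fun i i' y y' hii hy hy' h => ?_⟩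
  · exact LD.comp_fun (g := s (x i)) ((hs _ (hx' i)).2.1 _ (hθ y hy)).2 (hθl y hy)
  · have h' : s (x i) (θ y) = s (x i) (θ y') := h
    refine hθi hy hy' ?_
    rw [← hsf i _ (hθ y hy), h', hsf i _ (hθ y' hy')]
  · have h' : s (x i) (θ y) = s (x i') (θ y') := h
    have h1 : θ y = θ y' := by
      rw [← hsf i _ (hθ y hy), h', hsf i' _ (hθ y' hy')]
    rw [← h1] at h'
    have h2 := (hs _ (hx' i)).2.2 (x i') (hx' i') (θ y) (hθ y hy) h' y₀ hy₀
    have h3 := (hs _ (hx' i)).1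
    have h4 := (hs _ (hx' i')).1
    rw [hx] at h3 h4
    rw [h3, h4] at h2
    exact hii (e.symm.injective (Subtype.ext h2))

/-- a diffeomorphism of complements of thin sets gives a homeomorphism which is a local
diffeomorphism off one point; only one of the manifolds is assumed to be simply connected -/
theorem core (M N : Type) [TopologicalSpace M] [CompactSpace M] [T2Space M]
    [ChartedSpace (E 4) M] [IsManifold (𝓡 4) ∞ M] [PathConnectedSpace M] [TopologicalSpace N]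
    [CompactSpace N] [T2Space N] [ChartedSpace (E 4) N] [IsManifold (𝓡 4) ∞ N]
    [SimplyConnectedSpace N] (A : Set M) (B : Set N) (g : M → N) (hA : IsClosed A)
    (hB : IsClosed B) (hAn : NullH2 4 A) (hBn : NullH2 4 B) (hg : ∀ x, x ∉ A → LD 4 g x)
    (hgi : InjOn g Aᶜ) (hgr : g '' Aᶜ = Bᶜ) : ∃ G : M ≃ₜ N, ∃ x₀ : M, ∀ x, x ≠ x₀ → LD 4 G x := by
  -- the manifold `M` is simply connected
  have hmem : ∀ x : ↥Aᶜ, g x ∈ Bᶜ := fun x => by
    rw [← hgr]
    exact ⟨x, x.2, rfl⟩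
  let F : ↥Aᶜ → ↥Bᶜ := fun x => ⟨g x, hmem x⟩
  have hFc : Continuous F := by
    rw [continuous_iff_continuousAt]
    intro x
    refine (Topology.IsInducing.subtypeVal.continuousAt_iff).2 ?_
    exact ContinuousAt.comp (g := g) (hg x x.2).continuousAt continuous_subtype_val.continuousAt
  have hFb : Bijective F := by
    refine ⟨fun x y hxy => Subtype.ext (hgi x.2 y.2 (congrArg Subtype.val hxy)), fun y => ?_⟩
    have h1 : (y : N) ∈ g '' Aᶜ := by
      rw [hgr]
      exact y.2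
    obtain ⟨x, hx, hxy⟩ := h1
    exact ⟨⟨x, hx⟩, Subtype.ext hxy⟩
  have hFo : IsOpenMap F := by
    intro O hO
    rw [isOpen_induced_iff] at hO ⊢
    obtain ⟨O', hO', rfl⟩ := hO
    refine ⟨g '' (O' ∩ Aᶜ), isOpen_image_of_LD (n := 4) (hO'.inter hA.isOpen_compl)
      fun x hx => hg x hx.2, ?_⟩
    ext y
    constructor
    · rintro ⟨x, ⟨hx1, hx2⟩, hxy⟩
      exact ⟨⟨x, hx2⟩, hx1, Subtype.ext hxy⟩
    · rintro ⟨x, hx, rfl⟩
      exact ⟨x, ⟨hx, x.2⟩, rfl⟩
  let Φ : ↥Aᶜ ≃ₜ ↥Bᶜ := (Equiv.ofBijective F hFb).toHomeomorphOfContinuousOpen hFc hFo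
  have h1 : SimplyConnectedSpace ↥Bᶜ := (sc N B hB.isCompact hBn).1 inferInstance
  have h2 : SimplyConnectedSpace ↥Aᶜ := Φ.toHomotopyEquiv.simplyConnectedSpace
  have h3 : SimplyConnectedSpace M := (sc M A hA.isCompact hAn).2 h2
  obtain ⟨c₁, ⟨h1i, h1d⟩, h1r⟩ := pp M A hA.isCompact hAn
  obtain ⟨c₂, ⟨h2i, h2d⟩, h2r⟩ := pp N B hB.isCompact hBn
  exact Asm.main Grid.main Esc.main M N A B g c₁ c₂ hA hB hAn hBn h1i h1d h1r h2i h2d h2r
    hg hgi hgr

/-- maps which are local diffeomorphisms off a thin set with thin image -/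
theorem cover (M N : Type) [TopologicalSpace M] [CompactSpace M] [T2Space M]
    [ChartedSpace (E 4) M] [IsManifold (𝓡 4) ∞ M] [PathConnectedSpace M] [TopologicalSpace N]
    [CompactSpace N] [T2Space N] [ChartedSpace (E 4) N] [IsManifold (𝓡 4) ∞ N]
    [SimplyConnectedSpace N] (f : M → N) (S : Set M) (hf : Continuous f) (hS : IsClosed S)
    (hSn : NullH2 4 S) (hBn : NullH2 4 (f '' S)) (hl : ∀ x, x ∉ S → LD 4 f x) :
    ∃ G : M ≃ₜ N, ∃ x₀ : M, ∀ x, x ≠ x₀ → LD 4 G x := by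
  have : SecondCountableTopology M := ChartedSpace.secondCountable_of_sigmaCompact (E 4) M
  set B : Set N := f '' S with hB
  set A : Set M := f ⁻¹' B with hA
  have hBc : IsClosed B := (hS.isCompact.image hf).isClosed
  have hAc : IsClosed A := hBc.preimage hf
  have hAn : NullH2 4 A := Img.pre M N f S B hl hSn hBn
  have hSA : S ⊆ A := fun x hx => ⟨x, hx, rfl⟩
  have hlA : ∀ x, x ∉ A → LD 4 f x := fun x hx => hl x fun h => hx (hSA h)
  have hscB : SimplyConnectedSpace ↥Bᶜ := (sc N B hBc.isCompact hBn).1 inferInstance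
  have hpcA : PathConnectedSpace ↥Aᶜ := (pc M A hAc.isCompact hAn).2 inferInstance
  obtain ⟨s, hs⟩ := Sec.main M N f S hf hS hl hscB
  obtain ⟨x₀, -, hx₀⟩ := (pc M A hAc.isCompact hAn).1 univ isOpen_univ univ_nonempty
  obtain ⟨hs0, hs1, -⟩ := hs x₀ hx₀
  -- the section is the inverse of `f`
  let D : Set ↥Aᶜ := {x | s x₀ (f x) = x}
  have hDcl : IsClosed D := by
    refine isClosed_eq ?_ continuous_subtype_val
    rw [continuous_iff_continuousAt]
    intro x
    refine ContinuousAt.comp (g := s x₀) (hs1 _ x.2).2.continuousAt ?_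
    exact (hf.comp continuous_subtype_val).continuousAt
  have hDo : IsOpen D := by
    rw [isOpen_iff_mem_nhds]
    intro x hx
    have hx' : s x₀ (f x) = x := hx
    obtain ⟨u, hu, hui⟩ := (hlA x x.2).eventually_injOn
    have h1 : ContinuousAt (fun y => s x₀ (f y)) (x : M) :=
      ContinuousAt.comp (g := s x₀) (hs1 _ x.2).2.continuousAt hf.continuousAt
    have h2 : ∀ᶠ y in 𝓝 (x : M), s x₀ (f y) ∈ u := by
      refine h1.eventually ?_
      simp only [hx']
      exact hu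
    have h3 : ∀ᶠ y : ↥Aᶜ in 𝓝 x, s x₀ (f y) ∈ u ∧ (y : M) ∈ u :=
      continuous_subtype_val.continuousAt.eventually (h2.and hu)
    filter_upwards [h3] with y hy
    exact hui hy.1 hy.2 (hs1 _ y.2).1
  have hD : D = univ := IsClopen.eq_univ ⟨hDcl, hDo⟩ ⟨⟨x₀, hx₀⟩, hs0⟩
  have hinv : ∀ x, x ∉ A → s x₀ (f x) = x := by
    intro x hx
    have : (⟨x, hx⟩ : ↥Aᶜ) ∈ D := by
      rw [hD]
      exact mem_univ _
    exact this
  refine core M N A B f hAc hBc hAn hBn hlA (fun x hx y hy hxy => ?_) ?_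
  · rw [← hinv x hx, ← hinv y hy, hxy]
  · ext y
    constructor
    · rintro ⟨x, hx, rfl⟩
      exact hx
    · intro hy
      refine ⟨s x₀ y, ?_, (hs1 y hy).1⟩
      show f (s x₀ y) ∉ B
      rw [(hs1 y hy).1]
      exact hy

end Pool.Agent.T2h58.Cv
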