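import Pool.Agent.T2h58.Stm2

/-!
# Project CV (critical values): statements

Smooth maps between closed 4-manifolds whose sets of critical values, or of critical points, are
thin.
-/

set_option autoImplicit false

open Set Filter Topology Metric Function MeasureTheory
open scoped Manifold ContDiff NNReal ENNReal

noncomputable section

namespace Pool.Agent.T2h58

open Pool.Agent.Y522 Pool.Agent.N550 Pool.Agent.N550.KH

/-- the unit square -/
abbrev Sq : Type := unitInterval × unitInterval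

/-- generic translates of a smooth square miss a thin set -/
def T_SQN : Prop :=
  ∀ (S : Set (E 4)) (P : ℝ × ℝ → E 4), Measure.hausdorffMeasure 2 S = 0 → ContDiff ℝ ∞ P →
    ∀ᵐ w : E 4, ∀ s ∈ Icc (0 : ℝ) 1, ∀ t ∈ Icc (0 : ℝ) 1, P (s, t) - w ∉ S

/-- smooth approximation on closed subsets of the square -/
def T_SQA : Prop :=
  ∀ (Q : Set Sq) (h : Sq → E 4) (δ : ℝ), IsClosed Q → ContinuousOn h Q → 0 < δ →
    ∃ P : ℝ × ℝ → E 4, ContDiff ℝ ∞ P ∧ ∀ s ∈ Q, ‖P (s.1, s.2) - h s‖ < δ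

/-- a square is pushed off the part `S₂` of a thin set in a chart, relative to the closed set `L`
and keeping it off `S₁` -/
def T_AVS : Prop :=
  ∀ (M : Type) [TopologicalSpace M] [T2Space M] [ChartedSpace (E 4) M] (c : E 4 → M)
    (H : C(Sq, M)) (L : Set Sq) (S₁ S₂ : Set M), CellMap c → IsClosed L → IsClosed S₁ →
    IsClosed S₂ → S₂ ⊆ c '' ball 0 1 → Measure.hausdorffMeasure 2 (c ⁻¹' S₂) = 0 →
    (∀ s, H s ∉ S₁) → (∀ s ∈ L, H s ∉ S₂) →
    ∃ H' : C(Sq, M), ContinuousMap.HomotopicRel H H' L ∧ ∀ s, H' s ∉ S₁ ∧ H' s ∉ S₂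

/-- squares are pushed off thin sets -/
def T_AV : Prop :=
  ∀ (M : Type) [TopologicalSpace M] [T2Space M] [ChartedSpace (E 4) M] [IsManifold (𝓡 4) ∞ M]
    (A : Set M) (H : C(Sq, M)) (L : Set Sq), IsCompact A → NullH2 4 A → IsClosed L →
    (∀ s ∈ L, H s ∉ A) →
    ∃ H' : C(Sq, M), ContinuousMap.HomotopicRel H H' L ∧ ∀ s, H' s ∉ A

/-- thin sets have empty interior, and their complements are path connected -/
def T_PC : Prop :=
  ∀ (M : Type) [TopologicalSpace M] [T2Space M] [ChartedSpace (E 4) M] [IsManifold (𝓡 4) ∞ M]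
    (A : Set M), IsCompact A → NullH2 4 A →
    (∀ O : Set M, IsOpen O → O.Nonempty → ∃ x ∈ O, x ∉ A) ∧
    (PathConnectedSpace M → PathConnectedSpace ↥Aᶜ)

/-- complements of thin sets are simply connected if and only if the manifold is -/
def T_SC : Prop :=
  ∀ (M : Type) [TopologicalSpace M] [T2Space M] [ChartedSpace (E 4) M] [IsManifold (𝓡 4) ∞ M]
    [PathConnectedSpace M] (A : Set M), IsCompact A → NullH2 4 A →
    (SimplyConnectedSpace M ↔ SimplyConnectedSpace ↥Aᶜ)

/-- sections over a simply connected complement of the critical values: `s x` is the section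
through the point `x` -/
def T_SEC : Prop :=
  ∀ (M N : Type) [TopologicalSpace M] [CompactSpace M] [T2Space M] [ChartedSpace (E 4) M]
    [TopologicalSpace N] [T2Space N] [ChartedSpace (E 4) N] (f : M → N) (S : Set M),
    Continuous f → IsClosed S → (∀ x, x ∉ S → LD 4 f x) → SimplyConnectedSpace ↥(f '' S)ᶜ →
    ∃ s : M → N → M, ∀ x, f x ∉ f '' S → s x (f x) = x ∧
      (∀ y, y ∉ f '' S → f (s x y) = y ∧ LD 4 (s x) y) ∧
      ∀ x', f x' ∉ f '' S → ∀ y, y ∉ f '' S → s x y = s x' y →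
        ∀ y', y' ∉ f '' S → s x y' = s x' y'

/-- collapse of the complement of `k` copies of the complement of a point -/
def T_CLP : Prop :=
  ∀ (k : ℕ) (M N : Type) [TopologicalSpace M] [T2Space M] [ChartedSpace (E 4) M]
    [IsManifold (𝓡 4) ∞ M] [TopologicalSpace N] [CompactSpace N] [T2Space N]
    [ChartedSpace (E 4) N] [IsManifold (𝓡 4) ∞ N] (p : N) (j : Fin k → N → M),
    (∀ i x, x ≠ p → LD 4 (j i) x) → (∀ i, InjOn (j i) {p}ᶜ) →
    (∀ i i' x x', i ≠ i' → x ≠ p → x' ≠ p → j i x ≠ j i' x') →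
    ∃ f : M → N, ContMDiff (𝓡 4) (𝓡 4) ∞ f ∧ (∀ x, f x ≠ p → LD 4 f x) ∧
      ∀ y, y ≠ p → (f ⁻¹' {y}).ncard = k

/-- images of thin sets under smooth maps are thin -/
def T_IMG : Prop :=
  ∀ (M N : Type) [TopologicalSpace M] [SecondCountableTopology M] [ChartedSpace (E 4) M]
    [IsManifold (𝓡 4) ∞ M] [TopologicalSpace N] [ChartedSpace (E 4) N] [IsManifold (𝓡 4) ∞ N]
    (f : M → N) (S : Set M), ContMDiff (𝓡 4) (𝓡 4) ∞ f → NullH2 4 S → NullH2 4 (f '' S)

/-- a set is thin if it is the union of a thin set `S` and of a set which locally off `S` is the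
preimage of a thin set under a local diffeomorphism -/
def T_PRE : Prop :=
  ∀ (M N : Type) [TopologicalSpace M] [SecondCountableTopology M] [ChartedSpace (E 4) M]
    [IsManifold (𝓡 4) ∞ M] [TopologicalSpace N] [ChartedSpace (E 4) N] [IsManifold (𝓡 4) ∞ N]
    (f : M → N) (S : Set M) (B : Set N), (∀ x, x ∉ S → LD 4 f x) → NullH2 4 S → NullH2 4 B →
    NullH2 4 (f ⁻¹' B)

/-- Flattening at an isolated singular point; the other points remain non-critical. -/
def T_FLM : Prop :=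
  ∀ (n : ℕ) (M N : Type) [TopologicalSpace M] [ChartedSpace (E n) M] [IsManifold (𝓡 n) ∞ M]
    [TopologicalSpace N] [T2Space N] [ChartedSpace (E n) N] [IsManifold (𝓡 n) ∞ N]
    (G : M ≃ₜ N) (x₀ : M), (∀ x, x ≠ x₀ → LD n G x) →
    ∃ f : M ≃ₜ N, ContMDiff (𝓡 n) (𝓡 n) ∞ f ∧ ∀ x, x ≠ x₀ → LD n f x

/-- stretching: the complement of a ball of a cell is diffeomorphic to the complement of its
centre -/
def T_RAD : Prop :=
  ∀ (N : Type) [TopologicalSpace N] [T2Space N] [ChartedSpace (E 4) N] [IsManifold (𝓡 4) ∞ N]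
    (c : E 4 → N) (R : ℝ), CellMap c → 0 < R →
    ∃ θ : N → N, (∀ x, x ≠ c 0 → LD 4 θ x) ∧ InjOn θ {c 0}ᶜ ∧
      θ '' {c 0}ᶜ = (c '' closedBall 0 R)ᶜ

end Pool.Agent.T2h58
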