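import Pool.Agent.N550.TS.Flm
import Pool.Agent.N550.TS.Flt
import Pool.Agent.N550.SH.Moeb
import Pool.Agent.T2h58.Stm5

/-!
# Project CV: flattening at an isolated singular point; radial maps
-/

set_option autoImplicit false

open Set Filter Topology Metric Function MeasureTheory
open scoped Manifold ContDiff

noncomputable section

namespace Pool.Agent.T2h58.Flm2

open Pool.Agent.Y522 Pool.Agent.N550 Pool.Agent.N550.KH Pool.Agent.N550.KH.Supp
  Pool.Agent.N550.TS.Flm Pool.Agent.T2h58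

/-- radial maps are local diffeomorphisms where the factor is positive -/
theorem rad_ld {n : ℕ} {θ : ℝ → ℝ} (hθ : ContDiff ℝ ∞ θ) (hm : Monotone θ) {v : E n}
    (hv : 0 < θ (‖v‖ ^ 2)) : LD n (rad θ : E n → E n) v := by
  have hs : ContDiff ℝ ∞ (rad θ : E n → E n) := rad_smooth hθ
  have h1 : HasFDerivAt (fun w : E n => ‖w‖ ^ 2) (2 • (innerSL ℝ v : E n →L[ℝ] ℝ)) v :=
    (hasStrictFDerivAt_norm_sq v).hasFDerivAt
  have h2 : HasDerivAt θ (deriv θ (‖v‖ ^ 2)) (‖v‖ ^ 2) :=
    ((hθ.differentiable (by simp)) _).hasDerivAt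
  have h3 := h2.comp_hasFDerivAt v h1
  have h4 := h3.smul (hasFDerivAt_id v)
  have hd : 0 ≤ deriv θ (‖v‖ ^ 2) := hm.deriv_nonneg
  refine SH.Moeb.LD_of_injective (Eventually.of_forall fun y => hs.contDiffAt) (h4 : HasFDerivAt (rad θ)
    _ v) ?_
  refine (injective_iff_map_eq_zero _).2 fun w hw => ?_
  have h5 : θ (‖v‖ ^ 2) • w + (deriv θ (‖v‖ ^ 2) * (2 * inner ℝ v w)) • v = 0 := by
    simpa using hw
  have h6 : inner ℝ v (θ (‖v‖ ^ 2) • w + (deriv θ (‖v‖ ^ 2) * (2 * inner ℝ v w)) • v) = 0 := by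
    rw [h5, inner_zero_right]
  rw [inner_add_right, inner_smul_right, inner_smul_right, real_inner_self_eq_norm_sq] at h6
  have h7 : (θ (‖v‖ ^ 2) + 2 * deriv θ (‖v‖ ^ 2) * ‖v‖ ^ 2) * inner ℝ v w = 0 := by
    linarith
  have h8 : 0 < θ (‖v‖ ^ 2) + 2 * deriv θ (‖v‖ ^ 2) * ‖v‖ ^ 2 := by positivity
  have h9 : inner ℝ v w = 0 := by
    rcases mul_eq_zero.1 h7 with h | h
    · exact absurd h h8.ne'
    · exact h
  rw [h9] at h5
  simp only [mul_zero, zero_smul, add_zero] at h5
  rcases smul_eq_zero.1 h5 with h | h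
  · exact absurd h hv.ne'
  · exact h

/-- the action of a map with compact support, at a point near which it is a local
diffeomorphism -/
theorem act_ld {n : ℕ} {N : Type} [TopologicalSpace N] [ChartedSpace (E n) N] [T2Space N]
    {h : E n → N} (hi : Injective h) (hh : ∀ z, LD n h z) {κ : E n → E n} {R : ℝ}
    (hR : ∀ z, R ≤ ‖z‖ → κ z = z) {x : N} (hκ : ∀ z, h z = x → LD n κ z) :
    LD n (act h κ) x := by
  by_cases hx : x ∈ range h
  · obtain ⟨z, rfl⟩ := hx
    have hg : ∀ w, invFun h (h w) = w := leftInverse_invFun hi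
    have h1 : LD n (invFun h) (h z) := inv_LD hi hh z
    have h2 : LD n (fun y => κ (invFun h y)) (h z) := by
      refine LD.comp_fun (g := κ) ?_ h1
      rw [hg]
      exact hκ z rfl
    exact (LD.comp_fun (g := h) (hh _) h2).congr (act_near hi hh κ z)
  · exact (LD.id x).congr (act_far hi hh hR hx)

theorem main : TS.S_FLT → T_FLM := by
  intro hF n M N _ _ _ _ _ _ _ G x₀ hG
  obtain ⟨a, ai, ald, a0⟩ := exists_cell0 (n := n) x₀
  obtain ⟨h, hi, hld, h0⟩ := exists_cell0 (n := n) (G x₀)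
  have hginv : ∀ w, invFun h (h w) = w := leftInverse_invFun hi
  have hainv : ∀ w, invFun a (a w) = w := leftInverse_invFun ai
  have hopen : IsOpen (range h) := by
    rw [← image_univ]
    exact isOpen_image_of_LD isOpen_univ fun x _ => hld x
  have haopen : IsOpen (range a) := by
    rw [← image_univ]
    exact isOpen_image_of_LD isOpen_univ fun x _ => ald x
  have hacont : Continuous a := continuous_iff_continuousAt.2 fun z => (ald z).continuousAt
  obtain ⟨g, hg⟩ : ∃ g : E n → E n, g = fun z => invFun h (G (a z)) := ⟨_, rfl⟩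
  obtain ⟨W, hW⟩ : ∃ W : Set (E n), W = {z | G (a z) ∈ range h} := ⟨_, rfl⟩
  have hGh : ∀ z ∈ W, h (g z) = G (a z) := by
    intro z hz
    rw [hW] at hz
    obtain ⟨w, hw⟩ := hz
    rw [hg]
    simp only
    rw [← hw, hginv]
  have hWo : IsOpen W := by
    rw [hW]
    exact hopen.preimage (G.continuous.comp hacont)
  have h0W : (0 : E n) ∈ W := by
    rw [hW]
    exact ⟨0, by rw [h0, a0]⟩
  have hg0 : g 0 = 0 := by
    rw [hg]
    simp only
    rw [a0, ← h0, hginv]
  have hgc : ContinuousOn g W := by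
    intro z hz
    apply ContinuousAt.continuousWithinAt
    have h1 := hGh z hz
    have h2 : ContinuousAt (invFun h) (G (a z)) := by
      rw [← h1]
      exact (inv_LD hi hld _).continuousAt
    rw [hg]
    exact ContinuousAt.comp (g := invFun h) (f := fun z => G (a z)) h2
      (G.continuous.comp hacont).continuousAt
  have hgs : ∀ x ∈ W, x ≠ 0 → ContDiffAt ℝ ∞ g x ∧ g x ≠ 0 := by
    intro z hz hz0
    have haz : a z ≠ x₀ := by
      intro hcon
      rw [← a0] at hcon
      exact hz0 (ai hcon)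
    refine ⟨?_, ?_⟩
    · have h1 : LD n (fun z => G (a z)) z := LD.comp_fun (g := G) (hG _ haz) (ald z)
      have h2 : LD n (invFun h) (G (a z)) := by
        rw [← hGh z hz]
        exact inv_LD hi hld _
      have h3 : LD n g z := by
        rw [hg]
        exact LD.comp_fun (g := invFun h) (f := fun z => G (a z)) h2 h1
      exact h3.contDiffAt
    · intro hcon
      have h1 := hGh z hz
      rw [hcon, h0] at h1
      exact haz (G.injective h1.symm)
  obtain ⟨θ, hθ, hθm, hθp, hθ1, hθs⟩ := hF n g W 1 hWo h0W one_pos hgc hg0 hgs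
  obtain ⟨ψ, hψ⟩ := rad_homeo (n := n) hθ.continuous hθm hθp hθ1
  have hψr : (ψ : E n → E n) = rad θ := funext hψ
  have hR : ∀ z : E n, 1 ≤ ‖z‖ → ψ z = z := fun z hz => by rw [hψ, rad_far hθ1 hz]
  obtain ⟨Ψ, hΨ⟩ := act_homeo hi hld ψ hR
  have hΨs : ∀ y, ContMDiffAt (𝓡 n) (𝓡 n) ∞ Ψ y := by
    intro y
    have h1 : (Ψ : N → N) = act h ψ := funext hΨ
    rw [h1]
    refine act_smooth hi hld hR ?_ y
    rw [hψr]
    exact rad_smooth hθ
  refine ⟨G.trans Ψ, fun x => ?_, fun x hx => ?_⟩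
  on_goal 2 =>
    have h1 : (Ψ : N → N) = act h (rad θ) := by
      funext y
      rw [hΨ, hψr]
    have hGx : G x ≠ h 0 := by
      rw [h0]
      exact fun hcon => hx (G.injective hcon)
    have h2 : LD n Ψ (G x) := by
      rw [h1]
      refine act_ld hi hld (R := 1) (fun z hz => rad_far hθ1 hz) (fun z hz => ?_)
      have hz0 : z ≠ 0 := by
        rintro rfl
        exact hGx hz.symm
      exact rad_ld hθ hθm (hθp _ (by have := norm_pos_iff.2 hz0; positivity))
    exact LD.comp_fun (g := Ψ) (f := G) h2 (hG x hx)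
  rcases eq_or_ne x x₀ with hx | hx
  · -- at the singular point
    have h1 : (G.trans Ψ : M → N) =ᶠ[𝓝 x] fun y => h (rad θ (g (invFun a y))) := by
      have h2 : range a ∈ 𝓝 x := haopen.mem_nhds ⟨0, by rw [a0, hx]⟩
      have h3 : G ⁻¹' (range h) ∈ 𝓝 x :=
        (hopen.preimage G.continuous).mem_nhds ⟨0, by rw [h0, hx]⟩
      filter_upwards [h2, h3] with y hy1 hy2
      obtain ⟨z, rfl⟩ := hy1
      have hzW : z ∈ W := by
        rw [hW]
        exact hy2
      rw [Homeomorph.trans_apply, hΨ, ← hGh z hzW, act_range hi, hψ, hainv]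
    refine ContMDiffAt.congr_of_eventuallyEq ?_ h1
    have h4 : ContMDiffAt (𝓡 n) (𝓡 n) ∞ (invFun a) x := by
      rw [hx, ← a0]
      exact (inv_LD ai ald 0).contMDiffAt
    have h5 : invFun a x = 0 := by
      rw [hx, ← a0, hainv]
    have h6 : ContMDiffAt (𝓡 n) (𝓡 n) ∞ (fun z => rad θ (g z)) (invFun a x) := by
      rw [h5]
      exact hθs.contMDiffAt
    have h7 : ContMDiffAt (𝓡 n) (𝓡 n) ∞ (fun y => rad θ (g (invFun a y))) x :=
      ContMDiffAt.comp (g := fun z => rad θ (g z)) x h6 h4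
    exact ContMDiffAt.comp (g := h) x (hld _).contMDiffAt h7
  · exact ContMDiffAt.comp (g := Ψ) (f := G) x (hΨs _) (hG x hx).contMDiffAt

end Pool.Agent.T2h58.Flm2
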