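import Pool.Agent.T2h58.Stm2
import Pool.Agent.N550.KH.Shift

/-!
# Project SC: pushes along parallel fibers
-/

set_option autoImplicit false

open Set Filter Topology Metric Function MeasureTheory
open scoped Manifold ContDiff NNReal

noncomputable section

namespace Pool.Agent.T2h58.Fp

open Pool.Agent.Y522 Pool.Agent.N550 Pool.Agent.N550.KH

/-- a smooth function with compact support which is `0` on `A` and `1` on `C` -/
theorem exists_cutoff {n : ℕ} {A C : Set (E n)} (hA : IsClosed A) (hC : IsCompact C)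
    (hAC : Disjoint A C) : ∃ χ : E n → ℝ, ContDiff ℝ ∞ χ ∧ HasCompactSupport χ ∧
      (∀ z ∈ A, χ z = 0) ∧ (∀ z ∈ C, χ z = 1) ∧ ∀ z, 0 ≤ χ z ∧ χ z ≤ 1 := by
  obtain ⟨R, hR⟩ := hC.isBounded.subset_ball (0 : E n)
  have h1 : IsClosed (A ∪ (ball (0 : E n) R)ᶜ) := hA.union isOpen_ball.isClosed_compl
  have h2 : Disjoint (A ∪ (ball (0 : E n) R)ᶜ) C := by
    rw [disjoint_union_left]
    refine ⟨hAC, ?_⟩
    rw [disjoint_compl_left_iff_subset]
    exact hR
  obtain ⟨f, hf0, hf1, hf2⟩ := exists_contMDiffMap_zero_one_of_isClosed (n := (⊤ : ℕ∞)) 𝓘(ℝ, E n)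
    h1 hC.isClosed h2
  refine ⟨f, f.contMDiff.contDiff, ?_, fun z hz => hf0 (Or.inl hz), fun z hz => hf1 hz, fun z =>
    hf2 z⟩
  refine HasCompactSupport.intro (isCompact_closedBall (0 : E n) R) ?_
  intro z hz
  refine hf0 (Or.inr ?_)
  intro hz'
  exact hz (ball_subset_closedBall hz')

theorem fp : T_FP := by
  intro n D S O u d hD hS hO hd hd0 hflow hSD hDO
  -- the margin
  obtain ⟨δ, hδ, hδO⟩ : ∃ δ : ℝ, 0 < δ ∧ ∀ z ∈ D, d z < 2 * δ → z ∈ O := by
    have h1 : IsCompact (D \ O) := hD.diff hO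
    by_cases hne : (D \ O).Nonempty
    · obtain ⟨z₀, hz₀, hmin⟩ := h1.exists_isMinOn hne (hd.mono sdiff_subset)
      have h2 : 0 < d z₀ := by
        refine lt_of_le_of_ne (hd0 z₀ hz₀.1) fun h => hz₀.2 (hDO z₀ hz₀.1 h.symm)
      refine ⟨d z₀ / 2, by linarith, fun z hz hz' => ?_⟩
      by_contra hzO
      have h3 : d z₀ ≤ d z := hmin ⟨hz, hzO⟩
      linarith
    · refine ⟨1, one_pos, fun z hz _ => ?_⟩
      by_contra hzO
      exact hne ⟨z, hz, hzO⟩
  -- the cutoff
  have hA : IsClosed (S ∪ (D ∩ d ⁻¹' Iic δ)) :=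
    hS.union (hd.preimage_isClosed_of_isClosed hD.isClosed isClosed_Iic)
  have hC : IsCompact (D ∩ d ⁻¹' Ici (2 * δ)) :=
    hD.of_isClosed_subset (hd.preimage_isClosed_of_isClosed hD.isClosed isClosed_Ici)
      inter_subset_left
  have hAC : Disjoint (S ∪ (D ∩ d ⁻¹' Iic δ)) (D ∩ d ⁻¹' Ici (2 * δ)) := by
    rw [Set.disjoint_left]
    rintro z (hz | ⟨-, hz⟩) ⟨hzD, hz2⟩
    · have h1 := hSD z hzD hz
      have h2 : 2 * δ ≤ d z := hz2
      linarith
    · have h1 : d z ≤ δ := hz
      have h2 : 2 * δ ≤ d z := hz2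
      linarith
  obtain ⟨χ, hχ, hχc, hχ0, hχ1, hχ01⟩ := exists_cutoff hA hC hAC
  obtain ⟨B, hB⟩ := (hχ.continuous_fderiv (by simp)).bounded_above_of_compact_support
    (hχc.fderiv (𝕜 := ℝ))
  have hB0 : 0 ≤ B := (norm_nonneg _).trans (hB 0)
  obtain ⟨Mx, hMx⟩ := hD.exists_bound_of_continuousOn hd
  set ε : ℝ := min (δ / 2) (1 / (2 * (B * ‖u‖ + 1))) with hε
  have hε0 : 0 < ε := lt_min (by linarith) (by positivity)
  have hεδ : ε < δ := lt_of_le_of_lt (min_le_left _ _) (by linarith)
  have hεB : B * (ε * ‖u‖) ≤ 1 / 2 := by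
    have h1 : ε ≤ 1 / (2 * (B * ‖u‖ + 1)) := min_le_right _ _
    have h2 : 0 ≤ B * ‖u‖ := by positivity
    have h3 : B * (ε * ‖u‖) = ε * (B * ‖u‖) := by ring
    rw [h3]
    refine (mul_le_mul_of_nonneg_right h1 h2).trans ?_
    rw [div_mul_eq_mul_div, one_mul, div_le_div_iff₀ (by positivity) (by norm_num)]
    linarith
  obtain ⟨J, hJ⟩ := exists_nat_gt (Mx / ε)
  rw [div_lt_iff₀ hε0] at hJ
  let f : E n → E n := fun z => z + χ z • (ε • u)
  have hf : IsDf n f := by
    refine Shift.s_pert n χ (ε • u) (1 / 2) hχ (by norm_num) ?_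
    intro z
    rw [norm_smul, Real.norm_of_nonneg hε0.le]
    exact (mul_le_mul_of_nonneg_right (hB z) (by positivity)).trans hεB
  have hstep : ∀ z ∈ D, f z ∈ D ∧ d (f z) = d z - ε * χ z := by
    intro z hz
    have hfz : f z = z + (ε * χ z) • u := by
      simp only [f]
      rw [smul_smul, mul_comm]
    rcases le_or_gt (d z) δ with h | h
    · have h0 : χ z = 0 := hχ0 z (Or.inr ⟨hz, h⟩)
      have h1 : f z = z := by rw [hfz, h0, mul_zero, zero_smul, add_zero]
      rw [h1, h0, mul_zero, sub_zero]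
      exact ⟨hz, rfl⟩
    · rw [hfz]
      have h2 := hχ01 z
      exact hflow z hz (ε * χ z) (mul_nonneg hε0.le h2.1) (by nlinarith)
  have hiter : ∀ z ∈ D, ∀ j : ℕ, f^[j] z ∈ D ∧ (d (f^[j] z) < 2 * δ ∨
      d (f^[j] z) ≤ d z - j * ε) := by
    intro z hz j
    induction j with
    | zero => exact ⟨hz, Or.inr (by simp)⟩
    | succ j ih =>
      obtain ⟨ih1, ih2⟩ := ih
      rw [Function.iterate_succ', Function.comp_apply]
      obtain ⟨h1, h2⟩ := hstep _ ih1
      refine ⟨h1, ?_⟩
      rw [h2]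
      have h3 := hχ01 (f^[j] z)
      rcases lt_or_ge (d (f^[j] z)) (2 * δ) with h | h
      · left
        nlinarith
      · right
        have h4 : χ (f^[j] z) = 1 := hχ1 _ ⟨ih1, h⟩
        rw [h4]
        rcases ih2 with ih2 | ih2
        · linarith
        · push_cast
          linarith
  obtain ⟨R, hR⟩ := hχc.isCompact.isBounded.subset_ball (0 : E n)
  have hfix : ∀ z, χ z = 0 → f^[J] z = z := by
    intro z hz
    refine Function.iterate_fixed ?_ J
    simp only [f]
    rw [hz, zero_smul, add_zero]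
  refine ⟨f^[J], ⟨Shift.isDf_iter hf J, ⟨R, fun z hz => hfix z ?_⟩, fun z hz => hfix z
    (hχ0 z (Or.inl hz))⟩, fun z hz => ?_⟩
  · by_contra hne
    have h1 := hR (subset_tsupport χ hne)
    rw [mem_ball_zero_iff] at h1
    linarith
  · obtain ⟨h1, h2⟩ := hiter z hz J
    refine hδO _ h1 ?_
    rcases h2 with h2 | h2
    · exact h2
    · have h3 := hd0 _ h1
      have h4 : d z ≤ Mx := (Real.le_norm_self _).trans (hMx z hz)
      linarith

/-- parametrization of a triangle -/
theorem mem_tri {n : ℕ} {a b p z : E n} : z ∈ convexHull ℝ {a, b, p} ↔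
    ∃ x y : ℝ, 0 ≤ x ∧ 0 ≤ y ∧ x + y ≤ 1 ∧ z = a + x • (b - a) + y • (p - a) := by
  rw [convexHull_insert (by simp), convexHull_pair, mem_convexJoin]
  constructor
  · rintro ⟨a', ha', w, hw, hz⟩
    rw [mem_singleton_iff] at ha'
    subst ha'
    rw [segment_eq_image'] at hw hz
    obtain ⟨s, hs, rfl⟩ := hw
    obtain ⟨r, hr, rfl⟩ := hz
    refine ⟨r * (1 - s), r * s, mul_nonneg hr.1 (by linarith [hs.2]), mul_nonneg hr.1 hs.1, ?_, ?_⟩
    · have : r * (1 - s) + r * s = r := by ring
      rw [this]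
      exact hr.2
    · module
  · rintro ⟨x, y, hx, hy, hxy, rfl⟩
    refine ⟨a, rfl, ?_⟩
    rcases (add_nonneg hx hy).eq_or_lt with h | h
    · have hx0 : x = 0 := by linarith
      have hy0 : y = 0 := by linarith
      refine ⟨b, left_mem_segment ℝ b p, ?_⟩
      rw [hx0, hy0, zero_smul, zero_smul, add_zero, add_zero]
      exact left_mem_segment ℝ a b
    · refine ⟨b + (y / (x + y)) • (p - b), ?_, ?_⟩
      · rw [segment_eq_image']
        refine ⟨y / (x + y), ⟨by positivity, ?_⟩, rfl⟩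
        rw [div_le_one h]
        linarith
      · rw [segment_eq_image']
        refine ⟨x + y, ⟨h.le, hxy⟩, ?_⟩
        have h1 : (x + y) • (b + (y / (x + y)) • (p - b) - a) =
            (x + y) • (b - a) + y • (p - b) := by
          have h2 : b + (y / (x + y)) • (p - b) - a = (b - a) + (y / (x + y)) • (p - b) := by
            abel
          rw [h2, smul_add, smul_smul, mul_div_cancel₀ _ h.ne']
        show a + (x + y) • (b + (y / (x + y)) • (p - b) - a) = _
        rw [h1]
        module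

theorem mem_seg' {n : ℕ} {a b z : E n} : z ∈ segment ℝ a b ↔
    ∃ x : ℝ, 0 ≤ x ∧ x ≤ 1 ∧ z = a + x • (b - a) := by
  rw [segment_eq_image']
  constructor
  · rintro ⟨s, hs, rfl⟩
    exact ⟨s, hs.1, hs.2, rfl⟩
  · rintro ⟨x, h0, h1, rfl⟩
    exact ⟨x, ⟨h0, h1⟩, rfl⟩

/-- coordinates of the plane of a triangle -/
theorem exists_coord {n : ℕ} {a b p : E n} (h : AffineIndependent ℝ ![a, b, p]) :
    ∃ X Y : E n → ℝ, Continuous X ∧ Continuous Y ∧
      ∀ x y : ℝ, X (a + x • (b - a) + y • (p - a)) = x ∧ Y (a + x • (b - a) + y • (p - a)) = y := by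
  let L : (ℝ × ℝ) →ₗ[ℝ] E n :=
    { toFun := fun q => q.1 • (b - a) + q.2 • (p - a)
      map_add' := fun q r => by
        change (q.1 + r.1) • (b - a) + (q.2 + r.2) • (p - a) =
          (q.1 • (b - a) + q.2 • (p - a)) + (r.1 • (b - a) + r.2 • (p - a))
        module
      map_smul' := fun c q => by
        change (c * q.1) • (b - a) + (c * q.2) • (p - a) =
          c • (q.1 • (b - a) + q.2 • (p - a))
        module }
  have hL : LinearMap.ker L = ⊥ := by
    rw [LinearMap.ker_eq_bot']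
    rintro ⟨x, y⟩ hxy
    have hxy' : x • (b - a) + y • (p - a) = 0 := hxy
    rw [affineIndependent_iff_not_collinear_set] at h
    by_contra hne
    apply h
    rw [collinear_iff_of_mem (p₀ := a) (by simp)]
    by_cases hx : x = 0
    · have hy : y ≠ 0 := fun hy => hne (by rw [hx, hy]; rfl)
      have hp : p - a = 0 := by
        rw [hx, zero_smul, zero_add] at hxy'
        exact (smul_eq_zero.1 hxy').resolve_left hy
      refine ⟨b - a, ?_⟩
      rintro q (rfl | rfl | rfl)
      · exact ⟨0, by simp⟩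
      · exact ⟨1, by simp⟩
      · exact ⟨0, by rw [zero_smul, zero_vadd]; exact sub_eq_zero.1 hp⟩
    · refine ⟨p - a, ?_⟩
      rintro q (rfl | rfl | rfl)
      · exact ⟨0, by simp⟩
      · refine ⟨-(y / x), ?_⟩
        have h1 : q - a = -(y / x) • (p - a) := by
          have h2 : x • (q - a) = x • (-(y / x) • (p - a)) := by
            rw [smul_smul]
            have h3 : x * -(y / x) = -y := by field_simp
            rw [h3, neg_smul]
            exact eq_neg_of_add_eq_zero_left hxy'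
          exact smul_right_injective _ hx h2
        rw [← h1, vadd_eq_add, sub_add_cancel]
      · exact ⟨1, by simp⟩
  obtain ⟨g, hg⟩ := LinearMap.exists_leftInverse_of_injective L hL
  have hg' : ∀ x y : ℝ, g (x • (b - a) + y • (p - a)) = (x, y) := fun x y =>
    congrArg (fun T => T (x, y)) hg
  have hgc : Continuous g := g.continuous_of_finiteDimensional
  refine ⟨fun z => (g (z - a)).1, fun z => (g (z - a)).2, by fun_prop, by fun_prop, fun x y => ?_⟩
  have h1 : a + x • (b - a) + y • (p - a) - a = x • (b - a) + y • (p - a) := by abel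
  simp only [h1, hg', and_self]

theorem tri : T_TRI := by
  intro n a b p S O hind hS hO
  obtain ⟨X, Y, hX, hY, hXY⟩ := exists_coord hind
  have hfin : Set.Finite ({a, b, p} : Set (E n)) := by simp
  have hD : IsCompact (convexHull ℝ {a, b, p}) := hfin.isCompact_convexHull ℝ
  constructor
  · intro hSD hab
    refine fp n (convexHull ℝ {a, b, p}) S O ((1 / 2 : ℝ) • (a + b) - p) Y hD hS hO hY.continuousOn
      ?_ ?_ ?_ ?_
    · intro z hz
      obtain ⟨x, y, hx, hy, hxy, rfl⟩ := mem_tri.1 hz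
      rw [(hXY x y).2]
      exact hy
    · intro z hz τ hτ hτd
      obtain ⟨x, y, hx, hy, hxy, rfl⟩ := mem_tri.1 hz
      rw [(hXY x y).2] at hτd ⊢
      have h1 : a + x • (b - a) + y • (p - a) + τ • ((1 / 2 : ℝ) • (a + b) - p) =
          a + (x + τ / 2) • (b - a) + (y - τ) • (p - a) := by module
      rw [h1, (hXY _ _).2]
      exact ⟨mem_tri.2 ⟨_, _, by linarith, by linarith, by linarith, rfl⟩, rfl⟩
    · intro z hz hzS
      obtain ⟨x, -, -, rfl⟩ := mem_seg'.1 (hSD z hzS hz)
      have h1 := (hXY x 0).2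
      rwa [zero_smul, add_zero] at h1
    · intro z hz hz0
      obtain ⟨x, y, hx, hy, hxy, rfl⟩ := mem_tri.1 hz
      rw [(hXY x y).2] at hz0
      refine hab (mem_seg'.2 ⟨x, hx, by linarith, ?_⟩)
      rw [hz0, zero_smul, add_zero]
  · intro hSD hab
    refine fp n (convexHull ℝ {a, b, p}) S O (p - (1 / 2 : ℝ) • (a + b))
      (fun z => 2 * min (X z) (1 - X z - Y z)) hD hS hO (by fun_prop) ?_ ?_ ?_ ?_
    · intro z hz
      obtain ⟨x, y, hx, hy, hxy, rfl⟩ := mem_tri.1 hz
      simp only [(hXY x y).1, (hXY x y).2]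
      have := le_min hx (by linarith : (0 : ℝ) ≤ 1 - x - y)
      linarith
    · intro z hz τ hτ hτd
      obtain ⟨x, y, hx, hy, hxy, rfl⟩ := mem_tri.1 hz
      simp only [(hXY x y).1, (hXY x y).2] at hτd ⊢
      have h1 : a + x • (b - a) + y • (p - a) + τ • (p - (1 / 2 : ℝ) • (a + b)) =
          a + (x - τ / 2) • (b - a) + (y + τ) • (p - a) := by module
      have h2 : min x (1 - x - y) ≤ x := min_le_left _ _
      have h3 : min x (1 - x - y) ≤ 1 - x - y := min_le_right _ _
      rw [h1, (hXY _ _).1, (hXY _ _).2]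
      refine ⟨mem_tri.2 ⟨_, _, by linarith, by linarith, by linarith, rfl⟩, ?_⟩
      have h4 : 1 - (x - τ / 2) - (y + τ) = 1 - x - y - τ / 2 := by ring
      rw [h4, min_sub_sub_right]
      ring
    · intro z hz hzS
      rcases hSD z hzS hz with h | h
      · obtain ⟨x, -, -, rfl⟩ := mem_seg'.1 h
        have h1 := hXY 0 x
        rw [zero_smul, add_zero] at h1
        have h2 := mem_tri.1 hz
        simp only [h1.1, h1.2]
        obtain ⟨x', y', hx', hy', hxy', he⟩ := h2
        have h3 := hXY x' y'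
        rw [← he, h1.1, h1.2] at h3
        rw [min_eq_left]
        · simp
        · linarith [h3.1, h3.2]
      · obtain ⟨x, hx0, hx1, rfl⟩ := mem_seg'.1 h
        have h1 := hXY x (1 - x)
        have h2 : a + x • (b - a) + (1 - x) • (p - a) = p + x • (b - p) := by module
        rw [h2] at h1
        simp only [h1.1, h1.2]
        have h3 : 1 - x - (1 - x) = 0 := by ring
        rw [h3, min_eq_right hx0, mul_zero]
    · intro z hz hz0
      obtain ⟨x, y, hx, hy, hxy, rfl⟩ := mem_tri.1 hz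
      simp only [(hXY x y).1, (hXY x y).2] at hz0
      apply hab
      have h0 : min x (1 - x - y) = 0 := by linarith
      rcases min_eq_iff.1 h0 with ⟨h1, -⟩ | ⟨h1, -⟩
      · left
        refine mem_seg'.2 ⟨y, hy, by linarith, ?_⟩
        rw [h1, zero_smul, add_zero]
      · right
        refine mem_seg'.2 ⟨x, hx, by linarith, ?_⟩
        have h2 : y = 1 - x := by linarith
        rw [h2]
        module

theorem sg : T_SEG := by
  intro n a b S O hS hO hSD hb
  by_cases hab : a = b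
  · subst hab
    refine ⟨fun z => z, ⟨⟨bijective_id, fun x => LD.id x⟩, ⟨0, fun z _ => rfl⟩, fun z _ => rfl⟩,
      fun z hz => ?_⟩
    rw [segment_same, mem_singleton_iff] at hz
    rw [hz]
    exact hb
  have hne : b - a ≠ 0 := sub_ne_zero.2 (Ne.symm hab)
  have hn2 : ‖b - a‖ ^ 2 ≠ 0 := pow_ne_zero 2 (norm_ne_zero_iff.2 hne)
  let X : E n → ℝ := fun z => inner ℝ (b - a) (z - a) / ‖b - a‖ ^ 2
  have hX : Continuous X := by fun_prop
  have hXs : ∀ x : ℝ, X (a + x • (b - a)) = x := by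
    intro x
    simp only [X]
    rw [add_sub_cancel_left, inner_smul_right, real_inner_self_eq_norm_sq]
    field_simp
  have hD : IsCompact (segment ℝ a b) := by
    rw [← convexHull_pair]
    have hfin : Set.Finite ({a, b} : Set (E n)) := by simp
    exact hfin.isCompact_convexHull ℝ
  refine fp n (segment ℝ a b) S O (b - a) (fun z => 1 - X z) hD hS hO (by fun_prop) ?_ ?_ ?_ ?_
  · intro z hz
    obtain ⟨x, hx0, hx1, rfl⟩ := mem_seg'.1 hz
    rw [hXs]
    linarith
  · intro z hz τ hτ hτd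
    obtain ⟨x, hx0, hx1, rfl⟩ := mem_seg'.1 hz
    rw [hXs] at hτd ⊢
    have h1 : a + x • (b - a) + τ • (b - a) = a + (x + τ) • (b - a) := by module
    rw [h1, hXs]
    exact ⟨mem_seg'.2 ⟨_, by linarith, by linarith, rfl⟩, by ring⟩
  · intro z hz hzS
    have h1 := hSD z hzS hz
    have h2 := hXs 1
    rw [one_smul, add_sub_cancel] at h2
    rw [h1, h2, sub_self]
  · intro z hz hz0
    obtain ⟨x, hx0, hx1, rfl⟩ := mem_seg'.1 hz
    rw [hXs] at hz0
    have h1 : x = 1 := by linarith
    rw [h1, one_smul, add_sub_cancel]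
    exact hb

end Pool.Agent.T2h58.Fp
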