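import Pool.Agent.T2h58.Sqn
import Pool.Agent.T2h58.Av

/-!
# Project CV: complements of thin sets are path connected, and simply connected if and only if the
manifold is
-/

set_option autoImplicit false

open Set Filter Topology Metric Function MeasureTheory
open scoped Manifold ContDiff NNReal ENNReal unitInterval

noncomputable section

namespace Pool.Agent.T2h58.Psc

open Pool.Agent.Y522 Pool.Agent.N550 Pool.Agent.N550.KH Pool.Agent.N550.TS.Flm

/-- thin sets have empty interior -/
theorem nonint {M : Type} [TopologicalSpace M] [ChartedSpace (E 4) M] [IsManifold (𝓡 4) ∞ M]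
    {A O : Set M} (hAn : NullH2 4 A) (hO : IsOpen O) (hne : O.Nonempty) : ∃ x ∈ O, x ∉ A := by
  obtain ⟨x, hx⟩ := hne
  obtain ⟨c, hc1, hc2, hc0⟩ := exists_cell0 (n := 4) x
  have hcont : Continuous c := continuous_iff_continuousAt.2 fun z => (hc2 z).continuousAt
  have h1 := Measure.dense_of_ae (Sqn.main (c ⁻¹' A) (fun _ => 0) (hAn c hc1 hc2) contDiff_const)
  have h2 : IsOpen ((fun w : E 4 => c (-w)) ⁻¹' O) := hO.preimage (hcont.comp continuous_neg)
  obtain ⟨w, hw, hw'⟩ := h1.inter_open_nonempty _ h2 ⟨0, by
    show c (-0) ∈ O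
    rw [neg_zero, hc0]
    exact hx⟩
  refine ⟨c (-w), hw, fun hcon => hw' 0 (by simp) 0 (by simp) ?_⟩
  show c (0 - w) ∈ A
  rw [zero_sub]
  exact hcon

/-- a path as a map of the square -/
def wide {M : Type} [TopologicalSpace M] {x y : M} (γ : Path x y) : C(Sq, M) :=
  ⟨fun s => γ s.1, γ.continuous.comp continuous_fst⟩

/-- two sides of the square -/
def sides : Set Sq := {s | s.1 = 0 ∨ s.1 = 1}

theorem sides_closed : IsClosed sides :=
  (isClosed_eq continuous_fst continuous_const).union (isClosed_eq continuous_fst continuous_const)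

/-- paths are pushed off thin sets -/
theorem push (hAV : T_AV) {M : Type} [TopologicalSpace M] [T2Space M] [ChartedSpace (E 4) M]
    [IsManifold (𝓡 4) ∞ M] {A : Set M} (hA : IsCompact A) (hAn : NullH2 4 A) {x y : M}
    (hx : x ∉ A) (hy : y ∉ A) (γ : Path x y) :
    ∃ γ' : Path x y, Path.Homotopic γ γ' ∧ ∀ s, γ' s ∉ A := by
  obtain ⟨H', ⟨F⟩, hH'⟩ := hAV M A (wide γ) sides hA hAn sides_closed (by
    rintro s (hs | hs)
    · show γ s.1 ∉ A
      rw [hs, γ.source]
      exact hx
    · show γ s.1 ∉ A
      rw [hs, γ.target]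
      exact hy)
  have hL : ∀ s ∈ sides, H' s = γ s.1 := fun s hs => (F.fst_eq_snd hs).symm
  let γ' : Path x y :=
    { toFun := fun s => H' (s, 0)
      continuous_toFun := H'.continuous.comp (by fun_prop)
      source' := by
        rw [hL _ (Or.inl rfl), γ.source]
      target' := by
        rw [hL _ (Or.inr rfl), γ.target] }
  refine ⟨γ', ⟨{ toFun := fun p => F (p.1, (p.2, 0))
                 continuous_toFun := F.continuous.comp (by fun_prop)
                 map_zero_left := fun s => ?_
                 map_one_left := fun s => ?_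
                 prop' := fun t s hs => ?_ }⟩, fun s => hH' _⟩
  · exact F.apply_zero _
  · exact F.apply_one _
  · have h1 : ((s, 0) : Sq) ∈ sides := by
      rcases hs with hs | hs
      · exact Or.inl hs
      · exact Or.inr hs
    exact F.eq_fst t h1

theorem pc (hAV : T_AV) : T_PC := by
  intro M _ _ _ _ A hA hAn
  refine ⟨fun O hO hne => nonint hAn hO hne, fun hM => ?_⟩
  rw [← isPathConnected_iff_pathConnectedSpace]
  obtain ⟨x, -, hx⟩ := nonint (A := A) hAn isOpen_univ univ_nonempty
  refine ⟨x, hx, fun {y} hy => ?_⟩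
  obtain ⟨γ', -, hγ'⟩ := push hAV hA hAn hx hy (PathConnectedSpace.somePath x y)
  exact ⟨γ', hγ'⟩

theorem sc (hAV : T_AV) : T_SC := by
  intro M _ _ _ _ _ A hA hAn
  constructor
  · intro hM
    rw [simply_connected_iff_paths_homotopic']
    refine ⟨(pc hAV M A hA hAn).2 inferInstance, fun {x y} p q => ?_⟩
    obtain ⟨F⟩ := SimplyConnectedSpace.paths_homotopic (p.map continuous_subtype_val)
      (q.map continuous_subtype_val)
    let L : Set Sq := {s | (s.1 = 0 ∨ s.1 = 1) ∨ s.2 = 0 ∨ s.2 = 1}
    have hL : IsClosed L :=
      ((isClosed_eq continuous_fst continuous_const).union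
        (isClosed_eq continuous_fst continuous_const)).union
      ((isClosed_eq continuous_snd continuous_const).union
        (isClosed_eq continuous_snd continuous_const))
    have hF0 : ∀ s : I, F (0, s) = (p s : M) := fun s => F.apply_zero s
    have hF1 : ∀ s : I, F (1, s) = (q s : M) := fun s => F.apply_one s
    have hFl : ∀ t : I, F (t, 0) = (x : M) := fun t => Path.Homotopy.source F t
    have hFr : ∀ t : I, F (t, 1) = (y : M) := fun t => Path.Homotopy.target F t
    let H : C(Sq, M) := ⟨fun s => F s, F.continuous⟩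
    have hHs : ∀ s, H s = F s := fun _ => rfl
    obtain ⟨H', hH', hH''⟩ := hAV M A H L hA hAn hL (by
      rintro ⟨t, s⟩ hts
      rw [hHs]
      rcases hts with (hts | hts) | hts | hts
      · simp only at hts
        rw [hts, hF0]
        exact (p s).2
      · simp only at hts
        rw [hts, hF1]
        exact (q s).2
      · simp only at hts
        rw [hts, hFl]
        exact x.2
      · simp only at hts
        rw [hts, hFr]
        exact y.2)
    have hHL : ∀ s ∈ L, H' s = F s := fun s hs =>
      (ContinuousMap.HomotopicRel.fst_eq_snd hH' hs).symm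
    refine ⟨{ toFun := fun s => ⟨H' s, hH'' s⟩
              continuous_toFun := H'.continuous.subtype_mk _
              map_zero_left := fun s => Subtype.ext ?_
              map_one_left := fun s => Subtype.ext ?_
              prop' := fun t s hs => Subtype.ext ?_ }⟩
    · show H' (0, s) = p s
      rw [hHL _ (Or.inl (Or.inl rfl)), hF0]
    · show H' (1, s) = q s
      rw [hHL _ (Or.inl (Or.inr rfl)), hF1]
    · show H' (t, s) = p s
      rcases hs with hs | hs
      · rw [hs, hHL _ (Or.inr (Or.inl rfl)), hFl, p.source]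
      · rw [mem_singleton_iff] at hs
        rw [hs, hHL _ (Or.inr (Or.inr rfl)), hFr, p.target]
  · intro hA'
    rw [simply_connected_iff_loops_nullhomotopic]
    refine ⟨inferInstance, fun x γ => ?_⟩
    obtain ⟨x₀, -, hx₀⟩ := nonint (A := A) hAn isOpen_univ univ_nonempty
    -- loops at the base point
    have hloop : ∀ δ : Path x₀ x₀, Path.Homotopic δ (Path.refl x₀) := by
      intro δ
      obtain ⟨δ', h1, h2⟩ := push hAV hA hAn hx₀ hx₀ δ
      let b : ↥Aᶜ := ⟨x₀, hx₀⟩
      let ε : Path b b :=
        { toFun := fun s => ⟨δ' s, h2 s⟩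
          continuous_toFun := δ'.continuous.subtype_mk _
          source' := Subtype.ext δ'.source
          target' := Subtype.ext δ'.target }
      have h3 : Path.Homotopic ε (Path.refl b) := SimplyConnectedSpace.paths_homotopic _ _
      have h4 := Path.Homotopic.map h3 (⟨Subtype.val, continuous_subtype_val⟩ : C(↥Aᶜ, M))
      have h5 : ε.map (⟨Subtype.val, continuous_subtype_val⟩ : C(↥Aᶜ, M)).continuous = δ' := by
        ext s
        rfl
      have h6 : (Path.refl b).map (⟨Subtype.val, continuous_subtype_val⟩ : C(↥Aᶜ, M)).continuous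
          = Path.refl x₀ := by
        ext s
        rfl
      rw [h5, h6] at h4
      exact h1.trans h4
    let δ : Path x₀ x := PathConnectedSpace.somePath x₀ x
    have h7 := hloop ((δ.trans γ).trans δ.symm)
    rw [← Path.Homotopic.Quotient.eq]
    have h8 : Path.Homotopic.Quotient.mk ((δ.trans γ).trans δ.symm) =
        Path.Homotopic.Quotient.mk (Path.refl x₀) := Path.Homotopic.Quotient.eq.2 h7
    rw [Path.Homotopic.Quotient.mk_trans, Path.Homotopic.Quotient.mk_trans,
      Path.Homotopic.Quotient.mk_symm] at h8
    set d := Path.Homotopic.Quotient.mk δ with hd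
    set g := Path.Homotopic.Quotient.mk γ with hg
    have h9 : g = ((d.symm.trans ((d.trans g).trans d.symm)).trans d) := by
      rw [Path.Homotopic.Quotient.trans_assoc, Path.Homotopic.Quotient.trans_assoc]
      simp [← Path.Homotopic.Quotient.trans_assoc]
    rw [h9, h8]
    simp

end Pool.Agent.T2h58.Psc
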