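import Pool.Agent.T2h58.Flm2

/-!
# Project CV: collapse of a ball of a cell
-/

set_option autoImplicit false

open Set Filter Topology Metric Function MeasureTheory
open scoped Manifold ContDiff

noncomputable section

namespace Pool.Agent.T2h58.Rad

open Pool.Agent.Y522 Pool.Agent.N550 Pool.Agent.N550.KH Pool.Agent.N550.KH.Supp
  Pool.Agent.N550.TS.Flm Pool.Agent.T2h58 Pool.Agent.T2h58.Flm2

/-- the factor -/
def fac (R t : ℝ) : ℝ := Real.smoothTransition ((t - R ^ 2) / (2 * R + 1))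

section

variable {R : ℝ}

theorem fac_smooth (R : ℝ) : ContDiff ℝ ∞ (fac R) :=
  Real.smoothTransition.contDiff.comp ((contDiff_id.sub contDiff_const).div_const _)

theorem fac_mono (hR : 0 < R) : Monotone (fac R) := by
  intro s t hst
  apply Real.smoothTransition.monotone
  have : 0 < 2 * R + 1 := by positivity
  gcongr

theorem fac_zero (hR : 0 < R) {t : ℝ} (ht : t ≤ R ^ 2) : fac R t = 0 := by
  apply Real.smoothTransition.zero_of_nonpos
  exact div_nonpos_of_nonpos_of_nonneg (by linarith) (by positivity)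

theorem fac_pos (hR : 0 < R) {t : ℝ} (ht : R ^ 2 < t) : 0 < fac R t := by
  apply Real.smoothTransition.pos_of_pos
  have : 0 < t - R ^ 2 := by linarith
  positivity

theorem fac_one (hR : 0 < R) {t : ℝ} (ht : (R + 1) ^ 2 ≤ t) : fac R t = 1 := by
  apply Real.smoothTransition.one_of_one_le
  rw [le_div_iff₀ (by positivity)]
  nlinarith

theorem fac_nonneg (R t : ℝ) : 0 ≤ fac R t := Real.smoothTransition.nonneg _

theorem far (hR : 0 < R) {n : ℕ} {v : E n} (hv : R + 1 ≤ ‖v‖) : rad (fac R) v = v := by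
  unfold rad
  rw [fac_one hR (pow_le_pow_left₀ (by positivity) hv 2), one_smul]

theorem near (hR : 0 < R) {n : ℕ} {v : E n} (hv : ‖v‖ ≤ R) : rad (fac R) v = 0 := by
  unfold rad
  rw [fac_zero hR (pow_le_pow_left₀ (norm_nonneg _) hv 2), zero_smul]

theorem norm_rad {n : ℕ} (v : E n) : ‖rad (fac R) v‖ = fac R (‖v‖ ^ 2) * ‖v‖ := by
  unfold rad
  rw [norm_smul, Real.norm_eq_abs, abs_of_nonneg (fac_nonneg R _)]

theorem lt (hR : 0 < R) {s t : ℝ} (hs : R < t) (h0 : 0 ≤ s) (hst : s < t) :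
    fac R (s ^ 2) * s < fac R (t ^ 2) * t := by
  have h2 : fac R (s ^ 2) ≤ fac R (t ^ 2) := fac_mono hR (pow_le_pow_left₀ h0 hst.le 2)
  have h3 : 0 < fac R (t ^ 2) := fac_pos hR (pow_lt_pow_left₀ hs hR.le (by norm_num))
  calc fac R (s ^ 2) * s ≤ fac R (t ^ 2) * s := mul_le_mul_of_nonneg_right h2 h0
    _ < fac R (t ^ 2) * t := mul_lt_mul_of_pos_left hst h3

theorem inj (hR : 0 < R) {n : ℕ} {v w : E n} (hv : R < ‖v‖) (hw : R < ‖w‖)
    (h : rad (fac R) v = rad (fac R) w) : v = w := by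
  have h2 : fac R (‖v‖ ^ 2) * ‖v‖ = fac R (‖w‖ ^ 2) * ‖w‖ := by
    rw [← norm_rad, ← norm_rad, h]
  have h3 : ‖v‖ = ‖w‖ := by
    rcases lt_trichotomy ‖v‖ ‖w‖ with h | h | h
    · exact absurd h2 (lt hR hw (norm_nonneg _) h).ne
    · exact h
    · exact absurd h2 (lt hR hv (norm_nonneg _) h).ne'
  unfold rad at h
  rw [h3] at h
  exact smul_right_injective (E n)
    (fac_pos hR (pow_lt_pow_left₀ hw hR.le (by norm_num))).ne' h

theorem surj (hR : 0 < R) {n : ℕ} {w : E n} (hw0 : w ≠ 0) :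
    ∃ v : E n, R < ‖v‖ ∧ rad (fac R) v = w := by
  have hw : 0 < ‖w‖ := norm_pos_iff.2 hw0
  have hcr : Continuous fun s : ℝ => fac R (s ^ 2) * s := by
    have := (fac_smooth R).continuous
    fun_prop
  have hle : R ≤ max (R + 1) ‖w‖ := le_trans (by linarith) (le_max_left _ _)
  have h2 : ‖w‖ ∈ (fun s : ℝ => fac R (s ^ 2) * s) '' Icc R (max (R + 1) ‖w‖) := by
    refine intermediate_value_Icc hle hcr.continuousOn ⟨?_, ?_⟩
    · simp [fac_zero hR le_rfl]
    · have h3 : fac R ((max (R + 1) ‖w‖) ^ 2) = 1 :=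
        fac_one hR (pow_le_pow_left₀ (by positivity) (le_max_left _ _) 2)
      show ‖w‖ ≤ fac R ((max (R + 1) ‖w‖) ^ 2) * max (R + 1) ‖w‖
      rw [h3, one_mul]
      exact le_max_right _ _
  obtain ⟨s, ⟨hs0, -⟩, hs⟩ := h2
  simp only at hs
  have hsR : R < s := by
    rcases hs0.lt_or_eq with h | h
    · exact h
    · rw [← h, fac_zero hR le_rfl, zero_mul] at hs
      exact absurd hs hw.ne
  have hs' : 0 < s := hR.trans hsR
  have h3 : ‖(s / ‖w‖) • w‖ = s := by
    rw [norm_smul, Real.norm_eq_abs, abs_of_nonneg (by positivity)]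
    field_simp
  refine ⟨(s / ‖w‖) • w, by rw [h3]; exact hsR, ?_⟩
  unfold rad
  rw [h3, smul_smul]
  have h4 : fac R (s ^ 2) * (s / ‖w‖) = 1 := by
    rw [← mul_div_assoc, hs, div_self hw.ne']
  rw [h4, one_smul]

end

/-- the collapse of the ball of radius `R` of a cell -/
theorem coll {N : Type} [TopologicalSpace N] [T2Space N] [ChartedSpace (E 4) N]
    [IsManifold (𝓡 4) ∞ N] {c : E 4 → N} {R : ℝ} (hc : CellMap c) (hR : 0 < R) :
    ∃ r : N → N, (∀ x, ContMDiffAt (𝓡 4) (𝓡 4) ∞ r x) ∧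
      (∀ x, x ∉ c '' closedBall 0 R → LD 4 r x) ∧ InjOn r (c '' closedBall 0 R)ᶜ ∧
      r '' (c '' closedBall 0 R)ᶜ = {c 0}ᶜ ∧ ∀ x ∈ c '' closedBall 0 R, r x = c 0 := by
  have hfar : ∀ z : E 4, R + 1 ≤ ‖z‖ → rad (fac R) z = z := fun z hz => far hR hz
  have hball : ∀ z : E 4, c z ∈ c '' closedBall 0 R ↔ ‖z‖ ≤ R := fun z => by
    rw [hc.1.mem_set_image, mem_closedBall_zero_iff]
  refine ⟨act c (rad (fac R)), fun x => act_smooth hc.1 hc.2 hfar (rad_smooth (fac_smooth R)) x,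
    fun x hx => ?_, fun x hx y hy hxy => ?_, ?_, ?_⟩
  · refine act_ld hc.1 hc.2 hfar fun z hz => ?_
    rw [← hz, hball, not_le] at hx
    exact rad_ld (fac_smooth R) (fac_mono hR)
      (fac_pos hR (pow_lt_pow_left₀ hx hR.le (by norm_num)))
  · by_cases hxr : x ∈ range c
    · obtain ⟨z, rfl⟩ := hxr
      rw [act_range hc.1] at hxy
      rw [mem_compl_iff, hball, not_le] at hx
      by_cases hyr : y ∈ range c
      · obtain ⟨w, rfl⟩ := hyr
        rw [act_range hc.1] at hxy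
        rw [mem_compl_iff, hball, not_le] at hy
        rw [inj hR hx hy (hc.1 hxy)]
      · rw [act_off _ hyr] at hxy
        exact absurd ⟨_, hxy⟩ hyr
    · rw [act_off _ hxr] at hxy
      by_cases hyr : y ∈ range c
      · obtain ⟨w, rfl⟩ := hyr
        rw [act_range hc.1] at hxy
        exact absurd ⟨_, hxy.symm⟩ hxr
      · rw [act_off _ hyr] at hxy
        exact hxy
  · ext y
    rw [mem_compl_iff, mem_singleton_iff]
    constructor
    · rintro ⟨x, hx, rfl⟩ hcon
      by_cases hxr : x ∈ range c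
      · obtain ⟨z, rfl⟩ := hxr
        rw [act_range hc.1] at hcon
        rw [mem_compl_iff, hball, not_le] at hx
        have h1 := hc.1 hcon
        have h2 : ‖rad (fac R) z‖ = 0 := by rw [h1, norm_zero]
        rw [norm_rad] at h2
        have h3 := fac_pos hR (pow_lt_pow_left₀ hx hR.le (by norm_num : (2 : ℕ) ≠ 0))
        have h4 : 0 < ‖z‖ := hR.trans hx
        have h5 : 0 < fac R (‖z‖ ^ 2) * ‖z‖ := mul_pos h3 h4
        exact h5.ne' h2
      · rw [act_off _ hxr] at hcon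
        exact hxr ⟨0, hcon.symm⟩
    · intro hy
      by_cases hyr : y ∈ range c
      · obtain ⟨w, rfl⟩ := hyr
        have hw : w ≠ 0 := fun h => hy (by rw [h])
        obtain ⟨v, hv, hvw⟩ := surj hR hw
        refine ⟨c v, ?_, ?_⟩
        · rw [mem_compl_iff, hball, not_le]
          exact hv
        · rw [act_range hc.1, hvw]
      · exact ⟨y, fun h => hyr (image_subset_range _ _ h), act_off _ hyr⟩
  · rintro _ ⟨z, hz, rfl⟩
    rw [mem_closedBall_zero_iff] at hz
    rw [act_range hc.1, near hR hz]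

theorem main : T_RAD := by
  intro N _ _ _ _ c R hc hR
  obtain ⟨r, -, hr, hri, hrs, -⟩ := coll hc hR
  have hcont : Continuous c := continuous_iff_continuousAt.2 fun z => (hc.2 z).continuousAt
  have hKo : IsOpen (c '' closedBall 0 R)ᶜ :=
    ((isCompact_closedBall (0 : E 4) R).image hcont).isClosed.isOpen_compl
  classical
  have hmem : ∀ y : N, y ≠ c 0 → ∃ x ∈ (c '' closedBall 0 R)ᶜ, r x = y := by
    intro y hy
    have : y ∈ r '' (c '' closedBall 0 R)ᶜ := by
      rw [hrs]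
      exact hy
    exact this
  choose! θ hθ1 hθ2 using hmem
  have hinv : ∀ x ∈ (c '' closedBall 0 R)ᶜ, θ (r x) = x := by
    intro x hx
    have hrx : r x ≠ c 0 := by
      have : r x ∈ r '' (c '' closedBall 0 R)ᶜ := ⟨x, hx, rfl⟩
      rw [hrs] at this
      exact this
    exact hri (hθ1 _ hrx) hx (hθ2 _ hrx)
  refine ⟨θ, fun y hy => ?_, fun y hy y' hy' h => ?_, ?_⟩
  · have h1 := LD.inverse (n := 4) hKo (fun x hx => hr x hx) hinv (hθ1 y hy)
    rw [hθ2 y hy] at h1
    exact h1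
  · rw [← hθ2 y hy, ← hθ2 y' hy', h]
  · ext x
    constructor
    · rintro ⟨y, hy, rfl⟩
      exact hθ1 y hy
    · intro hx
      refine ⟨r x, ?_, hinv x hx⟩
      have : r x ∈ r '' (c '' closedBall 0 R)ᶜ := ⟨x, hx, rfl⟩
      rw [hrs] at this
      exact this

end Pool.Agent.T2h58.Rad
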