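import Pool.Agent.T2h58.Reg

/-!
# Project TC (thin complements): the region near a thin set is an open cell
-/

set_option autoImplicit false

open Set Filter Topology Metric Function MeasureTheory
open scoped Manifold ContDiff

noncomputable section

namespace Pool.Agent.T2h58.Reg

open Pool.Agent.Y522 Pool.Agent.N550 Pool.Agent.N550.KH Pool.Agent.N550.SH

variable {m : ℕ}

/-- a function which is constant near `-∞` and the identity on `[0, ∞)`, of the same sign as `t` -/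
def Th (d t : ℝ) : ℝ := -1 + Real.smoothTransition (2 * (t + d) / d) * (t + 1)

theorem Th_smooth (d : ℝ) : ContDiff ℝ ∞ (Th d) := by
  unfold Th
  refine contDiff_const.add (ContDiff.mul ?_ (contDiff_id.add contDiff_const))
  exact Real.smoothTransition.contDiff.comp
    ((contDiff_const.mul (contDiff_id.add contDiff_const)).div_const d)

theorem Th_low {d t : ℝ} (hd : 0 < d) (ht : t ≤ -d) : Th d t = -1 := by
  unfold Th
  rw [Real.smoothTransition.zero_of_nonpos, zero_mul, add_zero]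
  exact div_nonpos_of_nonpos_of_nonneg (by linarith) hd.le

theorem Th_high {d t : ℝ} (hd : 0 < d) (ht : -(d / 2) ≤ t) : Th d t = t := by
  unfold Th
  rw [Real.smoothTransition.one_of_one_le]
  · ring
  · rw [le_div_iff₀ hd]
    linarith

theorem Th_neg {d t : ℝ} (ht : t < 0) : Th d t < 0 := by
  unfold Th
  have h1 := Real.smoothTransition.nonneg (2 * (t + d) / d)
  have h2 := Real.smoothTransition.le_one (2 * (t + d) / d)
  rcases le_total 0 (t + 1) with h | h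
  · have : Real.smoothTransition (2 * (t + d) / d) * (t + 1) ≤ 1 * (t + 1) :=
      mul_le_mul_of_nonneg_right h2 h
    linarith
  · have : Real.smoothTransition (2 * (t + d) / d) * (t + 1) ≤ 0 :=
      mul_nonpos_of_nonneg_of_nonpos h1 h
    linarith

theorem Th_pos {d t : ℝ} (hd : 0 < d) (ht : 0 ≤ t) : Th d t = t := Th_high hd (by linarith)

theorem Th_nonpos_iff {d t : ℝ} (hd : 0 < d) : Th d t ≤ 0 ↔ t ≤ 0 := by
  constructor
  · intro h
    by_contra hcon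
    rw [Th_pos hd (not_le.1 hcon).le] at h
    exact hcon h
  · intro h
    rcases h.lt_or_eq with h | h
    · exact (Th_neg h).le
    · rw [Th_pos hd h.ge, h]

theorem Th_eq_zero_iff {d t : ℝ} (hd : 0 < d) : Th d t = 0 ↔ t = 0 := by
  constructor
  · intro h
    rcases lt_or_ge t 0 with h1 | h1
    · exact absurd h (Th_neg h1).ne
    · rwa [Th_pos hd h1] at h
  · rintro rfl
    exact Th_pos hd le_rfl

theorem Th_neg_iff {d t : ℝ} (hd : 0 < d) : Th d t < 0 ↔ t < 0 := by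
  constructor
  · intro h
    by_contra hcon
    rw [Th_pos hd (not_lt.1 hcon)] at h
    exact hcon h
  · exact Th_neg

/-- **The region near a thin set is an open cell.** -/
theorem cell_region {N : Type} [TopologicalSpace N] [ChartedSpace (E (m + 1)) N]
    (A₀ : Set (E (m + 1))) (hA : IsClosed A₀) (B W : Set N) (q e : E (m + 1) → N)
    (z₀ : E (m + 1)) (R₂ R₀ R₁ : ℝ) (h20 : 0 < R₂) (h2 : R₂ < R₀) (h1 : R₀ < R₁)
    (hq : ∀ z, z ∉ A₀ → LD (m + 1) q z) (hqi : InjOn q A₀ᶜ) (hqB : ∀ z, z ∉ A₀ → q z ∉ B)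
    (hqW : ∀ y ∈ W, y ∉ B → ∃ z, z ∉ A₀ ∧ q z = y)
    (he : ∀ w ∈ ball z₀ R₁, LD (m + 1) e w) (hei : InjOn e (ball z₀ R₁))
    (heW : ∀ w ∈ ball z₀ R₁, e w ∈ W) (hB : B ⊆ e '' ball z₀ R₂)
    (ho : ∀ V : Set N, IsOpen V → B ⊆ V → IsOpen {z | z ∈ A₀ ∨ q z ∈ V})
    (hc : IsCompact {z | z ∈ A₀ ∨ q z ∈ e '' closedBall z₀ R₀}) :
    ∃ c : E (m + 1) → E (m + 1), Injective c ∧ (∀ z, LD (m + 1) c z) ∧
      range c = {z | z ∈ A₀ ∨ q z ∈ e '' ball z₀ R₀} := by
  classical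
  have hn : (∞ : WithTop ℕ∞) ≠ 0 := by simp
  have h0 : 0 < R₀ := h20.trans h2
  have hd : 0 < R₀ ^ 2 - R₂ ^ 2 := by nlinarith
  set d : ℝ := R₀ ^ 2 - R₂ ^ 2 with hdd
  -- the inverses
  have hne : Nonempty (E (m + 1)) := ⟨0⟩
  obtain ⟨ei, hei'⟩ : ∃ ei : N → E (m + 1), ∀ w ∈ ball z₀ R₁, ei (e w) = w :=
    ⟨invFunOn e (ball z₀ R₁), fun x hx => hei.leftInvOn_invFunOn hx⟩
  have heiL : ∀ w ∈ ball z₀ R₁, LD (m + 1) ei (e w) := fun w hw =>
    LD.inverse isOpen_ball he hei' hw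
  obtain ⟨qi, hqi'⟩ : ∃ qi : N → E (m + 1), ∀ z ∈ A₀ᶜ, qi (q z) = z :=
    ⟨invFunOn q A₀ᶜ, fun x hx => hqi.leftInvOn_invFunOn hx⟩
  have hqiL : ∀ z ∈ A₀ᶜ, LD (m + 1) qi (q z) := fun z hz =>
    LD.inverse hA.isOpen_compl (fun x hx => hq x hx) hqi' hz
  -- the function
  set t : E (m + 1) → ℝ := fun z => ‖ei (q z) - z₀‖ ^ 2 - R₀ ^ 2 with ht
  set φ : E (m + 1) → ℝ := fun z => if z ∈ A₀ then -1 else Th d (t z) with hφd
  have hφA : ∀ z, z ∈ A₀ → φ z = -1 := fun z hz => by simp only [hφd]; rw [if_pos hz]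
  have hφ' : ∀ z, z ∉ A₀ → φ z = Th d (t z) := fun z hz => by simp only [hφd]; rw [if_neg hz]
  have hte : ∀ z w, w ∈ ball z₀ R₁ → e w = q z → t z = ‖w - z₀‖ ^ 2 - R₀ ^ 2 := by
    intro z w hw hwz
    simp only [ht]
    rw [← hwz, hei' w hw]
  set N₀ : Set (E (m + 1)) := {z | z ∈ A₀ ∨ q z ∈ e '' ball z₀ R₁} with hN₀
  have hopen : ∀ r, R₂ ≤ r → r ≤ R₁ → IsOpen {z | z ∈ A₀ ∨ q z ∈ e '' ball z₀ r} := by
    intro r hr hr1
    refine ho _ (isOpen_image_of_LD isOpen_ball fun w hw => he w (ball_subset_ball hr1 hw)) ?_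
    exact hB.trans (image_mono (ball_subset_ball hr))
  have hN₀o : IsOpen N₀ := hopen R₁ (h2.trans h1).le le_rfl
  have hR01 : ball z₀ R₀ ⊆ ball z₀ R₁ := ball_subset_ball h1.le
  have hcR01 : closedBall z₀ R₀ ⊆ ball z₀ R₁ := closedBall_subset_ball h1
  -- membership by the sign of `φ`
  have hsq : ∀ w : E (m + 1), ‖w - z₀‖ ^ 2 - R₀ ^ 2 ≤ 0 ↔ ‖w - z₀‖ ≤ R₀ := by
    intro w
    rw [sub_nonpos, sq_le_sq₀ (norm_nonneg _) h0.le]
  have hsq' : ∀ w : E (m + 1), ‖w - z₀‖ ^ 2 - R₀ ^ 2 < 0 ↔ ‖w - z₀‖ < R₀ := by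
    intro w
    rw [sub_neg, sq_lt_sq₀ (norm_nonneg _) h0.le]
  have hsq0 : ∀ w : E (m + 1), ‖w - z₀‖ ^ 2 - R₀ ^ 2 = 0 ↔ ‖w - z₀‖ = R₀ := by
    intro w
    rw [sub_eq_zero, pow_left_inj₀ (norm_nonneg _) h0.le two_ne_zero]
  have hle : {z | z ∈ N₀ ∧ φ z ≤ 0} = {z | z ∈ A₀ ∨ q z ∈ e '' closedBall z₀ R₀} := by
    ext z
    simp only [mem_ofPred_eq, hN₀]
    by_cases hz : z ∈ A₀
    · simp [hz, hφA z hz]
    · rw [hφ' z hz, Th_nonpos_iff hd]
      constructor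
      · rintro ⟨h3 | ⟨w, hw, hwz⟩, h4⟩
        · exact absurd h3 hz
        · rw [hte z w hw hwz, hsq] at h4
          exact Or.inr ⟨w, by rw [mem_closedBall, dist_eq_norm]; exact h4, hwz⟩
      · rintro (h3 | ⟨w, hw, hwz⟩)
        · exact absurd h3 hz
        · refine ⟨Or.inr ⟨w, hcR01 hw, hwz⟩, ?_⟩
          rw [hte z w (hcR01 hw) hwz, hsq]
          rwa [mem_closedBall, dist_eq_norm] at hw
  have hlt : {z | z ∈ N₀ ∧ φ z < 0} = {z | z ∈ A₀ ∨ q z ∈ e '' ball z₀ R₀} := by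
    ext z
    simp only [mem_ofPred_eq, hN₀]
    by_cases hz : z ∈ A₀
    · simp [hz, hφA z hz]
    · rw [hφ' z hz, Th_neg_iff hd]
      constructor
      · rintro ⟨h3 | ⟨w, hw, hwz⟩, h4⟩
        · exact absurd h3 hz
        · rw [hte z w hw hwz, hsq'] at h4
          exact Or.inr ⟨w, by rw [mem_ball, dist_eq_norm]; exact h4, hwz⟩
      · rintro (h3 | ⟨w, hw, hwz⟩)
        · exact absurd h3 hz
        · refine ⟨Or.inr ⟨w, hR01 hw, hwz⟩, ?_⟩
          rw [hte z w (hR01 hw) hwz, hsq']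
          rwa [mem_ball, dist_eq_norm] at hw
  have heq : ∀ z, z ∈ N₀ → φ z = 0 → z ∉ A₀ ∧ ∃ w, ‖w - z₀‖ = R₀ ∧ e w = q z := by
    intro z hz hz0
    have hzA : z ∉ A₀ := fun h => by
      rw [hφA z h] at hz0
      norm_num at hz0
    refine ⟨hzA, ?_⟩
    rcases hz with h3 | ⟨w, hw, hwz⟩
    · exact absurd h3 hzA
    · rw [hφ' z hzA, Th_eq_zero_iff hd, hte z w hw hwz, hsq0] at hz0
      exact ⟨w, hz0, hwz⟩
  have hwR : ∀ w : E (m + 1), ‖w - z₀‖ = R₀ → w ∈ ball z₀ R₁ := fun w hw => by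
    rw [mem_ball, dist_eq_norm, hw]; exact h1
  have heB : ∀ w : E (m + 1), ‖w - z₀‖ = R₀ → e w ∉ B := by
    intro w hw hwB
    obtain ⟨w', hw', hww⟩ := hB hwB
    have h3 : w' = w := hei (ball_subset_ball (h2.trans h1).le hw') (hwR w hw) hww
    rw [h3, mem_ball, dist_eq_norm, hw] at hw'
    exact absurd hw' (not_lt.2 h2.le)
  -- the transition map
  have hT : ∀ z, z ∉ A₀ → ∀ w ∈ ball z₀ R₁, e w = q z → LD (m + 1) (fun z => ei (q z)) z := by
    intro z hz w hw hwz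
    refine LD.comp_fun (g := ei) (f := q) ?_ (hq z hz)
    rw [← hwz]
    exact heiL w hw
  have hevA : ∀ z, z ∉ A₀ → ∀ᶠ y in 𝓝 z, y ∉ A₀ := fun z hz => hA.isOpen_compl.mem_nhds hz
  have hφs : ∀ z ∈ N₀, ContDiffAt ℝ ∞ φ z := by
    intro z hz
    by_cases hzA : z ∈ A₀
    · have h3 : {z | z ∈ A₀ ∨ q z ∈ e '' ball z₀ R₂} ∈ 𝓝 z :=
        (hopen R₂ le_rfl (h2.trans h1).le).mem_nhds (Or.inl hzA)
      have h4 : φ =ᶠ[𝓝 z] fun _ => -1 := by
        filter_upwards [h3] with y hy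
        by_cases hyA : y ∈ A₀
        · exact hφA y hyA
        · rcases hy with hy | ⟨w, hw, hwy⟩
          · exact absurd hy hyA
          · rw [hφ' y hyA, hte y w (ball_subset_ball (h2.trans h1).le hw) hwy]
            refine Th_low hd ?_
            rw [mem_ball, dist_eq_norm] at hw
            have : ‖w - z₀‖ ^ 2 ≤ R₂ ^ 2 := pow_le_pow_left₀ (norm_nonneg _) hw.le 2
            linarith
      exact contDiffAt_const.congr_of_eventuallyEq h4
    · rcases hz with h3 | ⟨w, hw, hwz⟩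
      · exact absurd h3 hzA
      · have h4 : φ =ᶠ[𝓝 z] fun y => Th d (t y) := by
          filter_upwards [hevA z hzA] with y hy
          exact hφ' y hy
        refine ContDiffAt.congr_of_eventuallyEq ?_ h4
        have h5 : ContDiffAt ℝ ∞ (fun z => ei (q z)) z := (hT z hzA w hw hwz).contDiffAt
        have h6 : ContDiffAt ℝ ∞ t z := ((h5.sub contDiffAt_const).norm_sq ℝ).sub contDiffAt_const
        exact (Th_smooth d).contDiffAt.comp z h6
  rw [← hlt]
  refine region N₀ φ (fun w => qi (e w)) z₀ R₀ h0 hN₀o hφs (by rw [hle]; exact hc) ?_ ?_ ?_ ?_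
  · -- regularity
    intro z hz hz0 hcon
    obtain ⟨hzA, w, hw, hwz⟩ := heq z hz hz0
    have hLT := hT z hzA w (hwR w hw) hwz
    obtain ⟨L, hL⟩ := hLT.exists_equiv
    have hval : ei (q z) = w := by rw [← hwz, hei' w (hwR w hw)]
    have h3 : HasFDerivAt (fun z => ei (q z) - z₀) (L : E (m + 1) →L[ℝ] E (m + 1)) z :=
      hL.sub_const z₀
    have h4 := (h3.norm_sq).sub_const (R₀ ^ 2)
    have h5 : φ =ᶠ[𝓝 z] t := by
      have hct : ContinuousAt t z :=
        (((hLT.contDiffAt.sub contDiffAt_const).norm_sq ℝ).sub contDiffAt_const).continuousAt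
      have ht0 : t z = 0 := by rw [hte z w (hwR w hw) hwz, hsq0]; exact hw
      have h6 : ∀ᶠ y in 𝓝 z, -(d / 2) < t y := by
        refine hct.eventually (lt_mem_nhds ?_)
        rw [ht0]
        linarith
      filter_upwards [hevA z hzA, h6] with y hy hy2
      rw [hφ' y hy, Th_high hd hy2.le]
    have h6 : fderiv ℝ φ z = fderiv ℝ t z := h5.fderiv_eq
    have h7 : HasFDerivAt t _ z := h4
    rw [h6, h7.fderiv] at hcon
    have h8 := congrArg (fun F => F (L.symm (w - z₀))) hcon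
    simp only [smul_apply, ContinuousLinearMap.comp_apply,
      ContinuousLinearEquiv.coe_coe, ContinuousLinearEquiv.apply_symm_apply,
      zero_apply] at h8
    rw [hval] at h8
    simp only [innerSL_apply_apply, real_inner_self_eq_norm_sq, hw] at h8
    have h9 : R₀ ^ 2 ≠ 0 := by positivity
    simp [h0.ne'] at h8
  · -- the parametrization is a local diffeomorphism
    intro w hw
    obtain ⟨z, hzA, hzw⟩ := hqW _ (heW w (hwR w hw)) (heB w hw)
    refine LD.comp_fun (g := qi) (f := e) ?_ (he w (hwR w hw))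
    rw [← hzw]
    exact hqiL z hzA
  · intro w w' hw hw' hww
    obtain ⟨z, hzA, hzw⟩ := hqW _ (heW w (hwR w hw)) (heB w hw)
    obtain ⟨z', hzA', hzw'⟩ := hqW _ (heW w' (hwR w' hw')) (heB w' hw')
    rw [← hzw, ← hzw', hqi' z hzA, hqi' z' hzA'] at hww
    refine hei (hwR w hw) (hwR w' hw') ?_
    rw [← hzw, ← hzw', hww]
  · intro z
    constructor
    · rintro ⟨hz, hz0⟩
      obtain ⟨hzA, w, hw, hwz⟩ := heq z hz hz0
      exact ⟨w, hw, by rw [hwz, hqi' z hzA]⟩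
    · rintro ⟨w, hw, hwz⟩
      obtain ⟨z', hzA', hzw'⟩ := hqW _ (heW w (hwR w hw)) (heB w hw)
      rw [← hzw', hqi' z' hzA'] at hwz
      subst hwz
      refine ⟨Or.inr ⟨w, hwR w hw, hzw'.symm⟩, ?_⟩
      rw [hφ' z' hzA', Th_eq_zero_iff hd, hte z' w (hwR w hw) hzw'.symm, hsq0]
      exact hw

end Pool.Agent.T2h58.Reg
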