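import Pool.Agent.T2h58.Stm5

/-!
# Project CV: generic translates of a smooth square miss a thin set
-/

set_option autoImplicit false

open Set Filter Topology Metric Function MeasureTheory
open scoped Manifold ContDiff NNReal ENNReal

noncomputable section

namespace Pool.Agent.T2h58.Sqn

open Pool.Agent.Y522 Pool.Agent.N550 Pool.Agent.N550.KH

/-- the volume of a subset of `E 4` of diameter at most `r` -/
theorem vol_le {S : Set (E 4)} {r : ℝ} (hr : 0 ≤ r) (h : Metric.ediam S ≤ ENNReal.ofReal r) :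
    volume S ≤ ENNReal.ofReal (r ^ 4) * volume (ball (0 : E 4) 1) := by
  rcases S.eq_empty_or_nonempty with rfl | ⟨x, hx⟩
  · simp
  · have h1 : S ⊆ closedBall x r := by
      intro y hy
      rw [mem_closedBall]
      have h2 : edist y x ≤ ENNReal.ofReal r := (Metric.edist_le_ediam_of_mem hy hx).trans h
      rw [edist_dist] at h2
      exact (ENNReal.ofReal_le_ofReal_iff hr).1 h2
    refine (measure_mono h1).trans ?_
    rw [Measure.addHaar_closedBall _ _ hr]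
    simp

/-- The image of `t × V` for a small set `t`. -/
theorem slice_bound {t : Set (E 4)} {V : Set (ℝ × ℝ)} (hV : V ⊆ Icc 0 1 ×ˢ Icc 0 1)
    {F : E 4 × (ℝ × ℝ) → E 4} {K : ℝ≥0} (hF : LipschitzOnWith K F (t ×ˢ V)) {D : ℝ} (hD : 0 < D)
    (hD1 : D ≤ 1) (ht : Metric.ediam t ≤ ENNReal.ofReal D) :
    volume (F '' (t ×ˢ V)) ≤
      ENNReal.ofReal (9 * (K : ℝ) ^ 4 * D ^ 2) * volume (ball (0 : E 4) 1) := by
  set m : ℕ := ⌈1 / D⌉₊ with hm
  have hm1 : 1 / D ≤ m := Nat.le_ceil _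
  have hm0 : (0 : ℝ) < m := lt_of_lt_of_le (by positivity) hm1
  have hm2 : (m : ℝ) < 1 / D + 1 := Nat.ceil_lt_add_one (by positivity)
  have hmD : 1 / (m : ℝ) ≤ D := by
    rw [div_le_iff₀ hm0]
    rw [div_le_iff₀ hD] at hm1
    linarith
  have hm3 : (m : ℝ) + 1 ≤ 3 / D := by
    have : (1 : ℝ) ≤ 1 / D := by rw [le_div_iff₀ hD]; linarith
    have h3 : (3 : ℝ) / D = 1 / D + 1 / D + 1 / D := by ring
    rw [h3]
    linarith
  let I : ℕ × ℕ → Set (ℝ × ℝ) := fun k => V ∩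
    (Icc ((k.1 : ℝ) / m) (((k.1 : ℝ) + 1) / m) ×ˢ Icc ((k.2 : ℝ) / m) (((k.2 : ℝ) + 1) / m))
  have hfl : ∀ s ∈ Icc (0 : ℝ) 1, ⌊s * m⌋₊ ∈ Finset.range (m + 1) ∧
      s ∈ Icc ((⌊s * m⌋₊ : ℝ) / m) (((⌊s * m⌋₊ : ℝ) + 1) / m) := by
    rintro s ⟨h0, h1⟩
    have hsm : 0 ≤ s * m := by positivity
    refine ⟨?_, ?_, ?_⟩
    · rw [Finset.mem_range, Nat.lt_succ_iff]
      refine Nat.floor_le_of_le ?_
      nlinarith
    · rw [div_le_iff₀ hm0]
      exact Nat.floor_le hsm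
    · rw [le_div_iff₀ hm0]
      exact (Nat.lt_floor_add_one _).le
  have hcov : F '' (t ×ˢ V) ⊆
      ⋃ k ∈ Finset.range (m + 1) ×ˢ Finset.range (m + 1), F '' (t ×ˢ I k) := by
    rintro _ ⟨⟨a, s⟩, ⟨ha, hs⟩, rfl⟩
    obtain ⟨h1, h2⟩ := hV hs
    rw [mem_iUnion₂]
    refine ⟨(⌊s.1 * m⌋₊, ⌊s.2 * m⌋₊), ?_, ⟨(a, s), ⟨ha, hs, ?_, ?_⟩, rfl⟩⟩
    · rw [Finset.mem_product]
      exact ⟨(hfl _ h1).1, (hfl _ h2).1⟩
    · exact (hfl _ h1).2
    · exact (hfl _ h2).2
  have hpiece : ∀ k, volume (F '' (t ×ˢ I k)) ≤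
      ENNReal.ofReal (((K : ℝ) * D) ^ 4) * volume (ball (0 : E 4) 1) := by
    intro k
    refine vol_le (by positivity) ?_
    have hsub : t ×ˢ I k ⊆ t ×ˢ V := prod_mono Subset.rfl inter_subset_left
    have h0 : Metric.ediam (F '' (t ×ˢ I k)) ≤ (K : ℝ≥0∞) * Metric.ediam (t ×ˢ I k) := by
      refine Metric.ediam_le ?_
      rintro _ ⟨x, hx, rfl⟩ _ ⟨y, hy, rfl⟩
      exact (hF.mono hsub hx hy).trans (by gcongr; exact Metric.edist_le_ediam_of_mem hx hy)
    refine h0.trans ?_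
    have h1 : Metric.ediam (t ×ˢ I k) ≤ ENNReal.ofReal D := by
      refine Metric.ediam_le ?_
      rintro ⟨a, s, r⟩ ⟨ha, -, ⟨hs1, hs2⟩, hr1, hr2⟩ ⟨b, s', r'⟩ ⟨hb, -, ⟨hs1', hs2'⟩, hr1', hr2'⟩
      rw [Prod.edist_eq]
      refine max_le ((Metric.edist_le_ediam_of_mem ha hb).trans ht) ?_
      simp only at hs1 hs2 hs1' hs2' hr1 hr2 hr1' hr2'
      rw [Prod.edist_eq]
      have h4 : ∀ j : ℕ, ((j : ℝ) + 1) / m = (j : ℝ) / m + 1 / m := fun j => by ring
      rw [h4] at hs2 hs2' hr2 hr2'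
      refine max_le ?_ ?_
      · rw [edist_dist]
        refine ENNReal.ofReal_le_ofReal ?_
        rw [Real.dist_eq, abs_le]
        constructor <;> linarith
      · rw [edist_dist]
        refine ENNReal.ofReal_le_ofReal ?_
        rw [Real.dist_eq, abs_le]
        constructor <;> linarith
    calc (K : ℝ≥0∞) * Metric.ediam (t ×ˢ I k) ≤ (K : ℝ≥0∞) * ENNReal.ofReal D := by gcongr
      _ = ENNReal.ofReal ((K : ℝ) * D) := by
        rw [ENNReal.ofReal_mul (NNReal.coe_nonneg K), ENNReal.ofReal_coe_nnreal]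
  calc volume (F '' (t ×ˢ V)) ≤
        volume (⋃ k ∈ Finset.range (m + 1) ×ˢ Finset.range (m + 1), F '' (t ×ˢ I k)) :=
        measure_mono hcov
    _ ≤ ∑ k ∈ Finset.range (m + 1) ×ˢ Finset.range (m + 1), volume (F '' (t ×ˢ I k)) :=
        measure_biUnion_finset_le _ _
    _ ≤ ∑ _k ∈ Finset.range (m + 1) ×ˢ Finset.range (m + 1),
        ENNReal.ofReal (((K : ℝ) * D) ^ 4) * volume (ball (0 : E 4) 1) :=
        Finset.sum_le_sum fun k _ => hpiece k
    _ = ENNReal.ofReal (((m : ℝ) + 1) ^ 2 * ((K : ℝ) * D) ^ 4) * volume (ball (0 : E 4) 1) := by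
        rw [Finset.sum_const, Finset.card_product, Finset.card_range, nsmul_eq_mul, ← mul_assoc,
          ENNReal.ofReal_mul (by positivity)]
        congr 2
        rw [ENNReal.ofReal_pow (by positivity), ENNReal.ofReal_add (by positivity) (by norm_num)]
        simp [sq]
    _ ≤ ENNReal.ofReal (9 * (K : ℝ) ^ 4 * D ^ 2) * volume (ball (0 : E 4) 1) := by
        refine mul_le_mul_left (ENNReal.ofReal_le_ofReal ?_) _
        have h5 : ((m : ℝ) + 1) ^ 2 * ((K : ℝ) * D) ^ 4 ≤ (3 / D) ^ 2 * ((K : ℝ) * D) ^ 4 :=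
          mul_le_mul_of_nonneg_right (pow_le_pow_left₀ (by positivity) hm3 2) (by positivity)
        refine h5.trans (le_of_eq ?_)
        field_simp
        ring

/-- The product lemma: Lipschitz images of `A × V` in `E 4` are null if the two-dimensional
Hausdorff measure of `A` is zero. -/
theorem prod_null {A : Set (E 4)} (hA : Measure.hausdorffMeasure 2 A = 0) {V : Set (ℝ × ℝ)}
    (hV : V ⊆ Icc 0 1 ×ˢ Icc 0 1) {F : E 4 × (ℝ × ℝ) → E 4} {K : ℝ≥0}
    (hF : LipschitzOnWith K F (A ×ˢ V)) : volume (F '' (A ×ˢ V)) = 0 := by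
  let ρ : OuterMeasure (E 4) := OuterMeasure.map Prod.fst
    (OuterMeasure.restrict (A ×ˢ V) (OuterMeasure.comap F (volume : Measure (E 4)).toOuterMeasure))
  have hρ : ∀ t, ρ t = volume (F '' ((t ∩ A) ×ˢ V)) := by
    intro t
    simp only [ρ, OuterMeasure.map_apply, OuterMeasure.restrict_apply, OuterMeasure.comap_apply,
      Measure.coe_toOuterMeasure]
    congr 2
    ext ⟨a, s⟩
    simp only [mem_inter_iff, mem_preimage, mem_prod]
    tauto
  set c : ℝ≥0∞ := ENNReal.ofReal (9 * (K : ℝ) ^ 4) * volume (ball (0 : E 4) 1) + 1 with hc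
  have hc0 : c ≠ 0 := by simp [hc]
  have hvol : volume (ball (0 : E 4) 1) ≠ (⊤ : ℝ≥0∞) := measure_ball_lt_top.ne
  have hct : c ≠ (⊤ : ℝ≥0∞) := by
    rw [hc]
    exact ENNReal.add_ne_top.2 ⟨ENNReal.mul_ne_top ENNReal.ofReal_ne_top hvol, ENNReal.one_ne_top⟩
  have hb : ∀ t : Set (E 4), ∀ D : ℝ, 0 < D → D ≤ 1 → Metric.ediam t ≤ ENNReal.ofReal D →
      ρ t ≤ c * ENNReal.ofReal (D ^ 2) := by
    intro t D h0 h1 ht
    rw [hρ]
    refine (slice_bound hV (hF.mono (prod_mono inter_subset_right Subset.rfl)) h0 h1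
      ((Metric.ediam_mono inter_subset_left).trans ht)).trans ?_
    rw [ENNReal.ofReal_mul (by positivity), mul_right_comm]
    gcongr
    rw [hc]
    exact le_self_add
  have hle : ρ ≤ c • OuterMeasure.mkMetric (fun r : ℝ≥0∞ => r ^ (2 : ℝ)) := by
    rw [← OuterMeasure.mkMetric_smul _ hct hc0]
    refine OuterMeasure.le_mkMetric _ _ (ENNReal.ofReal (1 / 2)) (by simp) ?_
    intro t ht
    have hdt : Metric.ediam t ≠ (⊤ : ℝ≥0∞) := (ht.trans_lt ENNReal.ofReal_lt_top).ne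
    set d : ℝ := (Metric.ediam t).toReal with hd
    have hd0 : 0 ≤ d := ENNReal.toReal_nonneg
    have hdd : Metric.ediam t = ENNReal.ofReal d := (ENNReal.ofReal_toReal hdt).symm
    have hd1 : d ≤ 1 / 2 := by
      rw [hdd] at ht
      exact (ENNReal.ofReal_le_ofReal_iff (by norm_num)).1 ht
    have h1 : ∀ᶠ x : ℝ in 𝓝[>] 0, ρ t ≤ c * ENNReal.ofReal ((d + x) ^ 2) := by
      have h2 : ∀ᶠ x : ℝ in 𝓝[>] 0, x < 1 / 2 :=
        mem_nhdsWithin_of_mem_nhds (Iio_mem_nhds (by norm_num))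
      filter_upwards [h2, self_mem_nhdsWithin] with x hx hx0
      have hx0' : 0 < x := hx0
      refine hb t (d + x) (by linarith) (by linarith) ?_
      rw [hdd]
      exact ENNReal.ofReal_le_ofReal (by linarith)
    have h2 : Tendsto (fun x : ℝ => c * ENNReal.ofReal ((d + x) ^ 2)) (𝓝[>] 0)
        (𝓝 (c * ENNReal.ofReal ((d + 0) ^ 2))) := by
      refine ENNReal.Tendsto.const_mul ?_ (Or.inr hct)
      refine (ENNReal.continuous_ofReal.tendsto _).comp ?_
      have : Continuous fun x : ℝ => (d + x) ^ 2 := by fun_prop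
      exact (this.tendsto 0).mono_left nhdsWithin_le_nhds
    have h3 := ge_of_tendsto h2 h1
    refine h3.trans (le_of_eq ?_)
    simp only [Pi.smul_apply, smul_eq_mul]
    rw [hdd, add_zero, ENNReal.ofReal_pow hd0]
    norm_num
  have h4 : ρ A ≤ c * Measure.hausdorffMeasure 2 A := by
    refine (hle A).trans (le_of_eq ?_)
    rw [smul_apply, smul_eq_mul, OuterMeasure.coe_mkMetric]
    rfl
  rw [hA, mul_zero, hρ, inter_self] at h4
  exact le_antisymm h4 zero_le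

theorem main : T_SQN := by
  intro S P hS hP
  have hcpt : IsCompact (Icc (0 : ℝ) 1 ×ˢ Icc (0 : ℝ) 1) := isCompact_Icc.prod isCompact_Icc
  have hcd : Continuous (fderiv ℝ P) := hP.continuous_fderiv (by simp)
  obtain ⟨C, hC⟩ := hcpt.exists_bound_of_continuousOn hcd.continuousOn
  have hconv : Convex ℝ (Icc (0 : ℝ) 1 ×ˢ Icc (0 : ℝ) 1) := (convex_Icc 0 1).prod (convex_Icc 0 1)
  have hL : LipschitzOnWith (Real.toNNReal C) P (Icc (0 : ℝ) 1 ×ˢ Icc (0 : ℝ) 1) := by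
    refine hconv.lipschitzOnWith_of_nnnorm_fderiv_le
      (fun x _ => (hP.differentiable (by simp)) x) fun x hx => ?_
    rw [← NNReal.coe_le_coe, coe_nnnorm]
    exact (hC x hx).trans (Real.le_coe_toNNReal C)
  let F : E 4 × (ℝ × ℝ) → E 4 := fun p => P p.2 - p.1
  have hF : LipschitzOnWith (Real.toNNReal C + 1) F (S ×ˢ (Icc (0 : ℝ) 1 ×ˢ Icc (0 : ℝ) 1)) := by
    refine LipschitzOnWith.of_dist_le_mul ?_
    rintro ⟨a, u⟩ ⟨-, hu⟩ ⟨b, v⟩ ⟨-, hv⟩
    have h1 := hL.dist_le_mul u hu v hv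
    have h2 : dist u v ≤ dist (a, u) (b, v) := by
      rw [Prod.dist_eq]
      exact le_max_right _ _
    have h3 : dist a b ≤ dist (a, u) (b, v) := by
      rw [Prod.dist_eq]
      exact le_max_left _ _
    have h4 : dist (F (a, u)) (F (b, v)) ≤ dist (P u) (P v) + dist a b := by
      simp only [F]
      exact dist_sub_sub_le _ _ _ _
    rw [NNReal.coe_add, NNReal.coe_one, add_mul, one_mul]
    refine h4.trans (add_le_add (h1.trans ?_) h3)
    exact mul_le_mul_of_nonneg_left h2 (NNReal.coe_nonneg _)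
  have h5 := prod_null hS Subset.rfl hF
  filter_upwards [measure_eq_zero_iff_ae_notMem.1 h5] with w hw s hs t ht hcon
  apply hw
  refine ⟨(P (s, t) - w, (s, t)), ⟨hcon, hs, ht⟩, ?_⟩
  simp only [F]
  abel

end Pool.Agent.T2h58.Sqn
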