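import Pool.Agent.T2h58.Stm3
import Pool.Agent.T2h58.P2
import Pool.Agent.N550.SH.Moeb

/-!
# Project SC (simply connected): a handle around a face of a cubical grid (helper26)
-/

set_option autoImplicit false

open Set Filter Topology Metric Function MeasureTheory
open scoped Manifold ContDiff NNReal

noncomputable section

namespace Pool.Agent.T2h58.StepG

open Pool.Agent.Y522 Pool.Agent.N550 Pool.Agent.N550.KH Pool.Agent.T2h58 Pool.Agent.T2h58.Det
open Pool.Agent.T2h58.P2 Pool.Agent.N550.SH.Moeb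

/-! ### One variable -/

/-- an odd increasing diffeomorphism from the line onto `(-1, 1)` -/
def sg (x : ℝ) : ℝ := x / √(1 + x ^ 2)

/-- its inverse -/
def sgi (y : ℝ) : ℝ := y / √(1 - y ^ 2)

theorem sg_sq (x : ℝ) : sg x ^ 2 = x ^ 2 / (1 + x ^ 2) := by
  unfold sg
  rw [div_pow, Real.sq_sqrt (by positivity)]

theorem sg_abs_lt (x : ℝ) : |sg x| < 1 := by
  rw [← sq_lt_one_iff_abs_lt_one, sg_sq, div_lt_one (by positivity)]
  linarith

theorem sg_nonneg {x : ℝ} (hx : 0 ≤ x) : 0 ≤ sg x := by
  unfold sg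
  positivity

theorem sg_contDiff : ContDiff ℝ ∞ sg := by
  unfold sg
  refine contDiff_id.div ((contDiff_const.add (contDiff_id.pow 2)).sqrt ?_) ?_
  · intro x
    have : (0 : ℝ) < 1 + x ^ 2 := by positivity
    simpa using this.ne'
  · intro x
    have : (0 : ℝ) < 1 + x ^ 2 := by positivity
    simpa using (Real.sqrt_pos.2 this).ne'

theorem sgi_sg (x : ℝ) : sgi (sg x) = x := by
  unfold sgi
  have h1 : (0 : ℝ) < 1 + x ^ 2 := by positivity
  have h2 : 1 - sg x ^ 2 = 1 / (1 + x ^ 2) := by
    rw [sg_sq]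
    field_simp
    ring
  rw [h2, Real.sqrt_div zero_le_one, Real.sqrt_one]
  unfold sg
  have h3 : 0 < √(1 + x ^ 2) := Real.sqrt_pos.2 h1
  field_simp

theorem sg_sgi {y : ℝ} (hy : |y| < 1) : sg (sgi y) = y := by
  have h1 : 0 < 1 - y ^ 2 := by
    have := (sq_lt_one_iff_abs_lt_one y).2 hy
    linarith
  unfold sg
  have h2 : 1 + sgi y ^ 2 = 1 / (1 - y ^ 2) := by
    unfold sgi
    rw [div_pow, Real.sq_sqrt h1.le]
    field_simp
    ring
  rw [h2, Real.sqrt_div zero_le_one, Real.sqrt_one]
  unfold sgi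
  have h3 : 0 < √(1 - y ^ 2) := Real.sqrt_pos.2 h1
  field_simp

theorem sgi_differentiableAt {y : ℝ} (hy : |y| < 1) : DifferentiableAt ℝ sgi y := by
  have h1 : 0 < 1 - y ^ 2 := by
    have := (sq_lt_one_iff_abs_lt_one y).2 hy
    linarith
  unfold sgi
  refine differentiableAt_id.div ?_ (Real.sqrt_pos.2 h1).ne'
  exact ((differentiableAt_const 1).sub (differentiableAt_id.pow 2)).sqrt h1.ne'

theorem sg_le_abs {c x : ℝ} (hc : 0 ≤ c) (h : c ≤ |x|) : sg c ≤ |sg x| := by
  rw [← abs_of_nonneg (sg_nonneg hc), ← sq_le_sq, sg_sq, sg_sq]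
  have h1 : c ^ 2 ≤ x ^ 2 := by
    rw [sq_le_sq, abs_of_nonneg hc]; exact h
  rw [div_le_div_iff₀ (by positivity) (by positivity)]
  nlinarith

theorem abs_sg_le {c x : ℝ} (hc : 0 ≤ c) (h : |x| ≤ c) : |sg x| ≤ sg c := by
  rw [← abs_of_nonneg (sg_nonneg hc), ← sq_le_sq, sg_sq, sg_sq]
  have h1 : x ^ 2 ≤ c ^ 2 := by
    rw [sq_le_sq, abs_of_nonneg hc]; exact h
  rw [div_le_div_iff₀ (by positivity) (by positivity)]
  nlinarith

theorem le_abs_of_sg {c x : ℝ} (hc : 0 ≤ c) (h : sg c ≤ |sg x|) : c ≤ |x| := by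
  rw [← abs_of_nonneg (sg_nonneg hc), ← sq_le_sq, sg_sq, sg_sq,
    div_le_div_iff₀ (by positivity) (by positivity)] at h
  have h1 : c ^ 2 ≤ x ^ 2 := by nlinarith
  rwa [sq_le_sq, abs_of_nonneg hc] at h1

theorem exists_steep {δ : ℝ} (hδ : 0 < δ) : ∃ c : ℝ, 0 < c ∧ 1 - δ ≤ sg (c / 2) := by
  refine ⟨2 * (1 / δ + 1), by positivity, ?_⟩
  have h0 : 2 * (1 / δ + 1) / 2 = 1 / δ + 1 := by ring
  rw [h0]
  set x := 1 / δ + 1 with hx
  have hx1 : 1 ≤ x := by
    rw [hx]
    have : 0 < 1 / δ := by positivity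
    linarith
  have hxδ : 1 / δ ≤ x := by rw [hx]; linarith
  have h1 : sg x ^ 2 = 1 - 1 / (1 + x ^ 2) := by
    rw [sg_sq]
    have : (0 : ℝ) < 1 + x ^ 2 := by positivity
    field_simp
    ring
  have h2 : 1 / (1 + x ^ 2) ≤ δ := by
    rw [div_le_iff₀ (by positivity)]
    have h3 : 1 ≤ x * δ := by
      rwa [div_le_iff₀ hδ] at hxδ
    nlinarith
  have h4 : sg x ≤ 1 := (le_abs_self _).trans (sg_abs_lt x).le
  have h5 : 0 ≤ sg x := sg_nonneg (by linarith)
  nlinarith

/-! ### Boxes -/

/-- a closed box with centre `a` -/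
def box (a : E 4) (r : Fin 4 → ℝ) : Set (E 4) := {z | ∀ i, |z i - a i| ≤ r i}

theorem dist_le_of_coord {x y : E 4} {r : ℝ} (hr : 0 ≤ r) (h : ∀ i, |x i - y i| ≤ r) :
    dist x y ≤ 2 * r := by
  rw [EuclideanSpace.dist_eq, Real.sqrt_le_left (by positivity)]
  have h1 : ∀ i, dist (x i) (y i) ^ 2 ≤ r ^ 2 := fun i => by
    rw [Real.dist_eq]
    exact pow_le_pow_left₀ (abs_nonneg _) (h i) 2
  calc ∑ i, dist (x i) (y i) ^ 2 ≤ ∑ _i : Fin 4, r ^ 2 := Finset.sum_le_sum fun i _ => h1 i
    _ = (2 * r) ^ 2 := by simp; ring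

theorem box_closed (a : E 4) (r : Fin 4 → ℝ) : IsClosed (box a r) := by
  have : box a r = ⋂ i, {z : E 4 | |z i - a i| ≤ r i} := by
    ext z; simp [box]
  rw [this]
  exact isClosed_iInter fun i => isClosed_le (by fun_prop) continuous_const

theorem box_compact (a : E 4) (r : Fin 4 → ℝ) : IsCompact (box a r) := by
  refine (isCompact_closedBall a (2 * ∑ i, |r i|)).of_isClosed_subset (box_closed a r) ?_
  intro z hz
  rw [mem_closedBall]
  refine dist_le_of_coord (Finset.sum_nonneg fun i _ => abs_nonneg _) fun i => ?_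
  exact ((hz i).trans (le_abs_self _)).trans
    (Finset.single_le_sum (f := fun i => |r i|) (fun i _ => abs_nonneg _) (Finset.mem_univ i))

/-! ### The parametrization of an open box -/

/-- the parametrization of the open box with centre `a` and half sides `b i` -/
def psi (a : E 4) (b : Fin 4 → ℝ) (c : ℝ) (e : Equiv.Perm (Fin 4)) (w : E 4) : E 4 :=
  WithLp.toLp 2 (fun i => a i + b i * sg (c * w (e.symm i)))

/-- its inverse -/
def phi (a : E 4) (b : Fin 4 → ℝ) (c : ℝ) (e : Equiv.Perm (Fin 4)) (z : E 4) : E 4 :=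
  WithLp.toLp 2 (fun j => sgi ((z (e j) - a (e j)) / b (e j)) / c)

section psi

variable {a : E 4} {b : Fin 4 → ℝ} {c : ℝ} {e : Equiv.Perm (Fin 4)}

theorem psi_apply (w : E 4) (i : Fin 4) :
    psi a b c e w i = a i + b i * sg (c * w (e.symm i)) := rfl

theorem phi_psi (hb : ∀ i, 0 < b i) (hc : 0 < c) (w : E 4) :
    phi a b c e (psi a b c e w) = w := by
  ext j
  change sgi ((psi a b c e w (e j) - a (e j)) / b (e j)) / c = w j
  rw [psi_apply, add_sub_cancel_left, mul_div_cancel_left₀ _ (hb _).ne', sgi_sg,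
    Equiv.symm_apply_apply, mul_div_cancel_left₀ _ hc.ne']

theorem psi_phi (hb : ∀ i, 0 < b i) (hc : 0 < c) {z : E 4} (hz : ∀ i, |z i - a i| < b i) :
    psi a b c e (phi a b c e z) = z := by
  ext i
  rw [psi_apply]
  change a i + b i * sg (c * (sgi ((z (e (e.symm i)) - a (e (e.symm i))) / b (e (e.symm i))) / c))
    = z i
  rw [Equiv.apply_symm_apply, mul_div_cancel₀ _ hc.ne', sg_sgi, mul_div_cancel₀ _ (hb _).ne']
  · ring
  · rw [abs_div, abs_of_pos (hb i), div_lt_one (hb i)]
    exact hz i

theorem psi_abs_lt (hb : ∀ i, 0 < b i) (w : E 4) (i : Fin 4) :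
    |psi a b c e w i - a i| < b i := by
  rw [psi_apply, add_sub_cancel_left, abs_mul, abs_of_pos (hb i)]
  have := sg_abs_lt (c * w (e.symm i))
  have := hb i
  nlinarith

theorem psi_contDiff : ContDiff ℝ ∞ (psi a b c e) := by
  rw [contDiff_euclidean]
  intro i
  refine contDiff_const.add (contDiff_const.mul (sg_contDiff.comp (contDiff_const.mul ?_)))
  fun_prop

theorem psi_ld (hb : ∀ i, 0 < b i) (hc : 0 < c) (w : E 4) : LD 4 (psi a b c e) w := by
  refine LD_of_left (g := phi a b c e) (Eventually.of_forall fun y => psi_contDiff.contDiffAt) ?_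
    (Eventually.of_forall fun y => phi_psi hb hc y)
  rw [differentiableAt_euclidean]
  intro j
  have h1 : DifferentiableAt ℝ (fun z : E 4 => (z (e j) - a (e j)) / b (e j))
      (psi a b c e w) := by fun_prop
  have h2 : DifferentiableAt ℝ sgi ((psi a b c e w (e j) - a (e j)) / b (e j)) := by
    refine sgi_differentiableAt ?_
    rw [abs_div, abs_of_pos (hb _), div_lt_one (hb _)]
    exact psi_abs_lt hb w (e j)
  have h3 : DifferentiableAt ℝ (fun y : ℝ => c⁻¹ * sgi y)
      ((fun z : E 4 => (z (e j) - a (e j)) / b (e j)) (psi a b c e w)) := h2.const_mul c⁻¹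
  have h4 := DifferentiableAt.comp (psi a b c e w) h3 h1
  refine h4.congr_of_eventuallyEq (Eventually.of_forall fun z => ?_)
  change sgi ((z (e j) - a (e j)) / b (e j)) / c = c⁻¹ * sgi ((z (e j) - a (e j)) / b (e j))
  ring

end psi

/-! ### The handle -/

/-- the sum of the squares of the first `m` coordinates -/
def nsq (m : ℕ) (w : E 4) : ℝ := ∑ i : Fin 4, if (i : ℕ) < m then w i ^ 2 else 0

theorem nsq_cont (m : ℕ) : Continuous (nsq m) := by
  unfold nsq
  refine continuous_finsetSum _ fun i _ => ?_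
  split_ifs
  · fun_prop
  · fun_prop

theorem sq_le_nsq {m : ℕ} (w : E 4) {i : Fin 4} (hi : (i : ℕ) < m) : w i ^ 2 ≤ nsq m w := by
  unfold nsq
  have h := Finset.single_le_sum (f := fun i : Fin 4 => if (i : ℕ) < m then w i ^ 2 else 0)
    (fun i _ => by split_ifs <;> positivity) (Finset.mem_univ i)
  simpa [hi] using h

theorem exists_of_nsq {m : ℕ} {w : E 4} (h : 1 ≤ nsq m w) :
    ∃ i : Fin 4, (i : ℕ) < m ∧ 1 / 2 ≤ |w i| := by
  by_contra hcon
  push Not at hcon
  have h1 : ∀ i : Fin 4, (if (i : ℕ) < m then w i ^ 2 else 0) ≤ 1 / 4 := by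
    intro i
    split_ifs with hi
    · have h2 := hcon i hi
      have h3 := sq_abs (w i)
      have h4 := abs_nonneg (w i)
      nlinarith
    · norm_num
  have h2 : nsq m w = 1 := by
    refine le_antisymm ?_ h
    unfold nsq
    calc _ ≤ ∑ _i : Fin 4, (1 / 4 : ℝ) := Finset.sum_le_sum fun i _ => h1 i
      _ = 1 := by simp
  -- then all the four summands are equal to 1/4
  have h3 : ∀ i : Fin 4, (if (i : ℕ) < m then w i ^ 2 else 0) = 1 / 4 := by
    by_contra hc
    push Not at hc
    obtain ⟨i, hi⟩ := hc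
    have h4 : nsq m w < ∑ _i : Fin 4, (1 / 4 : ℝ) := by
      unfold nsq
      exact Finset.sum_lt_sum (fun i _ => h1 i) ⟨i, Finset.mem_univ i, lt_of_le_of_ne (h1 i) hi⟩
    rw [h2] at h4
    simp at h4
  have h5 := h3 0
  by_cases h6 : ((0 : Fin 4) : ℕ) < m
  · rw [if_pos h6] at h5
    have h7 := hcon 0 h6
    have h8 := sq_abs (w 0)
    have h9 := abs_nonneg (w 0)
    nlinarith
  · rw [if_neg h6] at h5
    norm_num at h5

theorem exists_perm {m : ℕ} {F : Finset (Fin 4)} (hF : F.card = m) :
    ∃ e : Equiv.Perm (Fin 4), ∀ i, e i ∈ F ↔ (i : ℕ) < m := by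
  classical
  have hm : m ≤ 4 := by
    rw [← hF]
    exact (Finset.card_le_univ F).trans (by simp)
  have hc : Fintype.card {i : Fin 4 // (i : ℕ) < m} = Fintype.card {i : Fin 4 // i ∈ F} := by
    rw [Fintype.card_coe, hF]
    interval_cases m <;> rfl
  obtain ⟨e⟩ := Fintype.card_eq.1 hc
  refine ⟨e.extendSubtype, fun i => ⟨fun h => ?_, fun h => e.extendSubtype_mem i h⟩⟩
  by_contra hn
  exact e.extendSubtype_not_mem i hn h

/-- a handle around a face of the grid -/
theorem geom {N : Type} [TopologicalSpace N] [T2Space N] [ChartedSpace (E 4) N] {h : E 4 → N}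
    (hh : CellMap h) {K V : Set N} (hK : IsClosed K) (hV : IsOpen V) (hKV : K ⊆ V) {s : ℝ}
    {t : E 4} {k : Fin 4 → ℤ} {F : Finset (Fin 4)} {m : ℕ} (hF : F.card = m) (hs : 0 < s)
    (hbd : ∀ z ∈ face s t k F, z ∉ rint s t k F → h z ∈ V)
    (hint : ∀ z ∈ rint s t k F, h z ∉ K) :
    ∃ (l : E 4 → N) (K' : Set N), CellMap l ∧ IsClosed K' ∧ K' ⊆ V ∧
      (∀ z, l z ∈ K' ↔ 1 ≤ nsq m z) ∧
      K ∪ h '' face s t k F ⊆
        K' ∪ l '' {z | (∀ i : Fin 4, ¬ (i : ℕ) < m → z i = 0) ∧ nsq m z ≤ 1} := by
  classical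
  obtain ⟨e, he⟩ := exists_perm hF
  have hhc := cm_cont hh
  -- the centre
  set a : E 4 := WithLp.toLp 2 (fun i => if i ∈ F then t i + k i * s + s / 2 else t i + k i * s)
    with ha
  have haF : ∀ i ∈ F, a i = t i + k i * s + s / 2 := fun i hi => by
    rw [ha]; simp [hi]
  have haF' : ∀ i, i ∉ F → a i = t i + k i * s := fun i hi => by
    rw [ha]; simp [hi]
  have hs2 : 0 < s / 2 := by linarith
  -- faces in terms of the centre
  have hface : ∀ z, z ∈ face s t k F ↔ ∀ i, (i ∈ F → |z i - a i| ≤ s / 2) ∧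
      (i ∉ F → z i = a i) := by
    intro z
    refine forall_congr' fun i => and_congr ?_ ?_
    · refine imp_congr_right fun hi => ?_
      rw [haF i hi, abs_le]
      constructor
      · rintro ⟨h1, h2⟩
        constructor <;> linarith
      · rintro ⟨h1, h2⟩
        constructor <;> linarith
    · refine imp_congr_right fun hi => ?_
      rw [haF' i hi]
  have hrint : ∀ z, z ∈ rint s t k F ↔ ∀ i, (i ∈ F → |z i - a i| < s / 2) ∧
      (i ∉ F → z i = a i) := by
    intro z
    refine forall_congr' fun i => and_congr ?_ ?_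
    · refine imp_congr_right fun hi => ?_
      rw [haF i hi, abs_lt]
      constructor
      · rintro ⟨h1, h2⟩
        constructor <;> linarith
      · rintro ⟨h1, h2⟩
        constructor <;> linarith
    · refine imp_congr_right fun hi => ?_
      rw [haF' i hi]
  -- the compact boundary of the face
  set Bd : Set (E 4) := box a (fun i => if i ∈ F then s / 2 else 0) ∩
    {z | ∃ i ∈ F, s / 2 ≤ |z i - a i|} with hBd
  have hcl : ∀ r : ℝ, IsClosed {z : E 4 | ∃ i ∈ F, r ≤ |z i - a i|} := by
    intro r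
    have : {z : E 4 | ∃ i ∈ F, r ≤ |z i - a i|} = ⋃ i ∈ F, {z : E 4 | r ≤ |z i - a i|} := by
      ext z; simp
    rw [this]
    exact isClosed_biUnion_finset fun i _ => isClosed_le continuous_const (by fun_prop)
  have hBdc : IsCompact Bd := (box_compact _ _).inter_right (hcl _)
  have hBdV : Bd ⊆ h ⁻¹' V := by
    rintro z ⟨hz, i, hi, hzi⟩
    refine hbd z ?_ ?_
    · rw [hface]
      intro j
      have : |z j - a j| ≤ (if j ∈ F then s / 2 else 0) := hz j
      refine ⟨fun hj => by rwa [if_pos hj] at this, fun hj => ?_⟩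
      rw [if_neg hj] at this
      have := abs_nonpos_iff.1 this
      linarith
    · rw [hrint]
      intro hcon
      exact absurd ((hcon i).1 hi) (not_lt.2 hzi)
  obtain ⟨ε, hε, hεV⟩ := hBdc.exists_thickening_subset_open (hV.preimage hhc) hBdV
  -- the steepness
  set δ : ℝ := ε / (2 * s) with hδ
  have hδ0 : 0 < δ := by positivity
  obtain ⟨c, hc, hcδ⟩ := exists_steep hδ0
  set ρ : ℝ := sg c with hρ
  have hρ1 : ρ < 1 := (le_abs_self _).trans_lt (sg_abs_lt c)
  have hρ0 : 0 ≤ ρ := sg_nonneg hc.le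
  -- the compact part of the open face
  set D : Set (E 4) := box a (fun i => if i ∈ F then ρ * (s / 2) else 0) with hD
  have hDK : D ⊆ h ⁻¹' Kᶜ := by
    intro z hz
    refine hint z ?_
    rw [hrint]
    intro j
    have : |z j - a j| ≤ (if j ∈ F then ρ * (s / 2) else 0) := hz j
    refine ⟨fun hj => ?_, fun hj => ?_⟩
    · rw [if_pos hj] at this
      nlinarith
    · rw [if_neg hj] at this
      have := abs_nonpos_iff.1 this
      linarith
  obtain ⟨ε', hε', hε'K⟩ := (box_compact a _).exists_thickening_subset_open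
    (hK.isOpen_compl.preimage hhc) hDK
  set η : ℝ := min (ε / 4) (ε' / 4) with hη
  have hη0 : 0 < η := lt_min (by linarith) (by linarith)
  have hη1 : η ≤ ε / 4 := min_le_left _ _
  have hη2 : η ≤ ε' / 4 := min_le_right _ _
  set b : Fin 4 → ℝ := fun i => if i ∈ F then s / 2 else η with hb
  have hb0 : ∀ i, 0 < b i := by
    intro i
    rw [hb]
    simp only
    split_ifs <;> assumption
  have hbF : ∀ i ∈ F, b i = s / 2 := fun i hi => by rw [hb]; simp [hi]
  have hbF' : ∀ i, i ∉ F → b i = η := fun i hi => by rw [hb]; simp [hi]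
  set ψ : E 4 → E 4 := psi a b c e with hψ
  have hψi : Injective ψ :=
    LeftInverse.injective (g := phi a b c e) fun w => phi_psi hb0 hc w
  have hψc : Continuous ψ := psi_contDiff.continuous
  have hψo : IsOpenEmbedding ψ := IsOpenEmbedding.of_continuous_injective_isOpenMap hψc hψi
    fun U hU => isOpen_image_of_LD hU fun w _ => psi_ld hb0 hc w
  have hψe : ∀ w i, ψ w i = a i + b i * sg (c * w (e.symm i)) := fun w i => rfl
  have heF : ∀ i, i ∈ F ↔ ((e.symm i : Fin 4) : ℕ) < m := fun i => by
    rw [← he, Equiv.apply_symm_apply]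
  set A : Set (E 4) := {w | 1 ≤ nsq m w} with hA
  have hAc : IsClosed A := isClosed_le continuous_const (nsq_cont m)
  -- the attaching region is close to the boundary of the face
  have hAbox : ψ '' A ⊆ box a b ∩ {z | ∃ i ∈ F, (1 - δ) * (s / 2) ≤ |z i - a i|} := by
    rintro _ ⟨w, hw, rfl⟩
    refine ⟨fun i => (psi_abs_lt hb0 w i).le, ?_⟩
    obtain ⟨j, hj, hjw⟩ := exists_of_nsq hw
    have hjF : e j ∈ F := (he j).2 hj
    refine ⟨e j, hjF, ?_⟩
    rw [hψe, add_sub_cancel_left, hbF _ hjF, Equiv.symm_apply_apply, abs_mul, abs_of_pos hs2,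
      mul_comm]
    refine mul_le_mul_of_nonneg_left (hcδ.trans (sg_le_abs (by positivity) ?_)) hs2.le
    rw [abs_mul, abs_of_pos hc]
    nlinarith
  have hclA : closure (ψ '' A) ⊆ box a b ∩ {z | ∃ i ∈ F, (1 - δ) * (s / 2) ≤ |z i - a i|} :=
    closure_minimal hAbox ((box_closed a b).inter (hcl _))
  have hclV : closure (ψ '' A) ⊆ h ⁻¹' V := by
    intro z hz
    obtain ⟨hzb, i₀, hi₀, hzi₀⟩ := hclA hz
    refine hεV ?_
    rw [mem_thickening_iff]
    -- the nearest point of the boundary
    set σ : ℝ := if a i₀ ≤ z i₀ then s / 2 else - (s / 2) with hσ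
    refine ⟨WithLp.toLp 2 (fun i => if i ∈ F then (if i = i₀ then a i₀ + σ else z i) else a i),
      ⟨?_, i₀, hi₀, ?_⟩, ?_⟩
    · intro i
      simp only
      by_cases hi : i ∈ F
      · rw [if_pos hi, if_pos hi]
        by_cases hii : i = i₀
        · rw [if_pos hii, hii, add_sub_cancel_left, hσ]
          split_ifs
          · rw [abs_of_pos hs2]
          · rw [abs_neg, abs_of_pos hs2]
        · rw [if_neg hii]
          have := hzb i
          rwa [hbF i hi] at this
      · rw [if_neg hi, if_neg hi, sub_self, abs_zero]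
    · simp only
      rw [if_pos hi₀, if_pos trivial, add_sub_cancel_left, hσ]
      split_ifs
      · rw [abs_of_pos hs2]
      · rw [abs_neg, abs_of_pos hs2]
    · refine lt_of_le_of_lt (dist_le_of_coord (r := ε / 4) (by linarith) fun i => ?_)
        (by linarith)
      simp only
      by_cases hi : i ∈ F
      · rw [if_pos hi]
        by_cases hii : i = i₀
        · rw [if_pos hii, hii]
          have h1 := hzb i₀
          rw [hbF i₀ hi₀] at h1
          have h2 : δ * (s / 2) = ε / 4 := by
            rw [hδ]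
            field_simp
            ring
          have h3 : s / 2 - ε / 4 ≤ |z i₀ - a i₀| := by
            calc s / 2 - ε / 4 = (1 - δ) * (s / 2) := by rw [sub_mul, h2, one_mul]
              _ ≤ _ := hzi₀
          rw [hσ]
          split_ifs with hc2
          · rw [abs_of_nonneg (sub_nonneg.2 hc2)] at h1 h3
            rw [abs_le]
            constructor <;> linarith
          · push Not at hc2
            rw [abs_of_neg (sub_neg.2 hc2)] at h1 h3
            rw [abs_le]
            constructor <;> linarith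
        · rw [if_neg hii, sub_self, abs_zero]
          linarith
      · rw [if_neg hi]
        have := hzb i
        rw [hbF' i hi] at this
        linarith
  -- the middle region misses `K`
  have hmid : ∀ w, nsq m w ≤ 1 → h (ψ w) ∉ K := by
    intro w hw
    have h1 : ψ w ∈ h ⁻¹' Kᶜ := by
      refine hε'K ?_
      rw [mem_thickening_iff]
      refine ⟨WithLp.toLp 2 (fun i => if i ∈ F then ψ w i else a i), ?_, ?_⟩
      · intro i
        simp only
        by_cases hi : i ∈ F
        · rw [if_pos hi, if_pos hi, hψe, add_sub_cancel_left, abs_mul, hbF i hi, abs_of_pos hs2,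
            mul_comm]
          refine mul_le_mul_of_nonneg_right (abs_sg_le hc.le ?_) hs2.le
          rw [abs_mul, abs_of_pos hc]
          have h2 := (sq_le_nsq w ((heF i).1 hi)).trans hw
          have h3 : |w (e.symm i)| ≤ 1 := by
            rw [← sq_le_one_iff_abs_le_one]; exact h2
          nlinarith
        · rw [if_neg hi, if_neg hi, sub_self, abs_zero]
      · refine lt_of_le_of_lt (dist_le_of_coord (r := ε' / 4) (by linarith) fun i => ?_)
          (by linarith)
        simp only
        by_cases hi : i ∈ F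
        · rw [if_pos hi, sub_self, abs_zero]
          linarith
        · rw [if_neg hi]
          have := psi_abs_lt (a := a) (c := c) (e := e) hb0 w i
          rw [hbF' i hi] at this
          exact (this.le).trans hη2
    exact h1
  -- the handle
  set l : E 4 → N := fun w => h (ψ w) with hl
  have hlc : CellMap l := ⟨hh.1.comp hψi, fun w => LD.comp_fun (hh.2 _) (psi_ld hb0 hc w)⟩
  set K' : Set N := (K \ range l) ∪ h '' closure (ψ '' A) with hK'
  have hclcomp : IsCompact (closure (ψ '' A)) :=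
    (box_compact a b).of_isClosed_subset isClosed_closure (hclA.trans inter_subset_left)
  have hlK' : ∀ w, l w ∈ K' ↔ 1 ≤ nsq m w := by
    intro w
    constructor
    · rintro (⟨_, h1⟩ | ⟨z, hz, hzw⟩)
      · exact absurd (mem_range_self w) h1
      · have h1 : z = ψ w := hh.1 hzw
        rw [h1] at hz
        have h2 : w ∈ closure A := by
          rw [hψo.isInducing.closure_eq_preimage_closure_image]
          exact hz
        rwa [hAc.closure_eq] at h2
    · intro hw
      exact Or.inr ⟨ψ w, subset_closure ⟨w, hw, rfl⟩, rfl⟩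
  refine ⟨l, K', hlc, ?_, ?_, hlK', ?_⟩
  · exact (hK.sdiff (cm_open hlc)).union (hclcomp.image hhc).isClosed
  · refine union_subset (sdiff_subset.trans hKV) ?_
    rintro _ ⟨z, hz, rfl⟩
    exact hclV hz
  · rintro y (hy | ⟨z, hz, rfl⟩)
    · by_cases hyr : y ∈ range l
      · obtain ⟨w, rfl⟩ := hyr
        left
        rw [hlK']
        by_contra hcon
        exact hmid w (not_le.1 hcon).le hy
      · exact Or.inl (Or.inl ⟨hy, hyr⟩)
    · rw [hface] at hz
      by_cases hzr : z ∈ rint s t k F
      · rw [hrint] at hzr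
        have hzb : ∀ i, |z i - a i| < b i := by
          intro i
          by_cases hi : i ∈ F
          · rw [hbF i hi]
            exact (hzr i).1 hi
          · rw [(hzr i).2 hi, sub_self, abs_zero]
            exact hb0 i
        set w := phi a b c e z with hw
        have hψw : ψ w = z := psi_phi hb0 hc hzb
        rcases le_total 1 (nsq m w) with h1 | h1
        · left
          have := (hlK' w).2 h1
          rw [hl] at this
          simp only at this
          rwa [hψw] at this
        · right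
          refine ⟨w, ⟨fun i hi => ?_, h1⟩, by rw [hl]; simp only; rw [hψw]⟩
          have hiF : e i ∉ F := fun hcon => hi ((he i).1 hcon)
          change sgi ((z (e i) - a (e i)) / b (e i)) / c = 0
          rw [(hzr (e i)).2 hiF, sub_self, zero_div]
          simp [sgi]
      · left
        right
        refine ⟨z, ?_, rfl⟩
        -- `z` is a boundary point: approximate it from inside
        obtain ⟨i₀, hi₀, hzi₀⟩ : ∃ i ∈ F, s / 2 ≤ |z i - a i| := by
          by_contra hcon
          push Not at hcon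
          exact hzr ((hrint z).2 fun i => ⟨fun hi => hcon i hi, (hz i).2⟩)
        have hzi₀' : |z i₀ - a i₀| = s / 2 := le_antisymm ((hz i₀).1 hi₀) hzi₀
        have htend : Tendsto (fun τ : ℝ => a + τ • (z - a)) (𝓝[<] 1) (𝓝 z) := by
          have h1 : Continuous (fun τ : ℝ => a + τ • (z - a)) := by fun_prop
          have h2 := (h1.tendsto 1).mono_left (nhdsWithin_le_nhds (s := Iio 1))
          simpa using h2
        refine mem_closure_of_tendsto htend ?_
        have h1 : ∀ᶠ τ in 𝓝[<] (1 : ℝ), ρ < τ :=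
          nhdsWithin_le_nhds (Ioi_mem_nhds hρ1)
        filter_upwards [h1, self_mem_nhdsWithin] with τ hτ1 hτ2
        have hτ2' : τ < 1 := hτ2
        have hτ0 : 0 ≤ τ := hρ0.trans hτ1.le
        set y : E 4 := a + τ • (z - a) with hy
        have hya : ∀ i, y i - a i = τ * (z i - a i) := by
          intro i
          rw [hy]
          simp
        have hyb : ∀ i, |y i - a i| < b i := by
          intro i
          rw [hya, abs_mul, abs_of_nonneg hτ0]
          by_cases hi : i ∈ F
          · rw [hbF i hi]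
            have := (hz i).1 hi
            nlinarith [abs_nonneg (z i - a i)]
          · rw [(hz i).2 hi, sub_self, abs_zero, mul_zero]
            exact hb0 i
        refine ⟨phi a b c e y, ?_, psi_phi hb0 hc hyb⟩
        have hψw : ψ (phi a b c e y) = y := psi_phi hb0 hc hyb
        set w := phi a b c e y with hw
        have h2 : ψ w i₀ - a i₀ = τ * (z i₀ - a i₀) := by rw [hψw, hya]
        rw [hψe, add_sub_cancel_left, hbF i₀ hi₀] at h2
        have h3 : |sg (c * w (e.symm i₀))| = τ := by
          have h4 : s / 2 * |sg (c * w (e.symm i₀))| = s / 2 * τ := by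
            rw [← abs_of_pos hs2, ← abs_mul, abs_of_pos hs2, h2, abs_mul, abs_of_nonneg hτ0,
              hzi₀', mul_comm]
          exact mul_left_cancel₀ hs2.ne' h4
        have h4 : c ≤ |c * w (e.symm i₀)| := le_abs_of_sg hc.le (by rw [h3]; exact hτ1.le)
        have h5 : 1 ≤ |w (e.symm i₀)| := by
          rw [abs_mul, abs_of_pos hc] at h4
          exact le_of_mul_le_mul_left (by linarith) hc
        have h6 : 1 ≤ w (e.symm i₀) ^ 2 := by
          rw [← one_le_sq_iff_one_le_abs] at h5
          exact h5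
        exact h6.trans (sq_le_nsq w ((heF i₀).1 hi₀))

end Pool.Agent.T2h58.StepG
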