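import Pool.Agent.T2h58.Stm

/-!
# Project SC (simply connected): statements

Thin compact subsets of closed simply connected smooth 4-manifolds lie in open cells. No handle
decomposition is used: the simple connectivity is used through homotopies of paths.
-/

set_option autoImplicit false

open Set Filter Topology Metric Function MeasureTheory
open scoped Manifold ContDiff NNReal

noncomputable section

namespace Pool.Agent.T2h58

open Pool.Agent.Y522 Pool.Agent.N550 Pool.Agent.N550.KH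

/-- `c` is an open cell: an injective local diffeomorphism from `E 4` -/
def CellMap {M : Type} [TopologicalSpace M] [ChartedSpace (E 4) M] (c : E 4 → M) : Prop :=
  Injective c ∧ ∀ z, LD 4 c z

/-- `S` lies in an open cell -/
def Cel {M : Type} [TopologicalSpace M] [ChartedSpace (E 4) M] (S : Set M) : Prop :=
  ∃ c : E 4 → M, CellMap c ∧ S ⊆ range c

/-- `κ` is a diffeomorphism with compact support which fixes the points of `S` -/
def PushMap (n : ℕ) (S : Set (E n)) (κ : E n → E n) : Prop :=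
  IsDf n κ ∧ (∃ R : ℝ, ∀ z, R ≤ ‖z‖ → κ z = z) ∧ ∀ z ∈ S, κ z = z

/-- Fiber push: a compact set `D` is pushed in the direction `u`; `d z` is the time which the point
`z` needs to reach the target `d = 0`. -/
def T_FP : Prop :=
  ∀ (n : ℕ) (D S O : Set (E n)) (u : E n) (d : E n → ℝ), IsCompact D → IsClosed S → IsOpen O →
    ContinuousOn d D → (∀ z ∈ D, 0 ≤ d z) →
    (∀ z ∈ D, ∀ τ : ℝ, 0 ≤ τ → τ ≤ d z → z + τ • u ∈ D ∧ d (z + τ • u) = d z - τ) →
    (∀ z ∈ D, z ∈ S → d z = 0) → (∀ z ∈ D, d z = 0 → z ∈ O) →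
    ∃ κ : E n → E n, PushMap n S κ ∧ ∀ z ∈ D, κ z ∈ O

/-- Triangle pushes: a triangle `a b p` is pushed into a neighbourhood of the base `[a, b]`, or of
the two other sides. -/
def T_TRI : Prop :=
  ∀ (n : ℕ) (a b p : E n) (S O : Set (E n)), AffineIndependent ℝ ![a, b, p] → IsClosed S →
    IsOpen O →
    ((∀ z ∈ S, z ∈ convexHull ℝ {a, b, p} → z ∈ segment ℝ a b) → segment ℝ a b ⊆ O →
      ∃ κ : E n → E n, PushMap n S κ ∧ ∀ z ∈ convexHull ℝ {a, b, p}, κ z ∈ O) ∧
    ((∀ z ∈ S, z ∈ convexHull ℝ {a, b, p} → z ∈ segment ℝ a p ∪ segment ℝ p b) →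
      segment ℝ a p ∪ segment ℝ p b ⊆ O →
      ∃ κ : E n → E n, PushMap n S κ ∧ ∀ z ∈ convexHull ℝ {a, b, p}, κ z ∈ O)

/-- Segment push: a segment is pushed into a neighbourhood of its end point. -/
def T_SEG : Prop :=
  ∀ (n : ℕ) (a b : E n) (S O : Set (E n)), IsClosed S → IsOpen O →
    (∀ z ∈ S, z ∈ segment ℝ a b → z = b) → b ∈ O →
    ∃ κ : E n → E n, PushMap n S κ ∧ ∀ z ∈ segment ℝ a b, κ z ∈ O

/-- General position of a triangle with one generic vertex. -/
def T_NUL : Prop :=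
  (∀ (S : Set (E 4)) (a b : E 4), Measure.hausdorffMeasure 2 S = 0 →
    ∀ᵐ w : E 4, ∀ z ∈ S, z ∈ convexHull ℝ {a, b, w} → z ∈ segment ℝ a b) ∧
  (∀ a b p : E 4, p ∉ segment ℝ a b →
    ∀ᵐ w : E 4, ∀ z ∈ segment ℝ w p, z ∈ convexHull ℝ {a, b, w} → z = w) ∧
  ∀ a b : E 4, a ≠ b → ∀ᵐ w : E 4, AffineIndependent ℝ ![a, b, w]

/-- The generic detour: if `T ∪ h β` lies in a cell, where `β` is a connected compact set which
contains `a` and `b`, then so does the union of `T` and of the path `[a, w] ∪ [w, b]`, for almost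
all `w`. -/
def T_DET : Prop :=
  ∀ (M : Type) [TopologicalSpace M] [T2Space M] [ChartedSpace (E 4) M] [IsManifold (𝓡 4) ∞ M]
    (h : E 4 → M) (T : Set M) (β : Set (E 4)) (a b : E 4), CellMap h → IsCompact T →
    Measure.hausdorffMeasure 2 (h ⁻¹' T) = 0 → IsCompact β → IsConnected β → a ∈ β → b ∈ β →
    Cel (T ∪ h '' β) → ∀ᵐ w : E 4, Cel (T ∪ h '' (segment ℝ a w ∪ segment ℝ w b))

/-- The straight segment: if `T ∪ h β` lies in a cell, where `β` is a connected compact set which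
contains `a` and `b`, and the segment `[a, b]` meets `T` at most at the end points, then the union
of `T` and of this segment lies in a cell. -/
def T_STR : Prop :=
  ∀ (M : Type) [TopologicalSpace M] [T2Space M] [ChartedSpace (E 4) M] [IsManifold (𝓡 4) ∞ M]
    (h : E 4 → M) (T : Set M) (β : Set (E 4)) (a b : E 4), CellMap h → IsCompact T →
    Measure.hausdorffMeasure 2 (h ⁻¹' T) = 0 → IsCompact β → IsConnected β → a ∈ β → b ∈ β →
    Cel (T ∪ h '' β) → (∀ z ∈ segment ℝ a b, h z ∈ T → z = a ∨ z = b) →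
    Cel (T ∪ h '' segment ℝ a b)

/-- One more point. -/
def T_PT : Prop :=
  ∀ (M : Type) [TopologicalSpace M] [T2Space M] [ChartedSpace (E 4) M] [IsManifold (𝓡 4) ∞ M]
    [PreconnectedSpace M] (T : Set M) (p : M), IsCompact T → NullH2 4 T → Cel T →
    Cel (T ∪ {p})

/-- Segments of charts have vanishing two-dimensional measure in all charts. -/
def T_THIN : Prop :=
  ∀ (M : Type) [TopologicalSpace M] [T2Space M] [ChartedSpace (E 4) M] [IsManifold (𝓡 4) ∞ M],
    (∀ (h : E 4 → M) (Z : Set (E 4)), CellMap h → Measure.hausdorffMeasure 2 Z = 0 →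
      NullH2 4 (h '' Z)) ∧
    ∀ (h : E 4 → M) (x y : E 4), CellMap h → NullH2 4 (h '' segment ℝ x y)

/-- One more segment, in a simply connected closed manifold. -/
def T_HOM : Prop :=
  ∀ (M : Type) [TopologicalSpace M] [CompactSpace M] [T2Space M] [ChartedSpace (E 4) M]
    [IsManifold (𝓡 4) ∞ M] [SimplyConnectedSpace M] (T : Set M) (h : E 4 → M) (x y : E 4),
    IsCompact T → NullH2 4 T → Cel T → CellMap h →
    (∀ z ∈ segment ℝ x y, h z ∈ T → z = x ∨ z = y) → Cel (T ∪ h '' segment ℝ x y)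

/-- Collapse of a ball. -/
def T_COL : Prop :=
  ∀ (n : ℕ) (R R' : ℝ), 0 < R → R < R' → ∃ μ₀ : E n → E n,
    (∃ K : ℝ≥0, LipschitzWith K μ₀) ∧ (∀ z, ‖z‖ ≤ R → μ₀ z = 0) ∧ (∀ z, R' ≤ ‖z‖ → μ₀ z = z) ∧
    (∀ z, ‖z‖ ≤ R' → ‖μ₀ z‖ ≤ R') ∧
    ∀ δ : ℝ, 0 < δ → ∃ μ : E n → E n, IsDf n μ ∧ (∀ z, R' ≤ ‖z‖ → μ z = z) ∧
      ∀ z, ‖μ z - μ₀ z‖ ≤ δ

/-- the segment from `x` to `x + v` -/
def seg (x v : E 4) : Set (E 4) := {z | ∃ s ∈ Icc (0 : ℝ) 1, z = x + s • v}

/-- the segments `[x i, x i + v i]` are non-degenerate and meet only in common end points -/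
def Graph (a : ℕ) (x v : Fin a → E 4) : Prop :=
  (∀ i, v i ≠ 0) ∧ ∀ i j, i ≠ j → ∀ s ∈ Icc (0 : ℝ) 1, ∀ t ∈ Icc (0 : ℝ) 1,
    x i + s • v i = x j + t • v j → (s = 0 ∨ s = 1) ∧ (t = 0 ∨ t = 1)

/-- A ball of a cell and a finite graph in a chart. -/
def T_GC : Prop :=
  ∀ (M : Type) [TopologicalSpace M] [CompactSpace M] [T2Space M] [ChartedSpace (E 4) M]
    [IsManifold (𝓡 4) ∞ M] [SimplyConnectedSpace M] (c h : E 4 → M) (R : ℝ) (a : ℕ)
    (x v : Fin a → E 4), CellMap c → CellMap h → Graph a x v →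
    Cel (c '' closedBall 0 R ∪ ⋃ i, h '' seg (x i) (v i))

/-- the point `z` does not lie on the faces of codimension two of the cubical grid of side `s` with
base point `t` -/
def OffGrid (s : ℝ) (t z : E 4) : Prop :=
  ∀ i j : Fin 4, i ≠ j → ¬ ((∃ k : ℤ, z i = t i + k * s) ∧ ∃ k : ℤ, z j = t j + k * s)

/-- Generic translates of the grid. -/
def T_GEN : Prop :=
  ∀ (B : Set (E 4)) (s : ℝ), IsCompact B → Measure.hausdorffMeasure 2 B = 0 → 0 < s →
    ∃ t : E 4, ∀ z ∈ B, OffGrid s t z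

/-- The grid lemma for a given grid of side `s`, with control of the displacement: the graph
consists of the segments from the centres of the cubes which meet `B` to the centres of their
faces. -/
def T_GRG : Prop :=
  ∀ (B O : Set (E 4)) (s : ℝ) (t : E 4), IsCompact B → IsOpen O → 0 < s →
    (∀ z ∈ B, closedBall z (4 * s) ⊆ O) → (∀ z ∈ B, OffGrid s t z) →
    ∃ (a : ℕ) (x v : Fin a → E 4), Graph a x v ∧ (∀ i, seg (x i) (v i) ⊆ O) ∧
      ∀ O' : Set (E 4), IsOpen O' → (∀ i, seg (x i) (v i) ⊆ O') →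
        ∃ κ : E 4 → E 4, PushMap 4 Oᶜ κ ∧ (∀ z, ‖κ z - z‖ ≤ 4 * s) ∧ ∀ z ∈ B, κ z ∈ O'

/-- Engulfing of a compact set `B` in a chart which is off the grid, relative to a ball of a cell. -/
def T_P2 : Prop :=
  ∀ (M : Type) [TopologicalSpace M] [CompactSpace M] [T2Space M] [ChartedSpace (E 4) M]
    [IsManifold (𝓡 4) ∞ M] [SimplyConnectedSpace M] (c h : E 4 → M) (R₁ R₂ R₃ s : ℝ) (t : E 4)
    (B : Set (E 4)), CellMap c → CellMap h → IsCompact B → 0 < s → R₁ < R₂ → R₂ < R₃ →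
    (∀ z ∈ B, h z ∉ c '' ball 0 R₂ → OffGrid s t z ∧
      ∀ z' ∈ closedBall z (4 * s), h z' ∉ c '' closedBall 0 R₁) →
    (∀ z ∈ B, h z ∈ c '' ball 0 R₂ → ∀ z' ∈ closedBall z (4 * s), h z' ∈ c '' closedBall 0 R₃) →
    Cel (c '' closedBall 0 R₁ ∪ h '' B)

/-- **Thin compact subsets of closed simply connected 4-manifolds lie in cells.** -/
def T_PP : Prop :=
  ∀ (M : Type) [TopologicalSpace M] [CompactSpace M] [T2Space M] [ChartedSpace (E 4) M]
    [IsManifold (𝓡 4) ∞ M] [SimplyConnectedSpace M] (B : Set M), IsCompact B → NullH2 4 B →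
    Cel B

end Pool.Agent.T2h58
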