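import Pool.Agent.T2h58.Stm2

/-!
# Project SC (simply connected): statements, third part

A homeomorphism of class `C^∞` onto a closed simply connected smooth 4-manifold `N` can be modified
so that it is a local diffeomorphism over the complement of an open cell of `N`.
-/

set_option autoImplicit false

open Set Filter Topology Metric Function MeasureTheory
open scoped Manifold ContDiff NNReal

noncomputable section

namespace Pool.Agent.T2h58

open Pool.Agent.Y522 Pool.Agent.N550 Pool.Agent.N550.KH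

/-- the closed face with corner `k` and free directions `F` of the cubical grid of side `s` with
base point `t` -/
def face (s : ℝ) (t : E 4) (k : Fin 4 → ℤ) (F : Finset (Fin 4)) : Set (E 4) :=
  {z | ∀ i, (i ∈ F → t i + k i * s ≤ z i ∧ z i ≤ t i + (k i + 1) * s) ∧
    (i ∉ F → z i = t i + k i * s)}

/-- its relative interior -/
def rint (s : ℝ) (t : E 4) (k : Fin 4 → ℤ) (F : Finset (Fin 4)) : Set (E 4) :=
  {z | ∀ i, (i ∈ F → t i + k i * s < z i ∧ z i < t i + (k i + 1) * s) ∧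
    (i ∉ F → z i = t i + k i * s)}

/-- Modification over one face of dimension `d`, relative to a closed set `K` and to the boundary of
the face. -/
def T_STEP (d : ℕ) : Prop :=
  ∀ (M N : Type) [TopologicalSpace M] [CompactSpace M] [T2Space M] [ChartedSpace (E 4) M]
    [IsManifold (𝓡 4) ∞ M] [TopologicalSpace N] [CompactSpace N] [T2Space N]
    [ChartedSpace (E 4) N] [IsManifold (𝓡 4) ∞ N] (f : M ≃ₜ N) (h : E 4 → N) (K : Set N) (s : ℝ)
    (t : E 4) (k : Fin 4 → ℤ) (F : Finset (Fin 4)), F.card = d → 0 < s → CellMap h →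
    NullH 4 (f '' Bad 4 f) → IsClosed K → (∀ x, f x ∈ K → LD 4 f x) →
    (∀ x z, z ∈ face s t k F → z ∉ rint s t k F → f x = h z → LD 4 f x) →
    (∀ z ∈ rint s t k F, h z ∉ K) →
    ∃ f' : M ≃ₜ N, NullH 4 (f' '' Bad 4 f') ∧ ∀ x, f' x ∈ K ∪ h '' face s t k F → LD 4 f' x

/-- Modification over a finite set of faces of dimension two; over some of them the homeomorphism is
already a local diffeomorphism, the other ones do not meet `K`. -/
def T_SKEL : Prop :=
  ∀ (M N : Type) [TopologicalSpace M] [CompactSpace M] [T2Space M] [ChartedSpace (E 4) M]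
    [IsManifold (𝓡 4) ∞ M] [TopologicalSpace N] [CompactSpace N] [T2Space N]
    [ChartedSpace (E 4) N] [IsManifold (𝓡 4) ∞ N] (f : M ≃ₜ N) (h : E 4 → N) (K : Set N) (s : ℝ)
    (t : E 4) (P : Finset ((Fin 4 → ℤ) × Finset (Fin 4))), (∀ p ∈ P, p.2.card = 2) → 0 < s →
    CellMap h → NullH 4 (f '' Bad 4 f) → IsClosed K → (∀ x, f x ∈ K → LD 4 f x) →
    (∀ p ∈ P, (∀ x z, z ∈ face s t p.1 p.2 → f x = h z → LD 4 f x) ∨
      ∀ z ∈ face s t p.1 p.2, h z ∉ K) →
    ∃ f' : M ≃ₜ N, NullH 4 (f' '' Bad 4 f') ∧ (∀ x, f' x ∈ K → LD 4 f' x) ∧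
      ∀ p ∈ P, ∀ x z, z ∈ face s t p.1 p.2 → f' x = h z → LD 4 f' x

/-- One chart. -/
def T_RST : Prop :=
  ∀ (M N : Type) [TopologicalSpace M] [CompactSpace M] [T2Space M] [ChartedSpace (E 4) M]
    [IsManifold (𝓡 4) ∞ M] [TopologicalSpace N] [CompactSpace N] [T2Space N]
    [ChartedSpace (E 4) N] [IsManifold (𝓡 4) ∞ N] [SimplyConnectedSpace N] (f : M ≃ₜ N)
    (h c : E 4 → N) (U U' : Set N) (r : ℝ), CellMap h → CellMap c → IsCompact U → IsCompact U' →
    U' ⊆ interior U → NullH 4 (f '' Bad 4 f) → (∀ x, f x ∈ U → f x ∉ range c → LD 4 f x) →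
    ∃ (f' : M ≃ₜ N) (c' : E 4 → N), CellMap c' ∧ NullH 4 (f' '' Bad 4 f') ∧
      ∀ x, f' x ∈ U' ∪ h '' closedBall 0 r → f' x ∉ range c' → LD 4 f' x

/-- The modified homeomorphism is a local diffeomorphism over the complement of a cell. -/
def T_RR : Prop :=
  ∀ (M N : Type) [TopologicalSpace M] [CompactSpace M] [T2Space M] [ChartedSpace (E 4) M]
    [IsManifold (𝓡 4) ∞ M] [TopologicalSpace N] [CompactSpace N] [T2Space N]
    [ChartedSpace (E 4) N] [IsManifold (𝓡 4) ∞ N] [SimplyConnectedSpace N] (f : M ≃ₜ N),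
    NullH 4 (f '' Bad 4 f) → ∃ (f' : M ≃ₜ N) (c : E 4 → N), CellMap c ∧
      NullH 4 (f' '' Bad 4 f') ∧ ∀ x, f' x ∉ range c → LD 4 f' x

/-- Smooth homeomorphisms onto closed simply connected 4-manifolds. -/
def T_FIN : Prop :=
  ∀ (M N : Type) [TopologicalSpace M] [CompactSpace M] [T2Space M] [ChartedSpace (E 4) M]
    [IsManifold (𝓡 4) ∞ M] [TopologicalSpace N] [CompactSpace N] [T2Space N]
    [ChartedSpace (E 4) N] [IsManifold (𝓡 4) ∞ N] [SimplyConnectedSpace N] (f : M ≃ₜ N),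
    NullC 4 (f '' Bad 4 f) → ∃ G : M ≃ₜ N, ∃ x₀ : M, ∀ x, x ≠ x₀ → LD 4 G x

end Pool.Agent.T2h58
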