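import Pool.Agent.T2h58.Stm2

/-!
# Project RS (residual sets): statements

Every closed simply connected smooth 4-manifold is the disjoint union of an open cell and of a
compact set which is small for a given gauge function `m` with `m (r) = o (r ^ 2)`.
-/

set_option autoImplicit false

open Set Filter Topology Metric Function MeasureTheory
open scoped Manifold ContDiff NNReal ENNReal

noncomputable section

namespace Pool.Agent.T2h58

open Pool.Agent.Y522 Pool.Agent.N550 Pool.Agent.N550.KH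

/-- the points near the faces of codimension two of the cubical grid of side `s` with base point
`t` -/
def NearG (s : ℝ) (t : E 4) (ρ : ℝ) : Set (E 4) :=
  {z | ∃ i j : Fin 4, i ≠ j ∧ (∃ k : ℤ, |z i - (t i + k * s)| < ρ) ∧
    ∃ k : ℤ, |z j - (t j + k * s)| < ρ}

/-- `T` is covered by finitely many sets of diameter at most `ρ`, with `n Φ (ρ) ≤ δ` and `ρ ≤ δ` -/
def Sml (Φ : ℝ → ℝ≥0∞) (δ : ℝ) (T : Set (E 4)) : Prop :=
  ∃ (ι : Type) (_ : Fintype ι) (ρ : ℝ) (W : ι → Set (E 4)), 0 < ρ ∧ ρ ≤ δ ∧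
    (Fintype.card ι : ℝ≥0∞) * Φ ρ ≤ ENNReal.ofReal δ ∧
    (∀ p, ∀ x ∈ W p, ∀ y ∈ W p, dist x y ≤ ρ) ∧ T ⊆ ⋃ p, W p

/-- the points near the faces of codimension two form a small set -/
def T_COV : Prop :=
  ∀ (Φ : ℝ → ℝ≥0∞) (δ s : ℝ) (t : E 4), 0 < δ → 0 < s →
    Tendsto (fun ρ : ℝ => Φ ρ / ENNReal.ofReal (ρ ^ 2)) (𝓝[>] 0) (𝓝 0) →
    ∃ ρ : ℝ, 0 < ρ ∧ Sml Φ δ (closedBall 0 1 ∩ NearG s t ρ)

/-- engulfing of the complement of the faces of codimension two, relative to a ball of a cell -/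
def T_STB : Prop :=
  ∀ (M : Type) [TopologicalSpace M] [CompactSpace M] [T2Space M] [ChartedSpace (E 4) M]
    [IsManifold (𝓡 4) ∞ M] [SimplyConnectedSpace M] (c h : E 4 → M) (R : ℝ), CellMap c →
    CellMap h → ∃ s : ℝ, 0 < s ∧ ∀ B : Set (E 4), IsCompact B → B ⊆ closedBall 0 1 →
      (∀ z ∈ B, OffGrid s 0 z) → Cel (c '' closedBall 0 R ∪ h '' B)

/-- one stage: a cell which contains a given ball of a given cell and whose complement is small -/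
def T_STG : Prop :=
  ∀ (M : Type) [TopologicalSpace M] [CompactSpace M] [T2Space M] [ChartedSpace (E 4) M]
    [IsManifold (𝓡 4) ∞ M] [SimplyConnectedSpace M] (a : ℕ) (h : Fin a → E 4 → M) (c : E 4 → M)
    (R : ℝ) (Φ : ℝ → ℝ≥0∞) (δ : ℝ), (∀ i, CellMap (h i)) → CellMap c → 0 < δ →
    Tendsto (fun ρ : ℝ => Φ ρ / ENNReal.ofReal (ρ ^ 2)) (𝓝[>] 0) (𝓝 0) →
    ∃ (c' : E 4 → M) (R' : ℝ), CellMap c' ∧ 0 < R' ∧ c '' closedBall 0 R ⊆ c' '' ball 0 R' ∧
      ∀ i, Sml Φ δ (closedBall 0 1 ∩ h i ⁻¹' (c' '' ball 0 R')ᶜ)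

/-- monotone unions of cells are cells -/
def T_MON : Prop :=
  ∀ (M : Type) [TopologicalSpace M] [T2Space M] [SecondCountableTopology M]
    [ChartedSpace (E 4) M] [IsManifold (𝓡 4) ∞ M] (c : ℕ → E 4 → M) (R : ℕ → ℝ),
    (∀ j, CellMap (c j)) → (∀ j, 0 < R j) →
    (∀ j, c j '' closedBall 0 (R j) ⊆ c (j + 1) '' ball 0 (R (j + 1))) →
    ∃ g : E 4 → M, CellMap g ∧ range g = ⋃ j, c j '' ball 0 (R j)

/-- sets with small covers of all orders are null in all charts -/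
def T_MEA : Prop :=
  ∀ (M : Type) [TopologicalSpace M] [ChartedSpace (E 4) M] [IsManifold (𝓡 4) ∞ M]
    (h g : E 4 → M) (B : Set M) (m : ℝ≥0∞ → ℝ≥0∞), CellMap h → CellMap g →
    (∀ j : ℕ, Sml (fun ρ => ⨆ r ∈ Iic (ENNReal.ofReal (j * ρ)), m r) (1 / (j + 1) ^ 2)
      (closedBall 0 1 ∩ h ⁻¹' B)) →
    Measure.mkMetric m (g ⁻¹' (h '' (closedBall 0 1 ∩ h ⁻¹' B))) = 0

/-- **Residual sets.** -/
def T_RES : Prop :=
  ∀ (M : Type) [TopologicalSpace M] [CompactSpace M] [T2Space M] [ChartedSpace (E 4) M]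
    [IsManifold (𝓡 4) ∞ M] [SimplyConnectedSpace M] (m : ℝ≥0∞ → ℝ≥0∞), m 0 = 0 →
    Tendsto (fun r => m r / r ^ 2) (𝓝[≠] 0) (𝓝 0) →
    ∃ g : E 4 → M, CellMap g ∧ ∀ g' : E 4 → M, CellMap g' →
      Measure.mkMetric m (g' ⁻¹' (range g)ᶜ) = 0

end Pool.Agent.T2h58
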